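import Mathlib

/-!
# The obvious relations between the classes in `K₀(ℤ[G])`
-/

namespace Pool.Agent.Lib25

universe v

/-- A triple `(p, h, g)`: a prime `p`, an element `h` of finite order divisible by `p` and an
element `g` commuting with `h`. -/
structure Valid {G : Type v} [Group G] (p : ℕ) (h g : G) : Prop where
  prime : p.Prime
  fin : IsOfFinOrder h
  dvd : p ∣ orderOf h
  comm : Commute g h

/-- The relations between the symbols `(p, h, g)`: a symbol is zero unless `p` is a prime, `h` an
element of finite order divisible by `p` and `g` an element commuting with `h`; additivity in `g`,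
invariance under conjugation, invariance under changing the generator `h` of a finite cyclic group
`C` if the generators satisfy `h ^ p ^ j = h' ^ p ^ k` for some `j` and `k` (so that `h` and `h'`
are conjugate under the decomposition group of `p`), and the vanishing of the sum over all primes
dividing the order of `C` and all generators of `C`. -/
inductive Rel (G : Type v) [Group G] : (ℕ × G × G →₀ ℚ) → Prop
  | invalid (p : ℕ) (h g : G) : ¬ Valid p h g → Rel G (Finsupp.single (p, h, g) 1)
  | add (p : ℕ) (h g g' : G) : Valid p h g → Valid p h g' →
      Rel G (Finsupp.single (p, h, g * g') 1 - Finsupp.single (p, h, g) 1 -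
        Finsupp.single (p, h, g') 1)
  | conj (p : ℕ) (h g x : G) : Valid p h g →
      Rel G (Finsupp.single (p, x * h * x⁻¹, x * g * x⁻¹) 1 - Finsupp.single (p, h, g) 1)
  | frob (p : ℕ) (h h' g : G) (j k : ℕ) : Valid p h g →
      Subgroup.zpowers h = Subgroup.zpowers h' → h ^ p ^ j = h' ^ p ^ k →
      Rel G (Finsupp.single (p, h', g) 1 - Finsupp.single (p, h, g) 1)
  | sum (h g : G) : IsOfFinOrder h → Commute g h →
      Rel G (∑ p ∈ (orderOf h).primeFactors,
        ∑ a ∈ (Finset.range (orderOf h)).filter (fun a => a.Coprime (orderOf h)),
          Finsupp.single (p, h ^ a, g) 1)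

/-- The rational vector space generated by the symbols `(p, h, g)` modulo the relations `Rel`. -/
def Src (G : Type v) [Group G] : Type v :=
  (ℕ × G × G →₀ ℚ) ⧸ Submodule.span ℚ {x | Rel G x}

noncomputable instance Src.instAddCommGroup (G : Type v) [Group G] : AddCommGroup (Src G) :=
  Submodule.Quotient.addCommGroup (Submodule.span ℚ {x | Rel G x})

noncomputable instance Src.instModule (G : Type v) [Group G] : Module ℚ (Src G) :=
  Submodule.Quotient.module (Submodule.span ℚ {x | Rel G x})

/-- The quotient map. -/
noncomputable def srcMk (G : Type v) [Group G] : (ℕ × G × G →₀ ℚ) →ₗ[ℚ] Src G :=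
  (Submodule.span ℚ {x | Rel G x}).mkQ

/-- The class of the symbol `(p, h, g)`. -/
noncomputable def sym {G : Type v} [Group G] (p : ℕ) (h g : G) : Src G :=
  srcMk G (Finsupp.single (p, h, g) 1)

/-- Every element of the group `H` which is killed by all homomorphisms to `ℤ` is killed by all
homomorphisms to `ℚ`.  This holds if the abelianization of `H` is finitely generated. -/
def ZDetects (H : Type v) [Group H] : Prop :=
  ∀ z : H, (∀ f : H →* Multiplicative ℤ, f z = 1) → ∀ f : H →* Multiplicative ℚ, f z = 1

end Pool.Agent.Lib25
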