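import Pool.Agent.Lib_helper25.Fourier

/-!
# A normal basis type element in the span of the idempotents of `ℚ_p[C]`
-/

set_option linter.unusedSectionVars false

namespace Pool.Agent.Lib25

open Polynomial

section Theta

variable (p : ℕ) [hp : Fact p.Prime] {C : Type*} [CommGroup C]

/-- A `p`-power power of `x` is a `p`-power power of `y`. -/
def rel (x y : C) : Prop := ∃ j k : ℕ, x ^ p ^ j = y ^ p ^ k

theorem rel_refl (x : C) : rel p x x := ⟨0, 0, rfl⟩

theorem rel_symm {x y : C} (h : rel p x y) : rel p y x := by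
  obtain ⟨j, k, h⟩ := h
  exact ⟨k, j, h.symm⟩

theorem rel_trans {x y z : C} (h : rel p x y) (h' : rel p y z) : rel p x z := by
  obtain ⟨j, k, h⟩ := h
  obtain ⟨j', k', h'⟩ := h'
  refine ⟨j + j', k + k', ?_⟩
  calc x ^ p ^ (j + j') = (x ^ p ^ j) ^ p ^ j' := by rw [← pow_mul, ← pow_add]
    _ = (y ^ p ^ j') ^ p ^ k := by rw [h, ← pow_mul, ← pow_mul, mul_comm]
    _ = z ^ p ^ (k + k') := by rw [h', ← pow_mul, ← pow_add, add_comm k' k]

variable [Fintype C] [IsCyclic C]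

theorem rel_pow_iff {x y : C} {w : ℕ} (hw : (Nat.card C).Coprime w) :
    rel p (x ^ w) (y ^ w) ↔ rel p x y := by
  constructor
  · rintro ⟨j, k, h⟩
    refine ⟨j, k, ?_⟩
    apply (powCoprime hw).injective
    change (x ^ p ^ j) ^ w = (y ^ p ^ k) ^ w
    rw [← pow_mul, mul_comm, pow_mul, h, ← pow_mul, ← pow_mul, mul_comm]
  · rintro ⟨j, k, h⟩
    refine ⟨j, k, ?_⟩
    rw [← pow_mul, mul_comm, pow_mul, h, ← pow_mul, ← pow_mul, mul_comm]

/-- The setoid of `rel` on generators. -/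
def relSetoid : Setoid (Gens C) where
  r x y := rel p x.1 y.1
  iseqv := ⟨fun x => rel_refl p x.1, fun h => rel_symm p h, fun h h' => rel_trans p h h'⟩

theorem clsRel_id_iff (x y : Gens C) : clsRel (MonoidHom.id C) p x y ↔ rel p x.1 y.1 := by
  constructor
  · rintro (h | h)
    · have h1 : x.1 = y.1 := by
        have := isConj_iff_eq.1 h
        exact this
      rw [h1]
      exact rel_refl p _
    · exact h
  · intro h
    exact Or.inr h

theorem quot_clsRel_eq_iff (x y : Gens C) :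
    Quot.mk (clsRel (MonoidHom.id C) p) x = Quot.mk (clsRel (MonoidHom.id C) p) y ↔
      rel p x.1 y.1 := by
  constructor
  · intro h
    have h1 := Quot.eqvGen_exact h
    induction h1 with
    | rel a b hab => exact (clsRel_id_iff p a b).1 hab
    | refl a => exact rel_refl p _
    | symm a b _ ih => exact rel_symm p (ih (by apply Eq.symm; assumption))
    | trans a b c hab hbc ih1 ih2 =>
      exact rel_trans p (ih1 (Quot.eqvGen_sound hab)) (ih2 (Quot.eqvGen_sound hbc))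
  · intro h
    exact Quot.sound ((clsRel_id_iff p x y).2 h)

/-- There is a rational combination of idempotents which is close to the characteristic function
of the class of a given generator. -/
theorem exists_approx_delta (g : Gens C) :
    ∃ (S : Finset (MonoidAlgebra ℤ_[p] (QQ p C))) (E : S → MonoidAlgebra ℚ_[p] C) (μ : S → ℚ),
      (∀ k, E k ^ 2 = E k) ∧
      (∀ x y : Gens C, rel p x.1 y.1 → (∑ k, (μ k : ℚ_[p]) • E k).coeff x.1 =
        (∑ k, (μ k : ℚ_[p]) • E k).coeff y.1) ∧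
      (∀ x : Gens C, rel p x.1 g.1 → ‖(∑ k, (μ k : ℚ_[p]) • E k).coeff x.1 - 1‖ < 1) ∧
      (∀ x : Gens C, ¬ rel p x.1 g.1 → ‖(∑ k, (μ k : ℚ_[p]) • E k).coeff x.1‖ < 1) := by
  classical
  have hsp := span_TT p (MonoidHom.id C) Function.injective_id
  have hδ : (fun q : Quot (clsRel (MonoidHom.id C) p) =>
      if q = Quot.mk _ g then (1 : ℚ_[p]) else 0) ∈ Submodule.span ℚ_[p] (TT p (MonoidHom.id C)) :=
    hsp Submodule.mem_top
  rw [TT, Finsupp.mem_span_image_iff_linearCombination] at hδ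
  obtain ⟨l, hl1, hl2⟩ := hδ
  have hlE : ∀ E ∈ l.support, E ^ 2 = E := fun E hE => hl1 hE
  choose μ hμ using fun E : MonoidAlgebra ℤ_[p] (QQ p C) =>
    Padic.rat_dense p (l E) (one_pos : (0 : ℝ) < 1)
  set K : ℚ := (Nat.card (prQ p C).ker : ℚ) with hK
  have hK0 : (Nat.card (prQ p C).ker : ℚ_[p]) ≠ 0 := Nat.cast_ne_zero.2 Nat.card_pos.ne'
  let T : MonoidAlgebra ℤ_[p] (QQ p C) → MonoidAlgebra ℚ_[p] C := fun E =>
    trf (prQ p C) (MonoidAlgebra.mapRingHom _ (PadicInt.Coe.ringHom (p := p)) E)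
  have hT : ∀ (E : MonoidAlgebra ℤ_[p] (QQ p C)) (c : C), (K : ℚ_[p]) * (T E).coeff c =
      ((E.coeff (prQ p C c) : ℤ_[p]) : ℚ_[p]) := by
    intro E c
    simp only [T, coeff_trf, coeff_mapRingHom', hK]
    push_cast
    rw [mul_div_cancel₀ _ hK0]
    rfl
  have hLam : ∀ (E : MonoidAlgebra ℤ_[p] (QQ p C)) (x : C),
      Lam p (MonoidHom.id C) E x = ((E.coeff (prQ p C x) : ℤ_[p]) : ℚ_[p]) := by
    intro E x
    unfold Lam
    have : cset (MonoidHom.id C) ((MonoidHom.id C) x) = {x} := by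
      ext c
      rw [mem_cset, Finset.mem_singleton]
      exact isConj_iff_eq
    rw [this, Finset.sum_singleton]
  have hcoef : ∀ x : C, (∑ E : l.support, (((μ E.1 * K : ℚ)) : ℚ_[p]) • T E.1).coeff x =
      ∑ E ∈ l.support, (μ E : ℚ_[p]) * ((E.coeff (prQ p C x) : ℤ_[p]) : ℚ_[p]) := by
    intro x
    rw [MonoidAlgebra.coeff_sum, Finset.sum_apply', ← Finset.sum_coe_sort l.support]
    apply Finset.sum_congr rfl
    intro E _
    rw [MonoidAlgebra.coeff_smul_apply, smul_eq_mul, ← hT]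
    push_cast
    ring
  have hdelta : ∀ x : Gens C, ∑ E ∈ l.support, l E * ((E.coeff (prQ p C x.1) : ℤ_[p]) : ℚ_[p]) =
      if rel p x.1 g.1 then 1 else 0 := by
    intro x
    have h1 := congrFun hl2 (Quot.mk _ x)
    rw [Finsupp.linearCombination_apply, Finsupp.sum, Finset.sum_apply] at h1
    simp only [quot_clsRel_eq_iff] at h1
    rw [← h1]
    apply Finset.sum_congr rfl
    intro E hE
    change _ = l E * Lam p (MonoidHom.id C) E _
    have hfrob : frob p _ E = E := frob_idem E (hlE E hE)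
    rw [Lam_out p (MonoidHom.id C) E hfrob x, hLam]
  have hdiff : ∀ x : Gens C, ‖(∑ E ∈ l.support, (μ E : ℚ_[p]) *
      ((E.coeff (prQ p C x.1) : ℤ_[p]) : ℚ_[p])) - (if rel p x.1 g.1 then 1 else 0)‖ < 1 := by
    intro x
    rw [← hdelta x, ← Finset.sum_sub_distrib]
    have hlt : ∀ (s : Finset (MonoidAlgebra ℤ_[p] (QQ p C))) (F : _ → ℚ_[p]),
        (∀ i ∈ s, ‖F i‖ < 1) → ‖∑ i ∈ s, F i‖ < 1 := by
      intro s F
      induction s using Finset.induction_on with
      | empty => intro _; simp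
      | insert a s ha ih =>
        intro h
        rw [Finset.sum_insert ha]
        refine lt_of_le_of_lt (Padic.nonarchimedean _ _) (max_lt
          (h a (Finset.mem_insert_self a s)) (ih fun i hi => h i (Finset.mem_insert_of_mem hi)))
    apply hlt
    intro E _
    rw [← sub_mul, norm_mul]
    have h1 : ‖(μ E : ℚ_[p]) - l E‖ < 1 := by
      rw [norm_sub_rev]
      exact hμ E
    calc ‖(μ E : ℚ_[p]) - l E‖ * ‖((E.coeff (prQ p C x.1) : ℤ_[p]) : ℚ_[p])‖
        ≤ ‖(μ E : ℚ_[p]) - l E‖ * 1 :=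
          mul_le_mul_of_nonneg_left (PadicInt.norm_le_one _) (norm_nonneg _)
      _ < 1 := by rw [mul_one]; exact h1
  refine ⟨l.support, fun E => T E.1, fun E => μ E.1 * K, ?_, ?_, ?_, ?_⟩
  · rintro ⟨E, hE⟩
    change T E ^ 2 = T E
    simp only [T]
    rw [pow_two, trf_mul _ (prQ_surjective p C), ← map_mul, ← pow_two, hlE E hE]
  · intro x y hxy
    rw [hcoef, hcoef]
    apply Finset.sum_congr rfl
    intro E hE
    congr 1
    have hfrob : frob p _ E = E := frob_idem E (hlE E hE)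
    have h1 := Lam_inv p (MonoidHom.id C) E hfrob x y (Or.inr hxy)
    rw [hLam, hLam] at h1
    exact h1
  · intro x hx
    have := hdiff x
    rw [if_pos hx] at this
    rw [hcoef]
    exact this
  · intro x hx
    have := hdiff x
    rw [if_neg hx, sub_zero] at this
    rw [hcoef]
    exact this

theorem norm_sum_lt {ι : Type*} (s : Finset ι) (F : ι → ℚ_[p]) (r : ℝ) (hr : 0 < r)
    (h : ∀ i ∈ s, ‖F i‖ < r) : ‖∑ i ∈ s, F i‖ < r := by
  classical
  induction s using Finset.induction_on with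
  | empty => simpa using hr
  | insert a s ha ih =>
    rw [Finset.sum_insert ha]
    exact lt_of_le_of_lt (Padic.nonarchimedean _ _) (max_lt
      (h a (Finset.mem_insert_self a s)) (ih fun i hi => h i (Finset.mem_insert_of_mem hi)))

instance : Finite (Gens C) := Finite.of_injective (fun x : Gens C => x.1) Subtype.val_injective

noncomputable instance : Fintype (Gens C) := Fintype.ofFinite _

/-- The `w`-th power of a generator, `w` prime to the order. -/
def Gens.pw (x : Gens C) (w : ℕ) (hw : (Nat.card C).Coprime w) : Gens C :=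
  ⟨x.1 ^ w, gens_pow x.2 w hw⟩

open scoped Classical in
/-- Invertibility of the group matrix of a function close to the characteristic function of a
class. -/
theorem group_matrix (g : Gens C) (t : C → ℚ_[p])
    (ht1 : ∀ x y : Gens C, rel p x.1 y.1 → t x.1 = t y.1)
    (ht2 : ∀ x : Gens C, rel p x.1 g.1 → ‖t x.1 - 1‖ < 1)
    (ht3 : ∀ x : Gens C, ¬ rel p x.1 g.1 → ‖t x.1‖ < 1) (Y : Gens C → ℚ)
    (hY : ∀ w : ℕ, (Nat.card C).Coprime w → ∑ x : Gens C, t (x.1 ^ w) * (Y x : ℚ_[p]) = 0)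
    (z : Gens C) : ∑ u ∈ Finset.univ.filter (fun u : Gens C => rel p u.1 z.1), Y u = 0 := by
  let K := Quotient (relSetoid p (C := C))
  have : Fintype K := Fintype.ofFinite _
  let Yb : K → ℚ := fun κ => ∑ u ∈ Finset.univ.filter
    (fun u : Gens C => (Quotient.mk (relSetoid p) u : K) = κ), Y u
  have hout : ∀ x : Gens C, rel p ((Quotient.mk (relSetoid p) x : K).out).1 x.1 := fun x =>
    Quotient.exact (s := relSetoid p) (Quotient.out_eq (Quotient.mk (relSetoid p) x : K))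
  have hsum : ∀ w : ℕ, (Nat.card C).Coprime w →
      ∑ κ : K, t ((κ.out : Gens C).1 ^ w) * (Yb κ : ℚ_[p]) = 0 := by
    intro w hw
    rw [← hY w hw, ← Finset.sum_fiberwise (Finset.univ : Finset (Gens C))
      (fun u : Gens C => (Quotient.mk (relSetoid p) u : K))]
    apply Finset.sum_congr rfl
    intro κ _
    simp only [Yb]
    push_cast
    rw [Finset.mul_sum]
    apply Finset.sum_congr rfl
    intro u hu
    rw [← (Finset.mem_filter.1 hu).2]
    congr 1
    exact ht1 (Gens.pw (Quotient.mk (relSetoid p) u : K).out w hw) (Gens.pw u w hw)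
      ((rel_pow_iff p hw).2 (hout u))
  have hYb : ∀ κ : K, Yb κ = 0 := by
    by_contra hne
    push Not at hne
    obtain ⟨κ1, hκ1⟩ := hne
    obtain ⟨κ0, -, hmax⟩ := Finset.exists_max_image (Finset.univ : Finset K)
      (fun κ => ‖(Yb κ : ℚ_[p])‖) ⟨κ1, Finset.mem_univ _⟩
    have hpos : 0 < ‖(Yb κ0 : ℚ_[p])‖ :=
      lt_of_lt_of_le (norm_pos_iff.2 (Rat.cast_ne_zero.2 hκ1)) (hmax κ1 (Finset.mem_univ _))
    obtain ⟨w, hw, hwg⟩ := exists_pow_eq_gen (κ0.out : Gens C).2 g.2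
    have h1 := hsum w hw
    rw [← Finset.add_sum_erase _ _ (Finset.mem_univ κ0)] at h1
    have h2 : ‖∑ κ ∈ Finset.univ.erase κ0, t ((κ.out : Gens C).1 ^ w) * (Yb κ : ℚ_[p])‖ <
        ‖(Yb κ0 : ℚ_[p])‖ := by
      apply norm_sum_lt p _ _ _ hpos
      intro κ hκ
      have h3 : ¬ rel p ((κ.out : Gens C).1 ^ w) g.1 := by
        rw [← hwg, rel_pow_iff p hw]
        intro h4
        apply Finset.ne_of_mem_erase hκ
        have h5 : (Quotient.mk (relSetoid p) (κ.out : Gens C) : K) =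
            Quotient.mk (relSetoid p) (κ0.out : Gens C) := Quotient.sound h4
        rw [Quotient.out_eq, Quotient.out_eq] at h5
        exact h5
      have h4 := ht3 (Gens.pw (κ.out : Gens C) w hw) h3
      rw [norm_mul]
      calc ‖t ((κ.out : Gens C).1 ^ w)‖ * ‖(Yb κ : ℚ_[p])‖
          ≤ ‖t ((κ.out : Gens C).1 ^ w)‖ * ‖(Yb κ0 : ℚ_[p])‖ :=
            mul_le_mul_of_nonneg_left (hmax κ (Finset.mem_univ _)) (norm_nonneg _)
        _ < 1 * ‖(Yb κ0 : ℚ_[p])‖ := mul_lt_mul_of_pos_right h4 hpos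
        _ = ‖(Yb κ0 : ℚ_[p])‖ := one_mul _
    have h3 : ‖t ((κ0.out : Gens C).1 ^ w) * (Yb κ0 : ℚ_[p])‖ = ‖(Yb κ0 : ℚ_[p])‖ := by
      have h4 : ‖t g.1‖ = 1 := by
        have h5 := ht2 g (rel_refl p _)
        have h6 : t g.1 = (t g.1 - 1) + 1 := by ring
        rw [h6, Padic.add_eq_max_of_ne (by rw [norm_one]; exact h5.ne), norm_one,
          max_eq_right h5.le]
      rw [norm_mul, hwg, h4, one_mul]
    have h4 : t ((κ0.out : Gens C).1 ^ w) * (Yb κ0 : ℚ_[p]) =
        - ∑ κ ∈ Finset.univ.erase κ0, t ((κ.out : Gens C).1 ^ w) * (Yb κ : ℚ_[p]) := by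
      linear_combination h1
    rw [h4, norm_neg] at h3
    exact absurd h3 h2.ne
  have h5 := hYb (Quotient.mk (relSetoid p) z)
  simp only [Yb] at h5
  rw [← h5]
  apply Finset.sum_congr _ (fun _ _ => rfl)
  ext u
  simp only [Finset.mem_filter, Finset.mem_univ, true_and]
  constructor
  · intro h
    exact Quotient.sound h
  · intro h
    exact Quotient.exact (s := relSetoid p) h

theorem exists_scale (S : Finset ℚ) (N0 : ℚ) (hN0 : N0 ≠ 0) : ∃ D : ℤ, D ≠ 0 ∧
    (∀ s ∈ S, ∃ m : ℤ, (D : ℚ) * s = m) ∧ ∃ N : ℕ, 0 < N ∧ (D : ℚ) * N0 = N := by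
  classical
  have hnum : N0.num ≠ 0 := Rat.num_ne_zero.2 hN0
  have hprod : 0 < ∏ s ∈ S, s.den := Finset.prod_pos fun s _ => s.den_pos
  refine ⟨N0.num * ((∏ s ∈ S, s.den : ℕ) : ℤ) * N0.den, ?_, ?_, ?_⟩
  · have h1 : (((∏ s ∈ S, s.den : ℕ)) : ℤ) ≠ 0 := by exact_mod_cast hprod.ne'
    have h2 : (N0.den : ℤ) ≠ 0 := by exact_mod_cast N0.den_pos.ne'
    exact mul_ne_zero (mul_ne_zero hnum h1) h2
  · intro s hs
    obtain ⟨k, hk⟩ := Finset.dvd_prod_of_mem (fun s : ℚ => s.den) hs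
    refine ⟨N0.num * k * N0.den * s.num, ?_⟩
    rw [hk]
    have h3 : (s.den : ℚ) * s = s.num := by rw [mul_comm]; exact Rat.mul_den_eq_num s
    push_cast
    linear_combination ((N0.num : ℚ) * k * N0.den) * h3
  · refine ⟨N0.num.natAbs * N0.num.natAbs * ∏ s ∈ S, s.den, ?_, ?_⟩
    · have : 0 < N0.num.natAbs := Int.natAbs_pos.2 hnum
      positivity
    · have h3 : (N0.den : ℚ) * N0 = N0.num := by rw [mul_comm]; exact Rat.mul_den_eq_num N0
      have h4 : ((N0.num.natAbs : ℕ) : ℚ) * ((N0.num.natAbs : ℕ) : ℚ) =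
          (N0.num : ℚ) * (N0.num : ℚ) := by
        have h5 : ((N0.num.natAbs : ℕ) : ℤ) * ((N0.num.natAbs : ℕ) : ℤ) = N0.num * N0.num :=
          Int.natAbs_mul_self' _
        rw [← Int.cast_natCast (R := ℚ), ← Int.cast_mul, h5, Int.cast_mul]
      push_cast
      rw [h4]
      linear_combination ((N0.num : ℚ) * ∏ s ∈ S, (s.den : ℚ)) * h3

theorem zpowers_pow_eq_top_iff {g : C} (hg : Subgroup.zpowers g = ⊤) (i : ℕ) :
    Subgroup.zpowers (g ^ i) = ⊤ ↔ i.Coprime (orderOf g) := by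
  constructor
  · intro h
    obtain ⟨i', hi', h1⟩ := exists_pow_eq_gen hg h
    rw [pow_eq_pow_iff_modEq] at h1
    rw [orderOf_gen hg] at h1 ⊢
    unfold Nat.Coprime
    rw [← h1.gcd_eq, Nat.gcd_comm]
    exact hi'
  · intro h
    rw [orderOf_gen hg] at h
    exact gens_pow hg i h.symm

open scoped Classical in
theorem sum_gens {M : Type*} [NonUnitalNonAssocSemiring M] (F : C → M) (Y : Gens C → M) :
    ∑ c : C, F c * (if h : Subgroup.zpowers c = ⊤ then Y ⟨c, h⟩ else 0) =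
      ∑ x : Gens C, F x.1 * Y x := by
  have h1 : ∑ c : C, F c * (if h : Subgroup.zpowers c = ⊤ then Y ⟨c, h⟩ else 0) =
      ∑ c ∈ Finset.univ.filter (fun c : C => Subgroup.zpowers c = ⊤),
        F c * (if h : Subgroup.zpowers c = ⊤ then Y ⟨c, h⟩ else 0) := by
    symm
    apply Finset.sum_subset (Finset.subset_univ _)
    intro c _ hc
    have hc' : ¬ Subgroup.zpowers c = ⊤ := fun h => hc (Finset.mem_filter.2 ⟨Finset.mem_univ _, h⟩)
    rw [dif_neg hc', mul_zero]
  rw [h1]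
  symm
  refine Finset.sum_bij (fun (x : Gens C) _ => x.1) ?_ ?_ ?_ ?_
  · intro x _
    exact Finset.mem_filter.2 ⟨Finset.mem_univ _, x.2⟩
  · intro x _ y _ h
    exact Subtype.ext h
  · intro c hc
    exact ⟨⟨c, (Finset.mem_filter.1 hc).2⟩, Finset.mem_univ _, rfl⟩
  · intro x _
    rw [dif_pos x.2]
    rfl

open scoped Classical in
/-- The normal basis type element. -/
theorem exists_theta : ∃ (n : ℕ) (E : Fin n → MonoidAlgebra ℚ_[p] C) (m : Fin n → ℤ) (N : ℕ),
    (∀ k, E k ^ 2 = E k) ∧ 0 < N ∧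
    (∀ c : C, Subgroup.zpowers c ≠ ⊤ → (∑ k, (m k : ℚ_[p]) • E k).coeff c = 0) ∧
    ∀ (Y : Gens C → ℚ) (y : ℚ),
      ∑ x : Gens C, (∑ k, (m k : ℚ_[p]) • E k).coeff x.1 * (Y x : ℚ_[p]) = (y : ℚ_[p]) →
      ∀ z : Gens C, (N : ℚ) * ∑ u ∈ Finset.univ.filter (fun u : Gens C => rel p u.1 z.1), Y u =
        y * (Finset.univ.filter (fun u : Gens C => rel p u.1 z.1)).card := by
  obtain ⟨g, hgt⟩ := isCyclic_iff_exists_zpowers_eq_top.mp (inferInstance : IsCyclic C)
  have hg : ∀ x, x ∈ Subgroup.zpowers g := fun x => by rw [hgt]; trivial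
  let L := AlgebraicClosure ℚ_[p]
  have hcz : CharZero L := charZero_of_injective_algebraMap (algebraMap ℚ_[p] L).injective
  have hMpos : 0 < orderOf g := orderOf_pos g
  obtain ⟨ζ, hζ⟩ : ∃ ζ : L, IsPrimitiveRoot ζ (orderOf g) := by
    have : NeZero ((orderOf g : ℕ) : L) := ⟨Nat.cast_ne_zero.2 hMpos.ne'⟩
    have hdeg : (cyclotomic (orderOf g) L).degree ≠ 0 := (degree_cyclotomic_pos _ L hMpos).ne'
    obtain ⟨ζ, hζ⟩ := IsAlgClosed.exists_root (cyclotomic (orderOf g) L) hdeg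
    exact ⟨ζ, (isRoot_cyclotomic_iff).1 hζ⟩
  obtain ⟨S0, E0, μ, hE0, ht1, ht2, ht3⟩ := exists_approx_delta p (⟨g, hgt⟩ : Gens C)
  set f0 : MonoidAlgebra ℚ_[p] C := ∑ k, (μ k : ℚ_[p]) • E0 k with hf0
  have hP0 : ∃ P0 : ℚ[X], TypeP g ζ f0 P0 := by
    choose P hP using fun k => typeP_idem g hg ζ hζ (E0 k) (hE0 k)
    exact ⟨_, TypeP.sum Finset.univ fun k _ => (hP k).smul (μ k)⟩
  obtain ⟨P0, hP0⟩ := hP0
  obtain ⟨R, hR⟩ := exists_indicator ζ (orderOf g) hMpos hζ
  let θ0 : MonoidAlgebra ℚ_[p] C := ⟨Finsupp.equivFunOnFinite.symm fun c =>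
    if Subgroup.zpowers c = ⊤ then f0.coeff c else 0⟩
  have hθ0 : ∀ c, θ0.coeff c = if Subgroup.zpowers c = ⊤ then f0.coeff c else 0 := fun c => rfl
  have hθP : TypeP g ζ θ0 (P0 * R) := by
    intro i
    rw [map_mul, hR, hθ0, ← hP0 i]
    by_cases hi : i.Coprime (orderOf g)
    · rw [if_pos hi, if_pos ((zpowers_pow_eq_top_iff hgt i).2 hi), mul_one]
    · rw [if_neg hi, if_neg (fun h => hi ((zpowers_pow_eq_top_iff hgt i).1 h)), mul_zero, map_zero]
  obtain ⟨S, F, hF, hθF⟩ := hθP.combination hg hζ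
  -- Galois invariance
  have hgal : ∀ (Y : Gens C → ℚ) (y : ℚ), ∑ x : Gens C, f0.coeff x.1 * (Y x : ℚ_[p]) =
      (y : ℚ_[p]) → ∀ w : ℕ, (Nat.card C).Coprime w →
      ∑ x : Gens C, f0.coeff (x.1 ^ w) * (Y x : ℚ_[p]) = (y : ℚ_[p]) := by
    intro Y y hy w hw
    have h1 := hθP.galois hg hζ (fun c => if h : Subgroup.zpowers c = ⊤ then Y ⟨c, h⟩ else 0) y
      (by
        rw [← hy, ← sum_gens (fun c => f0.coeff c) (fun x => (Y x : ℚ_[p]))]
        apply Finset.sum_congr rfl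
        intro c _
        rw [hθ0]
        split_ifs with h
        · rfl
        · simp) w (by rw [orderOf_gen hgt]; exact hw.symm)
    rw [← h1, ← sum_gens (fun c => f0.coeff (c ^ w)) (fun x => (Y x : ℚ_[p]))]
    apply Finset.sum_congr rfl
    intro c _
    by_cases h : Subgroup.zpowers c = ⊤
    · rw [dif_pos h, dif_pos h, hθ0, if_pos (gens_pow h w hw)]
    · rw [dif_neg h, dif_neg h]
      simp
  -- the sum of the values
  have hN0 : ∃ N0 : ℚ, ∑ x : Gens C, f0.coeff x.1 * (((fun _ => 1 : Gens C → ℚ) x : ℚ) : ℚ_[p]) =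
      (N0 : ℚ_[p]) := by
    let aug : MonoidAlgebra ℚ_[p] C →ₐ[ℚ_[p]] ℚ_[p] := MonoidAlgebra.lift ℚ_[p] ℚ_[p] C 1
    have haug : ∀ z : MonoidAlgebra ℚ_[p] C, aug z = ∑ c, z.coeff c := by
      intro z
      change MonoidAlgebra.lift _ _ _ _ z = _
      rw [MonoidAlgebra.lift_apply, Finsupp.sum_fintype _ _ (by simp)]
      simp
    have h01 : ∀ s, ∃ r : ℚ, aug (F s) = (r : ℚ_[p]) := by
      intro s
      have h1 : (aug (F s)) ^ 2 = aug (F s) := by rw [← map_pow, hF]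
      have h2 : (aug (F s)) * (aug (F s) - 1) = 0 := by linear_combination h1
      rcases mul_eq_zero.1 h2 with h | h
      · exact ⟨0, by rw [h]; simp⟩
      · exact ⟨1, by rw [sub_eq_zero.1 h]; simp⟩
    choose r hr using h01
    refine ⟨∑ s : S, (s : ℚ) * r s, ?_⟩
    have h1 : aug θ0 = ((∑ s : S, (s : ℚ) * r s : ℚ) : ℚ_[p]) := by
      rw [hθF, map_sum]
      push_cast
      apply Finset.sum_congr rfl
      intro s _
      rw [map_smul, smul_eq_mul, hr]
    rw [← h1, haug, ← sum_gens (fun c => f0.coeff c)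
      (fun x => (((fun _ => 1 : Gens C → ℚ) x : ℚ) : ℚ_[p]))]
    apply Finset.sum_congr rfl
    intro c _
    rw [hθ0]
    split_ifs <;> simp
  obtain ⟨N0, hN0⟩ := hN0
  have key : ∀ (Y : Gens C → ℚ) (y : ℚ), N0 ≠ 0 → ∑ x : Gens C, f0.coeff x.1 * (Y x : ℚ_[p]) =
      (y : ℚ_[p]) → ∀ z : Gens C,
      N0 * ∑ u ∈ Finset.univ.filter (fun u : Gens C => rel p u.1 z.1), Y u =
        y * (Finset.univ.filter (fun u : Gens C => rel p u.1 z.1)).card := by
    intro Y y hN y1 z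
    have h1 := group_matrix p (⟨g, hgt⟩ : Gens C) (fun c => f0.coeff c) ht1 ht2 ht3
      (fun x => Y x - y / N0) (fun w hw => by
        have h2 := hgal Y y y1 w hw
        have h3 := hgal (fun _ => 1) N0 hN0 w hw
        have h4 : (N0 : ℚ_[p]) ≠ 0 := Rat.cast_ne_zero.2 hN
        have h5 : ∑ x : Gens C, f0.coeff (x.1 ^ w) * ((Y x - y / N0 : ℚ) : ℚ_[p]) =
            ∑ x : Gens C, f0.coeff (x.1 ^ w) * (Y x : ℚ_[p]) - (y : ℚ_[p]) / N0 *
              ∑ x : Gens C, f0.coeff (x.1 ^ w) * (((1 : ℚ)) : ℚ_[p]) := by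
          rw [Finset.mul_sum, ← Finset.sum_sub_distrib]
          apply Finset.sum_congr rfl
          intro x _
          push_cast
          ring
        rw [h5, h2, h3]
        field_simp
        ring) z
    rw [Finset.sum_sub_distrib, Finset.sum_const, sub_eq_zero] at h1
    rw [h1, nsmul_eq_mul]
    field_simp
  have hN0ne : N0 ≠ 0 := by
    intro h0
    rw [h0] at hN0
    have h1 := group_matrix p (⟨g, hgt⟩ : Gens C) (fun c => f0.coeff c) ht1 ht2 ht3
      (fun _ => 1) (fun w hw => by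
        have := hgal (fun _ => 1) 0 hN0 w hw
        rw [this]
        simp) (⟨g, hgt⟩ : Gens C)
    rw [Finset.sum_const, nsmul_eq_mul, mul_one] at h1
    rw [Nat.cast_eq_zero, Finset.card_eq_zero, Finset.filter_eq_empty_iff] at h1
    have h2 := @h1 (⟨g, hgt⟩ : Gens C) (Finset.mem_univ _)
    exact h2 (rel_refl p _)
  obtain ⟨D, hD0, hDS, N, hN, hDN⟩ := exists_scale S N0 hN0ne
  choose m hm using fun s : S => hDS s.1 s.2
  let e := S.equivFin
  have hθD : ∑ k, ((m (e.symm k) : ℤ) : ℚ_[p]) • F (e.symm k) = (D : ℚ_[p]) • θ0 := by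
    rw [e.symm.sum_comp (fun s => ((m s : ℤ) : ℚ_[p]) • F s), hθF, Finset.smul_sum]
    apply Finset.sum_congr rfl
    intro s _
    rw [smul_smul]
    congr 1
    have := congrArg (fun q : ℚ => (q : ℚ_[p])) (hm s)
    push_cast at this
    exact this.symm
  refine ⟨S.card, fun k => F (e.symm k), fun k => m (e.symm k), N, fun k => hF _, hN, ?_, ?_⟩
  · intro c hc
    rw [hθD, MonoidAlgebra.coeff_smul_apply, hθ0, if_neg hc, smul_zero]
  · intro Y y hy z
    rw [hθD] at hy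
    have hDQ : (D : ℚ) ≠ 0 := Int.cast_ne_zero.2 hD0
    have hDp : (D : ℚ_[p]) ≠ 0 := Int.cast_ne_zero.2 hD0
    have h1 : ∑ x : Gens C, f0.coeff x.1 * (Y x : ℚ_[p]) = ((y / D : ℚ) : ℚ_[p]) := by
      have h2 : ∑ x : Gens C, ((D : ℚ_[p]) • θ0).coeff x.1 * (Y x : ℚ_[p]) =
          (D : ℚ_[p]) * ∑ x : Gens C, f0.coeff x.1 * (Y x : ℚ_[p]) := by
        rw [Finset.mul_sum]
        apply Finset.sum_congr rfl
        intro x _
        rw [MonoidAlgebra.coeff_smul_apply, hθ0, if_pos x.2, smul_eq_mul]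
        ring
      rw [h2] at hy
      push_cast
      rw [eq_div_iff hDp, ← hy]
      ring
    have h2 := key Y (y / D) hN0ne h1 z
    rw [← hDN, mul_assoc, h2]
    field_simp

end Theta

end Pool.Agent.Lib25
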