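import Pool.Agent.Lib_helper25.EvAdd
import Pool.Agent.Lib_helper25.Theta

/-!
# Universal classes in `K₀(ℤ[C_n × ℤ])`
-/

open Matrix LaurentPolynomial

set_option linter.unusedSectionVars false

namespace Pool.Agent.Lib25

section Rank

/-- The trace of an idempotent matrix, composed with a ring homomorphism to `ℤ`. -/
noncomputable def idemTrace {R : Type*} [Ring R] (ε : R →+* ℤ) : IdemClass R →+ ℤ where
  toFun := Quotient.lift (fun e : IdemMat R => ε (Matrix.trace e.mat)) (by
    rintro e f ⟨x, y, h1, h2⟩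
    rw [← h1, ← h2]
    exact trace_comm_of_tracial ε.toAddMonoidHom
      (fun a b => by
        change ε (a * b) = ε (b * a)
        rw [map_mul, map_mul, mul_comm]) x y)
  map_zero' := by
    change ε (Matrix.trace (IdemMat.zero R).mat) = 0
    unfold IdemMat.zero
    simp
  map_add' := by
    rintro ⟨e⟩ ⟨f⟩
    change ε (Matrix.trace (e.add f).mat) = ε (Matrix.trace e.mat) + ε (Matrix.trace f.mat)
    unfold IdemMat.add
    rw [trace_submatrix_equiv' (Matrix.fromBlocks e.mat 0 0 f.mat) finSumFinEquiv.symm,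
      trace_fromBlocks', map_add]

/-- The rank homomorphism `K₀(R) → ℤ` defined by a ring homomorphism `R → ℤ`. -/
noncomputable def rkHom {R : Type*} [Ring R] (ε : R →+* ℤ) : K0 R →+ ℤ :=
  Algebra.GrothendieckAddGroup.lift (idemTrace ε)

theorem rkHom_of {R : Type*} [Ring R] (ε : R →+* ℤ) (e : IdemMat R) :
    rkHom ε (K0.of e) = ε (Matrix.trace e.mat) :=
  congrArg (fun F => F (IdemClass.mk e)) ((Algebra.GrothendieckAddGroup.lift
    (M := IdemClass R) (G := ℤ)).symm_apply_apply (idemTrace ε))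

/-- The augmentation `ℤ[G] → ℤ`. -/
noncomputable def augZ (G : Type*) [Group G] : MonoidAlgebra ℤ G →+* ℤ :=
  ((MonoidAlgebra.lift ℤ ℤ G (1 : G →* ℤ) : MonoidAlgebra ℤ G →ₐ[ℤ] ℤ) : MonoidAlgebra ℤ G →+* ℤ)

/-- The rank homomorphism `K₀(ℤ[G]) → ℤ`. -/
noncomputable abbrev rkG (G : Type*) [Group G] : K0 (MonoidAlgebra ℤ G) →+ ℤ := rkHom (augZ G)

theorem rkG_free (G : Type*) [Group G] : rkG G (K0.of (IdemMat.free _ 1)) = 1 := by
  rw [rkHom_of]
  have : Matrix.trace (IdemMat.free (MonoidAlgebra ℤ G) 1).mat = 1 := by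
    change Matrix.trace (1 : Matrix (Fin 1) (Fin 1) (MonoidAlgebra ℤ G)) = 1
    simp
  rw [this, map_one]

end Rank

section Class0

variable {C : Type*} [CommGroup C] [Finite C]

theorem trivG_ev {G : Type*} [Group G] {k : Type*} [CommRing k] (ψ : C →* G) (g : G)
    (hg : ∀ c, Commute g (ψ c)) (E : Matrix (Fin 2) (Fin 2) (LaurentPolynomial (MonoidAlgebra ℤ C)))
    (α : Matrix (Fin 2) (Fin 1) (LaurentPolynomial (MonoidAlgebra k C)))
    (β : Matrix (Fin 1) (Fin 2) (LaurentPolynomial (MonoidAlgebra k C)))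
    (h1 : α * β = E.map (mapL (MonoidAlgebra.mapRingHom C (Int.castRingHom k))))
    (h2 : β * α = 1) :
    TrivG k (E.map (ev ℤ ψ g hg))
      (fun x => om ψ g x (coeffZero (Matrix.trace (β * α.map DL)))) := by
  refine ⟨1, α.map (ev k ψ g hg), β.map (ev k ψ g hg), ?_, ?_, fun x => ?_⟩
  · rw [← Matrix.map_mul, h1]
    ext1 i j
    simp only [Matrix.map_apply]
    exact (ev_map (Int.castRingHom k) ψ g hg (E i j)).symm
  · rw [← Matrix.map_mul, h2, Matrix.map_one _ (map_zero _) (map_one _)]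
  · rw [Phi_ev]

theorem trace_nodeMat {A : Type*} [CommRing A] (b f : A) : Matrix.trace (nodeMat b f) = 1 := by
  unfold nodeMat
  rw [Matrix.trace_fin_two]
  simp

/-- The class in `K₀(ℤ[C][t,t⁻¹])` attached to an idempotent of `ℚ_p[C]` and its invariants after
evaluation in a group. -/
theorem exists_class0 (p : ℕ) [hp : Fact p.Prime] (E : MonoidAlgebra ℚ_[p] C) (hE : E ^ 2 = E) :
    ∃ x : K0 (LaurentPolynomial (MonoidAlgebra ℤ C)),
      ∀ {G : Type*} [Group G] (ψ : C →* G),
        (∀ (g g' : G) (hg : ∀ c, Commute g (ψ c)) (hg' : ∀ c, Commute g' (ψ c))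
          (hgg' : ∀ c, Commute (g * g') (ψ c)), K0.map (ev ℤ ψ (g * g') hgg') x =
            K0.map (ev ℤ ψ g hg) x + K0.map (ev ℤ ψ g' hg') x) ∧
        ∀ (g : G) (hg : ∀ c, Commute g (ψ c)),
        (∃ w : ∀ (q : ℕ) [Fact q.Prime], Pt G → ℚ_[q],
          Triv0 (K0.map (ev ℤ ψ g hg) x) w ∧
          Triv0 (- K0.map (ev ℤ ψ g hg) x) (fun q _ h => - w q h) ∧
          (∀ h, w p h = om ψ g h E) ∧
          ∀ (q : ℕ) [Fact q.Prime], q ≠ p → ∀ h, w q h = 0) ∧
        rkG G (K0.map (ev ℤ ψ g hg) x) = 0 := by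
  obtain ⟨b, f, hn, R, R', e, ⟨aQ, haQ, haQ'⟩, ⟨α, β, a1, a2, a3⟩, ⟨α', β', a1', a2', a3'⟩,
    hep, heq, hloc⟩ := exists_raw p E hE
  refine ⟨K0.of ⟨2, nodeMat b f, nodeMat_idem b f hn⟩ - K0.of (IdemMat.free _ 1), ?_⟩
  intro G _ ψ
  refine ⟨fun g g' hg hg' hgg' => ?_, ?_⟩
  · have h1 := node_ev_add ψ b f aQ hn haQ haQ' g g' hg hg' hgg'
    rw [map_sub, map_sub, map_sub, K0.map_of _ (IdemMat.free _ 1), K0.map_of _ (IdemMat.free _ 1),
      K0.map_of _ (IdemMat.free _ 1), IdemMat.map_free, IdemMat.map_free, IdemMat.map_free]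
    rw [eq_sub_iff_add_eq.2 h1.symm]
    abel
  intro g hg
  set Em : IdemMat (MonoidAlgebra ℤ G) :=
    (⟨2, nodeMat b f, nodeMat_idem b f hn⟩ : IdemMat _).map (ev ℤ ψ g hg) with hEm
  have hx : K0.map (ev ℤ ψ g hg) (K0.of ⟨2, nodeMat b f, nodeMat_idem b f hn⟩ -
      K0.of (IdemMat.free _ 1)) = K0.of Em - K0.of (IdemMat.free _ 1) := by
    rw [map_sub, K0.map_of, K0.map_of, IdemMat.map_free]
  have hcompl : Em.compl.mat = (1 - nodeMat b f).map (ev ℤ ψ g hg) := by
    change 1 - (nodeMat b f).map (ev ℤ ψ g hg) = _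
    ext1 i j
    simp [Matrix.one_apply]
  have tQ := trivG_ev ψ g hg (nodeMat b f) α β a1 a2
  have tQ' := trivG_ev ψ g hg (1 - nodeMat b f) α' β' a1' a2'
  rw [a3] at tQ
  rw [a3'] at tQ'
  -- naturality
  have hcompQ : ∀ (q : ℕ) [Fact q.Prime] (x : Pt G) (y : LaurentPolynomial (MonoidAlgebra ℚ C)),
      ((om ψ g x (coeffZero y) : ℚ) : ℚ_[q]) =
        om ψ g x (coeffZero (mapL (MonoidAlgebra.mapRingHom C (algebraMap ℚ ℚ_[q])) y)) := by
    intro q _ x y
    rw [coeffZero_mapL, om_map]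
    rfl
  have hcompZ : ∀ (q : ℕ) [Fact q.Prime] (x : Pt G)
      (y : LaurentPolynomial (MonoidAlgebra ℤ_[q] C)),
      ((om ψ g x (coeffZero y) : ℤ_[q]) : ℚ_[q]) =
        om ψ g x (coeffZero (mapL (MonoidAlgebra.mapRingHom C (PadicInt.Coe.ringHom)) y)) := by
    intro q _ x y
    rw [coeffZero_mapL, om_map]
    rfl
  have hC0 : ∀ (q : ℕ) [Fact q.Prime] (z : MonoidAlgebra ℚ_[q] C),
      coeffZero (LaurentPolynomial.C z) = z := by
    intro q _ z
    have h1 : (LaurentPolynomial.C z : LaurentPolynomial (MonoidAlgebra ℚ_[q] C)) =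
      AddMonoidAlgebra.single 0 z := rfl
    rw [h1, coeffZero_single, if_pos rfl]
  have hone : IdemClass.mk (IdemMat.free (MonoidAlgebra ℤ G) 2) =
      IdemClass.mk (IdemMat.free _ 1) + IdemClass.mk (IdemMat.free _ 1) :=
    (IdemClass.mk_free_add 1 1).symm
  have hcl : K0.of Em + K0.of Em.compl =
      K0.of (IdemMat.free (MonoidAlgebra ℤ G) 1) + K0.of (IdemMat.free (MonoidAlgebra ℤ G) 1) := by
    have h4 := IdemClass.mk_add_compl Em
    have h5 : Em.n = 2 := rfl
    rw [h5, hone] at h4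
    have h6 := congrArg (Algebra.GrothendieckAddGroup.of) h4
    rw [map_add, map_add] at h6
    exact h6
  rw [hx]
  refine ⟨⟨fun q _ h => om ψ g h (e q), ?_, ?_, fun h => ?_, fun q _ hq h => ?_⟩, ?_⟩
  · refine ⟨Em, 1, fun x => om ψ g x (coeffZero R), rfl, tQ, fun q _ => ?_⟩
    obtain ⟨⟨γ, δ, k1, k2, k3⟩, -⟩ := hloc q
    refine ⟨_, trivG_ev ψ g hg (nodeMat b f) γ δ k1 k2, fun x => ?_⟩
    change om ψ g x (e q) = ((om ψ g x (coeffZero R) : ℚ) : ℚ_[q]) - _
    rw [hcompZ, k3, hcompQ, map_sub, map_sub, hC0]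
    ring
  · refine ⟨Em.compl, 1, fun x => om ψ g x (coeffZero R'), ?_, ?_, fun q _ => ?_⟩
    · rw [neg_eq_iff_add_eq_zero]
      have h7 : K0.of Em - K0.of (IdemMat.free _ 1) +
          (K0.of Em.compl - K0.of (IdemMat.free _ 1)) =
          (K0.of Em + K0.of Em.compl) -
          (K0.of (IdemMat.free (MonoidAlgebra ℤ G) 1) +
            K0.of (IdemMat.free (MonoidAlgebra ℤ G) 1)) := by abel
      rw [h7, hcl, sub_self]
    · rw [hcompl]
      exact tQ'
    · obtain ⟨-, ⟨γ, δ, k1, k2, k3⟩⟩ := hloc q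
      refine ⟨fun x => om ψ g x (coeffZero (Matrix.trace (δ * γ.map DL))), ?_, fun x => ?_⟩
      · rw [hcompl]
        exact trivG_ev ψ g hg (1 - nodeMat b f) γ δ k1 k2
      · change - om ψ g x (e q) = ((om ψ g x (coeffZero R') : ℚ) : ℚ_[q]) - _
        rw [hcompZ, k3, hcompQ, map_add, map_add, hC0]
        ring
  · change om ψ g h (e p) = _
    rw [hep]
  · change om ψ g h (e q) = _
    rw [heq q hq, map_zero]
  · rw [map_sub, rkG_free, rkHom_of]
    have h1 : Matrix.trace Em.mat = 1 := by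
      change Matrix.trace ((nodeMat b f).map (ev ℤ ψ g hg)) = 1
      have h2 : Matrix.trace ((nodeMat b f).map (ev ℤ ψ g hg)) =
          ev ℤ ψ g hg (Matrix.trace (nodeMat b f)) := by
        simp only [Matrix.trace, Matrix.diag_apply, Matrix.map_apply, map_sum]
      rw [h2, trace_nodeMat, map_one]
    rw [h1, map_one, sub_self]

end Class0

universe v

section Units

variable (n : ℕ) [NeZero n]

theorem card_Cn : Nat.card (Multiplicative (ZMod n)) = n := by
  rw [Nat.card_eq_fintype_card]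
  simp

theorem ofAdd_eq_pow (a : ZMod n) :
    (Multiplicative.ofAdd a : Multiplicative (ZMod n)) = (Multiplicative.ofAdd 1) ^ a.val := by
  rw [← ofAdd_nsmul]
  congr 1
  simp

theorem zpowers_one_eq_top : Subgroup.zpowers (Multiplicative.ofAdd (1 : ZMod n)) = ⊤ := by
  rw [Subgroup.eq_top_iff']
  intro x
  have h := ofAdd_eq_pow n (Multiplicative.toAdd x)
  rw [ofAdd_toAdd] at h
  rw [h]
  exact Subgroup.pow_mem _ (Subgroup.mem_zpowers _) _

theorem gen_iff_isUnit (a : ZMod n) :
    Subgroup.zpowers (Multiplicative.ofAdd a) = ⊤ ↔ IsUnit a := by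
  rw [ofAdd_eq_pow, zpowers_pow_eq_top_iff (zpowers_one_eq_top n),
    orderOf_gen (zpowers_one_eq_top n), card_Cn, ← ZMod.isUnit_iff_coprime, ZMod.natCast_zmod_val]

/-- The generators of `C_n` correspond to the units of `ℤ/n`. -/
noncomputable def unitsGens : (ZMod n)ˣ ≃ Gens (Multiplicative (ZMod n)) where
  toFun u := ⟨Multiplicative.ofAdd (u : ZMod n), (gen_iff_isUnit n _).2 u.isUnit⟩
  invFun x := ((gen_iff_isUnit n (Multiplicative.toAdd x.1)).1
    (by rw [ofAdd_toAdd]; exact x.2)).unit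
  left_inv u := by
    ext
    rfl
  right_inv x := by
    apply Subtype.ext
    rfl

/-- The relation on the units of `ℤ/n`: equality up to powers of `p`. -/
def uRel (p : ℕ) (u z : (ZMod n)ˣ) : Prop :=
  ∃ j k : ℕ, (u : ZMod n) * (p : ZMod n) ^ j = (z : ZMod n) * (p : ZMod n) ^ k

theorem uRel_iff (p : ℕ) (u z : (ZMod n)ˣ) :
    rel p (unitsGens n u).1 (unitsGens n z).1 ↔ uRel n p u z := by
  unfold rel uRel
  apply exists_congr
  intro j
  apply exists_congr
  intro k
  change (Multiplicative.ofAdd (u : ZMod n)) ^ p ^ j =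
    (Multiplicative.ofAdd (z : ZMod n)) ^ p ^ k ↔ _
  rw [← ofAdd_nsmul, ← ofAdd_nsmul, Multiplicative.ofAdd.apply_eq_iff_eq, nsmul_eq_mul,
    nsmul_eq_mul]
  push_cast
  rw [mul_comm, mul_comm ((p : ZMod n) ^ k)]

open scoped Classical in
/-- The universal classes. -/
theorem exists_kappa : ∃ (N : ℕ)
    (κ : ℕ → K0 (MonoidAlgebra ℤ (Multiplicative (ZMod n) × Multiplicative ℤ))), 0 < N ∧
    ∀ (p : ℕ) [Fact p.Prime], p ∣ n → ∃ t : (ZMod n)ˣ → ℚ_[p],
      (∀ (Y : (ZMod n)ˣ → ℚ) (y : ℚ), ∑ u, t u * (Y u : ℚ_[p]) = (y : ℚ_[p]) →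
        ∀ z, (N : ℚ) * ∑ u ∈ Finset.univ.filter (fun u => uRel n p u z), Y u =
          y * (Finset.univ.filter (fun u => uRel n p u z)).card) ∧
      ∀ {G : Type v} [Group G] (φ : Multiplicative (ZMod n) × Multiplicative ℤ →* G),
        (∃ w : ∀ (q : ℕ) [Fact q.Prime], Pt G → ℚ_[q],
          Triv0 (K0.map (MonoidAlgebra.mapDomainRingHom ℤ φ) (κ p)) w ∧
          Triv0 (- K0.map (MonoidAlgebra.mapDomainRingHom ℤ φ) (κ p)) (fun q _ h => - w q h) ∧
          (∀ x, w p x = ∑ u : (ZMod n)ˣ, t u * ((mu x.1.1 x.1.2 (φ (1, Multiplicative.ofAdd 1))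
            (φ (Multiplicative.ofAdd 1, 1) ^ (u : ZMod n).val) : ℤ) : ℚ_[p])) ∧
          ∀ (q : ℕ) [Fact q.Prime], q ≠ p → ∀ x, w q x = 0) ∧
        rkG G (K0.map (MonoidAlgebra.mapDomainRingHom ℤ φ) (κ p)) = 0 ∧
        ∀ (φ' φ'' : Multiplicative (ZMod n) × Multiplicative ℤ →* G),
          (∀ c, φ' (c, 1) = φ (c, 1)) → (∀ c, φ'' (c, 1) = φ (c, 1)) →
          φ'' (1, Multiplicative.ofAdd 1) = φ (1, Multiplicative.ofAdd 1) *
            φ' (1, Multiplicative.ofAdd 1) →
          K0.map (MonoidAlgebra.mapDomainRingHom ℤ φ'') (κ p) =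
            K0.map (MonoidAlgebra.mapDomainRingHom ℤ φ) (κ p) +
            K0.map (MonoidAlgebra.mapDomainRingHom ℤ φ') (κ p) := by
  -- the local data
  have hloc : ∀ p : ℕ, ∃ (Np : ℕ) (x : K0 (LaurentPolynomial (MonoidAlgebra ℤ
      (Multiplicative (ZMod n))))), 0 < Np ∧ ∀ [Fact p.Prime],
      ∃ t : (ZMod n)ˣ → ℚ_[p],
      (∀ (Y : (ZMod n)ˣ → ℚ) (y : ℚ), ∑ u, t u * (Y u : ℚ_[p]) = (y : ℚ_[p]) →
        ∀ z, (Np : ℚ) * ∑ u ∈ Finset.univ.filter (fun u => uRel n p u z), Y u =
          y * (Finset.univ.filter (fun u => uRel n p u z)).card) ∧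
      ∀ {G : Type v} [Group G] (ψ : Multiplicative (ZMod n) →* G),
        (∀ (g g' : G) (hg : ∀ c, Commute g (ψ c)) (hg' : ∀ c, Commute g' (ψ c))
          (hgg' : ∀ c, Commute (g * g') (ψ c)), K0.map (ev ℤ ψ (g * g') hgg') x =
            K0.map (ev ℤ ψ g hg) x + K0.map (ev ℤ ψ g' hg') x) ∧
        ∀ (g : G) (hg : ∀ c, Commute g (ψ c)),
        (∃ w : ∀ (q : ℕ) [Fact q.Prime], Pt G → ℚ_[q],
          Triv0 (K0.map (ev ℤ ψ g hg) x) w ∧
          Triv0 (- K0.map (ev ℤ ψ g hg) x) (fun q _ h => - w q h) ∧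
          (∀ x, w p x = ∑ u : (ZMod n)ˣ, t u * ((mu x.1.1 x.1.2 g
            (ψ (Multiplicative.ofAdd 1) ^ (u : ZMod n).val) : ℤ) : ℚ_[p])) ∧
          ∀ (q : ℕ) [Fact q.Prime], q ≠ p → ∀ x, w q x = 0) ∧
        rkG G (K0.map (ev ℤ ψ g hg) x) = 0 := by
    intro p
    by_cases hp : p.Prime
    swap
    · exact ⟨1, 0, one_pos, fun {h} => absurd h.out hp⟩
    have : Fact p.Prime := ⟨hp⟩
    obtain ⟨r, E, m, Np, hE, hNp, hsupp, hkey⟩ :=
      exists_theta p (C := Multiplicative (ZMod n))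
    choose x hx using fun k => exists_class0 p (E k) (hE k)
    refine ⟨Np, ∑ k, m k • x k, hNp, fun {_} =>
      ⟨fun u => (∑ k, (m k : ℚ_[p]) • E k).coeff (unitsGens n u).1, ?_, ?_⟩⟩
    · intro Y y hy z
      have h1 := hkey (fun x => Y ((unitsGens n).symm x)) y (by
        rw [← hy, ← (unitsGens n).sum_comp]
        apply Finset.sum_congr rfl
        intro u _
        rw [Equiv.symm_apply_apply]) (unitsGens n z)
      have h2 : Finset.univ.filter (fun u : Gens (Multiplicative (ZMod n)) =>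
          rel p u.1 (unitsGens n z).1) =
          (Finset.univ.filter (fun u => uRel n p u z)).map (unitsGens n).toEmbedding := by
        ext u
        rw [Finset.mem_map, Finset.mem_filter]
        constructor
        · intro hu
          refine ⟨(unitsGens n).symm u, ?_, by simp⟩
          rw [Finset.mem_filter]
          refine ⟨Finset.mem_univ _, ?_⟩
          rw [← uRel_iff, Equiv.apply_symm_apply]
          exact hu.2
        · rintro ⟨v, hv, rfl⟩
          refine ⟨Finset.mem_univ _, ?_⟩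
          exact (uRel_iff n p v z).2 (Finset.mem_filter.1 hv).2
      rw [h2, Finset.sum_map, Finset.card_map] at h1
      rw [← h1]
      congr 1
      apply Finset.sum_congr rfl
      intro u _
      simp
    · intro G _ ψ
      have hsum : ∀ (g : G) (hg : ∀ c, Commute g (ψ c)), K0.map (ev ℤ ψ g hg) (∑ k, m k • x k) =
          ∑ k, m k • K0.map (ev ℤ ψ g hg) (x k) := by
        intro g hg
        rw [map_sum]
        apply Finset.sum_congr rfl
        intro k _
        rw [map_zsmul]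
      refine ⟨fun g g' hg hg' hgg' => ?_, ?_⟩
      · rw [hsum, hsum, hsum, ← Finset.sum_add_distrib]
        apply Finset.sum_congr rfl
        intro k _
        rw [(hx k ψ).1 g g' hg hg' hgg', smul_add]
      intro g hg
      choose w hw1 hw2 hw3 hw4 using fun k => ((hx k ψ).2 g hg).1
      rw [hsum]
      refine ⟨⟨fun q _ x => ∑ k, (m k : ℚ_[q]) * w k q x, ?_, ?_, ?_, ?_⟩, ?_⟩
      · exact Triv0.sum Finset.univ fun k _ => (hw1 k).zsmul (hw2 k) (m k)
      · have h1 := Triv0.sum Finset.univ fun k (_ : k ∈ Finset.univ) =>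
          (hw1 k).zsmul (hw2 k) (-m k)
        convert h1 using 1
        · rw [← Finset.sum_neg_distrib]
          apply Finset.sum_congr rfl
          intro k _
          rw [neg_smul]
        · funext q _ x
          rw [← Finset.sum_neg_distrib]
          apply Finset.sum_congr rfl
          intro k _
          push_cast
          ring
      · intro x
        have h1 : ∑ k, (m k : ℚ_[p]) * w k p x =
            om ψ g x (∑ k, (m k : ℚ_[p]) • E k) := by
          rw [map_sum]
          apply Finset.sum_congr rfl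
          intro k _
          rw [hw3, om_apply, om_apply, Finset.mul_sum]
          apply Finset.sum_congr rfl
          intro c _
          rw [MonoidAlgebra.coeff_smul_apply, smul_eq_mul]
          ring
        change ∑ k, (m k : ℚ_[p]) * w k p x = ∑ u : (ZMod n)ˣ,
          (∑ k, (m k : ℚ_[p]) • E k).coeff (unitsGens n u).1 * ((mu x.1.1 x.1.2 g
            (ψ (Multiplicative.ofAdd 1) ^ (u : ZMod n).val) : ℤ) : ℚ_[p])
        rw [h1, om_apply]
        refine Eq.trans ?_ ((sum_gens (fun c => (∑ k, (m k : ℚ_[p]) • E k).coeff c)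
          (fun c : Gens (Multiplicative (ZMod n)) =>
            ((mu x.1.1 x.1.2 g (ψ c.1) : ℤ) : ℚ_[p]))).trans ?_)
        · apply Finset.sum_congr rfl
          intro c _
          split_ifs with h
          · rfl
          · rw [hsupp c h, zero_mul, zero_mul]
        · rw [← (unitsGens n).sum_comp]
          apply Finset.sum_congr rfl
          intro u _
          congr 3
          change ψ (Multiplicative.ofAdd (u : ZMod n)) = _
          rw [ofAdd_eq_pow n (u : ZMod n), map_pow]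
      · intro q _ hq x
        apply Finset.sum_eq_zero
        intro k _
        rw [hw4 k q hq, mul_zero]
      · rw [map_sum]
        apply Finset.sum_eq_zero
        intro k _
        rw [map_zsmul, ((hx k ψ).2 g hg).2, smul_zero]
  choose Np x hNp hx using hloc
  -- common denominators
  let N : ℕ := ∏ p ∈ n.primeFactors, Np p
  have hN : 0 < N := Finset.prod_pos fun p _ => hNp p
  let τ : LaurentPolynomial (MonoidAlgebra ℤ (Multiplicative (ZMod n))) →+*
      MonoidAlgebra ℤ (Multiplicative (ZMod n) × Multiplicative ℤ) :=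
    ev ℤ (MonoidHom.inl (Multiplicative (ZMod n)) (Multiplicative ℤ)) (1, Multiplicative.ofAdd 1)
      (fun c => Commute.all _ _)
  refine ⟨N, fun p => (N / Np p) • K0.map τ (x p), hN, fun p _ hpn => ?_⟩
  obtain ⟨t, ht1, ht2⟩ := hx p
  have hdvd : Np p ∣ N := Finset.dvd_prod_of_mem _
    (Nat.mem_primeFactors.2 ⟨Fact.out, hpn, NeZero.ne n⟩)
  obtain ⟨M, hM⟩ := hdvd
  have hM' : N / Np p = M := by rw [hM]; exact Nat.mul_div_cancel_left _ (hNp p)
  have hMpos : 0 < M := by
    rcases Nat.eq_zero_or_pos M with h | h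
    · rw [h, mul_zero] at hM
      omega
    · exact h
  have hMQ : (M : ℚ) ≠ 0 := Nat.cast_ne_zero.2 hMpos.ne'
  have hMp : (M : ℚ_[p]) ≠ 0 := Nat.cast_ne_zero.2 hMpos.ne'
  refine ⟨fun u => (M : ℚ_[p]) * t u, ?_, ?_⟩
  · intro Y y hy z
    have h1 := ht1 Y (y / M) (by
      push_cast
      rw [eq_div_iff hMp, ← hy, Finset.sum_mul]
      apply Finset.sum_congr rfl
      intro u _
      ring) z
    rw [hM]
    push_cast
    rw [mul_comm (Np p : ℚ), mul_assoc, h1, ← mul_assoc, mul_div_cancel₀ _ hMQ]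
  · intro G _ φ
    have hg : ∀ (φ : Multiplicative (ZMod n) × Multiplicative ℤ →* G) (c : Multiplicative (ZMod n)),
        Commute (φ (1, Multiplicative.ofAdd 1)) ((φ.comp (MonoidHom.inl _ _)) c) := by
      intro φ c
      change φ _ * φ _ = φ _ * φ _
      rw [← map_mul, ← map_mul, mul_comm]
    have hcomp : ∀ (φ : Multiplicative (ZMod n) × Multiplicative ℤ →* G),
        (MonoidAlgebra.mapDomainRingHom ℤ φ).comp τ =
          ev ℤ (φ.comp (MonoidHom.inl _ _)) (φ (1, Multiplicative.ofAdd 1)) (hg φ) := by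
      intro φ
      apply RingHom.ext
      intro y
      rw [RingHom.comp_apply]
      induction y using AddMonoidAlgebra.induction_linear with
      | zero => simp
      | add f g hf hg => simp only [map_add, hf, hg]
      | single i y =>
        induction y using MonoidAlgebra.induction_linear with
        | zero => simp
        | add f g hf hg => simp only [AddMonoidAlgebra.single_add, map_add, hf, hg]
        | single c a =>
          have e1 := ev_single ℤ (MonoidHom.inl (Multiplicative (ZMod n)) (Multiplicative ℤ))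
            (1, Multiplicative.ofAdd 1) (fun c => Commute.all _ _) i c a
          rw [ev_single ℤ (φ.comp (MonoidHom.inl _ _)) (φ (1, Multiplicative.ofAdd 1)) (hg φ)]
          refine (congrArg (MonoidAlgebra.mapDomainRingHom ℤ φ) e1).trans ?_
          change MonoidAlgebra.mapDomain _ _ = _
          rw [MonoidAlgebra.mapDomain_single]
          congr 1
          change φ (_ * _) = _
          rw [map_mul, map_zpow]
          rfl
    have hmap : ∀ (φ : Multiplicative (ZMod n) × Multiplicative ℤ →* G),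
        K0.map (MonoidAlgebra.mapDomainRingHom ℤ φ) ((N / Np p) • K0.map τ (x p)) =
        M • K0.map (ev ℤ (φ.comp (MonoidHom.inl _ _)) (φ (1, Multiplicative.ofAdd 1)) (hg φ))
          (x p) := by
      intro φ
      rw [map_nsmul, K0.map_map, hcomp, hM']
    obtain ⟨⟨w, hw1, hw2, hw3, hw4⟩, hr⟩ := (ht2 (φ.comp (MonoidHom.inl _ _))).2
      (φ (1, Multiplicative.ofAdd 1)) (hg φ)
    refine ⟨?_, ?_, ?_⟩
    · rw [hmap]
      refine ⟨fun q _ x => M * w q x, hw1.nsmul M, ?_, ?_, ?_⟩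
      · have h1 := hw2.nsmul M
        rw [smul_neg] at h1
        convert h1 using 4
        ring
      · intro x
        change (M : ℚ_[p]) * w p x = ∑ u : (ZMod n)ˣ, (M : ℚ_[p]) * t u * _
        rw [hw3, Finset.mul_sum]
        apply Finset.sum_congr rfl
        intro u _
        rw [mul_assoc]
        rfl
      · intro q _ hq x
        change (M : ℚ_[q]) * w q x = 0
        rw [hw4 q hq, mul_zero]
    · rw [hmap, map_nsmul, hr, smul_zero]
    · intro φ' φ'' h1 h2 h3
      have ev_congr : ∀ (ψ ψ' : Multiplicative (ZMod n) →* G) (g g' : G)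
          (hg : ∀ c, Commute g (ψ c)) (hg' : ∀ c, Commute g' (ψ' c)) (_ : ψ = ψ') (_ : g = g')
          (z : K0 (LaurentPolynomial (MonoidAlgebra ℤ (Multiplicative (ZMod n))))),
          K0.map (ev ℤ ψ g hg) z = K0.map (ev ℤ ψ' g' hg') z := by
        rintro ψ ψ' g g' hg hg' rfl rfl z
        rfl
      have e1 : φ'.comp (MonoidHom.inl (Multiplicative (ZMod n)) (Multiplicative ℤ)) =
          φ.comp (MonoidHom.inl _ _) := by
        ext c
        exact h1 _
      have e2 : φ''.comp (MonoidHom.inl (Multiplicative (ZMod n)) (Multiplicative ℤ)) =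
          φ.comp (MonoidHom.inl _ _) := by
        ext c
        exact h2 _
      have hg1 : ∀ c, Commute (φ' (1, Multiplicative.ofAdd 1))
          ((φ.comp (MonoidHom.inl _ _)) c) := by
        intro c
        rw [← e1]
        exact hg φ' c
      have hg2 : ∀ c, Commute (φ (1, Multiplicative.ofAdd 1) * φ' (1, Multiplicative.ofAdd 1))
          ((φ.comp (MonoidHom.inl _ _)) c) := by
        intro c
        exact (hg φ c).mul_left (hg1 c)
      rw [hmap, hmap, hmap, ev_congr _ _ _ _ (hg φ'') hg2 e2 h3,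
        ev_congr _ _ _ _ (hg φ') hg1 e1 rfl,
        (ht2 (φ.comp (MonoidHom.inl _ _))).1 _ _ (hg φ) hg1 hg2, smul_add]

end Units

end Pool.Agent.Lib25
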