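import Pool.Agent.Lib_helper25.Approx

/-!
# Idempotents of `ℤ_p[C]` for a finite abelian group `C`

We show that the `ℤ_p`-span of the idempotents of `ℤ_p[C]` is the set of elements fixed by the
endomorphism `c ↦ c ^ p`.
-/

namespace Pool.Agent.Lib25

section Lim

variable {p : ℕ} [hp : Fact p.Prime]

theorem padic_lim (f : ℕ → ℤ_[p]) (hf : ∀ n, (p : ℤ_[p]) ^ n ∣ f (n + 1) - f n) :
    ∃ L, ∀ n, (p : ℤ_[p]) ^ n ∣ f n - L := by
  have hmem : ∀ (n : ℕ) (x : ℤ_[p]),
      x ∈ (IsLocalRing.maximalIdeal ℤ_[p] ^ n • ⊤ : Submodule ℤ_[p] ℤ_[p]) ↔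
        (p : ℤ_[p]) ^ n ∣ x := by
    intro n x
    rw [PadicInt.maximalIdeal_eq_span_p, Ideal.span_singleton_pow, smul_eq_mul, Ideal.mul_top,
      Ideal.mem_span_singleton]
  have hmn : ∀ m k, (p : ℤ_[p]) ^ m ∣ f (m + k) - f m := by
    intro m k
    induction k with
    | zero => simp
    | succ k ih =>
      have h1 : f (m + (k + 1)) - f m = (f (m + k + 1) - f (m + k)) + (f (m + k) - f m) := by
        rw [← add_assoc]; ring
      rw [h1]
      exact dvd_add ((pow_dvd_pow _ (Nat.le_add_right m k)).trans (hf (m + k))) ih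
  have hpre : IsPrecomplete (IsLocalRing.maximalIdeal ℤ_[p]) ℤ_[p] := inferInstance
  obtain ⟨L, hL⟩ := hpre.prec (f := f) (by
    intro m n hmn'
    rw [SModEq.sub_mem, hmem]
    obtain ⟨k, rfl⟩ := Nat.exists_eq_add_of_le hmn'
    rw [← neg_sub, dvd_neg]
    exact hmn m k)
  refine ⟨L, fun n => ?_⟩
  have := hL n
  rw [SModEq.sub_mem, hmem] at this
  exact this

theorem padic_eq_zero_of_dvd (x : ℤ_[p]) (hx : ∀ n : ℕ, (p : ℤ_[p]) ^ n ∣ x) : x = 0 := by
  by_contra h
  have h1 : ∀ n : ℕ, ‖x‖ ≤ (p : ℝ) ^ (-(n : ℤ)) := by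
    intro n
    rw [PadicInt.norm_le_pow_iff_mem_span_pow, Ideal.mem_span_singleton]
    exact hx n
  have h2 : 0 < ‖x‖ := norm_pos_iff.2 h
  have hp1 : (1 : ℝ) < p := by exact_mod_cast hp.out.one_lt
  obtain ⟨n, hn⟩ := exists_pow_lt_of_lt_one h2 (inv_lt_one_of_one_lt₀ hp1)
  have h3 := h1 n
  rw [zpow_neg, zpow_natCast, ← inv_pow] at h3
  linarith

theorem padic_pow_sub_self (a : ℤ_[p]) : (p : ℤ_[p]) ∣ a ^ p - a := by
  rw [← Ideal.mem_span_singleton, ← PadicInt.maximalIdeal_eq_span_p, ← PadicInt.ker_toZMod,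
    RingHom.mem_ker, map_sub, map_pow, ZMod.pow_card, sub_self]

end Lim

section Ring

variable {p : ℕ} [hp : Fact p.Prime] {C : Type*} [CommGroup C]

theorem dvd_iff_coeff (n : ℕ) (x : MonoidAlgebra ℤ_[p] C) :
    (p : MonoidAlgebra ℤ_[p] C) ^ n ∣ x ↔ ∀ c, (p : ℤ_[p]) ^ n ∣ x.coeff c := by
  classical
  have hpw : ∀ (x : MonoidAlgebra ℤ_[p] C) (c : C),
      ((p : MonoidAlgebra ℤ_[p] C) ^ n * x).coeff c = (p : ℤ_[p]) ^ n * x.coeff c := by
    intro x c
    have h1 : (p : MonoidAlgebra ℤ_[p] C) ^ n * x = (p ^ n : ℕ) • x := by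
      rw [nsmul_eq_mul]; push_cast; rfl
    rw [h1]
    change (p ^ n : ℕ) • (x.coeff c) = _
    rw [nsmul_eq_mul]
    push_cast
    rfl
  constructor
  · rintro ⟨y, rfl⟩ c
    rw [hpw]
    exact Dvd.intro _ rfl
  · intro h
    have hF : ∀ z : ℤ_[p], ∃ y : ℤ_[p], (p : ℤ_[p]) ^ n ∣ z → z = (p : ℤ_[p]) ^ n * y := by
      intro z
      by_cases hz : (p : ℤ_[p]) ^ n ∣ z
      · obtain ⟨y, hy⟩ := hz
        exact ⟨y, fun _ => hy⟩
      · exact ⟨0, fun h => absurd h hz⟩
    choose F hF using hF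
    have hp0 : (p : ℤ_[p]) ^ n ≠ 0 := pow_ne_zero _ (Nat.cast_ne_zero.2 hp.out.ne_zero)
    have hF0 : F 0 = 0 := by
      have := hF 0 (dvd_zero _)
      rcases mul_eq_zero.1 this.symm with h | h
      · exact absurd h hp0
      · exact h
    refine ⟨⟨x.coeff.mapRange F hF0⟩, ?_⟩
    ext c
    rw [hpw]
    exact hF _ (h c)

theorem eq_zero_of_dvd (x : MonoidAlgebra ℤ_[p] C)
    (hx : ∀ n : ℕ, (p : MonoidAlgebra ℤ_[p] C) ^ n ∣ x) : x = 0 := by
  ext c
  exact padic_eq_zero_of_dvd _ fun n => (dvd_iff_coeff n x).1 (hx n) c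

theorem ring_lim [Finite C] (f : ℕ → MonoidAlgebra ℤ_[p] C)
    (hf : ∀ n, (p : MonoidAlgebra ℤ_[p] C) ^ n ∣ f (n + 1) - f n) :
    ∃ L, ∀ n, (p : MonoidAlgebra ℤ_[p] C) ^ n ∣ f n - L := by
  classical
  have h1 : ∀ c, ∃ L, ∀ n, (p : ℤ_[p]) ^ n ∣ (f n).coeff c - L := by
    intro c
    apply padic_lim
    intro n
    exact (dvd_iff_coeff n _).1 (hf n) c
  choose L hL using h1
  refine ⟨⟨Finsupp.equivFunOnFinite.symm L⟩, fun n => ?_⟩
  rw [dvd_iff_coeff]
  intro c
  exact hL c n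

/-- Two congruent idempotents are equal. -/
theorem idem_unique (e f : MonoidAlgebra ℤ_[p] C) (he : e ^ 2 = e) (hf : f ^ 2 = f)
    (h : (p : MonoidAlgebra ℤ_[p] C) ∣ e - f) : e = f := by
  have h3 : (e - f) ^ 3 = e - f := by
    have : (e - f) ^ 3 = e ^ 2 * e - 3 * e ^ 2 * f + 3 * e * f ^ 2 - f ^ 2 * f := by ring
    rw [this, he, hf]
    linear_combination he - hf
  have h4 : ∀ n : ℕ, (p : MonoidAlgebra ℤ_[p] C) ^ (n + 1) ∣ e - f := by
    intro n
    induction n with
    | zero => simpa using h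
    | succ n ih =>
      have h5 := pow_dvd_pow_of_dvd ih 3
      rw [h3, ← pow_mul] at h5
      exact (pow_dvd_pow _ (by omega)).trans h5
  rw [← sub_eq_zero]
  apply eq_zero_of_dvd
  intro n
  exact (pow_dvd_pow _ (Nat.le_succ n)).trans (h4 n)

/-- Lifting of idempotents. -/
theorem idem_lift [Finite C] (x : MonoidAlgebra ℤ_[p] C)
    (hx : (p : MonoidAlgebra ℤ_[p] C) ∣ x ^ 2 - x) :
    ∃ e, e ^ 2 = e ∧ (p : MonoidAlgebra ℤ_[p] C) ∣ e - x := by
  -- the sequence `x ^ (p ^ k)`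
  have h1 : ∀ n : ℕ, (p : MonoidAlgebra ℤ_[p] C) ∣ x ^ (n + 1) - x := by
    intro n
    induction n with
    | zero => simp
    | succ n ih =>
      have : x ^ (n + 1 + 1) - x = x * (x ^ (n + 1) - x) + (x ^ 2 - x) := by ring
      rw [this]
      exact dvd_add (Dvd.dvd.mul_left ih x) hx
  have h2 : (p : MonoidAlgebra ℤ_[p] C) ∣ x ^ p - x := by
    have := h1 (p - 1)
    rwa [Nat.sub_add_cancel hp.out.one_le] at this
  obtain ⟨e, he⟩ := ring_lim (fun n => x ^ p ^ n) (fun n => by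
    have h3 := dvd_sub_pow_of_dvd_sub h2 n
    rw [← pow_mul, ← pow_succ'] at h3
    exact (pow_dvd_pow _ (Nat.le_succ n)).trans h3)
  refine ⟨e, ?_, ?_⟩
  · rw [← sub_eq_zero]
    apply eq_zero_of_dvd
    intro n
    have h4 : e ^ 2 - e = (e - x ^ p ^ n) * (e + x ^ p ^ n) + ((x ^ 2) ^ p ^ n - x ^ p ^ n) +
        (x ^ p ^ n - e) := by
      rw [← pow_mul, mul_comm 2, pow_mul]
      ring
    rw [h4]
    refine dvd_add (dvd_add ?_ ?_) (he n)
    · rw [← neg_sub]
      exact Dvd.dvd.mul_right ((dvd_neg).2 (he n)) _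
    · exact (pow_dvd_pow _ (Nat.le_succ n)).trans (dvd_sub_pow_of_dvd_sub hx n)
  · have h5 := he 1
    rw [pow_one, pow_one] at h5
    have h6 : e - x = -(x ^ p - e) + (x ^ p - x) := by ring
    rw [h6]
    exact dvd_add ((dvd_neg).2 h5) h2

/-- The endomorphism of `ℤ_p[C]` induced by `c ↦ c ^ p`. -/
noncomputable def frob (p : ℕ) [hp : Fact p.Prime] (C : Type*) [CommGroup C] :
    MonoidAlgebra ℤ_[p] C →+* MonoidAlgebra ℤ_[p] C :=
  MonoidAlgebra.mapDomainRingHom ℤ_[p] (powMonoidHom p : C →* C)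

theorem frob_single (c : C) (a : ℤ_[p]) :
    frob p C (MonoidAlgebra.single c a) = MonoidAlgebra.single (c ^ p) a := by
  change MonoidAlgebra.mapDomain _ _ = _
  rw [MonoidAlgebra.mapDomain_single]
  rfl

theorem dvd_pow_sub_frob (x : MonoidAlgebra ℤ_[p] C) :
    (p : MonoidAlgebra ℤ_[p] C) ∣ x ^ p - frob p C x := by
  classical
  induction x using MonoidAlgebra.induction_linear with
  | zero => simp [hp.out.ne_zero]
  | add f g hf hg =>
    obtain ⟨r, hr⟩ := exists_add_pow_prime_eq hp.out f g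
    have : (f + g) ^ p - frob p C (f + g) = (f ^ p - frob p C f) + (g ^ p - frob p C g) +
        p * (f * g * r) := by
      rw [hr, map_add]
      ring
    rw [this]
    exact dvd_add (dvd_add hf hg) (Dvd.intro _ rfl)
  | single c a =>
    rw [frob_single, MonoidAlgebra.single_pow]
    obtain ⟨y, hy⟩ := padic_pow_sub_self a
    refine ⟨MonoidAlgebra.single (c ^ p) y, ?_⟩
    have h1 : (p : MonoidAlgebra ℤ_[p] C) * MonoidAlgebra.single (c ^ p) y =
        MonoidAlgebra.single (c ^ p) (p * y) := by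
      rw [← nsmul_eq_mul, MonoidAlgebra.smul_single, nsmul_eq_mul]
    rw [h1, ← hy]
    ext z
    rw [MonoidAlgebra.coeff_sub, Finsupp.sub_apply]
    simp only [MonoidAlgebra.coeff_single, Finsupp.single_apply]
    split_ifs <;> simp

theorem frob_idem (e : MonoidAlgebra ℤ_[p] C) (he : e ^ 2 = e) : frob p C e = e := by
  symm
  apply idem_unique e (frob p C e) he
  · rw [← map_pow, he]
  · have h0 : ∀ n : ℕ, e ^ (n + 1) = e := by
      intro n
      induction n with
      | zero => simp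
      | succ n ih => rw [pow_succ, ih, ← pow_two, he]
    have h1 : e ^ p = e := by
      have := h0 (p - 1)
      rwa [Nat.sub_add_cancel hp.out.one_le] at this
    have := dvd_pow_sub_frob e
    rwa [h1] at this

end Ring

section PolyId

open Polynomial

theorem int_poly_identity (p : ℕ) [hp : Fact p.Prime] :
    ∃ F : ℤ[X], (∑ c ∈ Finset.range p, C (c : ℤ) * (1 - (X - C (c : ℤ)) ^ (p - 1))) - X =
      C (p : ℤ) * F := by
  have h1 : C (p : ℤ) ∣ (∑ c ∈ Finset.range p, C (c : ℤ) * (1 - (X - C (c : ℤ)) ^ (p - 1))) -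
      (X : ℤ[X]) := by
    have h2 : ((∑ c ∈ Finset.range p, C (c : ℤ) * (1 - (X - C (c : ℤ)) ^ (p - 1))) -
        (X : ℤ[X])).map (Int.castRingHom (ZMod p)) = 0 := by
      have h3 : ((∑ c ∈ Finset.range p, C (c : ℤ) * (1 - (X - C (c : ℤ)) ^ (p - 1))) -
        (X : ℤ[X])).map (Int.castRingHom (ZMod p)) =
        (∑ c ∈ Finset.range p, C (c : ZMod p) * (1 - (X - C (c : ZMod p)) ^ (p - 1))) - X := by
        simp [Polynomial.map_sum]
      rw [h3]
      apply eq_zero_of_degree_lt_of_eval_finset_eq_zero (Finset.univ : Finset (ZMod p))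
      · rw [Finset.card_univ, ZMod.card]
        have h4 : ((∑ c ∈ Finset.range p, C (c : ZMod p) * (1 - (X - C (c : ZMod p)) ^ (p - 1))) -
            X).natDegree ≤ p - 1 := by
          refine (natDegree_sub_le _ _).trans (max_le ?_ ?_)
          · apply natDegree_sum_le_of_forall_le
            intro c _
            refine (natDegree_C_mul_le _ _).trans ((natDegree_sub_le _ _).trans (max_le ?_ ?_))
            · simp
            · refine natDegree_pow_le.trans ?_
              rw [natDegree_X_sub_C, mul_one]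
          · have := hp.out.two_le
            rw [natDegree_X]
            omega
        refine lt_of_le_of_lt (degree_le_of_natDegree_le h4) ?_
        have := hp.out.pos
        exact_mod_cast Nat.sub_lt this one_pos
      · intro x _
        rw [eval_sub, eval_finsetSum, eval_X, sub_eq_zero, Finset.sum_eq_single x.val]
        · simp [Nat.sub_eq_zero_iff_le, hp.out.one_lt]
        · intro c hc hcx
          have h5 : x - (c : ZMod p) ≠ 0 := by
            rw [sub_ne_zero]
            intro h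
            apply hcx
            rw [h, ZMod.val_natCast, Nat.mod_eq_of_lt (Finset.mem_range.1 hc)]
          simp [ZMod.pow_card_sub_one_eq_one h5]
        · intro h
          exact absurd (Finset.mem_range.2 (ZMod.val_lt x)) h
    rw [C_dvd_iff_dvd_coeff]
    intro i
    have h3 := congrArg (fun q => q.coeff i) h2
    simp only [coeff_map, coeff_zero] at h3
    exact (ZMod.intCast_zmod_eq_zero_iff_dvd _ p).1 h3
  obtain ⟨F, hF⟩ := h1
  exact ⟨F, hF⟩

theorem dvd_sum_sub {A : Type*} [CommRing A] (p : ℕ) [hp : Fact p.Prime] (b : A) :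
    (p : A) ∣ (∑ c ∈ Finset.range p, (c : A) * (1 - (b - c) ^ (p - 1))) - b := by
  obtain ⟨F, hF⟩ := int_poly_identity p
  have h1 := congrArg (aeval b) hF
  simp only [map_sub, map_sum, map_mul, map_pow, map_one, aeval_X, map_natCast] at h1
  exact ⟨aeval b F, h1⟩

theorem dvd_idem {A : Type*} [CommRing A] (p : ℕ) [hp : Fact p.Prime] (b : A)
    (hb : (p : A) ∣ b ^ p - b) (c : ℕ) :
    (p : A) ∣ (1 - (b - c) ^ (p - 1)) ^ 2 - (1 - (b - c) ^ (p - 1)) := by
  have h1 : (p : A) ∣ (b - c) ^ p - (b - c) := by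
    obtain ⟨r, hr⟩ := exists_add_pow_prime_eq hp.out b (-(c : A))
    have h2 : (p : A) ∣ (-(c : A)) ^ p - (-(c : A)) := by
      have h3 : (p : ℤ) ∣ (-(c : ℤ)) ^ p - (-(c : ℤ)) := by
        rw [← ZMod.intCast_zmod_eq_zero_iff_dvd]
        push_cast
        rw [ZMod.pow_card, sub_self]
      have h4 := map_dvd (Int.castRingHom A) h3
      simpa using h4
    rw [sub_eq_add_neg b, hr]
    have h5 : b ^ p + (-(c : A)) ^ p + p * b * (-(c : A)) * r - (b + -(c : A)) =
        (b ^ p - b) + ((-(c : A)) ^ p - (-(c : A))) + p * (b * (-(c : A)) * r) := by ring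
    rw [h5]
    exact dvd_add (dvd_add hb h2) (Dvd.intro _ rfl)
  have h6 : (1 - (b - c) ^ (p - 1)) ^ 2 - (1 - (b - c) ^ (p - 1)) =
      (b - c) ^ (p - 2) * ((b - c) ^ p - (b - c)) := by
    obtain ⟨k, hk⟩ := Nat.exists_eq_add_of_le hp.out.two_le
    have e1 : p - 1 = k + 1 := by omega
    have e2 : p - 2 = k := by omega
    rw [e1, e2]
    have e3 : (b - (c : A)) ^ p = (b - c) ^ (k + 2) := by congr 1; omega
    rw [e3]
    ring
  rw [h6]
  exact Dvd.dvd.mul_left h1 _

end PolyId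

section Span

variable {p : ℕ} [hp : Fact p.Prime] {C : Type*} [CommGroup C]

theorem frob_smul (a : ℤ_[p]) (x : MonoidAlgebra ℤ_[p] C) : frob p C (a • x) = a • frob p C x := by
  induction x using MonoidAlgebra.induction_linear with
  | zero => simp
  | add f g hf hg => rw [smul_add, map_add, hf, hg, map_add, smul_add]
  | single c b => rw [MonoidAlgebra.smul_single, frob_single, frob_single, MonoidAlgebra.smul_single]

/-- The elements of `ℤ_p[C]` fixed by `c ↦ c ^ p`. -/
noncomputable def frobFixed (p : ℕ) [hp : Fact p.Prime] (C : Type*) [CommGroup C] :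
    Submodule ℤ_[p] (MonoidAlgebra ℤ_[p] C) where
  carrier := {x | frob p C x = x}
  add_mem' := by
    intro x y hx hy
    change frob p C (x + y) = x + y
    rw [map_add, hx, hy]
  zero_mem' := map_zero _
  smul_mem' := by
    intro a x hx
    change frob p C (a • x) = a • x
    rw [frob_smul, hx]

theorem natCast_smul_eq (x : MonoidAlgebra ℤ_[p] C) :
    (p : MonoidAlgebra ℤ_[p] C) * x = (p : ℤ_[p]) • x := by
  rw [← nsmul_eq_mul, Nat.cast_smul_eq_nsmul]

instance [Finite C] : Module.Finite ℤ_[p] (MonoidAlgebra ℤ_[p] C) := by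
  let f : (C →₀ ℤ_[p]) →ₗ[ℤ_[p]] MonoidAlgebra ℤ_[p] C :=
    { toFun := fun x => ⟨x⟩
      map_add' := fun _ _ => rfl
      map_smul' := fun _ _ => rfl }
  exact Module.Finite.of_surjective f fun x => ⟨x.coeff, rfl⟩

/-- The fixed points of `c ↦ c ^ p` are spanned by idempotents. -/
theorem frobFixed_le_span [Finite C] :
    frobFixed p C ≤ Submodule.span ℤ_[p] {e : MonoidAlgebra ℤ_[p] C | e ^ 2 = e} := by
  apply Submodule.le_of_le_smul_of_le_jacobson_bot (I := IsLocalRing.maximalIdeal ℤ_[p])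
    (IsNoetherian.noetherian _) (IsLocalRing.maximalIdeal_le_jacobson _)
  intro b hb
  have hb' : frob p C b = b := hb
  have hbp : (p : MonoidAlgebra ℤ_[p] C) ∣ b ^ p - b := by
    have := dvd_pow_sub_frob b
    rwa [hb'] at this
  have h1 : ∀ c : ℕ, ∃ e, e ^ 2 = e ∧
      (p : MonoidAlgebra ℤ_[p] C) ∣ e - (1 - (b - c) ^ (p - 1)) := fun c =>
    idem_lift _ (dvd_idem p b hbp c)
  choose e he1 he2 using h1
  have h2 : (p : MonoidAlgebra ℤ_[p] C) ∣ b - ∑ c ∈ Finset.range p, (c : MonoidAlgebra ℤ_[p] C) * e c := by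
    have h3 : b - ∑ c ∈ Finset.range p, (c : MonoidAlgebra ℤ_[p] C) * e c =
        -((∑ c ∈ Finset.range p, (c : MonoidAlgebra ℤ_[p] C) * (1 - (b - c) ^ (p - 1))) - b) -
        ∑ c ∈ Finset.range p, (c : MonoidAlgebra ℤ_[p] C) * (e c - (1 - (b - c) ^ (p - 1))) := by
      simp only [mul_sub, Finset.sum_sub_distrib]
      ring
    rw [h3]
    exact dvd_sub ((dvd_neg).2 (dvd_sum_sub p b))
      (Finset.dvd_sum fun c _ => Dvd.dvd.mul_left (he2 c) _)
  obtain ⟨b', hb''⟩ := h2
  rw [Submodule.mem_sup]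
  refine ⟨∑ c ∈ Finset.range p, (c : MonoidAlgebra ℤ_[p] C) * e c, ?_,
    (p : MonoidAlgebra ℤ_[p] C) * b', ?_, by rw [← hb'']; ring⟩
  · apply Submodule.sum_mem
    intro c _
    rw [← nsmul_eq_mul]
    exact Submodule.smul_of_tower_mem _ _ (Submodule.subset_span (he1 c))
  · rw [natCast_smul_eq]
    apply Submodule.smul_mem_smul
    · rw [PadicInt.maximalIdeal_eq_span_p]
      exact Ideal.mem_span_singleton_self _
    · change frob p C b' = b'
      have h4 : (p : ℤ_[p]) • frob p C b' = (p : ℤ_[p]) • b' := by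
        rw [← frob_smul, ← natCast_smul_eq, ← hb'', map_sub, hb', map_sum]
        congr 1
        apply Finset.sum_congr rfl
        intro c _
        rw [map_mul, map_natCast, frob_idem _ (he1 c)]
      have hp0 : (p : ℤ_[p]) ≠ 0 := Nat.cast_ne_zero.2 hp.out.ne_zero
      ext z
      have h5 := congrArg (fun x => x.coeff z) h4
      have h6 : (p : ℤ_[p]) • (frob p C b').coeff z = (p : ℤ_[p]) • b'.coeff z := h5
      rw [smul_eq_mul, smul_eq_mul] at h6
      exact mul_left_cancel₀ hp0 h6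

end Span

end Pool.Agent.Lib25
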