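import Pool.Agent.Lib_helper25.Class0

/-!
# Functionals on `K₀(ℤ[G])`
-/

set_option linter.unusedSectionVars false

namespace Pool.Agent.Lib25

universe u v

/-- If every relation between the `a j` is satisfied by the `b j`, then there is a homomorphism
to `ℚ` taking `a j` to `b j`. -/
theorem exists_functional {A : Type u} [AddCommGroup A] {J : Type v} (a : J → A) (b : J → ℚ)
    (h : ∀ c : J →₀ ℤ, (c.sum fun j m => m • a j) = 0 → (c.sum fun j m => (m : ℚ) * b j) = 0) :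
    ∃ F : A →+ ℚ, ∀ j, F (a j) = b j := by
  classical
  let Λ : (J →₀ ℤ) →ₗ[ℤ] A := Finsupp.linearCombination ℤ a
  let β : (J →₀ ℤ) →ₗ[ℤ] ℚ := Finsupp.linearCombination ℤ b
  have hker : LinearMap.ker Λ ≤ LinearMap.ker β := by
    intro c hc
    rw [LinearMap.mem_ker] at hc ⊢
    change Finsupp.linearCombination ℤ b c = 0
    rw [Finsupp.linearCombination_apply]
    have h1 := h c (by
      rw [← Finsupp.linearCombination_apply]
      exact hc)
    rw [← h1]
    apply Finset.sum_congr rfl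
    intro j _
    simp only [zsmul_eq_mul]
  let f : LinearMap.range Λ →ₗ[ℤ] ℚ :=
    ((LinearMap.ker Λ).liftQ β hker).comp (Λ.quotKerEquivRange.symm : LinearMap.range Λ →ₗ[ℤ] _)
  have hf : ∀ c, f ⟨Λ c, LinearMap.mem_range_self Λ c⟩ = β c := by
    intro c
    change ((LinearMap.ker Λ).liftQ β hker) (Λ.quotKerEquivRange.symm ⟨Λ c, _⟩) = β c
    have h1 : Λ.quotKerEquivRange.symm ⟨Λ c, LinearMap.mem_range_self Λ c⟩ =
        (LinearMap.ker Λ).mkQ c := by
      rw [LinearEquiv.symm_apply_eq]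
      rfl
    rw [h1]
    exact Submodule.liftQ_apply _ _ _
  obtain ⟨F, hF⟩ := (Module.Baer.of_divisible ℚ).extension_property_addMonoidHom
    ((LinearMap.range Λ).subtype.toAddMonoidHom)
    (by exact Subtype.val_injective) f.toAddMonoidHom
  refine ⟨F, fun j => ?_⟩
  have h1 := congrArg (fun φ => φ ⟨Λ (Finsupp.single j 1), LinearMap.mem_range_self Λ _⟩) hF
  have h2 : F (Λ (Finsupp.single j 1)) = β (Finsupp.single j 1) := by
    rw [← hf]
    exact h1
  simpa [Λ, β] using h2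

section Comb

variable {n : ℕ} [NeZero n]

theorem uRel_refl (p : ℕ) (u : (ZMod n)ˣ) : uRel n p u u := ⟨0, 0, rfl⟩

theorem uRel_symm {p : ℕ} {u z : (ZMod n)ˣ} (h : uRel n p u z) : uRel n p z u := by
  obtain ⟨j, k, h⟩ := h
  exact ⟨k, j, h.symm⟩

theorem uRel_trans {p : ℕ} {x y z : (ZMod n)ˣ} (h : uRel n p x y) (h' : uRel n p y z) :
    uRel n p x z := by
  obtain ⟨j, k, h⟩ := h
  obtain ⟨j', k', h'⟩ := h'
  refine ⟨j + j', k + k', ?_⟩
  calc (x : ZMod n) * (p : ZMod n) ^ (j + j') = (x * (p : ZMod n) ^ j) * (p : ZMod n) ^ j' := by ring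
    _ = (y * (p : ZMod n) ^ j') * (p : ZMod n) ^ k := by rw [h]; ring
    _ = (z : ZMod n) * (p : ZMod n) ^ (k + k') := by rw [h']; ring

theorem uRel_mul {p : ℕ} {x y : (ZMod n)ˣ} (h : uRel n p x y) (a : (ZMod n)ˣ) :
    uRel n p (x * a) (y * a) := by
  obtain ⟨j, k, h⟩ := h
  refine ⟨j, k, ?_⟩
  rw [Units.val_mul, Units.val_mul]
  linear_combination (a : ZMod n) * h

open scoped Classical in
/-- The class of a unit. -/
noncomputable def ucl (p : ℕ) (z : (ZMod n)ˣ) : Finset (ZMod n)ˣ :=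
  Finset.univ.filter (fun u => uRel n p u z)

theorem mem_ucl {p : ℕ} {u z : (ZMod n)ˣ} : u ∈ ucl p z ↔ uRel n p u z := by
  classical
  unfold ucl
  rw [Finset.mem_filter]
  exact ⟨fun h => h.2, fun h => ⟨Finset.mem_univ _, h⟩⟩

theorem card_ucl_pos (p : ℕ) (z : (ZMod n)ˣ) : 0 < (ucl p z).card :=
  Finset.card_pos.2 ⟨z, mem_ucl.2 (uRel_refl p z)⟩

theorem ucl_eq {p : ℕ} {u z : (ZMod n)ˣ} (h : uRel n p u z) : ucl p u = ucl p z := by
  ext v
  rw [mem_ucl, mem_ucl]
  exact ⟨fun h' => uRel_trans h' h, fun h' => uRel_trans h' (uRel_symm h)⟩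

/-- Averaging over classes. -/
theorem sum_classes (p : ℕ) (Y : (ZMod n)ˣ → ℚ) :
    ∑ a : (ZMod n)ˣ, (∑ u ∈ ucl p a⁻¹, Y u) / ((ucl p a⁻¹).card : ℚ) = ∑ u, Y u := by
  classical
  have h1 : ∀ a : (ZMod n)ˣ, (∑ u ∈ ucl p a⁻¹, Y u) / ((ucl p a⁻¹).card : ℚ) =
      ∑ u, if uRel n p u a⁻¹ then Y u / ((ucl p u).card : ℚ) else 0 := by
    intro a
    rw [← Finset.sum_filter, Finset.sum_div]
    apply Finset.sum_congr rfl
    intro u hu
    rw [ucl_eq (mem_ucl.1 hu)]
  rw [Finset.sum_congr rfl (fun a _ => h1 a), Finset.sum_comm]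
  apply Finset.sum_congr rfl
  intro u _
  have h2 : ∑ a : (ZMod n)ˣ, (if uRel n p u a⁻¹ then Y u / ((ucl p u).card : ℚ) else 0) =
      ∑ a : (ZMod n)ˣ, (if uRel n p u a then Y u / ((ucl p u).card : ℚ) else 0) :=
    Equiv.sum_comp (Equiv.inv (ZMod n)ˣ)
      (fun a => if uRel n p u a then Y u / ((ucl p u).card : ℚ) else 0)
  rw [h2, ← Finset.sum_filter, Finset.sum_const]
  have h3 : (Finset.univ.filter (fun a => uRel n p u a)).card = (ucl p u).card := by
    congr 1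
    ext a
    rw [mem_ucl, Finset.mem_filter]
    exact ⟨fun h => uRel_symm h.2, fun h => ⟨Finset.mem_univ _, uRel_symm h⟩⟩
  rw [h3, nsmul_eq_mul]
  have h4 : ((ucl p u).card : ℚ) ≠ 0 := Nat.cast_ne_zero.2 (card_ucl_pos p u).ne'
  field_simp

end Comb

section Pow

variable {G : Type*} [Group G] {n : ℕ} [NeZero n]

theorem pow_val_mul {h : G} (hn : h ^ n = 1) (u v : (ZMod n)ˣ) :
    h ^ ((u * v : (ZMod n)ˣ) : ZMod n).val = (h ^ (u : ZMod n).val) ^ (v : ZMod n).val := by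
  rw [← pow_mul, Units.val_mul, ZMod.val_mul]
  have h1 := Nat.mod_add_div ((u : ZMod n).val * (v : ZMod n).val) n
  conv_rhs => rw [← h1]
  rw [pow_add, pow_mul h n, hn, one_pow, mul_one]

theorem pow_val_one {h : G} (hn : h ^ n = 1) : h ^ (((1 : (ZMod n)ˣ) : ZMod n)).val = h := by
  rcases Nat.lt_or_ge 1 n with h1 | h1
  · have : Fact (1 < n) := ⟨h1⟩
    rw [Units.val_one, ZMod.val_one, pow_one]
  · have h2 : n = 1 := by
      have := NeZero.ne n
      omega
    subst h2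
    rw [pow_one] at hn
    rw [hn, one_pow]

theorem isConj_pow_nat {x y : G} (h : IsConj x y) (i : ℕ) : IsConj (x ^ i) (y ^ i) := by
  obtain ⟨c, hc⟩ := isConj_iff.1 h
  rw [isConj_iff]
  exact ⟨c, by rw [← hc, conj_pow]⟩

theorem orderOf_pow_val {h : G} (hn : orderOf h = n) (u : (ZMod n)ˣ) :
    orderOf (h ^ (u : ZMod n).val) = n := by
  have h1 : ((u : ZMod n).val).Coprime n := ZMod.val_coe_unit_coprime u
  have h2 : (orderOf h).Coprime (u : ZMod n).val := by rw [hn]; exact h1.symm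
  rw [Nat.Coprime.orderOf_pow h2, hn]

theorem zpowers_pow_val {h : G} (hn : h ^ n = 1) (u : (ZMod n)ˣ) :
    Subgroup.zpowers (h ^ (u : ZMod n).val) = Subgroup.zpowers h := by
  apply le_antisymm
  · rw [Subgroup.zpowers_le]
    exact Subgroup.pow_mem _ (Subgroup.mem_zpowers _) _
  · rw [Subgroup.zpowers_le]
    have h1 : (h ^ (u : ZMod n).val) ^ ((u⁻¹ : (ZMod n)ˣ) : ZMod n).val = h := by
      rw [← pow_val_mul hn, mul_inv_cancel]
      exact pow_val_one hn
    have h2 := Subgroup.pow_mem (Subgroup.zpowers (h ^ (u : ZMod n).val))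
      (Subgroup.mem_zpowers _) ((u⁻¹ : (ZMod n)ˣ) : ZMod n).val
    rw [h1] at h2
    exact h2

/-- The conjugacy class of the cyclic subgroup generated by `h`. -/
def cz (h : G) : Set (Subgroup G) := Set.range fun x : G => Subgroup.zpowers (x * h * x⁻¹)

theorem cz_pow_val {h : G} (hn : h ^ n = 1) (u : (ZMod n)ˣ) : cz (h ^ (u : ZMod n).val) = cz h := by
  unfold cz
  congr 1
  funext x
  rw [← conj_pow]
  apply zpowers_pow_val
  rw [conj_pow, hn]
  group

theorem cz_of_isConj {h h' : G} (hc : IsConj h h') : cz h = cz h' := by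
  obtain ⟨c, rfl⟩ := isConj_iff.1 hc
  unfold cz
  ext K
  constructor
  · rintro ⟨x, rfl⟩
    refine ⟨x * c⁻¹, ?_⟩
    change Subgroup.zpowers _ = Subgroup.zpowers _
    congr 1
    group
  · rintro ⟨x, rfl⟩
    refine ⟨x * c, ?_⟩
    change Subgroup.zpowers _ = Subgroup.zpowers _
    congr 1
    group

theorem orderOf_of_cz {h h' : G} (hc : cz h = cz h') : orderOf h = orderOf h' := by
  have h1 : Subgroup.zpowers h ∈ cz h := ⟨1, by simp⟩
  rw [hc] at h1
  obtain ⟨x, hx⟩ := h1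
  have h2 := congrArg (fun K : Subgroup G => Nat.card K) hx
  simp only [Nat.card_zpowers] at h2
  rw [← h2]
  have : IsConj h' (x * h' * x⁻¹) := isConj_iff.2 ⟨x, rfl⟩
  obtain ⟨u, hu⟩ := this
  exact (hu.orderOf_eq (u : G)).symm

theorem exists_unit_of_cz {h h' : G} (hn : orderOf h = n) (hc : cz h = cz h') :
    ∃ u : (ZMod n)ˣ, IsConj h' (h ^ (u : ZMod n).val) := by
  have hn' : orderOf h' = n := by rw [← orderOf_of_cz hc, hn]
  have h1 : Subgroup.zpowers h ∈ cz h := ⟨1, by simp⟩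
  rw [hc] at h1
  obtain ⟨x, hx⟩ := h1
  have hx' : Subgroup.zpowers (x * h' * x⁻¹) = Subgroup.zpowers h := hx
  have hconj : IsConj h' (x * h' * x⁻¹) := isConj_iff.2 ⟨x, rfl⟩
  have hord : orderOf (x * h' * x⁻¹) = n := by
    obtain ⟨u, hu⟩ := hconj
    rw [← hu.orderOf_eq (u : G), hn']
  have hfin : IsOfFinOrder h := by
    rw [← orderOf_pos_iff, hn]
    exact Nat.pos_of_ne_zero (NeZero.ne n)
  have hmem : x * h' * x⁻¹ ∈ Subgroup.zpowers h := by
    rw [← hx']
    exact Subgroup.mem_zpowers _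
  rw [← hfin.mem_powers_iff_mem_zpowers, Submonoid.mem_powers_iff] at hmem
  obtain ⟨k, hk⟩ := hmem
  have hcop : k.Coprime n := by
    have h3 : orderOf (h ^ k) = n := by rw [hk, hord]
    rcases Nat.eq_zero_or_pos k with h0 | h0
    · subst h0
      rw [pow_zero, orderOf_one] at h3
      rw [← h3]
      exact Nat.coprime_one_right 0
    · rw [orderOf_pow' h h0.ne', hn] at h3
      have hnpos : 0 < n := Nat.pos_of_ne_zero (NeZero.ne n)
      have h4 := Nat.div_mul_cancel (Nat.gcd_dvd_left n k)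
      rw [h3] at h4
      have h5 : n.gcd k = 1 := by
        have h6 : n * n.gcd k = n * 1 := by rw [mul_one]; exact h4
        exact Nat.eq_of_mul_eq_mul_left hnpos h6
      rw [Nat.coprime_comm]
      exact h5
  refine ⟨ZMod.unitOfCoprime k hcop, ?_⟩
  rw [ZMod.coe_unitOfCoprime]
  have h5 : h ^ ((k : ℕ) : ZMod n).val = h ^ k := by
    rw [ZMod.val_natCast, pow_eq_pow_iff_modEq, hn]
    exact Nat.mod_modEq _ _
  rw [h5, hk]
  exact hconj

end Pow

end Pool.Agent.Lib25
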