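import Pool.Agent.Lib_helper25.Traces

/-!
# p-adic Hattori-Stallings traces vanish on p-singular classes

If `Q` is an idempotent matrix over `ℤ_p[G]` and `h ∈ G` has finite order divisible by `p`, then the
sum of the coefficients of `tr Q` over the conjugacy class of `h` is zero.
-/

open Matrix

namespace Pool.Agent.Lib25

section Words

variable {R : Type*} [Ring R] {I : Type*} [Fintype I]

theorem sum_pow_words (x : I → R) (n : ℕ) :
    (∑ i, x i) ^ n = ∑ w : Fin n → I, (List.ofFn fun j => x (w j)).prod := by
  classical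
  induction n with
  | zero => simp
  | succ n ih =>
    rw [pow_succ', ih, Finset.sum_mul_sum, ← (Fin.consEquiv (fun _ => I)).sum_comp,
      Fintype.sum_prod_type]
    refine Finset.sum_congr rfl fun i _ => Finset.sum_congr rfl fun w _ => ?_
    rw [List.ofFn_succ, List.prod_cons]
    simp [Fin.consEquiv]

/-- The product of the word `w : ZMod M → I`. -/
def wordProd (M : ℕ) (x : I → R) (w : ZMod M → I) : R :=
  ((List.range M).map fun i : ℕ => x (w (i : ZMod M))).prod

theorem sum_pow_words' (x : I → R) (M : ℕ) [NeZero M] :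
    (∑ i, x i) ^ M = ∑ w : ZMod M → I, wordProd M x w := by
  classical
  rw [sum_pow_words]
  let e : (ZMod M → I) ≃ (Fin M → I) := Equiv.arrowCongr (ZMod.finEquiv M).symm.toEquiv (Equiv.refl I)
  rw [← e.sum_comp]
  refine Finset.sum_congr rfl fun w _ => ?_
  unfold wordProd
  congr 1
  rw [List.ofFn_eq_map]
  rw [← List.map_coe_finRange_eq_range, List.map_map]
  refine List.map_congr_left fun i _ => ?_
  simp only [e, Equiv.arrowCongr_apply, Function.comp, Equiv.refl_apply]
  congr 2
  obtain ⟨m, rfl⟩ : ∃ m, M = m + 1 := ⟨M - 1, by have := NeZero.ne M; omega⟩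
  exact (ZMod.natCast_zmod_val (n := m + 1) i).symm

omit [Fintype I] in
theorem tracial_wordProd_shift {k : Type*} [AddCommGroup k] (φ : R →+ k)
    (hφ : ∀ a b, φ (a * b) = φ (b * a)) (M : ℕ) [NeZero M] (x : I → R) (w : ZMod M → I) :
    φ (wordProd M x (fun i => w (i + 1))) = φ (wordProd M x w) := by
  obtain ⟨m, rfl⟩ : ∃ m, M = m + 1 := ⟨M - 1, by have := NeZero.ne M; omega⟩
  unfold wordProd
  have h1 : ((List.range (m + 1)).map fun i : ℕ => x (w ((i : ZMod (m + 1)) + 1))) =
      ((List.range m).map fun i : ℕ => x (w ((i + 1 : ℕ) : ZMod (m + 1)))) ++ [x (w 0)] := by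
    rw [List.range_succ, List.map_append]
    congr 1
    · refine List.map_congr_left fun i _ => ?_
      push_cast
      rfl
    · simp only [List.map_cons, List.map_nil]
      congr 3
      exact_mod_cast ZMod.natCast_self (m + 1)
  have h2 : ((List.range (m + 1)).map fun i : ℕ => x (w (i : ZMod (m + 1)))) =
      x (w 0) :: ((List.range m).map fun i : ℕ => x (w ((i + 1 : ℕ) : ZMod (m + 1)))) := by
    rw [List.range_succ_eq_map, List.map_cons, List.map_map]
    congr 2
  rw [h1, h2, List.prod_append, List.prod_cons, List.prod_cons, List.prod_nil, mul_one, hφ]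

omit [Fintype I] in
theorem tracial_wordProd_vadd {k : Type*} [AddCommGroup k] (φ : R →+ k)
    (hφ : ∀ a b, φ (a * b) = φ (b * a)) (M : ℕ) [NeZero M] (x : I → R) (w : ZMod M → I)
    (c : ZMod M) :
    φ (wordProd M x (fun i => w (i + c))) = φ (wordProd M x w) := by
  obtain ⟨n, rfl⟩ : ∃ n : ℕ, (n : ZMod M) = c := ⟨c.val, by simp⟩
  induction n with
  | zero => simp
  | succ n ih =>
    rw [← ih, ← tracial_wordProd_shift φ hφ M x (fun i => w (i + n))]
    congr 2
    funext i
    congr 1
    push_cast
    ring

omit [Fintype I] in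
/-- The product of a periodic word is a power. -/
theorem wordProd_periodic (P K : ℕ) [NeZero (P * K)] (x : I → R) (w : ZMod (P * K) → I)
    (hw : ∀ i, w (i + P) = w i) :
    wordProd (P * K) x w = (((List.range P).map fun i : ℕ => x (w (i : ZMod (P * K)))).prod) ^ K := by
  have key : ∀ n : ℕ, ((List.range (P * n)).map fun i : ℕ => x (w (i : ZMod (P * K)))).prod =
      (((List.range P).map fun i : ℕ => x (w (i : ZMod (P * K)))).prod) ^ n := by
    intro n
    induction n with
    | zero => simp
    | succ n ih =>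
      rw [Nat.mul_succ, List.range_add, List.map_append, List.prod_append, ih, pow_succ,
        List.map_map]
      congr 2
      refine List.map_congr_left fun i _ => ?_
      simp only [Function.comp]
      congr 1
      have : ∀ n : ℕ, w (((P * n + i : ℕ)) : ZMod (P * K)) = w (i : ZMod (P * K)) := by
        intro n
        induction n with
        | zero => simp
        | succ n ih =>
          rw [← ih, ← hw ((P * n + i : ℕ) : ZMod (P * K))]
          congr 1
          push_cast
          ring
      exact this n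
  exact key K

end Words

section Orbits

variable {k : Type*} [CommRing k]

/-- If a finite commutative `p`-group acts on a finite set, the sum of an invariant function is,
modulo `p ^ (j + 1)`, the sum over the points fixed by all `g ^ (p ^ j)`. -/
theorem sum_invariant_mod {p : ℕ} [Fact p.Prime] {α : Type*} [CommGroup α] [Finite α] {N : ℕ}
    (hα : Nat.card α = p ^ N) {X : Type*} [Fintype X] [DecidableEq X] [MulAction α X] (f : X → k)
    (hf : ∀ (g : α) x, f (g • x) = f x) (j : ℕ) :
    ∃ (s : Finset X) (c : k), (∀ x ∈ s, ∀ g : α, (g ^ (p ^ j)) • x = x) ∧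
      ∑ x, f x = ∑ x ∈ s, f x + (p : k) ^ (j + 1) * c := by
  classical
  have hp : p.Prime := Fact.out
  let good : X → Prop := fun x => ¬ (p ^ (j + 1) ∣ Nat.card (MulAction.orbit α x))
  have hdvd : (p : k) ^ (j + 1) ∣ ∑ x ∈ Finset.univ.filter (fun x => ¬ good x), f x := by
    rw [← Finset.sum_fiberwise_of_maps_to (g := fun x => (Quotient.mk (MulAction.orbitRel α X) x))
      (t := Finset.univ) (fun _ _ => Finset.mem_univ _)]
    refine Finset.dvd_sum fun ω _ => ?_
    induction ω using Quotient.inductionOn with
    | h x0 =>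
      have h1 : ∀ x ∈ (Finset.univ.filter (fun x => ¬ good x)).filter
          (fun x => (Quotient.mk (MulAction.orbitRel α X) x) =
            (Quotient.mk (MulAction.orbitRel α X) x0)), f x = f x0 := by
        intro x hx
        have h2 := (Finset.mem_filter.1 hx).2
        have h3 : (MulAction.orbitRel α X).r x x0 := Quotient.exact h2
        obtain ⟨g, hg⟩ := h3
        rw [← hg]
        exact hf g x0
      rw [Finset.sum_congr rfl h1, Finset.sum_const, nsmul_eq_mul]
      apply Dvd.dvd.mul_right
      by_cases hgood : good x0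
      · have : (Finset.univ.filter (fun x => ¬ good x)).filter
          (fun x => (Quotient.mk (MulAction.orbitRel α X) x) =
            (Quotient.mk (MulAction.orbitRel α X) x0)) = ∅ := by
          apply Finset.eq_empty_of_forall_notMem
          intro x hx
          have h2 := (Finset.mem_filter.1 hx).2
          have h3 : (MulAction.orbitRel α X).r x x0 := Quotient.exact h2
          have h4 : MulAction.orbit α x = MulAction.orbit α x0 := MulAction.orbit_eq_iff.2 h3
          have h5 := (Finset.mem_filter.1 (Finset.mem_filter.1 hx).1).2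
          apply h5
          simp only [good] at hgood ⊢
          rwa [h4]
        rw [this]
        simp
      · have h6 : ((Finset.univ.filter (fun x => ¬ good x)).filter
          (fun x => (Quotient.mk (MulAction.orbitRel α X) x) =
            (Quotient.mk (MulAction.orbitRel α X) x0))).card =
            Nat.card (MulAction.orbit α x0) := by
          rw [Nat.card_eq_fintype_card, Fintype.card_subtype]
          congr 1
          ext x
          simp only [Finset.mem_filter, Finset.mem_univ, true_and]
          constructor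
          · rintro ⟨_, h2⟩
            exact (Quotient.exact h2 : (MulAction.orbitRel α X).r x x0)
          · intro h3
            have h4 : MulAction.orbit α x = MulAction.orbit α x0 := MulAction.orbit_eq_iff.2 h3
            refine ⟨?_, Quotient.sound h3⟩
            simp only [good] at hgood ⊢
            rwa [h4]
        rw [h6]
        have h7 : p ^ (j + 1) ∣ Nat.card (MulAction.orbit α x0) := not_not.1 hgood
        have h8 : ((p ^ (j + 1) : ℕ) : k) ∣ ((Nat.card (MulAction.orbit α x0) : ℕ) : k) :=
          Nat.cast_dvd_cast h7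
        simpa using h8
  obtain ⟨c, hc⟩ := hdvd
  refine ⟨Finset.univ.filter good, c, ?_, ?_⟩
  · intro x hx g
    have hx' : good x := (Finset.mem_filter.1 hx).2
    have h1 : (MulAction.stabilizer α x).index = Nat.card (MulAction.orbit α x) :=
      MulAction.index_stabilizer α x
    have h2 : (MulAction.stabilizer α x).index ∣ p ^ N := by
      rw [← hα]
      exact Subgroup.index_dvd_card _
    obtain ⟨i, _, hi⟩ := (Nat.dvd_prime_pow hp).1 h2
    have h3 : i ≤ j := by
      by_contra hlt
      apply hx'
      rw [← h1, hi]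
      exact Nat.pow_dvd_pow p (by omega)
    have h4 : g ^ (p ^ i) ∈ MulAction.stabilizer α x := by
      rw [← hi]
      exact Subgroup.pow_index_mem _ _
    have h5 : g ^ (p ^ j) ∈ MulAction.stabilizer α x := by
      have : g ^ (p ^ j) = (g ^ (p ^ i)) ^ (p ^ (j - i)) := by
        rw [← pow_mul, ← pow_add]
        congr 2
        omega
      rw [this]
      exact Subgroup.pow_mem _ h4 _
    exact h5
  · rw [← hc, Finset.sum_filter_add_sum_filter_not]

/-- The rotation action of `ZMod M` on words. -/
@[reducible]
def rotAction (M : ℕ) (I : Type*) : MulAction (Multiplicative (ZMod M)) (ZMod M → I) where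
  smul g w := fun i => w (i + Multiplicative.toAdd g)
  one_smul w := by
    funext i
    change w (i + 0) = w i
    rw [add_zero]
  mul_smul g h w := by
    funext i
    change w (i + (Multiplicative.toAdd g + Multiplicative.toAdd h)) =
      w (i + Multiplicative.toAdd g + Multiplicative.toAdd h)
    rw [add_assoc]

theorem tracial_pow_mod {R : Type*} [Ring R] {p : ℕ} [Fact p.Prime] (φ : R →+ k)
    (hφ : ∀ a b, φ (a * b) = φ (b * a)) {I : Type*} [Fintype I] (x : I → R) (j N : ℕ)
    (hjN : j ≤ N) :
    ∃ (s : Finset (ZMod (p ^ N) → I)) (c : k), φ ((∑ i, x i) ^ (p ^ N)) =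
      ∑ w ∈ s, φ ((((List.range (p ^ j)).map fun i : ℕ => x (w (i : ZMod (p ^ N)))).prod) ^
        (p ^ (N - j))) + (p : k) ^ (j + 1) * c := by
  classical
  have hp : p.Prime := Fact.out
  have : NeZero (p ^ N) := ⟨pow_ne_zero _ hp.ne_zero⟩
  let _ := rotAction (p ^ N) I
  obtain ⟨s, c, h1, h2⟩ := sum_invariant_mod (k := k) (p := p)
    (α := Multiplicative (ZMod (p ^ N))) (N := N) (by simp)
    (X := ZMod (p ^ N) → I) (fun w => φ (wordProd (p ^ N) x w))
    (fun g w => tracial_wordProd_vadd φ hφ (p ^ N) x w _) j
  refine ⟨s, c, ?_⟩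
  rw [sum_pow_words' x (p ^ N), map_sum, h2]
  congr 1
  refine Finset.sum_congr rfl fun w hw => ?_
  congr 1
  have h3 := h1 w hw (Multiplicative.ofAdd (1 : ZMod (p ^ N)))
  have h4 : ∀ i, w (i + ((p ^ j : ℕ) : ZMod (p ^ N))) = w i := by
    intro i
    have h5 := congrFun h3 i
    have h6 : Multiplicative.toAdd ((Multiplicative.ofAdd (1 : ZMod (p ^ N))) ^ (p ^ j)) =
        ((p ^ j : ℕ) : ZMod (p ^ N)) := by
      rw [toAdd_pow, toAdd_ofAdd, nsmul_eq_mul, mul_one]
    have h7 : ((Multiplicative.ofAdd (1 : ZMod (p ^ N))) ^ (p ^ j) • w) i =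
        w (i + Multiplicative.toAdd ((Multiplicative.ofAdd (1 : ZMod (p ^ N))) ^ (p ^ j))) := rfl
    rw [h7, h6] at h5
    exact h5
  have h8 : p ^ N = p ^ j * p ^ (N - j) := by rw [← pow_add]; congr 1; omega
  have gen : ∀ (M : ℕ) [NeZero M], M = p ^ j * p ^ (N - j) → ∀ w : ZMod M → I,
      (∀ i, w (i + ((p ^ j : ℕ) : ZMod M)) = w i) →
      wordProd M x w = (((List.range (p ^ j)).map fun i : ℕ => x (w (i : ZMod M))).prod) ^
        (p ^ (N - j)) := by
    intro M _ hM w hw
    subst hM
    exact wordProd_periodic (p ^ j) (p ^ (N - j)) x w hw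
  exact gen (p ^ N) h8 w h4

end Orbits

section Mono

variable {k : Type*} [CommRing k] {G : Type*} [Group G] {ι : Type*} [Fintype ι] [DecidableEq ι]

/-- Every entry of `A` is a multiple of the group element `γ`. -/
def IsMono (γ : G) (A : Matrix ι ι (MonoidAlgebra k G)) : Prop :=
  ∀ i j, ∃ c, A i j = MonoidAlgebra.single γ c

omit [Fintype ι] in
theorem IsMono.one : IsMono (1 : G) (1 : Matrix ι ι (MonoidAlgebra k G)) := by
  intro i j
  by_cases h : i = j
  · subst h
    exact ⟨1, by rw [Matrix.one_apply_eq]; rfl⟩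
  · exact ⟨0, by rw [Matrix.one_apply_ne h]; simp⟩

omit [DecidableEq ι] in
theorem IsMono.mul {γ δ : G} {A B : Matrix ι ι (MonoidAlgebra k G)} (hA : IsMono γ A)
    (hB : IsMono δ B) : IsMono (γ * δ) (A * B) := by
  intro i j
  choose a ha using hA
  choose b hb using hB
  refine ⟨∑ l, a i l * b l j, ?_⟩
  rw [Matrix.mul_apply]
  simp only [ha, hb, MonoidAlgebra.single_mul_single]
  have := map_sum (MonoidAlgebra.singleAddHom (R := k) (γ * δ)) (fun l => a i l * b l j) Finset.univ
  exact this.symm

theorem IsMono.pow {γ : G} {A : Matrix ι ι (MonoidAlgebra k G)} (hA : IsMono γ A) (n : ℕ) :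
    IsMono (γ ^ n) (A ^ n) := by
  induction n with
  | zero => simpa using IsMono.one
  | succ n ih => rw [pow_succ, pow_succ]; exact ih.mul hA

theorem IsMono.list_prod {I : Type*} (g : I → G) (x : I → Matrix ι ι (MonoidAlgebra k G))
    (hx : ∀ i, IsMono (g i) (x i)) (l : List I) :
    IsMono (l.map g).prod (l.map x).prod := by
  induction l with
  | nil => simpa using IsMono.one
  | cons a l ih =>
    rw [List.map_cons, List.map_cons, List.prod_cons, List.prod_cons]
    exact (hx a).mul ih

omit [DecidableEq ι] in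
theorem tau_trace_mono {γ h : G} {A : Matrix ι ι (MonoidAlgebra k G)} (hA : IsMono γ A)
    (hγ : ¬ IsConj γ h) : tau h (Matrix.trace A) = 0 := by
  rw [Matrix.trace, map_sum]
  refine Finset.sum_eq_zero fun i _ => ?_
  obtain ⟨c, hc⟩ := hA i i
  rw [Matrix.diag_apply, hc, tau_single, if_neg hγ]

end Mono

section Main

variable {G : Type*} [Group G]

theorem not_dvd_orderOf_pow {p : ℕ} (hp : p.Prime) (γ : G) (hγ : IsOfFinOrder γ) (m : ℕ)
    (hm : (orderOf γ).factorization p ≤ m) : ¬ p ∣ orderOf (γ ^ (p ^ m)) := by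
  have h0 : orderOf γ ≠ 0 := (orderOf_pos_iff.2 hγ).ne'
  rw [orderOf_pow' γ (pow_ne_zero _ hp.ne_zero)]
  have h1 : Nat.gcd (orderOf γ) (p ^ m) = p ^ (orderOf γ).factorization p := by
    apply Nat.dvd_antisymm
    · obtain ⟨i, hi, hi'⟩ := (Nat.dvd_prime_pow hp).1 (Nat.gcd_dvd_right (orderOf γ) (p ^ m))
      rw [hi']
      apply Nat.pow_dvd_pow
      rw [← hp.pow_dvd_iff_le_factorization h0, ← hi']
      exact Nat.gcd_dvd_left _ _
    · exact Nat.dvd_gcd (Nat.ordProj_dvd _ _) (Nat.pow_dvd_pow p hm)
  rw [h1]
  exact Nat.not_dvd_ordCompl hp h0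

/-- An idempotent matrix over `ℤ_p[G]` has vanishing Hattori-Stallings rank at every element of
finite order divisible by `p`. -/
theorem padic_tau_trace_eq_zero {p : ℕ} [hpf : Fact p.Prime] {ι : Type*} [Fintype ι]
    [DecidableEq ι] (Q : Matrix ι ι (MonoidAlgebra ℤ_[p] G)) (hQ : Q * Q = Q) (h : G)
    (hfin : IsOfFinOrder h) (hp : p ∣ orderOf h) : tau h (Matrix.trace Q) = 0 := by
  classical
  have hprime : p.Prime := hpf.out
  -- the finite set of group elements involved
  let F : Finset G := Finset.univ.biUnion fun q : ι × ι => (Q q.1 q.2).coeff.support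
  let x : F → Matrix ι ι (MonoidAlgebra ℤ_[p] G) := fun g =>
    Matrix.of fun i j => MonoidAlgebra.single (g : G) ((Q i j).coeff g)
  have hmono : ∀ g : F, IsMono (g : G) (x g) := fun g i j => ⟨_, rfl⟩
  have hsum : Q = ∑ g : F, x g := by
    refine Matrix.ext fun i j => ?_
    rw [Matrix.sum_apply]
    have h1 : ∑ g : F, x g i j = ∑ g ∈ F, MonoidAlgebra.single g ((Q i j).coeff g) := by
      rw [← Finset.sum_coe_sort F (fun g => MonoidAlgebra.single g ((Q i j).coeff g))]
      rfl
    rw [h1]
    have h2 : (Q i j).coeff.support ⊆ F := by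
      intro g hg
      exact Finset.mem_biUnion.2 ⟨(i, j), Finset.mem_univ _, hg⟩
    have h3 := Finset.sum_subset h2 (f := fun g => MonoidAlgebra.single g ((Q i j).coeff g))
      (fun g _ hg => by
        rw [Finsupp.notMem_support_iff.1 hg]
        simp)
    rw [← h3]
    exact (MonoidAlgebra.sum_coeff_single (Q i j)).symm
  have hpow : ∀ n : ℕ, n ≠ 0 → Q ^ n = Q := by
    intro n hn
    obtain ⟨m, rfl⟩ := Nat.exists_eq_succ_of_ne_zero hn
    induction m with
    | zero => simp
    | succ m ih =>
      rw [Nat.succ_eq_add_one, pow_succ, ih (by omega), hQ]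
  let φ : Matrix ι ι (MonoidAlgebra ℤ_[p] G) →+ ℤ_[p] :=
    (tau h).comp (Matrix.traceAddMonoidHom ι (MonoidAlgebra ℤ_[p] G))
  have hφ : ∀ a b, φ (a * b) = φ (b * a) := fun a b =>
    trace_comm_of_tracial (tau h) (tau_mul_comm h) a b
  have main : ∀ j : ℕ, (p : ℤ_[p]) ^ (j + 1) ∣ tau h (Matrix.trace Q) := by
    intro j
    -- bound for the p-parts of the orders of the products of `p ^ j` elements of `F`
    let γ : (Fin (p ^ j) → F) → G := fun v => (List.ofFn fun i => ((v i : F) : G)).prod
    let m : ℕ := Finset.univ.sup fun v => (orderOf (γ v)).factorization p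
    obtain ⟨s, c, hs⟩ := tracial_pow_mod (p := p) φ hφ x j (j + m) (by omega)
    rw [← hsum, hpow _ (pow_ne_zero _ hprime.ne_zero)] at hs
    have hQ' : φ Q = tau h (Matrix.trace Q) := rfl
    rw [← hQ', hs, Finset.sum_eq_zero, zero_add]
    · exact Dvd.intro _ rfl
    intro w _
    let v : Fin (p ^ j) → F := fun i => w ((i : ℕ) : ZMod (p ^ (j + m)))
    have hlist : ((List.range (p ^ j)).map fun i : ℕ => x (w (i : ZMod (p ^ (j + m))))) =
        (List.ofFn v).map x := by
      rw [List.ofFn_eq_map, ← List.map_coe_finRange_eq_range, List.map_map, List.map_map]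
      rfl
    have hmono' : IsMono (γ v) ((List.ofFn v).map x).prod := by
      have := IsMono.list_prod (fun g : F => (g : G)) x hmono (List.ofFn v)
      rw [List.map_ofFn] at this
      exact this
    rw [hlist]
    refine tau_trace_mono (hmono'.pow _) ?_
    intro hconj
    have hm : (orderOf (γ v)).factorization p ≤ m :=
      Finset.le_sup (f := fun v => (orderOf (γ v)).factorization p) (Finset.mem_univ v)
    have hfin' : IsOfFinOrder (γ v) := by
      have h1 : orderOf (γ v ^ p ^ (j + m - j)) = orderOf h := by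
        obtain ⟨u, hu⟩ := hconj
        exact hu.orderOf_eq (u : G)
      have h2 : IsOfFinOrder (γ v ^ p ^ (j + m - j)) := by
        rw [← orderOf_pos_iff, h1]
        exact orderOf_pos_iff.2 hfin
      exact IsOfFinOrder.of_pow h2 (pow_ne_zero _ hprime.ne_zero)
    have h3 := not_dvd_orderOf_pow hprime (γ v) hfin' (j + m - j) (by omega)
    have h1 : orderOf (γ v ^ p ^ (j + m - j)) = orderOf h := by
      obtain ⟨u, hu⟩ := hconj
      exact hu.orderOf_eq (u : G)
    rw [h1] at h3
    exact h3 hp
  by_contra hne
  have h1 := main (tau h (Matrix.trace Q)).valuation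
  have h2 := (PadicInt.mem_span_pow_iff_le_valuation _ hne _).1
    (Ideal.mem_span_singleton.2 h1)
  omega

end Main

end Pool.Agent.Lib25
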