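import Pool.Agent.Lib_helper25.Traces

/-!
# Finite windows of Toeplitz-like idempotents

Let `X`, `Y` be matrices over `S[t,t⁻¹]` with `Y X = 1` and `X Y = A ⊕ B`, where `A` has entries in
`S[t]` and `B` has entries in `S[t⁻¹]`.  Then `v ↦ Y (X v)₊` is an idempotent operator which is the
identity in high degrees and zero in low degrees; its restriction to a finite window is an honest
idempotent matrix over `S` whose trace is computed by the residue of `Y dX`.
-/

open Matrix

namespace Pool.Agent.Lib25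

section Window

variable {S : Type*} [Ring S]

/-- All coefficients in degrees `< d` vanish. -/
def DegGE (d : ℤ) (x : LaurentPolynomial S) : Prop := ∀ n < d, x.coeff n = 0

/-- All coefficients in degrees `> d` vanish. -/
def DegLE (d : ℤ) (x : LaurentPolynomial S) : Prop := ∀ n, d < n → x.coeff n = 0

theorem DegGE.mul {d e : ℤ} {x y : LaurentPolynomial S} (hx : DegGE d x) (hy : DegGE e y) :
    DegGE (d + e) (x * y) := by
  classical
  intro n hn
  rw [AddMonoidAlgebra.coeff_mul]
  refine Finset.sum_eq_zero fun i _ => Finset.sum_eq_zero fun j _ => ?_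
  change (if i + j = n then x.coeff i * y.coeff j else 0) = 0
  split_ifs with h
  · rcases lt_or_ge i d with hi | hi
    · rw [hx i hi, zero_mul]
    · have hj : j < e := by omega
      rw [hy j hj, mul_zero]
  · rfl

theorem DegLE.mul {d e : ℤ} {x y : LaurentPolynomial S} (hx : DegLE d x) (hy : DegLE e y) :
    DegLE (d + e) (x * y) := by
  classical
  intro n hn
  rw [AddMonoidAlgebra.coeff_mul]
  refine Finset.sum_eq_zero fun i _ => Finset.sum_eq_zero fun j _ => ?_
  change (if i + j = n then x.coeff i * y.coeff j else 0) = 0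
  split_ifs with h
  · rcases lt_or_ge d i with hi | hi
    · rw [hx i hi, zero_mul]
    · have hj : e < j := by omega
      rw [hy j hj, mul_zero]
  · rfl

theorem DegGE.mono {d e : ℤ} {x : LaurentPolynomial S} (hx : DegGE d x) (h : e ≤ d) :
    DegGE e x := fun n hn => hx n (by omega)

theorem DegLE.mono {d e : ℤ} {x : LaurentPolynomial S} (hx : DegLE d x) (h : d ≤ e) :
    DegLE e x := fun n hn => hx n (by omega)

theorem DegGE.zero (d : ℤ) : DegGE d (0 : LaurentPolynomial S) := fun n _ => by simp

theorem DegLE.zero (d : ℤ) : DegLE d (0 : LaurentPolynomial S) := fun n _ => by simp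

theorem DegGE.add {d : ℤ} {x y : LaurentPolynomial S} (hx : DegGE d x) (hy : DegGE d y) :
    DegGE d (x + y) := fun n hn => by simp [hx n hn, hy n hn]

theorem DegLE.add {d : ℤ} {x y : LaurentPolynomial S} (hx : DegLE d x) (hy : DegLE d y) :
    DegLE d (x + y) := fun n hn => by simp [hx n hn, hy n hn]

theorem DegGE.sum {ι : Type*} {d : ℤ} {s : Finset ι} {x : ι → LaurentPolynomial S}
    (hx : ∀ i ∈ s, DegGE d (x i)) : DegGE d (∑ i ∈ s, x i) := by
  classical
  induction s using Finset.induction_on with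
  | empty => simpa using DegGE.zero d
  | insert a s ha ih =>
    rw [Finset.sum_insert ha]
    exact (hx a (Finset.mem_insert_self a s)).add
      (ih fun i hi => hx i (Finset.mem_insert_of_mem hi))

theorem DegLE.sum {ι : Type*} {d : ℤ} {s : Finset ι} {x : ι → LaurentPolynomial S}
    (hx : ∀ i ∈ s, DegLE d (x i)) : DegLE d (∑ i ∈ s, x i) := by
  classical
  induction s using Finset.induction_on with
  | empty => simpa using DegLE.zero d
  | insert a s ha ih =>
    rw [Finset.sum_insert ha]
    exact (hx a (Finset.mem_insert_self a s)).add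
      (ih fun i hi => hx i (Finset.mem_insert_of_mem hi))

/-- Every Laurent polynomial is supported in some interval `[-D, D]`. -/
theorem exists_bound (x : LaurentPolynomial S) : ∃ D : ℕ, DegGE (-(D : ℤ)) x ∧ DegLE (D : ℤ) x := by
  refine ⟨x.coeff.support.sup fun n => n.natAbs, ?_, ?_⟩
  · intro n hn
    by_contra h
    have h1 : n ∈ x.coeff.support := Finsupp.mem_support_iff.2 h
    have h2 := Finset.le_sup (f := fun n : ℤ => n.natAbs) h1
    omega
  · intro n hn
    by_contra h
    have h1 : n ∈ x.coeff.support := Finsupp.mem_support_iff.2 h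
    have h2 := Finset.le_sup (f := fun n : ℤ => n.natAbs) h1
    omega

theorem exists_bound_matrix {m n : Type*} [Fintype m] [Fintype n]
    (X : Matrix m n (LaurentPolynomial S)) :
    ∃ D : ℕ, ∀ i j, DegGE (-(D : ℤ)) (X i j) ∧ DegLE (D : ℤ) (X i j) := by
  choose D hD using fun p : m × n => exists_bound (X p.1 p.2)
  refine ⟨Finset.univ.sup D, fun i j => ?_⟩
  have h := Finset.le_sup (f := D) (Finset.mem_univ (i, j))
  exact ⟨(hD (i, j)).1.mono (by omega), (hD (i, j)).2.mono (by omega)⟩

/-- Truncation: keep the terms of nonnegative degree. -/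
noncomputable def piPos : LaurentPolynomial S →+ LaurentPolynomial S :=
  (Finsupp.liftAddHom (fun n : ℤ =>
    if 0 ≤ n then (AddMonoidAlgebra.singleAddHom n : S →+ LaurentPolynomial S) else 0)).comp
    (AddMonoidAlgebra.coeffAddEquiv (R := S) (M := ℤ)).toAddMonoidHom

theorem piPos_single (n : ℤ) (a : S) :
    piPos (AddMonoidAlgebra.single n a : LaurentPolynomial S) =
      if 0 ≤ n then AddMonoidAlgebra.single n a else 0 := by
  simp only [piPos, AddMonoidHom.comp_apply]
  have : (AddMonoidAlgebra.coeffAddEquiv (R := S) (M := ℤ)).toAddMonoidHom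
      (AddMonoidAlgebra.single n a) = Finsupp.single n a := rfl
  rw [this, Finsupp.liftAddHom_apply_single]
  split_ifs <;> rfl

theorem coeff_piPos (x : LaurentPolynomial S) (n : ℤ) :
    (piPos x).coeff n = if 0 ≤ n then x.coeff n else 0 := by
  induction x using AddMonoidAlgebra.induction_linear with
  | zero => simp
  | add f g hf hg =>
    rw [map_add, AddMonoidAlgebra.coeff_add, Finsupp.add_apply, hf, hg, AddMonoidAlgebra.coeff_add,
      Finsupp.add_apply]
    split_ifs <;> simp
  | single m a =>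
    rw [piPos_single]
    by_cases hm : 0 ≤ m
    · rw [if_pos hm, AddMonoidAlgebra.coeff_single, Finsupp.single_apply]
      split_ifs <;> first | rfl | omega
    · rw [if_neg hm, AddMonoidAlgebra.coeff_single, Finsupp.single_apply]
      split_ifs <;> first | rfl | omega

theorem piPos_mul_C (x : LaurentPolynomial S) (s : S) :
    piPos (x * LaurentPolynomial.C s) = piPos x * LaurentPolynomial.C s := by
  ext n
  have h : (LaurentPolynomial.C s : LaurentPolynomial S) = AddMonoidAlgebra.single 0 s := rfl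
  rw [coeff_piPos, h, AddMonoidAlgebra.coeff_mul_single_apply,
    AddMonoidAlgebra.coeff_mul_single_apply, coeff_piPos]
  simp only [neg_zero, add_zero]
  split_ifs <;> simp

theorem degGE_piPos (x : LaurentPolynomial S) : DegGE 0 (piPos x) := fun n hn => by
  rw [coeff_piPos, if_neg (by omega)]

theorem degLE_sub_piPos (x : LaurentPolynomial S) : DegLE (-1) (x - piPos x) := fun n hn => by
  rw [AddMonoidAlgebra.coeff_sub, Finsupp.sub_apply, coeff_piPos, if_pos (by omega), sub_self]

theorem piPos_of_degGE {x : LaurentPolynomial S} (h : DegGE 0 x) : piPos x = x := by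
  ext n
  rw [coeff_piPos]
  split_ifs with hn
  · rfl
  · rw [h n (by omega)]

theorem piPos_of_degLE {x : LaurentPolynomial S} (h : DegLE (-1) x) : piPos x = 0 := by
  ext n
  rw [coeff_piPos]
  split_ifs with hn
  · rw [h n (by omega)]; rfl
  · rfl

variable {a m : Type*} [Fintype a] [Fintype m]

/-- The Toeplitz-like operator `v ↦ Y (X v)₊`. -/
noncomputable def qOp (X : Matrix a m (LaurentPolynomial S)) (Y : Matrix m a (LaurentPolynomial S)) :
    (m → LaurentPolynomial S) →+ (m → LaurentPolynomial S) where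
  toFun v := Y *ᵥ fun i => piPos ((X *ᵥ v) i)
  map_zero' := by
    funext i
    simp [Matrix.mulVec, dotProduct]
  map_add' v w := by
    funext i
    simp [Matrix.mulVec, dotProduct, mul_add, Finset.sum_add_distrib]

theorem qOp_apply (X : Matrix a m (LaurentPolynomial S)) (Y : Matrix m a (LaurentPolynomial S))
    (v : m → LaurentPolynomial S) :
    qOp X Y v = Y *ᵥ fun i => piPos ((X *ᵥ v) i) := rfl

theorem mulVec_mul_right {b c : Type*} [Fintype c] (X : Matrix b c (LaurentPolynomial S))
    (v : c → LaurentPolynomial S) (s : LaurentPolynomial S) :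
    X *ᵥ (fun i => v i * s) = fun i => (X *ᵥ v) i * s := by
  funext i
  simp only [Matrix.mulVec, dotProduct, Finset.sum_mul, mul_assoc]

theorem qOp_mul_C (X : Matrix a m (LaurentPolynomial S)) (Y : Matrix m a (LaurentPolynomial S))
    (v : m → LaurentPolynomial S) (s : S) :
    qOp X Y (fun i => v i * LaurentPolynomial.C s) =
      fun i => qOp X Y v i * LaurentPolynomial.C s := by
  rw [qOp_apply, qOp_apply, mulVec_mul_right]
  simp only [piPos_mul_C]
  rw [mulVec_mul_right]

theorem qOp_sum {ι : Type*} (X : Matrix a m (LaurentPolynomial S))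
    (Y : Matrix m a (LaurentPolynomial S)) (s : Finset ι) (v : ι → m → LaurentPolynomial S) :
    qOp X Y (∑ i ∈ s, v i) = ∑ i ∈ s, qOp X Y (v i) := map_sum _ _ _

theorem mulVec_degGE {b c : Type*} [Fintype c] {d e : ℤ} (X : Matrix b c (LaurentPolynomial S))
    (v : c → LaurentPolynomial S) (hX : ∀ i j, DegGE d (X i j)) (hv : ∀ j, DegGE e (v j)) (i : b) :
    DegGE (d + e) ((X *ᵥ v) i) :=
  DegGE.sum fun j _ => (hX i j).mul (hv j)

theorem mulVec_degLE {b c : Type*} [Fintype c] {d e : ℤ} (X : Matrix b c (LaurentPolynomial S))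
    (v : c → LaurentPolynomial S) (hX : ∀ i j, DegLE d (X i j)) (hv : ∀ j, DegLE e (v j)) (i : b) :
    DegLE (d + e) ((X *ᵥ v) i) :=
  DegLE.sum fun j _ => (hX i j).mul (hv j)

/-- Values of `qOp` have degrees `≥ -D` if `Y` does. -/
theorem qOp_degGE {X : Matrix a m (LaurentPolynomial S)} {Y : Matrix m a (LaurentPolynomial S)}
    {D : ℤ} (hY : ∀ i j, DegGE (-D) (Y i j)) (v : m → LaurentPolynomial S) (i : m) :
    DegGE (-D) (qOp X Y v i) := by
  have := mulVec_degGE Y (fun i => piPos ((X *ᵥ v) i)) hY (fun j => degGE_piPos _) i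
  rw [add_zero] at this
  exact this

/-- If `Y X = 1` and `v` has degrees `< D`, then so does `qOp v`. -/
theorem qOp_degLE [DecidableEq m] {X : Matrix a m (LaurentPolynomial S)}
    {Y : Matrix m a (LaurentPolynomial S)} {D : ℤ} (hYX : Y * X = 1)
    (hY : ∀ i j, DegLE D (Y i j)) (v : m → LaurentPolynomial S) (hv : ∀ i, DegLE (D - 1) (v i))
    (i : m) : DegLE (D - 1) (qOp X Y v i) := by
  have h1 : qOp X Y v = v - Y *ᵥ (fun i => (X *ᵥ v) i - piPos ((X *ᵥ v) i)) := by
    have h2 : Y *ᵥ (X *ᵥ v) = v := by rw [Matrix.mulVec_mulVec, hYX, Matrix.one_mulVec]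
    have h3 : (fun i => (X *ᵥ v) i - piPos ((X *ᵥ v) i)) =
        (X *ᵥ v) - fun i => piPos ((X *ᵥ v) i) := rfl
    rw [h3, Matrix.mulVec_sub, h2, qOp_apply]
    abel
  have h4 := mulVec_degLE Y (fun i => (X *ᵥ v) i - piPos ((X *ᵥ v) i)) hY
    (fun j => degLE_sub_piPos _) i
  intro n hn
  rw [h1, Pi.sub_apply, AddMonoidAlgebra.coeff_sub, Finsupp.sub_apply, hv i n hn,
    h4 n (by omega), sub_zero]

section Idem

variable {a1 a2 : Type*} [Fintype a1] [Fintype a2]

/-- The operator `qOp` is idempotent when `Y X = 1` and `X Y = A ⊕ B` with `A` in nonnegative and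
`B` in nonpositive degrees. -/
theorem qOp_idem [DecidableEq m] {X : Matrix (a1 ⊕ a2) m (LaurentPolynomial S)}
    {Y : Matrix m (a1 ⊕ a2) (LaurentPolynomial S)} {A : Matrix a1 a1 (LaurentPolynomial S)}
    {B : Matrix a2 a2 (LaurentPolynomial S)} (hYX : Y * X = 1)
    (hXY : X * Y = Matrix.fromBlocks A 0 0 B) (hA : ∀ i j, DegGE 0 (A i j))
    (hB : ∀ i j, DegLE 0 (B i j)) (v : m → LaurentPolynomial S) :
    qOp X Y (qOp X Y v) = qOp X Y v := by
  classical
  set z : a1 ⊕ a2 → LaurentPolynomial S := X *ᵥ v with hz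
  set w : a1 ⊕ a2 → LaurentPolynomial S := fun i => piPos (z i) with hw
  have hEz : Matrix.fromBlocks A 0 0 B *ᵥ z = z := by
    rw [← hXY, hz, Matrix.mulVec_mulVec, Matrix.mul_assoc, hYX, Matrix.mul_one]
  -- components
  have hEz1 : A *ᵥ (z ∘ Sum.inl) = z ∘ Sum.inl := by
    have := congrArg (fun f => f ∘ Sum.inl) hEz
    simpa [Matrix.fromBlocks_mulVec] using this
  have hEz2 : B *ᵥ (z ∘ Sum.inr) = z ∘ Sum.inr := by
    have := congrArg (fun f => f ∘ Sum.inr) hEz
    simpa [Matrix.fromBlocks_mulVec] using this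
  have hYE : Y * Matrix.fromBlocks A 0 0 B = Y := by
    rw [← hXY, ← Matrix.mul_assoc, hYX, Matrix.one_mul]
  have h1 : qOp X Y v = Y *ᵥ w := rfl
  have h2 : X *ᵥ (Y *ᵥ w) = Matrix.fromBlocks A 0 0 B *ᵥ w := by
    rw [Matrix.mulVec_mulVec, hXY]
  -- the first component
  have h3 : ∀ i, piPos ((Matrix.fromBlocks A 0 0 B *ᵥ w) (Sum.inl i)) =
      (Matrix.fromBlocks A 0 0 B *ᵥ w) (Sum.inl i) := by
    intro i
    apply piPos_of_degGE
    have h := mulVec_degGE A (w ∘ Sum.inl) hA (fun j => degGE_piPos _) i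
    simpa [Matrix.fromBlocks_mulVec] using h
  have h4 : ∀ i, piPos ((Matrix.fromBlocks A 0 0 B *ᵥ w) (Sum.inr i)) = w (Sum.inr i) := by
    intro i
    have h5 : (Matrix.fromBlocks A 0 0 B *ᵥ w) (Sum.inr i) = (B *ᵥ (w ∘ Sum.inr)) i := by
      simp [Matrix.fromBlocks_mulVec]
    have h6 := mulVec_degLE B (fun j => z (Sum.inr j) - w (Sum.inr j)) hB
      (fun j => degLE_sub_piPos _) i
    have h7 : (B *ᵥ (w ∘ Sum.inr)) i =
        z (Sum.inr i) - (B *ᵥ fun j => z (Sum.inr j) - w (Sum.inr j)) i := by
      have h8 : (fun j => z (Sum.inr j) - w (Sum.inr j)) = z ∘ Sum.inr - w ∘ Sum.inr := rfl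
      rw [h8, Matrix.mulVec_sub, hEz2]
      simp
    have h10 : piPos ((B *ᵥ fun j => z (Sum.inr j) - w (Sum.inr j)) i) = 0 :=
      piPos_of_degLE (by simpa using h6)
    rw [h5, h7, map_sub, h10, sub_zero]
  have h9 : (fun i => piPos ((X *ᵥ (Y *ᵥ w)) i)) =
      Matrix.fromBlocks A 0 0 B *ᵥ (Sum.elim (w ∘ Sum.inl) (0 : a2 → LaurentPolynomial S)) +
        Sum.elim (0 : a1 → LaurentPolynomial S) (w ∘ Sum.inr) := by
    rw [h2]
    funext i
    rcases i with i | i
    · rw [h3]
      simp [Matrix.fromBlocks_mulVec]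
    · rw [h4]
      simp [Matrix.fromBlocks_mulVec]
  rw [h1, qOp_apply, h9, Matrix.mulVec_add, Matrix.mulVec_mulVec, hYE, ← Matrix.mulVec_add]
  congr 1
  funext i
  rcases i with i | i <;> simp

end Idem

/-- The integer in `[-D, D)` corresponding to an element of `Fin (2 * D)`. -/
def win (D : ℕ) (i : Fin (2 * D)) : ℤ := (i : ℤ) - D

theorem coeff_T_mul_C (k n : ℤ) (s : S) :
    ((LaurentPolynomial.T k * LaurentPolynomial.C s : LaurentPolynomial S)).coeff n =
      if k = n then s else 0 := by
  have h : (LaurentPolynomial.C s : LaurentPolynomial S) = AddMonoidAlgebra.single 0 s := rfl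
  rw [h, AddMonoidAlgebra.coeff_mul_single_apply, LaurentPolynomial.T_apply]
  split_ifs <;> first | (simp; done) | (exfalso; omega)

theorem expand_window [DecidableEq m] (D : ℕ) (v : m → LaurentPolynomial S)
    (h1 : ∀ i, DegGE (-(D : ℤ)) (v i)) (h2 : ∀ i, DegLE ((D : ℤ) - 1) (v i)) :
    v = ∑ p : Fin (2 * D) × m, fun α =>
      (Pi.single p.2 (LaurentPolynomial.T (win D p.1)) : m → LaurentPolynomial S) α *
        LaurentPolynomial.C ((v p.2).coeff (win D p.1)) := by
  funext α
  rw [Finset.sum_apply, Fintype.sum_prod_type_right,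
    Finset.sum_eq_single α (fun b _ hb => by simp [Pi.single_eq_of_ne (Ne.symm hb)])
      (fun h => (h (Finset.mem_univ α)).elim)]
  ext n
  simp only [Pi.single_eq_same]
  rw [AddMonoidAlgebra.coeff_sum, Finset.sum_apply']
  simp only [coeff_T_mul_C]
  by_cases hn : -(D : ℤ) ≤ n ∧ n < D
  · rw [Finset.sum_eq_single ⟨(n + D).toNat, by omega⟩]
    · rw [if_pos (by simp only [win]; omega)]
      congr 1
      simp only [win]
      omega
    · intro b _ hb
      rw [if_neg]
      intro h
      apply hb
      ext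
      simp only [win] at h
      simp only
      omega
    · intro h
      exact (h (Finset.mem_univ _)).elim
  · rw [Finset.sum_eq_zero]
    · rcases lt_or_ge n (-(D : ℤ)) with h | h
      · exact h1 α n h
      · exact h2 α n (by omega)
    · intro i _
      rw [if_neg]
      intro h
      simp only [win] at h
      have := i.2
      omega

/-- The matrix of `qOp` on the window `[-D, D)`. -/
noncomputable def winMat [DecidableEq m] (D : ℕ) (X : Matrix a m (LaurentPolynomial S))
    (Y : Matrix m a (LaurentPolynomial S)) : Matrix (Fin (2 * D) × m) (Fin (2 * D) × m) S :=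
  fun p q => (qOp X Y (Pi.single q.2 (LaurentPolynomial.T (win D q.1))) p.2).coeff (win D p.1)

theorem winMat_idem [DecidableEq m] {D : ℕ} {X : Matrix a m (LaurentPolynomial S)}
    {Y : Matrix m a (LaurentPolynomial S)} (hYX : Y * X = 1)
    (hq : ∀ v, qOp X Y (qOp X Y v) = qOp X Y v)
    (hY : ∀ i j, DegGE (-(D : ℤ)) (Y i j) ∧ DegLE (D : ℤ) (Y i j)) :
    winMat D X Y * winMat D X Y = winMat D X Y := by
  ext ⟨i, α⟩ ⟨j, β⟩
  set e : Fin (2 * D) × m → m → LaurentPolynomial S :=
    fun p => Pi.single p.2 (LaurentPolynomial.T (win D p.1)) with he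
  set w : m → LaurentPolynomial S := qOp X Y (e (j, β)) with hw
  have hw1 : ∀ i, DegGE (-(D : ℤ)) (w i) := qOp_degGE (fun i j => (hY i j).1) _
  have hw2 : ∀ i, DegLE ((D : ℤ) - 1) (w i) := by
    refine qOp_degLE hYX (fun i j => (hY i j).2) _ (fun γ n hn => ?_)
    simp only [he]
    by_cases hγ : γ = β
    · subst hγ
      rw [Pi.single_eq_same, LaurentPolynomial.T_apply, if_neg]
      simp only [win]
      have := j.2
      omega
    · rw [Pi.single_eq_of_ne hγ]
      simp
  have h1 := expand_window D w hw1 hw2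
  have h2 : qOp X Y w = ∑ p : Fin (2 * D) × m, fun α =>
      qOp X Y (e p) α * LaurentPolynomial.C ((w p.2).coeff (win D p.1)) := by
    conv_lhs => rw [h1]
    rw [qOp_sum]
    refine Finset.sum_congr rfl fun p _ => ?_
    rw [qOp_mul_C]
  rw [Matrix.mul_apply]
  have h3 : winMat D X Y (i, α) (j, β) = (qOp X Y w α).coeff (win D i) := by
    rw [hw, hq]
    rfl
  rw [h3, h2, Finset.sum_apply, AddMonoidAlgebra.coeff_sum, Finset.sum_apply']
  refine Finset.sum_congr rfl fun p _ => ?_
  have h4 : ∀ s : S, (LaurentPolynomial.C s : LaurentPolynomial S) = AddMonoidAlgebra.single 0 s :=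
    fun _ => rfl
  rw [h4, AddMonoidAlgebra.coeff_mul_single_apply, neg_zero, add_zero]
  rfl

theorem trace_scalar_single (D : ℕ) (y : LaurentPolynomial S) (l : ℤ) (s : S)
    (hl : -(D : ℤ) ≤ l ∧ l ≤ D) :
    ∑ i : Fin (2 * D), (y * piPos (AddMonoidAlgebra.single l s *
      LaurentPolynomial.T (win D i))).coeff (win D i) =
      (D : ℤ) • (y * AddMonoidAlgebra.single l s).coeff 0 +
        (y * DL (AddMonoidAlgebra.single l s)).coeff 0 := by
  have hT : ∀ k : ℤ, (LaurentPolynomial.T k : LaurentPolynomial S) = AddMonoidAlgebra.single k 1 :=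
    fun _ => rfl
  rw [DL_single, AddMonoidAlgebra.coeff_mul_single_apply, AddMonoidAlgebra.coeff_mul_single_apply,
    mul_smul_comm, ← add_smul, zero_add]
  have h1 : ∀ i : Fin (2 * D), (y * piPos (AddMonoidAlgebra.single l s *
      LaurentPolynomial.T (win D i))).coeff (win D i) =
      if 0 ≤ l + win D i then y.coeff (-l) * s else 0 := by
    intro i
    rw [hT, AddMonoidAlgebra.single_mul_single, piPos_single, mul_one]
    split_ifs
    · rw [AddMonoidAlgebra.coeff_mul_single_apply]
      congr 2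
      omega
    · simp
  rw [Finset.sum_congr rfl fun i _ => h1 i, Finset.sum_ite, Finset.sum_const_zero, add_zero,
    Finset.sum_const, ← natCast_zsmul]
  congr 1
  have h2 : (Finset.univ.filter fun i : Fin (2 * D) => 0 ≤ l + win D i).card =
      (Finset.Ico ((D : ℤ) - l).toNat (2 * D)).card := by
    refine Finset.card_bij (fun i _ => (i : ℕ)) ?_ ?_ ?_
    · intro i hi
      have hi' := (Finset.mem_filter.1 hi).2
      unfold win at hi'
      rw [Finset.mem_Ico]
      have := i.2
      omega
    · intro i _ j _ h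
      exact Fin.ext h
    · intro b hb
      rw [Finset.mem_Ico] at hb
      refine ⟨⟨b, hb.2⟩, ?_, rfl⟩
      refine Finset.mem_filter.2 ⟨Finset.mem_univ _, ?_⟩
      unfold win
      simp only
      omega
  rw [h2, Nat.card_Ico]
  omega

theorem trace_scalar (D : ℕ) (y x : LaurentPolynomial S) (h1 : DegGE (-(D : ℤ)) x)
    (h2 : DegLE (D : ℤ) x) :
    ∑ i : Fin (2 * D), (y * piPos (x * LaurentPolynomial.T (win D i))).coeff (win D i) =
      (D : ℤ) • (y * x).coeff 0 + (y * DL x).coeff 0 := by
  let F : LaurentPolynomial S →+ S :=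
    { toFun := fun x => ∑ i : Fin (2 * D),
        (y * piPos (x * LaurentPolynomial.T (win D i))).coeff (win D i)
      map_zero' := by simp
      map_add' := fun a b => by simp [add_mul, mul_add, Finset.sum_add_distrib] }
  let G : LaurentPolynomial S →+ S :=
    { toFun := fun x => (D : ℤ) • (y * x).coeff 0 + (y * DL x).coeff 0
      map_zero' := by simp
      map_add' := fun a b => by simp [mul_add]; abel }
  have hx : x = ∑ l ∈ x.coeff.support, AddMonoidAlgebra.single l (x.coeff l) :=
    (AddMonoidAlgebra.sum_coeff_single x).symm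
  have key : F x = G x := by
    rw [hx, map_sum, map_sum]
    refine Finset.sum_congr rfl fun l hl => ?_
    refine trace_scalar_single D y l _ ⟨?_, ?_⟩
    · by_contra h
      exact (Finsupp.mem_support_iff.1 hl) (h1 l (by omega))
    · by_contra h
      exact (Finsupp.mem_support_iff.1 hl) (h2 l (by omega))
  exact key

theorem winMat_trace [DecidableEq m] {D : ℕ} {X : Matrix a m (LaurentPolynomial S)}
    {Y : Matrix m a (LaurentPolynomial S)} (hYX : Y * X = 1)
    (hX : ∀ i j, DegGE (-(D : ℤ)) (X i j) ∧ DegLE (D : ℤ) (X i j)) :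
    Matrix.trace (winMat D X Y) = ((D * Fintype.card m : ℕ) : S) +
      coeffZero (Matrix.trace (Y * X.map DL)) := by
  have h0 : ∀ (i : Fin (2 * D)) (α : m), winMat D X Y (i, α) (i, α) =
      ∑ k : a, (Y α k * piPos (X k α * LaurentPolynomial.T (win D i))).coeff (win D i) := by
    intro i α
    have : winMat D X Y (i, α) (i, α) =
      ((Y *ᵥ fun k => piPos ((X *ᵥ Pi.single α (LaurentPolynomial.T (win D i))) k)) α).coeff
        (win D i) := rfl
    have hs : ∀ k, (X *ᵥ (Pi.single α (LaurentPolynomial.T (win D i)))) k =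
        X k α * LaurentPolynomial.T (win D i) := fun k => by
      simp [Matrix.mulVec, dotProduct, Pi.single_apply]
    rw [this]
    simp only [hs]
    simp only [Matrix.mulVec, dotProduct]
    rw [AddMonoidAlgebra.coeff_sum, Finset.sum_apply']
  rw [Matrix.trace, Fintype.sum_prod_type_right]
  simp only [Matrix.diag_apply, h0]
  have h1 : ∀ α : m, ∑ i : Fin (2 * D), ∑ k : a,
      (Y α k * piPos (X k α * LaurentPolynomial.T (win D i))).coeff (win D i) =
      (D : ℤ) • ((Y * X) α α).coeff 0 + ((Y * X.map DL) α α).coeff 0 := by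
    intro α
    rw [Finset.sum_comm, Finset.sum_congr rfl fun k _ =>
      trace_scalar D (Y α k) (X k α) (hX k α).1 (hX k α).2, Finset.sum_add_distrib,
      ← Finset.smul_sum, Matrix.mul_apply, Matrix.mul_apply, AddMonoidAlgebra.coeff_sum,
      AddMonoidAlgebra.coeff_sum, Finset.sum_apply', Finset.sum_apply']
    rfl
  rw [Finset.sum_congr rfl fun α _ => h1 α, Finset.sum_add_distrib]
  congr 1
  · rw [hYX]
    have h2 : ∀ α : m, ((1 : Matrix m m (LaurentPolynomial S)) α α).coeff 0 = (1 : S) := by
      intro α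
      rw [Matrix.one_apply_eq, ← LaurentPolynomial.T_zero, LaurentPolynomial.T_apply, if_pos rfl]
    simp only [h2]
    rw [Finset.sum_const, Finset.card_univ, natCast_zsmul, smul_smul, nsmul_eq_mul, mul_one,
      mul_comm]
  · rw [Matrix.trace]
    have : ∀ z : LaurentPolynomial S, coeffZero z = z.coeff 0 := fun _ => rfl
    rw [this, AddMonoidAlgebra.coeff_sum, Finset.sum_apply']
    rfl

end Window

/-- **Window lemma**. If `Y X = 1` and `X Y = A ⊕ B` over `S[t,t⁻¹]` with `A` in degrees `≥ 0` and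
`B` in degrees `≤ 0`, then there is an idempotent matrix `Q` over `S` whose trace is
`N + (coefficient of t⁰ of tr (Y · t dX/dt))` for some natural number `N`. -/
theorem window_lemma {S : Type*} [Ring S] {a1 a2 m : Type*} [Fintype a1] [Fintype a2] [Fintype m]
    [DecidableEq m] {X : Matrix (a1 ⊕ a2) m (LaurentPolynomial S)}
    {Y : Matrix m (a1 ⊕ a2) (LaurentPolynomial S)} {A : Matrix a1 a1 (LaurentPolynomial S)}
    {B : Matrix a2 a2 (LaurentPolynomial S)} (hYX : Y * X = 1)
    (hXY : X * Y = Matrix.fromBlocks A 0 0 B) (hA : ∀ i j, DegGE 0 (A i j))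
    (hB : ∀ i j, DegLE 0 (B i j)) :
    ∃ (D : ℕ) (Q : Matrix (Fin (2 * D) × m) (Fin (2 * D) × m) S) (N : ℕ), Q * Q = Q ∧
      Matrix.trace Q = (N : S) + coeffZero (Matrix.trace (Y * X.map DL)) := by
  obtain ⟨D1, h1⟩ := exists_bound_matrix X
  obtain ⟨D2, h2⟩ := exists_bound_matrix Y
  refine ⟨max D1 D2, winMat (max D1 D2) X Y, max D1 D2 * Fintype.card m, ?_, ?_⟩
  · exact winMat_idem hYX (qOp_idem hYX hXY hA hB)
      (fun i j => ⟨(h2 i j).1.mono (by push_cast; omega), (h2 i j).2.mono (by push_cast; omega)⟩)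
  · exact winMat_trace hYX
      (fun i j => ⟨(h1 i j).1.mono (by push_cast; omega), (h1 i j).2.mono (by push_cast; omega)⟩)

end Pool.Agent.Lib25
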