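import Pool.Agent.Lib_helper25.KDefs
import Pool.Agent.Lib_helper25.Window
import Pool.Agent.Lib_helper25.PTrace

/-!
# Detecting elements of `K_{-1}(ℤ[G])`
-/

open Matrix

namespace Pool.Agent.Lib25

section KLemmas

variable {R : Type*} [Ring R]

theorem K0.of_add (e f : IdemMat R) : K0.of (e.add f) = K0.of e + K0.of f :=
  (Algebra.GrothendieckAddGroup.of (M := IdemClass R)).map_add (IdemClass.mk e) (IdemClass.mk f)

theorem K0.of_eq_iff {a b : IdemClass R} :
    (Algebra.GrothendieckAddGroup.of a : Algebra.GrothendieckAddGroup (IdemClass R)) =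
      Algebra.GrothendieckAddGroup.of b ↔ ∃ c, c + a = c + b := by
  constructor
  · intro h
    obtain ⟨c, hc⟩ := (AddSubmonoid.LocalizationMap.eq_iff_exists _).1 h
    exact ⟨c, hc⟩
  · rintro ⟨c, hc⟩
    have h1 := congrArg (Algebra.GrothendieckAddGroup.of (M := IdemClass R)) hc
    rw [map_add, map_add] at h1
    exact add_left_cancel h1

/-- The identity matrix of size `n`. -/
def IdemMat.free (R : Type*) [Ring R] (n : ℕ) : IdemMat R := ⟨n, 1, by simp⟩

/-- The complementary idempotent. -/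
def IdemMat.compl (e : IdemMat R) : IdemMat R :=
  ⟨e.n, 1 - e.mat, by rw [mul_sub, sub_mul, sub_mul, e.idem]; simp⟩

theorem IdemMat.map_free {S : Type*} [Ring S] (φ : R →+* S) (n : ℕ) :
    (IdemMat.free R n).map φ = IdemMat.free S n := by
  unfold IdemMat.map IdemMat.free
  congr 1
  exact Matrix.map_one φ (map_zero φ) (map_one φ)

theorem IdemClass.mk_map {S : Type*} [Ring S] (φ : R →+* S) (e : IdemMat R) :
    IdemClass.map φ (IdemClass.mk e) = IdemClass.mk (e.map φ) := rfl

theorem IdemClass.mk_eq_iff {e f : IdemMat R} :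
    IdemClass.mk e = IdemClass.mk f ↔ MvN e.mat f.mat :=
  ⟨fun h => Quotient.exact h, fun h => Quotient.sound h⟩

theorem MvN.compl_blocks {m : Type*} [Fintype m] [DecidableEq m] {e : Matrix m m R}
    (he : e * e = e) : MvN (Matrix.fromBlocks e 0 0 (1 - e)) (1 : Matrix m m R) := by
  refine ⟨Matrix.fromRows e (1 - e), Matrix.fromCols e (1 - e), ?_, ?_⟩
  · rw [Matrix.fromRows_mul_fromCols]
    have h1 : e * (1 - e) = 0 := by rw [mul_sub, he]; simp
    have h2 : (1 - e) * e = 0 := by rw [sub_mul, he]; simp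
    have h3 : (1 - e) * (1 - e) = 1 - e := by rw [mul_sub, h2]; simp
    rw [he, h1, h2, h3]
  · rw [Matrix.fromCols_mul_fromRows]
    have h3 : (1 - e) * (1 - e) = 1 - e := by rw [mul_sub, sub_mul, sub_mul, he]; simp
    rw [he, h3]
    simp

theorem IdemClass.mk_add_compl (e : IdemMat R) :
    IdemClass.mk e + IdemClass.mk e.compl = IdemClass.mk (IdemMat.free R e.n) := by
  rw [← IdemClass.mk_add, IdemClass.mk_eq_iff]
  exact ((IdemMat.add_equiv_blocks e e.compl).symm.trans (e.add e.compl).idem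
    (IdemMat.free R e.n).idem (MvN.compl_blocks e.idem))

theorem IdemClass.mk_free_add (r s : ℕ) :
    IdemClass.mk (IdemMat.free R r) + IdemClass.mk (IdemMat.free R s) =
      IdemClass.mk (IdemMat.free R (r + s)) := by
  rw [← IdemClass.mk_add]
  congr 1
  unfold IdemMat.add IdemMat.free
  congr 1
  rw [Matrix.fromBlocks_one, Matrix.submatrix_one_equiv]

/-- If a class of `K₀(R[t,t⁻¹])` of the form `[E] - k [1]` comes from
`K₀(R[t]) ⊕ K₀(R[t⁻¹])` then `E ⊕ 1` is equivalent to `A ⊕ B` with `A` over `R[t]` and `B` over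
`R[t⁻¹]`. -/
theorem exists_blocks_of_mem (E : IdemMat (LaurentPolynomial R)) (k : ℕ)
    (h : K0.of E - K0.of (IdemMat.free _ k) ∈
      (K0.map (posIncl R)).range ⊔ (K0.map (negIncl R)).range) :
    ∃ (r : ℕ) (A B : IdemMat (Polynomial R)),
      MvN (Matrix.fromBlocks E.mat 0 0 (1 : Matrix (Fin r) (Fin r) (LaurentPolynomial R)))
        (Matrix.fromBlocks (A.mat.map (posIncl R)) 0 0 (B.mat.map (negIncl R))) := by
  obtain ⟨y, hy, z, hz, hyz⟩ := AddSubgroup.mem_sup.1 h
  obtain ⟨y', rfl⟩ := hy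
  obtain ⟨z', rfl⟩ := hz
  obtain ⟨A, A', rfl⟩ := K0.exists_sub y'
  obtain ⟨B, B', rfl⟩ := K0.exists_sub z'
  rw [map_sub, map_sub, K0.map_of, K0.map_of, K0.map_of, K0.map_of] at hyz
  -- equality in `K₀`
  have h1 : K0.of ((E.add (A'.map (posIncl R))).add (B'.map (negIncl R))) =
      K0.of (((A.map (posIncl R)).add (IdemMat.free _ k)).add (B.map (negIncl R))) := by
    rw [K0.of_add, K0.of_add, K0.of_add, K0.of_add]
    have h2 : K0.of E = K0.of (A.map (posIncl R)) - K0.of (A'.map (posIncl R)) +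
        (K0.of (B.map (negIncl R)) - K0.of (B'.map (negIncl R))) +
        K0.of (IdemMat.free (LaurentPolynomial R) k) := by
      rw [hyz]
      abel
    rw [h2]
    abel
  obtain ⟨c, hc⟩ := K0.of_eq_iff.1 h1
  induction c using Quotient.inductionOn with
  | h g =>
    -- notation for classes
    have hc' : IdemClass.mk g + (IdemClass.mk E + IdemClass.mk (A'.map (posIncl R)) +
        IdemClass.mk (B'.map (negIncl R))) = IdemClass.mk g + (IdemClass.mk (A.map (posIncl R)) +
        IdemClass.mk (IdemMat.free _ k) + IdemClass.mk (B.map (negIncl R))) := hc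
    have e1 := IdemClass.mk_add_compl g
    have e2 := congrArg (IdemClass.map (posIncl R)) (IdemClass.mk_add_compl A')
    have e3 := congrArg (IdemClass.map (negIncl R)) (IdemClass.mk_add_compl B')
    rw [map_add, IdemClass.mk_map, IdemClass.mk_map, IdemClass.mk_map, IdemMat.map_free] at e2 e3
    -- add the complements to both sides
    have key : IdemClass.mk E + (IdemClass.mk (IdemMat.free (LaurentPolynomial R) g.n) +
        IdemClass.mk (IdemMat.free (LaurentPolynomial R) A'.n) +
        IdemClass.mk (IdemMat.free (LaurentPolynomial R) B'.n)) =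
        (IdemClass.mk (A.map (posIncl R)) + IdemClass.mk (A'.compl.map (posIncl R)) +
          IdemClass.mk (IdemMat.free _ k) + IdemClass.mk (IdemMat.free _ g.n)) +
        (IdemClass.mk (B.map (negIncl R)) + IdemClass.mk (B'.compl.map (negIncl R))) := by
      have h3 := congrArg (fun t => t + IdemClass.mk g.compl +
        IdemClass.mk (A'.compl.map (posIncl R)) + IdemClass.mk (B'.compl.map (negIncl R))) hc'
      rw [← e1, ← e2, ← e3]
      calc _ = IdemClass.mk g + (IdemClass.mk E + IdemClass.mk (A'.map (posIncl R)) +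
          IdemClass.mk (B'.map (negIncl R))) + IdemClass.mk g.compl +
          IdemClass.mk (A'.compl.map (posIncl R)) + IdemClass.mk (B'.compl.map (negIncl R)) := by
            abel
        _ = _ := by rw [h3]; abel
    rw [IdemClass.mk_free_add, IdemClass.mk_free_add] at key
    have h4 : IdemClass.mk (A.map (posIncl R)) + IdemClass.mk (A'.compl.map (posIncl R)) +
          IdemClass.mk (IdemMat.free _ k) + IdemClass.mk (IdemMat.free _ g.n) =
        IdemClass.mk ((((A.add A'.compl).add (IdemMat.free _ k)).add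
          (IdemMat.free _ g.n)).map (posIncl R)) := by
      rw [IdemMat.map_add', IdemMat.map_add', IdemMat.map_add', IdemMat.map_free,
        IdemMat.map_free]
      rfl
    have h5 : IdemClass.mk (B.map (negIncl R)) + IdemClass.mk (B'.compl.map (negIncl R)) =
        IdemClass.mk ((B.add B'.compl).map (negIncl R)) := by
      rw [IdemMat.map_add']
      rfl
    rw [h4, h5, ← IdemClass.mk_add, ← IdemClass.mk_add, IdemClass.mk_eq_iff] at key
    set A2 := ((A.add A'.compl).add (IdemMat.free _ k)).add (IdemMat.free _ g.n) with hA2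
    set B2 := B.add B'.compl with hB2
    set r := g.n + A'.n + B'.n with hr
    refine ⟨r, A2, B2, ?_⟩
    have i1 := IdemMat.add_equiv_blocks E (IdemMat.free (LaurentPolynomial R) r)
    have i2 := IdemMat.add_equiv_blocks (A2.map (posIncl R)) (B2.map (negIncl R))
    have j1 := idem_fromBlocks E.idem (IdemMat.free (LaurentPolynomial R) r).idem
    have j2 := idem_fromBlocks (A2.map (posIncl R)).idem (B2.map (negIncl R)).idem
    exact (i1.trans j1 (IdemMat.idem _) key).trans j1 j2 i2.symm

end KLemmas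

section Detect

variable {G : Type*} [Group G]

/-- Change of coefficients `ℤ[G][t,t⁻¹] → k[G][t,t⁻¹]`. -/
noncomputable abbrev cc (k : Type*) [CommRing k] (G : Type*) [Group G] :
    LaurentPolynomial (MonoidAlgebra ℤ G) →+* LaurentPolynomial (MonoidAlgebra k G) :=
  mapL (MonoidAlgebra.mapRingHom G (Int.castRingHom k))

/-- The idempotent matrix `E` over `ℤ[G][t,t⁻¹]` becomes equivalent to an identity matrix over
`k[G][t,t⁻¹]`, and `ρ` records the logarithmic derivative of the trivialisation. -/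
def TrivOver (k : Type*) [CommRing k] {n : Type*} [Fintype n]
    (E : Matrix n n (LaurentPolynomial (MonoidAlgebra ℤ G))) (ρ : G → k) : Prop :=
  ∃ (m : ℕ) (α : Matrix n (Fin m) (LaurentPolynomial (MonoidAlgebra k G)))
    (β : Matrix (Fin m) n (LaurentPolynomial (MonoidAlgebra k G))),
    α * β = E.map (cc k G) ∧ β * α = 1 ∧ ∀ h, ρ h = tauL h (Matrix.trace (β * α.map DL))

theorem map_submatrix_DL {l m n o A : Type*} [Ring A] (X : Matrix m n (LaurentPolynomial A))
    (f : l → m) (g : o → n) : (X.submatrix f g).map DL = (X.map DL).submatrix f g := rfl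

theorem trace_submatrix_equiv' {m n A : Type*} [Fintype m] [Fintype n] [AddCommMonoid A]
    (X : Matrix m m A) (e : n ≃ m) : Matrix.trace (X.submatrix e e) = Matrix.trace X := by
  simp only [Matrix.trace, Matrix.diag_apply, Matrix.submatrix_apply]
  exact e.sum_comp (fun i => X i i)

theorem trace_fromBlocks' {m n A : Type*} [Fintype m] [Fintype n] [AddCommMonoid A]
    (X : Matrix m m A) (Y : Matrix m n A) (Z : Matrix n m A) (W : Matrix n n A) :
    Matrix.trace (Matrix.fromBlocks X Y Z W) = Matrix.trace X + Matrix.trace W := by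
  simp [Matrix.trace, Fintype.sum_sum_type]

theorem trivOver_blocks {k : Type*} [CommRing k] {l m n : Type*} [Fintype l] [Fintype m] [Fintype n]
    {E : Matrix m m (LaurentPolynomial (MonoidAlgebra ℤ G))}
    {F : Matrix n n (LaurentPolynomial (MonoidAlgebra ℤ G))} {ρ σ : G → k}
    (hE : TrivOver k E ρ) (hF : TrivOver k F σ) (e : l ≃ m ⊕ n) :
    TrivOver k ((Matrix.fromBlocks E 0 0 F).submatrix e e) (fun h => ρ h + σ h) := by
  obtain ⟨m1, α1, β1, h1, h2, h3⟩ := hE
  obtain ⟨m2, α2, β2, h4, h5, h6⟩ := hF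
  refine ⟨m1 + m2, (Matrix.fromBlocks α1 0 0 α2).submatrix e finSumFinEquiv.symm,
    (Matrix.fromBlocks β1 0 0 β2).submatrix finSumFinEquiv.symm e, ?_, ?_, ?_⟩
  · rw [Matrix.submatrix_mul_equiv]
    simp only [Matrix.fromBlocks_multiply, Matrix.mul_zero, Matrix.zero_mul, add_zero,
      zero_add, h1, h4]
    rw [← Matrix.submatrix_map, Matrix.fromBlocks_map, Matrix.map_zero _ (map_zero _),
      Matrix.map_zero _ (map_zero _)]
  · rw [Matrix.submatrix_mul_equiv]
    simp only [Matrix.fromBlocks_multiply, Matrix.mul_zero, Matrix.zero_mul, add_zero,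
      zero_add, h2, h5]
    rw [Matrix.fromBlocks_one, Matrix.submatrix_one_equiv]
  · intro h
    change ρ h + σ h = _
    rw [map_submatrix_DL, Matrix.submatrix_mul_equiv, trace_submatrix_equiv',
      Matrix.fromBlocks_map, Matrix.map_zero _ (map_zero _), Matrix.map_zero _ (map_zero _),
      Matrix.fromBlocks_multiply, trace_fromBlocks', h3, h6]
    simp

theorem trivOver_add {k : Type*} [CommRing k]
    {E F : IdemMat (LaurentPolynomial (MonoidAlgebra ℤ G))} {ρ σ : G → k}
    (hE : TrivOver k E.mat ρ) (hF : TrivOver k F.mat σ) :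
    TrivOver k (E.add F).mat (fun h => ρ h + σ h) :=
  trivOver_blocks hE hF finSumFinEquiv.symm

theorem DL_one {A : Type*} [Ring A] : DL (1 : LaurentPolynomial A) = 0 := by
  have : (1 : LaurentPolynomial A) = AddMonoidAlgebra.single 0 1 := rfl
  rw [this, DL_single]
  simp

theorem map_DL_one {A m : Type*} [Ring A] [DecidableEq m] :
    (1 : Matrix m m (LaurentPolynomial A)).map DL = 0 := by
  ext1 i j
  by_cases h : i = j
  · subst h
    simp [DL_one]
  · simp [Matrix.one_apply_ne h]

/-- `x = [E] - k [1]` where `E` is trivial over `ℚ[G][t,t⁻¹]` and over all `ℤ_p[G][t,t⁻¹]`, and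
`w p` is the difference of the logarithmic derivatives of the trivialisations. -/
def Triv (x : K0 (LaurentPolynomial (MonoidAlgebra ℤ G)))
    (w : ∀ (p : ℕ) [Fact p.Prime], G → ℚ_[p]) : Prop :=
  ∃ (E : IdemMat (LaurentPolynomial (MonoidAlgebra ℤ G))) (k : ℕ) (y : G → ℚ),
    x = K0.of E - K0.of (IdemMat.free _ k) ∧ TrivOver ℚ E.mat y ∧
    ∀ (p : ℕ) [Fact p.Prime], ∃ z : G → ℤ_[p], TrivOver ℤ_[p] E.mat z ∧
      ∀ h, w p h = (y h : ℚ_[p]) - (z h : ℚ_[p])

theorem Triv.add {x x' : K0 (LaurentPolynomial (MonoidAlgebra ℤ G))}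
    {w w' : ∀ (p : ℕ) [Fact p.Prime], G → ℚ_[p]} (hx : Triv x w) (hx' : Triv x' w') :
    Triv (x + x') (fun p _ h => w p h + w' p h) := by
  obtain ⟨E, k, y, h1, h2, h3⟩ := hx
  obtain ⟨E', k', y', h1', h2', h3'⟩ := hx'
  refine ⟨E.add E', k + k', fun h => y h + y' h, ?_, trivOver_add h2 h2', ?_⟩
  · have : K0.of (IdemMat.free (LaurentPolynomial (MonoidAlgebra ℤ G)) (k + k')) =
        K0.of (IdemMat.free _ k) + K0.of (IdemMat.free _ k') := by
      rw [← K0.of_add]
      exact congrArg (Algebra.GrothendieckAddGroup.of) (IdemClass.mk_free_add k k').symm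
    rw [K0.of_add, this, h1, h1']
    abel
  · intro p _
    obtain ⟨z, hz1, hz2⟩ := h3 p
    obtain ⟨z', hz1', hz2'⟩ := h3' p
    refine ⟨fun h => z h + z' h, trivOver_add hz1 hz1', fun h => ?_⟩
    change w p h + w' p h = ((y h + y' h : ℚ) : ℚ_[p]) - ((z h + z' h : ℤ_[p]) : ℚ_[p])
    rw [hz2, hz2']
    push_cast
    ring

theorem Triv.zero : Triv (G := G) 0 (fun _ _ _ => 0) := by
  have hT : ∀ (k : Type) [CommRing k], TrivOver (G := G) k
      (IdemMat.free (LaurentPolynomial (MonoidAlgebra ℤ G)) 0).mat (fun _ => (0 : k)) := by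
    intro k _
    refine ⟨0, 0, 0, ?_, ?_, ?_⟩
    · ext i; exact i.elim0
    · ext i; exact i.elim0
    · intro h
      simp
  refine ⟨IdemMat.free _ 0, 0, fun _ => 0, by simp, hT ℚ, fun p _ =>
    ⟨fun _ => 0, hT ℤ_[p], fun h => by simp⟩⟩

theorem Triv.nsmul {x : K0 (LaurentPolynomial (MonoidAlgebra ℤ G))}
    {w : ∀ (p : ℕ) [Fact p.Prime], G → ℚ_[p]} (hx : Triv x w) (n : ℕ) :
    Triv (n • x) (fun p _ h => n * w p h) := by
  induction n with
  | zero => simpa using Triv.zero
  | succ n ih =>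
    have := ih.add hx
    rw [succ_nsmul]
    convert this using 4
    push_cast
    ring

theorem Triv.zsmul {x : K0 (LaurentPolynomial (MonoidAlgebra ℤ G))}
    {w : ∀ (p : ℕ) [Fact p.Prime], G → ℚ_[p]} (hx : Triv x w)
    (hx' : Triv (-x) (fun p _ h => - w p h)) (n : ℤ) :
    Triv (n • x) (fun p _ h => n * w p h) := by
  rcases Int.eq_nat_or_neg n with ⟨m, rfl | rfl⟩
  · simpa using hx.nsmul m
  · have := hx'.nsmul m
    simpa using this

theorem Triv.sum {ι : Type*} (s : Finset ι)
    {x : ι → K0 (LaurentPolynomial (MonoidAlgebra ℤ G))}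
    {w : ι → ∀ (p : ℕ) [Fact p.Prime], G → ℚ_[p]} (hx : ∀ i ∈ s, Triv (x i) (w i)) :
    Triv (∑ i ∈ s, x i) (fun p _ h => ∑ i ∈ s, w i p h) := by
  classical
  induction s using Finset.induction_on with
  | empty => simpa using Triv.zero
  | insert a s ha ih =>
    have := (hx a (Finset.mem_insert_self a s)).add
      (ih fun i hi => hx i (Finset.mem_insert_of_mem hi))
    simpa only [Finset.sum_insert ha] using this

theorem rho_formula {k : Type*} [CommRing k] {n m r a : Type*} [Fintype n] [Fintype m]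
    [DecidableEq m] [Fintype r] [DecidableEq r] [Fintype a]
    {E : Matrix n n (LaurentPolynomial (MonoidAlgebra ℤ G))}
    {α : Matrix n m (LaurentPolynomial (MonoidAlgebra k G))}
    {β : Matrix m n (LaurentPolynomial (MonoidAlgebra k G))}
    {u : Matrix (n ⊕ r) a (LaurentPolynomial (MonoidAlgebra ℤ G))}
    {v : Matrix a (n ⊕ r) (LaurentPolynomial (MonoidAlgebra ℤ G))}
    (hαβ : α * β = E.map (cc k G)) (hβα : β * α = 1)
    (huv : u * v = Matrix.fromBlocks E 0 0 (1 : Matrix r r _)) (h : G) :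
    tauL h (Matrix.trace (Matrix.fromBlocks β 0 0 (1 : Matrix r r _) * u.map (cc k G) *
      (v.map (cc k G) * Matrix.fromBlocks α 0 0 (1 : Matrix r r _)).map DL)) =
    ((tauL h (Matrix.trace (Matrix.fromBlocks E 0 0 (1 : Matrix r r _) * u * v.map DL)) : ℤ) : k) +
      tauL h (Matrix.trace (β * α.map DL)) := by
  set α' := Matrix.fromBlocks α 0 0 (1 : Matrix r r (LaurentPolynomial (MonoidAlgebra k G)))
    with hα'
  set β' := Matrix.fromBlocks β 0 0 (1 : Matrix r r (LaurentPolynomial (MonoidAlgebra k G)))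
    with hβ'
  have hE' : (Matrix.fromBlocks E 0 0 (1 : Matrix r r _)).map (cc k G) = α' * β' := by
    rw [hα', hβ', Matrix.fromBlocks_multiply, Matrix.fromBlocks_map,
      Matrix.map_zero _ (map_zero _), Matrix.map_zero _ (map_zero _),
      Matrix.map_one _ (map_zero _) (map_one _), hαβ]
    simp
  have hβα' : β' * α' = 1 := by
    rw [hα', hβ', Matrix.fromBlocks_multiply, hβα]
    simp
  rw [map_DL_mul, Matrix.mul_add, Matrix.trace_add, map_add]
  congr 1
  · have h1 : β' * u.map (cc k G) * ((v.map (cc k G)).map DL * α') =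
        (β' * u.map (cc k G) * (v.map (cc k G)).map DL) * α' := by
      simp only [Matrix.mul_assoc]
    rw [h1, trace_comm_of_tracial (A := LaurentPolynomial (MonoidAlgebra k G)) (k := k) (tauL h)
      (tauL_mul_comm h) _ α']
    have h2 : α' * (β' * u.map (cc k G) * (v.map (cc k G)).map DL) =
        (Matrix.fromBlocks E 0 0 (1 : Matrix r r _) * u * v.map DL).map (cc k G) := by
      rw [Matrix.map_mul, Matrix.map_mul, hE']
      simp only [Matrix.mul_assoc]
      congr 3
      ext1 i j
      simp only [Matrix.map_apply]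
      exact DL_mapL _ _
    have h3 : Matrix.trace ((Matrix.fromBlocks E 0 0 (1 : Matrix r r _) * u *
          v.map DL).map (cc k G)) =
        (cc k G) (Matrix.trace (Matrix.fromBlocks E 0 0 (1 : Matrix r r _) * u *
          v.map DL)) := by
      simp only [Matrix.trace, Matrix.diag_apply, Matrix.map_apply, map_sum]
    rw [h2, h3]
    exact tauL_mapL (Int.castRingHom k) h _
  · have h1 : β' * u.map (cc k G) * (v.map (cc k G) * α'.map DL) = β' * α'.map DL := by
      calc β' * u.map (cc k G) * (v.map (cc k G) * α'.map DL)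
          = β' * (u.map (cc k G) * v.map (cc k G)) * α'.map DL := by
            simp only [Matrix.mul_assoc]
        _ = β' * (α' * β') * α'.map DL := by rw [← Matrix.map_mul, huv, hE']
        _ = (β' * α') * (β' * α'.map DL) := by simp only [Matrix.mul_assoc]
        _ = β' * α'.map DL := by rw [hβα', Matrix.one_mul]
    rw [h1, hα', hβ', Matrix.fromBlocks_map, Matrix.map_zero _ (map_zero _),
      Matrix.map_zero _ (map_zero _), map_DL_one, Matrix.fromBlocks_multiply, trace_fromBlocks']
    simp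

theorem degGE_posIncl {R : Type*} [Ring R] (f : Polynomial R) : DegGE 0 (posIncl R f) := by
  intro n hn
  unfold posIncl
  by_contra hne
  have h1 : n ∈ (Polynomial.toLaurent f).coeff.support := Finsupp.mem_support_iff.2 hne
  rw [LaurentPolynomial.support_coeff_toLaurent] at h1
  obtain ⟨m, _, hm⟩ := Finset.mem_map.1 h1
  have h2 : ((m : ℕ) : ℤ) = n := hm
  omega

theorem coeff_flipT {R : Type*} [Ring R] (f : LaurentPolynomial R) (n : ℤ) :
    (flipT R f).coeff n = f.coeff (-n) := by
  induction f using AddMonoidAlgebra.induction_linear with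
  | zero => simp
  | add f g hf hg => rw [map_add, AddMonoidAlgebra.coeff_add, Finsupp.add_apply, hf, hg]; rfl
  | single m a =>
    have h1 : flipT R (AddMonoidAlgebra.single m a) = AddMonoidAlgebra.single (-m) a := by
      change AddMonoidAlgebra.mapDomain _ (AddMonoidAlgebra.single m a) = _
      rw [AddMonoidAlgebra.mapDomain_single]
      rfl
    rw [h1, AddMonoidAlgebra.coeff_single, AddMonoidAlgebra.coeff_single, Finsupp.single_apply,
      Finsupp.single_apply]
    congr 1
    exact propext ⟨fun h => by omega, fun h => by omega⟩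

theorem degLE_negIncl {R : Type*} [Ring R] (f : Polynomial R) : DegLE 0 (negIncl R f) := by
  intro n hn
  unfold negIncl
  rw [RingHom.comp_apply, coeff_flipT]
  exact degGE_posIncl f (-n) (by omega)

theorem DegGE.mapL {A B : Type*} [Ring A] [Ring B] (φ : A →+* B) {d : ℤ}
    {x : LaurentPolynomial A} (hx : DegGE d x) : DegGE d (mapL φ x) := by
  intro n hn
  have : (Lib25.mapL φ x).coeff n = φ (x.coeff n) := by
    unfold Lib25.mapL
    simp
  rw [this, hx n hn, map_zero]

theorem DegLE.mapL {A B : Type*} [Ring A] [Ring B] (φ : A →+* B) {d : ℤ}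
    {x : LaurentPolynomial A} (hx : DegLE d x) : DegLE d (mapL φ x) := by
  intro n hn
  have : (Lib25.mapL φ x).coeff n = φ (x.coeff n) := by
    unfold Lib25.mapL
    simp
  rw [this, hx n hn, map_zero]

theorem tau_natCast {k : Type*} [CommRing k] (h : G) (hh : h ≠ 1) (N : ℕ) :
    tau h (N : MonoidAlgebra k G) = 0 := by
  rw [MonoidAlgebra.natCast_def, tau_single, if_neg]
  intro hc
  exact hh (isConj_one_right.1 hc)

/-- **Detection theorem**: if a trivialisable class lies in the image of
`K₀(ℤ[G][t]) ⊕ K₀(ℤ[G][t⁻¹])`, then its invariants `w p h`, for `h` of finite order divisible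
by `p`, are rational numbers independent of `p`. -/
theorem detection {x : K0 (LaurentPolynomial (MonoidAlgebra ℤ G))}
    {w : ∀ (p : ℕ) [Fact p.Prime], G → ℚ_[p]} (hx : Triv x w)
    (hmem : x ∈ (K0.map (posIncl (MonoidAlgebra ℤ G))).range ⊔
      (K0.map (negIncl (MonoidAlgebra ℤ G))).range) :
    ∃ y : G → ℚ, ∀ (p : ℕ) [Fact p.Prime] (h : G), IsOfFinOrder h → p ∣ orderOf h →
      w p h = (y h : ℚ_[p]) := by
  obtain ⟨E, k, y, rfl, _, hz⟩ := hx
  obtain ⟨r, A, B, u, v, huv, hvu⟩ := exists_blocks_of_mem E k hmem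
  let c : G → ℤ := fun h => tauL h (Matrix.trace
    (Matrix.fromBlocks E.mat 0 0 (1 : Matrix (Fin r) (Fin r) _) * u * v.map DL))
  refine ⟨fun h => y h + c h, fun p _ h hfin hp => ?_⟩
  obtain ⟨z, ⟨m, α, β, hαβ, hβα, hρ⟩, hw⟩ := hz p
  have hh : h ≠ 1 := by
    rintro rfl
    rw [orderOf_one] at hp
    exact (Fact.out : p.Prime).one_lt.ne' (Nat.dvd_one.1 hp)
  set Y := Matrix.fromBlocks β 0 0 (1 : Matrix (Fin r) (Fin r) _) * u.map (cc ℤ_[p] G) with hY
  set X := v.map (cc ℤ_[p] G) * Matrix.fromBlocks α 0 0 (1 : Matrix (Fin r) (Fin r) _) with hX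
  have hE' : (Matrix.fromBlocks E.mat 0 0 (1 : Matrix (Fin r) (Fin r) _)).map (cc ℤ_[p] G) =
      Matrix.fromBlocks α 0 0 (1 : Matrix (Fin r) (Fin r) _) *
        Matrix.fromBlocks β 0 0 (1 : Matrix (Fin r) (Fin r) _) := by
    rw [Matrix.fromBlocks_multiply, Matrix.fromBlocks_map,
      Matrix.map_zero _ (map_zero _), Matrix.map_zero _ (map_zero _),
      Matrix.map_one _ (map_zero _) (map_one _), hαβ]
    simp
  have hβα' : Matrix.fromBlocks β 0 0 (1 : Matrix (Fin r) (Fin r) _) *
      Matrix.fromBlocks α 0 0 (1 : Matrix (Fin r) (Fin r) _) = 1 := by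
    rw [Matrix.fromBlocks_multiply, hβα]
    simp
  have hYX : Y * X = 1 := by
    calc Y * X = Matrix.fromBlocks β 0 0 (1 : Matrix (Fin r) (Fin r) _) *
          (u.map (cc ℤ_[p] G) * v.map (cc ℤ_[p] G)) *
          Matrix.fromBlocks α 0 0 (1 : Matrix (Fin r) (Fin r) _) := by
            rw [hX, hY]; simp only [Matrix.mul_assoc]
      _ = (Matrix.fromBlocks β 0 0 (1 : Matrix (Fin r) (Fin r) _) *
            Matrix.fromBlocks α 0 0 (1 : Matrix (Fin r) (Fin r) _)) *
          (Matrix.fromBlocks β 0 0 (1 : Matrix (Fin r) (Fin r) _) *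
            Matrix.fromBlocks α 0 0 (1 : Matrix (Fin r) (Fin r) _)) := by
          rw [← Matrix.map_mul, huv, hE']; simp only [Matrix.mul_assoc]
      _ = 1 := by rw [hβα', Matrix.one_mul]
  have hFidem : Matrix.fromBlocks (A.mat.map (posIncl (MonoidAlgebra ℤ G))) 0 0
      (B.mat.map (negIncl (MonoidAlgebra ℤ G))) * Matrix.fromBlocks
      (A.mat.map (posIncl (MonoidAlgebra ℤ G))) 0 0 (B.mat.map (negIncl (MonoidAlgebra ℤ G))) =
      Matrix.fromBlocks (A.mat.map (posIncl (MonoidAlgebra ℤ G))) 0 0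
      (B.mat.map (negIncl (MonoidAlgebra ℤ G))) :=
    idem_fromBlocks (A.map (posIncl _)).idem (B.map (negIncl _)).idem
  have hXY : X * Y = Matrix.fromBlocks
      ((A.mat.map (posIncl (MonoidAlgebra ℤ G))).map (cc ℤ_[p] G)) 0 0
      ((B.mat.map (negIncl (MonoidAlgebra ℤ G))).map (cc ℤ_[p] G)) := by
    calc X * Y = v.map (cc ℤ_[p] G) * (Matrix.fromBlocks α 0 0 (1 : Matrix (Fin r) (Fin r) _) *
          Matrix.fromBlocks β 0 0 (1 : Matrix (Fin r) (Fin r) _)) *
          u.map (cc ℤ_[p] G) := by rw [hX, hY]; simp only [Matrix.mul_assoc]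
      _ = (v * (u * v) * u).map (cc ℤ_[p] G) := by
          rw [← hE', ← huv, Matrix.map_mul, Matrix.map_mul, Matrix.map_mul, Matrix.map_mul]
      _ = ((v * u) * (v * u)).map (cc ℤ_[p] G) := by simp only [Matrix.mul_assoc]
      _ = _ := by
          rw [hvu, hFidem, Matrix.fromBlocks_map, Matrix.map_zero _ (map_zero _),
            Matrix.map_zero _ (map_zero _)]
  obtain ⟨D, Q, N, hQ, hQt⟩ := window_lemma hYX hXY
    (fun i j => (degGE_posIncl _).mapL _) (fun i j => (degLE_negIncl _).mapL _)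
  have h1 := padic_tau_trace_eq_zero Q hQ h hfin hp
  rw [hQt, map_add, tau_natCast h hh, zero_add] at h1
  have h2 : tauL h (Matrix.trace (Y * X.map DL)) = 0 := h1
  rw [hX, hY, rho_formula hαβ hβα huv h, ← hρ] at h2
  rw [hw]
  have h3 : (z h : ℚ_[p]) = -((c h : ℤ) : ℚ_[p]) := by
    have h4 : z h = -((c h : ℤ) : ℤ_[p]) := by
      rw [eq_neg_iff_add_eq_zero, add_comm]
      exact h2
    rw [h4]
    push_cast
    rfl
  rw [h3]
  push_cast
  ring

end Detect

end Pool.Agent.Lib25
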