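import Pool.Agent.Lib_helper25.Vanish
import Pool.Agent.Lib_helper25.Detect

/-!
# Detecting elements of `K₀(ℤ[G])`
-/

open Matrix

set_option linter.unusedSectionVars false

namespace Pool.Agent.Lib25

section Pt

/-- A pair consisting of an element of finite order and a homomorphism from its centraliser
to `ℤ`. -/
def Pt (G : Type*) [Group G] : Type _ := {x : G × (G → ℤ) // IsCentHom x.1 x.2 ∧ IsOfFinOrder x.1}

variable {G : Type*} [Group G]

/-- The Hochschild cocycle attached to a point. -/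
noncomputable def Pt.W (x : Pt G) : G → G → ℤ := muW x.1.1 x.1.2

theorem Pt.cocycle (x : Pt G) : IsCocycle x.W := muW_cocycle x.2.1 x.2.2

/-- The coefficient homomorphism `ℤ[G] → k[G]`. -/
noncomputable abbrev cg (k : Type*) [CommRing k] (G : Type*) [Group G] :
    MonoidAlgebra ℤ G →+* MonoidAlgebra k G := MonoidAlgebra.mapRingHom G (Int.castRingHom k)

/-- The idempotent matrix `E` over `ℤ[G]` becomes trivial over `k[G]`; `ρ` is the logarithmic
derivative of a trivialisation. -/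
def TrivG (k : Type*) [CommRing k] {n : Type*} [Fintype n]
    (E : Matrix n n (MonoidAlgebra ℤ G)) (ρ : Pt G → k) : Prop :=
  ∃ (m : ℕ) (α : Matrix n (Fin m) (MonoidAlgebra k G)) (β : Matrix (Fin m) n (MonoidAlgebra k G)),
    α * β = E.map (cg k G) ∧ β * α = 1 ∧ ∀ x, ρ x = Phi x.W β α

theorem trivG_blocks {k : Type*} [CommRing k] {l m n : Type*} [Fintype l] [Fintype m] [Fintype n]
    {E : Matrix m m (MonoidAlgebra ℤ G)} {F : Matrix n n (MonoidAlgebra ℤ G)} {ρ σ : Pt G → k}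
    (hE : TrivG k E ρ) (hF : TrivG k F σ) (e : l ≃ m ⊕ n) :
    TrivG k ((Matrix.fromBlocks E 0 0 F).submatrix e e) (fun h => ρ h + σ h) := by
  obtain ⟨m1, α1, β1, h1, h2, h3⟩ := hE
  obtain ⟨m2, α2, β2, h4, h5, h6⟩ := hF
  refine ⟨m1 + m2, (Matrix.fromBlocks α1 0 0 α2).submatrix e finSumFinEquiv.symm,
    (Matrix.fromBlocks β1 0 0 β2).submatrix finSumFinEquiv.symm e, ?_, ?_, ?_⟩
  · rw [Matrix.submatrix_mul_equiv]
    simp only [Matrix.fromBlocks_multiply, Matrix.mul_zero, Matrix.zero_mul, add_zero,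
      zero_add, h1, h4]
    rw [← Matrix.submatrix_map, Matrix.fromBlocks_map, Matrix.map_zero _ (map_zero _),
      Matrix.map_zero _ (map_zero _)]
  · rw [Matrix.submatrix_mul_equiv]
    simp only [Matrix.fromBlocks_multiply, Matrix.mul_zero, Matrix.zero_mul, add_zero,
      zero_add, h2, h5]
    rw [Matrix.fromBlocks_one, Matrix.submatrix_one_equiv]
  · intro x
    rw [Phi_submatrix, Phi_blocks, ← h3, ← h6]

theorem trivG_add {k : Type*} [CommRing k] {E F : IdemMat (MonoidAlgebra ℤ G)} {ρ σ : Pt G → k}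
    (hE : TrivG k E.mat ρ) (hF : TrivG k F.mat σ) :
    TrivG k (E.add F).mat (fun h => ρ h + σ h) :=
  trivG_blocks hE hF finSumFinEquiv.symm

/-- `x = [E] - k [1]` where `E` is trivial over `ℚ[G]` and over all `ℤ_p[G]`, and
`w p` is the difference of the logarithmic derivatives of the trivialisations. -/
def Triv0 (x : K0 (MonoidAlgebra ℤ G)) (w : ∀ (p : ℕ) [Fact p.Prime], Pt G → ℚ_[p]) : Prop :=
  ∃ (E : IdemMat (MonoidAlgebra ℤ G)) (k : ℕ) (y : Pt G → ℚ),
    x = K0.of E - K0.of (IdemMat.free _ k) ∧ TrivG ℚ E.mat y ∧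
    ∀ (p : ℕ) [Fact p.Prime], ∃ z : Pt G → ℤ_[p], TrivG ℤ_[p] E.mat z ∧
      ∀ h, w p h = (y h : ℚ_[p]) - (z h : ℚ_[p])

theorem Triv0.add {x x' : K0 (MonoidAlgebra ℤ G)}
    {w w' : ∀ (p : ℕ) [Fact p.Prime], Pt G → ℚ_[p]} (hx : Triv0 x w) (hx' : Triv0 x' w') :
    Triv0 (x + x') (fun p _ h => w p h + w' p h) := by
  obtain ⟨E, k, y, h1, h2, h3⟩ := hx
  obtain ⟨E', k', y', h1', h2', h3'⟩ := hx'
  refine ⟨E.add E', k + k', fun h => y h + y' h, ?_, trivG_add h2 h2', ?_⟩
  · have : K0.of (IdemMat.free (MonoidAlgebra ℤ G) (k + k')) =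
        K0.of (IdemMat.free _ k) + K0.of (IdemMat.free _ k') := by
      rw [← K0.of_add]
      exact congrArg (Algebra.GrothendieckAddGroup.of) (IdemClass.mk_free_add k k').symm
    rw [K0.of_add, this, h1, h1']
    abel
  · intro p _
    obtain ⟨z, hz1, hz2⟩ := h3 p
    obtain ⟨z', hz1', hz2'⟩ := h3' p
    refine ⟨fun h => z h + z' h, trivG_add hz1 hz1', fun h => ?_⟩
    change w p h + w' p h = ((y h + y' h : ℚ) : ℚ_[p]) - ((z h + z' h : ℤ_[p]) : ℚ_[p])
    rw [hz2, hz2']
    push_cast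
    ring

theorem Triv0.zero : Triv0 (G := G) 0 (fun _ _ _ => 0) := by
  have hT : ∀ (k : Type) [CommRing k], TrivG (G := G) k
      (IdemMat.free (MonoidAlgebra ℤ G) 0).mat (fun _ => (0 : k)) := by
    intro k _
    refine ⟨0, 0, 0, ?_, ?_, ?_⟩
    · ext i; exact i.elim0
    · ext i; exact i.elim0
    · intro h
      simp [Phi]
  refine ⟨IdemMat.free _ 0, 0, fun _ => 0, by simp, hT ℚ, fun p _ =>
    ⟨fun _ => 0, hT ℤ_[p], fun h => by simp⟩⟩

theorem Triv0.nsmul {x : K0 (MonoidAlgebra ℤ G)}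
    {w : ∀ (p : ℕ) [Fact p.Prime], Pt G → ℚ_[p]} (hx : Triv0 x w) (n : ℕ) :
    Triv0 (n • x) (fun p _ h => n * w p h) := by
  induction n with
  | zero => simpa using Triv0.zero
  | succ n ih =>
    have := ih.add hx
    rw [succ_nsmul]
    convert this using 4
    push_cast
    ring

theorem Triv0.zsmul {x : K0 (MonoidAlgebra ℤ G)}
    {w : ∀ (p : ℕ) [Fact p.Prime], Pt G → ℚ_[p]} (hx : Triv0 x w)
    (hx' : Triv0 (-x) (fun p _ h => - w p h)) (n : ℤ) :
    Triv0 (n • x) (fun p _ h => n * w p h) := by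
  rcases Int.eq_nat_or_neg n with ⟨m, rfl | rfl⟩
  · simpa using hx.nsmul m
  · have := hx'.nsmul m
    simpa using this

theorem Triv0.sum {ι : Type*} (s : Finset ι)
    {x : ι → K0 (MonoidAlgebra ℤ G)}
    {w : ι → ∀ (p : ℕ) [Fact p.Prime], Pt G → ℚ_[p]} (hx : ∀ i ∈ s, Triv0 (x i) (w i)) :
    Triv0 (∑ i ∈ s, x i) (fun p _ h => ∑ i ∈ s, w i p h) := by
  classical
  induction s using Finset.induction_on with
  | empty => simpa using Triv0.zero
  | insert a s ha ih =>
    have := (hx a (Finset.mem_insert_self a s)).add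
      (ih fun i hi => hx i (Finset.mem_insert_of_mem hi))
    simpa only [Finset.sum_insert ha] using this

theorem exists_stable {R : Type*} [Ring R] (E : IdemMat R) (k : ℕ)
    (h : K0.of E = K0.of (IdemMat.free R k)) : ∃ r : ℕ,
      MvN (Matrix.fromBlocks E.mat 0 0 (1 : Matrix (Fin r) (Fin r) R))
        (1 : Matrix (Fin (k + r)) (Fin (k + r)) R) := by
  obtain ⟨c, hc⟩ := K0.of_eq_iff.1 h
  induction c using Quotient.inductionOn with
  | h g =>
    have hc' : IdemClass.mk g + IdemClass.mk E = IdemClass.mk g +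
        IdemClass.mk (IdemMat.free R k) := hc
    have e1 := IdemClass.mk_add_compl g
    have key : IdemClass.mk E + IdemClass.mk (IdemMat.free R g.n) =
        IdemClass.mk (IdemMat.free R (k + g.n)) := by
      have h3 := congrArg (fun t => t + IdemClass.mk g.compl) hc'
      rw [← IdemClass.mk_free_add, ← e1]
      calc _ = IdemClass.mk g + IdemClass.mk E + IdemClass.mk g.compl := by abel
        _ = _ := by rw [hc']; abel
    rw [← IdemClass.mk_add, IdemClass.mk_eq_iff] at key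
    refine ⟨g.n, ?_⟩
    exact (IdemMat.add_equiv_blocks E (IdemMat.free R g.n)).trans
      (idem_fromBlocks E.idem (IdemMat.free R g.n).idem) (IdemMat.free R (k + g.n)).idem key

/-- **Detection theorem**: if a trivialisable class is zero in `K₀(ℤ[G])`, then its invariants
`w p (h, lam)`, for `h` of finite order divisible by `p`, are rational numbers independent
of `p`. -/
theorem detection0 {x : K0 (MonoidAlgebra ℤ G)}
    {w : ∀ (p : ℕ) [Fact p.Prime], Pt G → ℚ_[p]} (hx : Triv0 x w) (h0 : x = 0) :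
    ∃ y : Pt G → ℚ, ∀ (p : ℕ) [Fact p.Prime] (h : Pt G), p ∣ orderOf h.1.1 →
      w p h = (y h : ℚ_[p]) := by
  obtain ⟨E, k, y, rfl, _, hz⟩ := hx
  obtain ⟨r, u, v, huv, hvu⟩ := exists_stable E k (sub_eq_zero.1 h0)
  refine ⟨fun h => y h - ((Phi h.W v u : ℤ) : ℚ), fun p _ h hp => ?_⟩
  obtain ⟨z, ⟨m, α, β, hαβ, hβα, hρ⟩, hw⟩ := hz p
  have hcoc := h.cocycle
  set α' := Matrix.fromBlocks α 0 0 (1 : Matrix (Fin r) (Fin r) (MonoidAlgebra ℤ_[p] G)) with hα'
  set β' := Matrix.fromBlocks β 0 0 (1 : Matrix (Fin r) (Fin r) (MonoidAlgebra ℤ_[p] G)) with hβ'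
  set u' := u.map (cg ℤ_[p] G) with hu'
  set v' := v.map (cg ℤ_[p] G) with hv'
  have hE' : u' * v' = α' * β' := by
    rw [hu', hv', ← Matrix.map_mul, huv, hα', hβ', Matrix.fromBlocks_multiply,
      Matrix.fromBlocks_map, Matrix.map_zero _ (map_zero _), Matrix.map_zero _ (map_zero _),
      Matrix.map_one _ (map_zero _) (map_one _), hαβ]
    simp
  have hβα' : β' * α' = 1 := by
    rw [hα', hβ', Matrix.fromBlocks_multiply, hβα]
    simp
  have hvu' : v' * u' = 1 := by
    rw [hu', hv', ← Matrix.map_mul, hvu, Matrix.map_one _ (map_zero _) (map_one _)]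
  have h1 : (β' * u') * (v' * α') = 1 := by
    calc (β' * u') * (v' * α') = β' * (u' * v') * α' := by simp only [Matrix.mul_assoc]
      _ = (β' * α') * (β' * α') := by rw [hE']; simp only [Matrix.mul_assoc]
      _ = 1 := by rw [hβα', Matrix.one_mul]
  have h2 : (v' * α') * (β' * u') = 1 := by
    calc (v' * α') * (β' * u') = v' * (α' * β') * u' := by simp only [Matrix.mul_assoc]
      _ = (v' * u') * (v' * u') := by rw [← hE']; simp only [Matrix.mul_assoc]
      _ = 1 := by rw [hvu', Matrix.one_mul]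
  have h3 : Phi h.W (β' * u') (v' * α') = 0 := Phi_vanish _ _ h1 h2 h.2.1 h.2.2 hp
  have h4 := Phi_cocycle hcoc β' u' (v' * α')
  have h5 : u' * (v' * α') = α' := by
    rw [← Matrix.mul_assoc, hE', Matrix.mul_assoc, hβα', Matrix.mul_one]
  have h6 : v' * α' * β' = v' := by
    rw [Matrix.mul_assoc, ← hE', ← Matrix.mul_assoc, hvu', Matrix.one_mul]
  have h7 : Phi h.W v' u' = ((Phi h.W v u : ℤ) : ℤ_[p]) := by
    rw [hu', hv', Phi_map]
    rfl
  have h8 : Phi h.W β' α' = z h := by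
    rw [hα', hβ', Phi_blocks, Phi_one hcoc, add_zero, hρ]
  rw [h3, h5, h6, h7, h8] at h4
  have h9 : z h = ((Phi h.W v u : ℤ) : ℤ_[p]) := by
    linear_combination -h4
  rw [hw, h9]
  push_cast
  rfl

end Pt

end Pool.Agent.Lib25
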