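import Pool.Agent.Lib_helper25.Approx
import Pool.Agent.Lib_helper25.Detect0

/-!
# The class attached to a `p`-adic idempotent, with its local trivialisations; evaluation
-/

open Matrix LaurentPolynomial

set_option linter.unusedSectionVars false

namespace Pool.Agent.Lib25

section Raw

variable {C : Type*} [CommGroup C] [Finite C]

/-- The `2 × 2` idempotent matrix attached to an idempotent of `ℚ_p[C]`, together with its
trivialisations over `ℚ` and over all `ℤ_q`. -/
theorem exists_raw (p : ℕ) [hp : Fact p.Prime] (E : MonoidAlgebra ℚ_[p] C) (hE : E ^ 2 = E) :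
    ∃ (b f : MonoidAlgebra ℤ C) (_ : f ^ 2 = f * b - b ^ 3)
      (R R' : LaurentPolynomial (MonoidAlgebra ℚ C))
      (e : ∀ (q : ℕ) [Fact q.Prime], MonoidAlgebra ℚ_[q] C),
      (∃ a : MonoidAlgebra ℚ C,
        MonoidAlgebra.mapRingHom C (Int.castRingHom ℚ) b = a - a ^ 2 ∧
        MonoidAlgebra.mapRingHom C (Int.castRingHom ℚ) f = a * (a - a ^ 2)) ∧
      (∃ (α : Matrix (Fin 2) (Fin 1) (LaurentPolynomial (MonoidAlgebra ℚ C)))
        (β : Matrix (Fin 1) (Fin 2) (LaurentPolynomial (MonoidAlgebra ℚ C))),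
        α * β = (nodeMat b f).map (mapL (MonoidAlgebra.mapRingHom C (Int.castRingHom ℚ))) ∧
        β * α = 1 ∧ Matrix.trace (β * α.map DL) = R) ∧
      (∃ (α : Matrix (Fin 2) (Fin 1) (LaurentPolynomial (MonoidAlgebra ℚ C)))
        (β : Matrix (Fin 1) (Fin 2) (LaurentPolynomial (MonoidAlgebra ℚ C))),
        α * β = (1 - nodeMat b f).map (mapL (MonoidAlgebra.mapRingHom C (Int.castRingHom ℚ))) ∧
        β * α = 1 ∧ Matrix.trace (β * α.map DL) = R') ∧
      e p = E ∧ (∀ (q : ℕ) [Fact q.Prime], q ≠ p → e q = 0) ∧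
      ∀ (q : ℕ) [Fact q.Prime],
        (∃ (α : Matrix (Fin 2) (Fin 1) (LaurentPolynomial (MonoidAlgebra ℤ_[q] C)))
          (β : Matrix (Fin 1) (Fin 2) (LaurentPolynomial (MonoidAlgebra ℤ_[q] C))),
          α * β = (nodeMat b f).map
            (mapL (MonoidAlgebra.mapRingHom C (Int.castRingHom ℤ_[q]))) ∧
          β * α = 1 ∧ mapL (MonoidAlgebra.mapRingHom C (PadicInt.Coe.ringHom))
            (Matrix.trace (β * α.map DL)) =
            mapL (MonoidAlgebra.mapRingHom C (algebraMap ℚ ℚ_[q])) R - LaurentPolynomial.C (e q)) ∧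
        (∃ (α : Matrix (Fin 2) (Fin 1) (LaurentPolynomial (MonoidAlgebra ℤ_[q] C)))
          (β : Matrix (Fin 1) (Fin 2) (LaurentPolynomial (MonoidAlgebra ℤ_[q] C))),
          α * β = (1 - nodeMat b f).map
            (mapL (MonoidAlgebra.mapRingHom C (Int.castRingHom ℤ_[q]))) ∧
          β * α = 1 ∧ mapL (MonoidAlgebra.mapRingHom C (PadicInt.Coe.ringHom))
            (Matrix.trace (β * α.map DL)) =
            mapL (MonoidAlgebra.mapRingHom C (algebraMap ℚ ℚ_[q])) R' +
              LaurentPolynomial.C (e q)) := by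
  classical
  obtain ⟨s, a, a0, u, E0, ha0, hE0, hau⟩ := exists_approx p E
  set ιp := MonoidAlgebra.mapRingHom C (PadicInt.Coe.ringHom (p := p)) with hιp
  set ιQ := MonoidAlgebra.mapRingHom C (Int.castRingHom ℚ) with hιQ
  set κp := MonoidAlgebra.mapRingHom C (algebraMap ℚ ℚ_[p]) with hκp
  -- the local elements at `p`
  set εp : MonoidAlgebra ℤ_[p] C := (p : MonoidAlgebra ℤ_[p] C) ^ s * u with hεp
  set ηp : MonoidAlgebra ℤ_[p] C := E0 * u with hηp
  have h1 : ιp εp = κp a - E := by
    rw [hεp, map_mul, map_pow, map_natCast, hau]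
    ring
  have h2 : ιp ηp = (κp a - E) * E := by
    rw [hηp, map_mul, hE0, hau]
    ring
  clear_value εp ηp
  -- integrality of `b` and `f`
  obtain ⟨b, hb⟩ := exists_int_of_padic p (a - a ^ 2) (2 * s)
    ((p : MonoidAlgebra ℤ C) ^ s * a0 - a0 ^ 2)
    (by rw [map_sub, map_mul, map_pow, map_pow, map_natCast, ← ha0]; ring)
    (εp - 2 * ηp - εp ^ 2)
    (by
      rw [map_sub, map_sub, map_mul, map_pow, map_ofNat, h1, h2, map_sub, map_pow]
      linear_combination hE)
  obtain ⟨f, hf⟩ := exists_int_of_padic p (a * (a - a ^ 2)) (3 * s)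
    ((p : MonoidAlgebra ℤ C) ^ s * a0 ^ 2 - a0 ^ 3)
    (by rw [map_sub, map_mul, map_pow, map_pow, map_pow, map_natCast, ← ha0]; ring)
    (-ηp - 3 * εp * ηp + εp ^ 2 - εp ^ 3)
    (by
      rw [map_sub, map_add, map_sub, map_neg, map_mul, map_mul, map_pow, map_pow, map_ofNat, h1,
        h2, map_mul, map_sub, map_pow]
      linear_combination (3 * κp a - 2 * E) * hE)
  have hn : f ^ 2 = f * b - b ^ 3 := by
    apply mapRingHom_injective' (Int.castRingHom ℚ) Int.cast_injective
    rw [map_pow, map_sub, map_mul, map_pow, hb, hf]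
    ring
  -- the family of idempotents
  obtain ⟨e, hep, heq⟩ : ∃ e : ∀ (q : ℕ) [Fact q.Prime], MonoidAlgebra ℚ_[q] C, e p = E ∧
      ∀ (q : ℕ) [Fact q.Prime], q ≠ p → e q = 0 := by
    clear_value ιp κp ιQ
    clear hE u E0 hE0 hιp ha0 hau hκp hεp hηp h1 h2 εp ηp hb hf
    refine ⟨fun q _ => if h : q = p then by subst h; exact E else 0, by simp,
      fun q _ hq => by simp [hq]⟩
  have hεη : ∀ (q : ℕ) [Fact q.Prime], ∃ ε η : MonoidAlgebra ℤ_[q] C,
      MonoidAlgebra.mapRingHom C (PadicInt.Coe.ringHom) ε =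
        MonoidAlgebra.mapRingHom C (algebraMap ℚ ℚ_[q]) a - e q ∧
      MonoidAlgebra.mapRingHom C (PadicInt.Coe.ringHom) η =
        (MonoidAlgebra.mapRingHom C (algebraMap ℚ ℚ_[q]) a - e q) * e q := by
    intro q _
    by_cases hq : q = p
    · subst hq
      rw [hep]
      exact ⟨εp, ηp, h1, h2⟩
    · rw [heq q hq]
      obtain ⟨ε, hε⟩ := exists_padicInt_lift q
        (MonoidAlgebra.mapRingHom C (algebraMap ℚ ℚ_[q]) a) (fun c => by
          rw [coeff_mapRingHom']
          have h3 : (p : ℚ) ^ s * a.coeff c = ((a0.coeff c : ℤ) : ℚ) := by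
            have h4 := congrArg (fun z => z.coeff c) ha0
            simp only [hιQ, coeff_mapRingHom'] at h4
            have h5 : (p : MonoidAlgebra ℚ C) ^ s * a = (p ^ s : ℕ) • a := by
              rw [nsmul_eq_mul]; push_cast; rfl
            rw [h5] at h4
            have h6 : (p ^ s : ℕ) • (a.coeff c) = ((a0.coeff c : ℤ) : ℚ) := h4
            rw [nsmul_eq_mul] at h6
            push_cast at h6
            exact h6
          have h4 : (p : ℚ_[q]) ^ s * (a.coeff c : ℚ_[q]) = ((a0.coeff c : ℤ) : ℚ_[q]) := by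
            have := congrArg (fun t : ℚ => (t : ℚ_[q])) h3
            push_cast at this
            exact this
          have h5 : ‖(p : ℚ_[q])‖ = 1 := by
            rw [Padic.norm_natCast_eq_one_iff]
            exact (Nat.coprime_primes (Fact.out : q.Prime) hp.out).2 hq
          have h6 := congrArg norm h4
          rw [norm_mul, norm_pow, h5, one_pow, one_mul] at h6
          change ‖(a.coeff c : ℚ_[q])‖ ≤ 1
          rw [h6]
          exact Padic.norm_int_le_one _)
      exact ⟨ε, 0, by rw [hε, sub_zero], by simp⟩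
  have he : ∀ (q : ℕ) [Fact q.Prime], e q ^ 2 = e q := by
    intro q _
    by_cases hq : q = p
    · subst hq
      rw [hep]
      exact hE
    · rw [heq q hq]
      simp
  have hmapid : ∀ x : LaurentPolynomial (MonoidAlgebra ℚ C),
      mapL (RingHom.id (MonoidAlgebra ℚ C)) x = x := by
    intro x
    induction x using AddMonoidAlgebra.induction_linear with
    | zero => simp
    | add f g hf hg => simp only [map_add, hf, hg]
    | single n a => rw [mapL_single]; rfl
  refine ⟨b, f, hn, Rfun a, Rfun' a, e, ⟨a, hb, hf⟩, ?_, ?_, hep, heq, ?_⟩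
  · obtain ⟨⟨α, β, h1, h2, h3⟩, -⟩ :=
      local_triv (RingHom.id (MonoidAlgebra ℚ C)) Function.injective_id a 0 (by ring)
        (MonoidAlgebra.mapRingHom C (Int.castRingHom ℚ) b)
        (MonoidAlgebra.mapRingHom C (Int.castRingHom ℚ) f) a 0 hb hf (by simp) (by simp)
    rw [hmapid, map_zero, sub_zero] at h3
    rw [← map_nodeMat] at h1
    exact ⟨α, β, h1, h2, h3⟩
  · obtain ⟨-, ⟨α, β, h1, h2, h3⟩⟩ :=
      local_triv (RingHom.id (MonoidAlgebra ℚ C)) Function.injective_id a 0 (by ring)
        (MonoidAlgebra.mapRingHom C (Int.castRingHom ℚ) b)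
        (MonoidAlgebra.mapRingHom C (Int.castRingHom ℚ) f) a 0 hb hf (by simp) (by simp)
    rw [hmapid, map_zero, add_zero] at h3
    rw [← map_nodeMat] at h1
    refine ⟨α, β, ?_, h2, h3⟩
    rw [h1]
    ext1 i j
    simp [Matrix.one_apply]
    rfl
  · intro q _
    have hcomp : ∀ (x : MonoidAlgebra ℤ C),
        MonoidAlgebra.mapRingHom C (PadicInt.Coe.ringHom (p := q))
          (MonoidAlgebra.mapRingHom C (Int.castRingHom ℤ_[q]) x) =
        MonoidAlgebra.mapRingHom C (algebraMap ℚ ℚ_[q])
          (MonoidAlgebra.mapRingHom C (Int.castRingHom ℚ) x) := by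
      intro x
      ext g
      simp only [coeff_mapRingHom']
      simp
    obtain ⟨ε, η, hε, hη⟩ := hεη q
    obtain ⟨⟨γ, δ, k1, k2, k3⟩, ⟨γ', δ', k1', k2', k3'⟩⟩ :=
      local_triv (MonoidAlgebra.mapRingHom C (PadicInt.Coe.ringHom (p := q)))
      (mapRingHom_injective' _ (fun x y h => PadicInt.ext h))
      (MonoidAlgebra.mapRingHom C (algebraMap ℚ ℚ_[q]) a) (e q) (he q)
      (MonoidAlgebra.mapRingHom C (Int.castRingHom ℤ_[q]) b)
      (MonoidAlgebra.mapRingHom C (Int.castRingHom ℤ_[q]) f) ε η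
      (by rw [hcomp]; erw [hb]; simp) (by rw [hcomp]; erw [hf]; simp)
      hε hη
    rw [← map_nodeMat] at k1 k1'
    refine ⟨⟨γ, δ, k1, k2, ?_⟩, ⟨γ', δ', ?_, k2', ?_⟩⟩
    · rw [k3, mapL_Rfun]
    · rw [k1']
      ext1 i j
      simp [Matrix.one_apply]
    · rw [k3', mapL_Rfun']

end Raw

section Ev

variable {Cg : Type*} [CommGroup Cg] {G : Type*} [Group G]

theorem ev_commute (k : Type*) [CommRing k] (ψ : Cg →* G) (g : G) (hg : ∀ c, Commute g (ψ c))
    (x : MonoidAlgebra k Cg) (y : Multiplicative ℤ) :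
    Commute (push k ψ x) (((MonoidAlgebra.of k G).comp (zpowersHom G g)) y) := by
  induction x using MonoidAlgebra.induction_linear with
  | zero => rw [map_zero]; exact Commute.zero_left _
  | add p q hp hq => rw [map_add]; exact hp.add_left hq
  | single c a =>
    rw [push_single]
    change MonoidAlgebra.single (ψ c) a * MonoidAlgebra.single (g ^ (Multiplicative.toAdd y)) 1 =
      MonoidAlgebra.single (g ^ (Multiplicative.toAdd y)) 1 * MonoidAlgebra.single (ψ c) a
    rw [MonoidAlgebra.single_mul_single, MonoidAlgebra.single_mul_single, mul_one, one_mul]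
    congr 1
    exact (((hg c).zpow_left _).eq).symm

/-- Evaluation `k[Cg][t,t⁻¹] → k[G]` along `ψ : Cg → G` and `t ↦ g`. -/
noncomputable def ev (k : Type*) [CommRing k] (ψ : Cg →* G) (g : G) (hg : ∀ c, Commute g (ψ c)) :
    LaurentPolynomial (MonoidAlgebra k Cg) →+* MonoidAlgebra k G :=
  AddMonoidAlgebra.liftNCRingHom (push k ψ) ((MonoidAlgebra.of k G).comp (zpowersHom G g))
    (ev_commute k ψ g hg)

theorem ev_single (k : Type*) [CommRing k] (ψ : Cg →* G) (g : G) (hg : ∀ c, Commute g (ψ c))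
    (n : ℤ) (c : Cg) (a : k) : ev k ψ g hg (AddMonoidAlgebra.single n (MonoidAlgebra.single c a)) =
      MonoidAlgebra.single (ψ c * g ^ n) a := by
  have h1 : ev k ψ g hg (AddMonoidAlgebra.single n (MonoidAlgebra.single c a)) =
      push k ψ (MonoidAlgebra.single c a) *
        ((MonoidAlgebra.of k G).comp (zpowersHom G g)) (Multiplicative.ofAdd n) :=
    AddMonoidAlgebra.liftNC_single _ _ _ _
  rw [h1, push_single]
  change MonoidAlgebra.single (ψ c) a * MonoidAlgebra.single (g ^ n) 1 = _
  rw [MonoidAlgebra.single_mul_single, mul_one]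

theorem ev_map {k k' : Type*} [CommRing k] [CommRing k'] (i : k →+* k') (ψ : Cg →* G) (g : G)
    (hg : ∀ c, Commute g (ψ c)) (x : LaurentPolynomial (MonoidAlgebra k Cg)) :
    MonoidAlgebra.mapRingHom G i (ev k ψ g hg x) =
      ev k' ψ g hg (mapL (MonoidAlgebra.mapRingHom Cg i) x) := by
  induction x using AddMonoidAlgebra.induction_linear with
  | zero => simp
  | add f g hf hg => simp only [map_add, hf, hg]
  | single n x =>
    rw [mapL_single]
    induction x using MonoidAlgebra.induction_linear with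
    | zero => simp
    | add f g hf hg => simp only [AddMonoidAlgebra.single_add, map_add, hf, hg]
    | single c a => rw [MonoidAlgebra.mapRingHom_single, ev_single, ev_single,
        MonoidAlgebra.mapRingHom_single]

/-- The functional `∑ x_c * mu h lam g (ψ c)` on `k[Cg]`. -/
noncomputable def om {k : Type*} [CommRing k] (ψ : Cg →* G) (g : G) (x : Pt G) :
    MonoidAlgebra k Cg →+ k :=
  (Finsupp.liftAddHom (fun c => AddMonoidHom.mulRight ((mu x.1.1 x.1.2 g (ψ c) : ℤ) : k))).comp
    (MonoidAlgebra.coeffAddEquiv (R := k) (M := Cg)).toAddMonoidHom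

theorem om_single {k : Type*} [CommRing k] (ψ : Cg →* G) (g : G) (x : Pt G) (c : Cg) (a : k) :
    om ψ g x (MonoidAlgebra.single c a) = a * ((mu x.1.1 x.1.2 g (ψ c) : ℤ) : k) := by
  simp only [om, AddMonoidHom.comp_apply]
  have : (MonoidAlgebra.coeffAddEquiv (R := k) (M := Cg)).toAddMonoidHom
      (MonoidAlgebra.single c a) = Finsupp.single c a := rfl
  rw [this, Finsupp.liftAddHom_apply_single]
  rfl

theorem om_map {k k' : Type*} [CommRing k] [CommRing k'] (i : k →+* k') (ψ : Cg →* G) (g : G)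
    (x : Pt G) (y : MonoidAlgebra k Cg) :
    om ψ g x (MonoidAlgebra.mapRingHom Cg i y) = i (om ψ g x y) := by
  induction y using MonoidAlgebra.induction_linear with
  | zero => simp
  | add f g hf hg => simp only [map_add, hf, hg]
  | single c a =>
    rw [MonoidAlgebra.mapRingHom_single, om_single, om_single, map_mul, map_intCast]

theorem om_apply {k : Type*} [CommRing k] [Fintype Cg] (ψ : Cg →* G) (g : G) (x : Pt G)
    (y : MonoidAlgebra k Cg) :
    om ψ g x y = ∑ c, y.coeff c * ((mu x.1.1 x.1.2 g (ψ c) : ℤ) : k) := by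
  induction y using MonoidAlgebra.induction_linear with
  | zero => simp
  | add f g hf hg =>
    rw [map_add, hf, hg, ← Finset.sum_add_distrib]
    refine Finset.sum_congr rfl fun c _ => ?_
    rw [MonoidAlgebra.coeff_add, Finsupp.add_apply, add_mul]
  | single c a =>
    rw [om_single, Finset.sum_eq_single c]
    · rw [MonoidAlgebra.coeff_single, Finsupp.single_eq_same]
    · intro b _ hb
      rw [MonoidAlgebra.coeff_single, Finsupp.single_eq_of_ne hb, zero_mul]
    · intro h
      exact absurd (Finset.mem_univ _) h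

theorem mu_zpow {h : G} {lam : G → ℤ} (H : IsCentHom h lam) {g γ : G} (hg : Commute g γ) (n : ℤ) :
    mu h lam (g ^ n) γ = n * mu h lam g γ := by
  by_cases hc : IsConj h γ
  · rw [mu_of_commute hc (hg.zpow_left n), mu_of_commute hc hg,
      ← H.zpow (commute_conj hc hg)]
    congr 1
    have h1 : ((cx h γ)⁻¹ * g * (cx h γ)⁻¹⁻¹) ^ n = (cx h γ)⁻¹ * g ^ n * (cx h γ)⁻¹⁻¹ := conj_zpow
    rw [inv_inv] at h1
    exact h1.symm
  · rw [mu_of_not hc, mu_of_not hc, mul_zero]

theorem muW_ev [Finite Cg] (ψ : Cg →* G) (g : G) (hg : ∀ c, Commute g (ψ c)) (x : Pt G)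
    (c d : Cg) (i j : ℤ) : x.W (ψ c * g ^ i) (ψ d * g ^ j) =
      if i + j = 0 then j * mu x.1.1 x.1.2 g (ψ (c * d)) else 0 := by
  obtain ⟨⟨h, lam⟩, H, hh⟩ := x
  change mu h lam (ψ c * g ^ i)⁻¹ (ψ c * g ^ i * (ψ d * g ^ j)) =
    if i + j = 0 then j * mu h lam g (ψ (c * d)) else 0
  have hfin : ∀ c, IsOfFinOrder (ψ c) := fun c => MonoidHom.isOfFinOrder ψ (isOfFinOrder_of_finite c)
  have hcc : ∀ c d, Commute (ψ c) (ψ d) := fun c d => by
    change ψ c * ψ d = ψ d * ψ c
    rw [← map_mul, ← map_mul, mul_comm]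
  have h1 : ψ c * g ^ i * (ψ d * g ^ j) = ψ (c * d) * g ^ (i + j) := by
    have h2 : g ^ i * ψ d = ψ d * g ^ i := ((hg d).zpow_left i).eq
    rw [map_mul, _root_.zpow_add]
    calc ψ c * g ^ i * (ψ d * g ^ j) = ψ c * (g ^ i * ψ d) * g ^ j := by group
      _ = _ := by rw [h2]; group
  rw [h1]
  set γ := ψ (c * d) * g ^ (i + j) with hγ
  have hgγ : Commute g γ := (hg _).mul_right ((Commute.refl g).zpow_right _)
  have hcγ : Commute (ψ c) γ := (hcc _ _).mul_right ((hg c).symm.zpow_right _)
  have h3 : mu h lam (ψ c * g ^ i)⁻¹ γ = -i * mu h lam g γ := by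
    have h4 : (ψ c * g ^ i)⁻¹ = g ^ (-i) * (ψ c)⁻¹ := by group
    have h5 : (ψ c)⁻¹ * γ * (ψ c)⁻¹⁻¹ = γ := by
      rw [inv_inv, mul_assoc, ← hcγ.eq]
      group
    rw [h4, mu_mul H, h5, mu_zpow H hgγ, mu_finOrder H hcγ.inv_left (hfin c).inv, add_zero]
  rw [h3]
  split_ifs with hij
  · have h6 : γ = ψ (c * d) := by rw [hγ, hij, zpow_zero, mul_one]
    rw [h6]
    have : -i = j := by omega
    rw [this]
  · by_cases hc : IsConj h γ
    · have h7 : IsOfFinOrder γ := by
        rw [← orderOf_pos_iff] at hh ⊢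
        obtain ⟨u, hu⟩ := hc
        rw [← hu.orderOf_eq (u : G)]
        exact hh
      have h8 : IsOfFinOrder (g ^ (i + j)) := by
        have h9 : g ^ (i + j) = (ψ (c * d))⁻¹ * γ := by rw [hγ]; group
        rw [h9]
        apply Commute.isOfFinOrder_mul _ (hfin _).inv h7
        exact (((hcc _ _).mul_right ((hg _).symm.zpow_right _))).inv_left
      have h10 : IsOfFinOrder g := by
        rcases Int.natAbs_eq (i + j) with h11 | h11
        · rw [h11, zpow_natCast] at h8
          exact IsOfFinOrder.of_pow h8 (by omega)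
        · rw [h11, _root_.zpow_neg, zpow_natCast] at h8
          exact IsOfFinOrder.of_pow (isOfFinOrder_inv_iff.1 h8) (by omega)
      rw [mu_finOrder H hgγ h10, mul_zero]
    · rw [mu_of_not hc, mul_zero]

theorem phi_ev {k : Type*} [CommRing k] [Finite Cg] (ψ : Cg →* G) (g : G)
    (hg : ∀ c, Commute g (ψ c)) (x : Pt G) (a b : LaurentPolynomial (MonoidAlgebra k Cg)) :
    phi x.W (ev k ψ g hg a) (ev k ψ g hg b) = om ψ g x (coeffZero (a * DL b)) := by
  induction a using AddMonoidAlgebra.induction_linear with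
  | zero => simp
  | add f g hf hg => simp only [map_add, add_mul, AddMonoidHom.add_apply, hf, hg]
  | single i a =>
    induction b using AddMonoidAlgebra.induction_linear with
    | zero => simp
    | add f g hf hg => simp only [map_add, mul_add, hf, hg]
    | single j b =>
      induction a using MonoidAlgebra.induction_linear with
      | zero => simp
      | add f g hf hg =>
        simp only [AddMonoidAlgebra.single_add, map_add, add_mul, AddMonoidHom.add_apply, hf, hg]
      | single c u =>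
        induction b using MonoidAlgebra.induction_linear with
        | zero => simp
        | add f g hf hg =>
          simp only [AddMonoidAlgebra.single_add, map_add, mul_add, hf, hg]
        | single d v =>
          rw [ev_single, ev_single, phi_single, muW_ev ψ g hg, DL_single,
            AddMonoidAlgebra.single_mul_single, coeffZero_single]
          split_ifs with hij
          · have h1 : j • (MonoidAlgebra.single d v : MonoidAlgebra k Cg) =
                MonoidAlgebra.single d (j • v) := by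
              rw [MonoidAlgebra.smul_single]
            rw [h1, MonoidAlgebra.single_mul_single, om_single, zsmul_eq_mul]
            push_cast
            ring
          · simp

theorem Phi_ev {k : Type*} [CommRing k] [Finite Cg] {m n : Type*} [Fintype m] [Fintype n]
    (ψ : Cg →* G) (g : G) (hg : ∀ c, Commute g (ψ c)) (x : Pt G)
    (β : Matrix m n (LaurentPolynomial (MonoidAlgebra k Cg)))
    (α : Matrix n m (LaurentPolynomial (MonoidAlgebra k Cg))) :
    Phi x.W (β.map (ev k ψ g hg)) (α.map (ev k ψ g hg)) =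
      om ψ g x (coeffZero (Matrix.trace (β * α.map DL))) := by
  simp only [Phi, Matrix.map_apply, phi_ev, Matrix.trace, Matrix.diag_apply, Matrix.mul_apply,
    map_sum]

end Ev

end Pool.Agent.Lib25
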