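import Pool.Agent.Lib_helper25.Rel0

/-!
# Lemmas on the symbols
-/

namespace Pool.Agent.Lib25

universe v

theorem srcMk_surjective (G : Type v) [Group G] : Function.Surjective (srcMk G) :=
  Submodule.mkQ_surjective _

theorem srcMk_eq_zero {G : Type v} [Group G] {x : ℕ × G × G →₀ ℚ}
    (hx : x ∈ Submodule.span ℚ {x | Rel G x}) : srcMk G x = 0 :=
  (Submodule.Quotient.mk_eq_zero _).2 hx

/-- If the abelianization of `H` is finitely generated, then homomorphisms to `ℤ` detect
homomorphisms to `ℚ`. -/
theorem zDetects_of_fg (H : Type v) [Group H] (hfg : Group.FG (Abelianization H)) :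
    ZDetects H := by
  classical
  intro z hz f
  let F : Abelianization H →* Multiplicative ℚ := Abelianization.lift f
  have hF : F (Abelianization.of z) = f z := Abelianization.lift_apply_of f z
  obtain ⟨S, hS⟩ := (Group.fg_def.1 hfg)
  -- a common denominator
  obtain ⟨N, hN, hden⟩ : ∃ N : ℕ, 0 < N ∧ ∀ y : Abelianization H,
      ∃ m : ℤ, (N : ℚ) * Multiplicative.toAdd (F y) = m := by
    refine ⟨∏ y ∈ S, (Multiplicative.toAdd (F y)).den, Finset.prod_pos fun y _ => Rat.den_pos _, ?_⟩
    intro y
    have hy : y ∈ Subgroup.closure (S : Set (Abelianization H)) := by rw [hS]; trivial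
    induction hy using Subgroup.closure_induction with
    | mem x hx =>
      obtain ⟨d, hd⟩ := Finset.dvd_prod_of_mem (fun y => (Multiplicative.toAdd (F y)).den) hx
      refine ⟨d * (Multiplicative.toAdd (F x)).num, ?_⟩
      rw [hd]
      push_cast
      have h1 := Rat.mul_den_eq_num (Multiplicative.toAdd (F x))
      linear_combination (d : ℚ) * h1
    | one => exact ⟨0, by rw [map_one]; simp⟩
    | mul x y _ _ hx hy =>
      obtain ⟨a, ha⟩ := hx
      obtain ⟨b, hb⟩ := hy
      refine ⟨a + b, ?_⟩
      rw [map_mul, toAdd_mul, Int.cast_add]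
      linear_combination ha + hb
    | inv x _ hx =>
      obtain ⟨a, ha⟩ := hx
      refine ⟨-a, ?_⟩
      rw [map_inv, toAdd_inv, Int.cast_neg]
      linear_combination -ha
  choose m hm using hden
  have hN' : (N : ℚ) ≠ 0 := Nat.cast_ne_zero.2 hN.ne'
  let g : H →* Multiplicative ℤ :=
    { toFun := fun x => Multiplicative.ofAdd (m (Abelianization.of x))
      map_one' := by
        have h1 := hm (Abelianization.of (1 : H))
        rw [map_one, map_one, toAdd_one, mul_zero] at h1
        have h2 : m (Abelianization.of (1 : H)) = 0 := by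
          rw [map_one]
          exact_mod_cast h1.symm
        rw [h2]
        rfl
      map_mul' := fun x y => by
        rw [← ofAdd_add]
        congr 1
        have h1 := hm (Abelianization.of (x * y))
        have h2 := hm (Abelianization.of x)
        have h3 := hm (Abelianization.of y)
        rw [map_mul, map_mul, toAdd_mul] at h1
        rw [map_mul]
        have h4 : ((m (Abelianization.of x * Abelianization.of y) : ℤ) : ℚ) =
            ((m (Abelianization.of x) + m (Abelianization.of y) : ℤ) : ℚ) := by
          push_cast
          rw [← h1, ← h2, ← h3]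
          ring
        exact_mod_cast h4 }
  have h1 := hz g
  have h2 : m (Abelianization.of z) = 0 := h1
  have h3 := hm (Abelianization.of z)
  rw [h2, Int.cast_zero, mul_eq_zero] at h3
  rcases h3 with h3 | h3
  · exact absurd h3 hN'
  · rw [← hF]
    exact h3

end Pool.Agent.Lib25
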