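import Mathlib

/-!
# Low-dimensional algebraic K-theory of (noncommutative) rings

* `K0 R` : the Grothendieck group of the commutative monoid of equivalence classes of idempotent
  square matrices over `R` (equivalently: of isomorphism classes of finitely generated projective
  modules), where idempotents `e`, `f` are equivalent when `e = x * y` and `f = y * x` for some
  rectangular matrices `x`, `y`; addition is block sum.
* `KNegOne R` : Bass' negative K-group `K_{-1}(R)`, the cokernel of
  `K0 R[t] ⊕ K0 R[t⁻¹] → K0 R[t,t⁻¹]`.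
-/

open Matrix

namespace Pool.Agent.Lib25

universe u v

/-- An idempotent square matrix over `R`. -/
structure IdemMat (R : Type u) [Ring R] where
  /-- the size of the matrix -/
  n : ℕ
  /-- the matrix -/
  mat : Matrix (Fin n) (Fin n) R
  /-- it is idempotent -/
  idem : mat * mat = mat

/-- Two idempotent matrices `e` and `f` (of possibly different sizes) are equivalent if there are
rectangular matrices `x`, `y` with `e = x * y` and `f = y * x`.  Equivalently, their images are
isomorphic modules. -/
def MvN {R : Type u} [Ring R] {m n : Type*} [Fintype m] [Fintype n]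
    (e : Matrix m m R) (f : Matrix n n R) : Prop :=
  ∃ (x : Matrix m n R) (y : Matrix n m R), x * y = e ∧ y * x = f

section MvN

variable {R : Type u} [Ring R] {l m n o : Type*} [Fintype l] [Fintype m] [Fintype n] [Fintype o]

theorem MvN.refl {e : Matrix m m R} (he : e * e = e) : MvN e e := ⟨e, e, he, he⟩

theorem MvN.symm {e : Matrix m m R} {f : Matrix n n R} (h : MvN e f) : MvN f e := by
  obtain ⟨x, y, h1, h2⟩ := h
  exact ⟨y, x, h2, h1⟩

theorem MvN.trans {e : Matrix m m R} {f : Matrix n n R} {g : Matrix o o R}
    (he : e * e = e) (hg : g * g = g) (h : MvN e f) (h' : MvN f g) : MvN e g := by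
  obtain ⟨x, y, h1, h2⟩ := h
  obtain ⟨z, w, h3, h4⟩ := h'
  refine ⟨x * z, w * y, ?_, ?_⟩
  · calc x * z * (w * y) = x * (z * w) * y := by simp only [Matrix.mul_assoc]
      _ = (x * y) * (x * y) := by rw [h3, ← h2]; simp only [Matrix.mul_assoc]
      _ = e := by rw [h1, he]
  · calc w * y * (x * z) = w * (y * x) * z := by simp only [Matrix.mul_assoc]
      _ = (w * z) * (w * z) := by rw [h2, ← h3]; simp only [Matrix.mul_assoc]
      _ = g := by rw [h4, hg]

theorem MvN.fromBlocks {e : Matrix m m R} {f : Matrix n n R} {e' : Matrix l l R}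
    {f' : Matrix o o R} (h : MvN e e') (h' : MvN f f') :
    MvN (Matrix.fromBlocks e 0 0 f) (Matrix.fromBlocks e' 0 0 f') := by
  obtain ⟨x, y, h1, h2⟩ := h
  obtain ⟨z, w, h3, h4⟩ := h'
  refine ⟨Matrix.fromBlocks x 0 0 z, Matrix.fromBlocks y 0 0 w, ?_, ?_⟩ <;>
  simp [Matrix.fromBlocks_multiply, h1, h2, h3, h4]

theorem MvN.submatrix {e : Matrix m m R} (he : e * e = e) (σ : n ≃ m) :
    MvN e (e.submatrix σ σ) := by
  refine ⟨e.submatrix id σ, e.submatrix σ id, ?_, ?_⟩
  · rw [← Matrix.submatrix_mul e e id σ id σ.bijective, he, Matrix.submatrix_id_id]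
  · rw [← Matrix.submatrix_mul e e σ id σ Function.bijective_id, he]

theorem idem_fromBlocks {e : Matrix m m R} {f : Matrix n n R} (he : e * e = e) (hf : f * f = f) :
    Matrix.fromBlocks e 0 0 f * Matrix.fromBlocks e 0 0 f = Matrix.fromBlocks e 0 0 f := by
  simp [Matrix.fromBlocks_multiply, he, hf]

theorem idem_submatrix {e : Matrix m m R} (he : e * e = e) (σ : n ≃ m) :
    e.submatrix σ σ * e.submatrix σ σ = e.submatrix σ σ := by
  rw [← Matrix.submatrix_mul e e σ σ σ σ.bijective, he]

theorem MvN.comm_blocks {e : Matrix m m R} {f : Matrix n n R} (he : e * e = e) (hf : f * f = f) :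
    MvN (Matrix.fromBlocks e 0 0 f) (Matrix.fromBlocks f 0 0 e) := by
  refine ⟨Matrix.fromBlocks 0 e f 0, Matrix.fromBlocks 0 f e 0, ?_, ?_⟩ <;>
  simp [Matrix.fromBlocks_multiply, he, hf]

theorem MvN.map {S : Type v} [Ring S] (φ : R →+* S) {e : Matrix m m R} {f : Matrix n n R}
    (h : MvN e f) : MvN (e.map φ) (f.map φ) := by
  obtain ⟨x, y, h1, h2⟩ := h
  refine ⟨x.map φ, y.map φ, ?_, ?_⟩
  · rw [← Matrix.map_mul, h1]
  · rw [← Matrix.map_mul, h2]

end MvN

namespace IdemMat

variable {R : Type u} [Ring R]

/-- Equivalence of idempotent matrices is an equivalence relation. -/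
instance setoid (R : Type u) [Ring R] : Setoid (IdemMat R) where
  r e f := MvN e.mat f.mat
  iseqv :=
    { refl := fun e => MvN.refl e.idem
      symm := fun h => h.symm
      trans := fun {e _ g} h h' => h.trans e.idem g.idem h' }

theorem equiv_iff {e f : IdemMat R} : e ≈ f ↔ MvN e.mat f.mat := Iff.rfl

/-- Block sum of idempotent matrices. -/
def add (e f : IdemMat R) : IdemMat R where
  n := e.n + f.n
  mat := (Matrix.fromBlocks e.mat 0 0 f.mat).submatrix finSumFinEquiv.symm finSumFinEquiv.symm
  idem := idem_submatrix (idem_fromBlocks e.idem f.idem) _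

/-- The empty matrix. -/
def zero (R : Type u) [Ring R] : IdemMat R where
  n := 0
  mat := 0
  idem := by simp

theorem add_equiv_blocks (e f : IdemMat R) :
    MvN (Matrix.fromBlocks e.mat 0 0 f.mat) (add e f).mat :=
  MvN.submatrix (idem_fromBlocks e.idem f.idem) _

theorem add_congr {e e' f f' : IdemMat R} (h : e ≈ e') (h' : f ≈ f') : add e f ≈ add e' f' := by
  have h1 : MvN (Matrix.fromBlocks e.mat 0 0 f.mat) (Matrix.fromBlocks e'.mat 0 0 f'.mat) :=
    MvN.fromBlocks h h'
  exact ((add_equiv_blocks e f).symm.trans (add e f).idem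
    (idem_fromBlocks e'.idem f'.idem) h1).trans (add e f).idem (add e' f').idem
    (add_equiv_blocks e' f')

theorem add_comm' (e f : IdemMat R) : add e f ≈ add f e :=
  ((add_equiv_blocks e f).symm.trans (add e f).idem
    (idem_fromBlocks f.idem e.idem) (MvN.comm_blocks e.idem f.idem)).trans (add e f).idem
      (add f e).idem (add_equiv_blocks f e)

theorem zero_add' (e : IdemMat R) : add (zero R) e ≈ e := by
  have h : MvN (Matrix.fromBlocks (zero R).mat 0 0 e.mat) e.mat := by
    refine ⟨Matrix.fromRows 0 e.mat, Matrix.fromCols 0 e.mat, ?_, ?_⟩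
    · ext i j
      rcases i with i | i
      · exact i.elim0
      · rcases j with j | j
        · exact j.elim0
        · have := congrFun (congrFun e.idem i) j
          simpa [Matrix.mul_apply] using this
    · rw [Matrix.fromCols_mul_fromRows, e.idem]
      simp
  exact (add_equiv_blocks _ _).symm.trans (add _ _).idem e.idem h

theorem add_assoc' (e f g : IdemMat R) : add (add e f) g ≈ add e (add f g) := by
  have h1 : MvN (Matrix.fromBlocks (add e f).mat 0 0 g.mat)
      (Matrix.fromBlocks (Matrix.fromBlocks e.mat 0 0 f.mat) 0 0 g.mat) :=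
    MvN.fromBlocks (add_equiv_blocks e f).symm (MvN.refl g.idem)
  have h2 : MvN (Matrix.fromBlocks (Matrix.fromBlocks e.mat 0 0 f.mat) 0 0 g.mat)
      ((Matrix.fromBlocks (Matrix.fromBlocks e.mat 0 0 f.mat) 0 0 g.mat).submatrix
        (Equiv.sumAssoc _ _ _).symm (Equiv.sumAssoc _ _ _).symm) :=
    MvN.submatrix (idem_fromBlocks (idem_fromBlocks e.idem f.idem) g.idem) _
  have h3 : (Matrix.fromBlocks (Matrix.fromBlocks e.mat 0 0 f.mat) 0 0 g.mat).submatrix
        (Equiv.sumAssoc _ _ _).symm (Equiv.sumAssoc _ _ _).symm =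
      Matrix.fromBlocks e.mat 0 0 (Matrix.fromBlocks f.mat 0 0 g.mat) := by
    ext i j
    rcases i with i | i | i <;> rcases j with j | j | j <;> rfl
  rw [h3] at h2
  have h4 : MvN (Matrix.fromBlocks e.mat 0 0 (Matrix.fromBlocks f.mat 0 0 g.mat))
      (Matrix.fromBlocks e.mat 0 0 (add f g).mat) :=
    MvN.fromBlocks (MvN.refl e.idem) (add_equiv_blocks f g)
  have i1 := (add (add e f) g).idem
  have i2 := (add e (add f g)).idem
  have i3 := idem_fromBlocks (add e f).idem g.idem
  have i4 := idem_fromBlocks (idem_fromBlocks e.idem f.idem) g.idem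
  have i5 := idem_fromBlocks e.idem (idem_fromBlocks f.idem g.idem)
  have i6 := idem_fromBlocks e.idem (add f g).idem
  exact (((((add_equiv_blocks (add e f) g).symm.trans i1 i4 h1).trans i1 i5 h2).trans i1 i6
    h4).trans i1 i2 (add_equiv_blocks e (add f g)))

/-- Base change of idempotent matrices along a ring homomorphism. -/
def map {S : Type v} [Ring S] (φ : R →+* S) (e : IdemMat R) : IdemMat S where
  n := e.n
  mat := e.mat.map φ
  idem := by rw [← Matrix.map_mul, e.idem]

theorem map_congr {S : Type v} [Ring S] (φ : R →+* S) {e f : IdemMat R} (h : e ≈ f) :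
    e.map φ ≈ f.map φ := MvN.map φ h

theorem map_add' {S : Type v} [Ring S] (φ : R →+* S) (e f : IdemMat R) :
    (add e f).map φ = add (e.map φ) (f.map φ) := by
  unfold map add
  congr 1
  ext i j
  simp only [Matrix.map_apply, Matrix.submatrix_apply]
  rcases finSumFinEquiv.symm i with i | i <;> rcases finSumFinEquiv.symm j with j | j <;> simp

end IdemMat

/-- The set of equivalence classes of idempotent matrices over `R`. -/
def IdemClass (R : Type u) [Ring R] : Type u := Quotient (IdemMat.setoid R)

namespace IdemClass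

variable {R : Type u} [Ring R]

/-- The class of an idempotent matrix. -/
def mk (e : IdemMat R) : IdemClass R := Quotient.mk _ e

instance (R : Type u) [Ring R] : Add (IdemClass R) where
  add := Quotient.map₂ IdemMat.add fun _ _ h _ _ h' => IdemMat.add_congr h h'

instance (R : Type u) [Ring R] : Zero (IdemClass R) where
  zero := mk (IdemMat.zero R)

/-- Block sum makes the set of classes of idempotent matrices a commutative monoid. -/
instance (R : Type u) [Ring R] : AddCommMonoid (IdemClass R) where
  add_assoc := by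
    rintro ⟨a⟩ ⟨b⟩ ⟨c⟩
    exact Quotient.sound (IdemMat.add_assoc' a b c)
  zero_add := by
    rintro ⟨a⟩
    exact Quotient.sound (IdemMat.zero_add' a)
  add_zero := by
    rintro ⟨a⟩
    exact Quotient.sound (Setoid.trans (IdemMat.add_comm' a _) (IdemMat.zero_add' a))
  add_comm := by
    rintro ⟨a⟩ ⟨b⟩
    exact Quotient.sound (IdemMat.add_comm' a b)
  nsmul := nsmulRec

theorem mk_add (e f : IdemMat R) : mk (e.add f) = mk e + mk f := rfl

/-- Base change along a ring homomorphism, on classes of idempotent matrices. -/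
def map {S : Type v} [Ring S] (φ : R →+* S) : IdemClass R →+ IdemClass S where
  toFun := Quotient.map (IdemMat.map φ) fun _ _ h => IdemMat.map_congr φ h
  map_zero' := by
    refine Quotient.sound ?_
    have : (IdemMat.zero R).map φ = IdemMat.zero S := by
      unfold IdemMat.map IdemMat.zero
      congr 1
      ext i j
      exact i.elim0
    rw [this]
  map_add' := by
    rintro ⟨a⟩ ⟨b⟩
    exact congrArg mk (IdemMat.map_add' φ a b)

end IdemClass

/-- `K₀(R)`: the Grothendieck group of the commutative monoid of equivalence classes of idempotent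
matrices over `R`. -/
def K0 (R : Type u) [Ring R] : Type u := Algebra.GrothendieckAddGroup (IdemClass R)

noncomputable instance K0.instAddCommGroup (R : Type u) [Ring R] : AddCommGroup (K0 R) :=
  @Algebra.GrothendieckAddGroup.instAddCommGroup (IdemClass R) _

/-- The class in `K₀(R)` of an idempotent matrix. -/
noncomputable def K0.of {R : Type u} [Ring R] (e : IdemMat R) : K0 R :=
  Algebra.GrothendieckAddGroup.of (IdemClass.mk e)

/-- Functoriality of `K₀`: base change along a ring homomorphism. -/
noncomputable def K0.map {R : Type u} {S : Type v} [Ring R] [Ring S] (φ : R →+* S) :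
    K0 R →+ K0 S :=
  Algebra.GrothendieckAddGroup.lift (Algebra.GrothendieckAddGroup.of.comp (IdemClass.map φ))

open Polynomial in
/-- The inclusion `R[t] → R[t,t⁻¹]`. -/
noncomputable def posIncl (R : Type u) [Ring R] : R[X] →+* LaurentPolynomial R :=
  Polynomial.toLaurent

/-- The automorphism `t ↦ t⁻¹` of `R[t,t⁻¹]`. -/
noncomputable def flipT (R : Type u) [Ring R] : LaurentPolynomial R →+* LaurentPolynomial R :=
  AddMonoidAlgebra.mapDomainRingHom R (-(AddMonoidHom.id ℤ))

open Polynomial in
/-- The inclusion `R[t⁻¹] → R[t,t⁻¹]` (as the homomorphism `R[X] → R[t,t⁻¹]` with `X ↦ t⁻¹`). -/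
noncomputable def negIncl (R : Type u) [Ring R] : R[X] →+* LaurentPolynomial R :=
  (flipT R).comp (posIncl R)

/-- The image of `K₀(R[t]) ⊕ K₀(R[t⁻¹])` in `K₀(R[t,t⁻¹])`. -/
noncomputable def extImage (R : Type u) [Ring R] : AddSubgroup (K0 (LaurentPolynomial R)) :=
  (K0.map (posIncl R)).range ⊔ (K0.map (negIncl R)).range

/-- Bass' negative K-group `K_{-1}(R)`: the cokernel of the map
`K₀(R[t]) ⊕ K₀(R[t⁻¹]) → K₀(R[t,t⁻¹])`. -/
def KNegOne (R : Type u) [Ring R] : Type u := K0 (LaurentPolynomial R) ⧸ extImage R

noncomputable instance KNegOne.instAddCommGroup (R : Type u) [Ring R] : AddCommGroup (KNegOne R) :=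
  QuotientAddGroup.Quotient.addCommGroup (extImage R)

section KLemmas0

variable {R : Type*} [Ring R]

theorem K0.exists_sub (x : K0 R) : ∃ e f : IdemMat R, x = K0.of e - K0.of f := by
  have h : ∀ x : Algebra.GrothendieckAddGroup (IdemClass R), ∃ a b : IdemClass R,
      x = Algebra.GrothendieckAddGroup.of a - Algebra.GrothendieckAddGroup.of b := by
    intro x
    induction x using AddLocalization.ind with
    | H y =>
      obtain ⟨a, b⟩ := y
      refine ⟨a, b, ?_⟩
      rw [eq_sub_iff_add_eq]
      have h1 : (Algebra.GrothendieckAddGroup.of (b : IdemClass R) :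
          Algebra.GrothendieckAddGroup (IdemClass R)) = AddLocalization.mk (b : IdemClass R) 0 :=
        (AddLocalization.mk_zero_eq_addMonoidOf_mk _).symm
      have h2 : (Algebra.GrothendieckAddGroup.of (a : IdemClass R) :
          Algebra.GrothendieckAddGroup (IdemClass R)) = AddLocalization.mk (a : IdemClass R) 0 :=
        (AddLocalization.mk_zero_eq_addMonoidOf_mk _).symm
      rw [h1, h2, AddLocalization.mk_add, AddLocalization.mk_eq_mk_iff, AddLocalization.r_iff_exists]
      refine ⟨0, ?_⟩
      simp [add_comm]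
  obtain ⟨a, b, hab⟩ := h x
  induction a using Quotient.inductionOn with
  | h e =>
    induction b using Quotient.inductionOn with
    | h f => exact ⟨e, f, hab⟩

theorem K0.map_of {S : Type*} [Ring S] (φ : R →+* S) (e : IdemMat R) :
    K0.map φ (K0.of e) = K0.of (e.map φ) := by
  unfold K0.map K0.of
  have h := congrArg (fun F => F (IdemClass.mk e)) ((Algebra.GrothendieckAddGroup.lift
    (M := IdemClass R) (G := Algebra.GrothendieckAddGroup (IdemClass S))).symm_apply_apply
    (Algebra.GrothendieckAddGroup.of.comp (IdemClass.map φ)))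
  exact h

end KLemmas0

section MapL

variable {A B : Type*} [Ring A] [Ring B]

/-- The map induced on Laurent polynomials by a ring homomorphism. -/
noncomputable def mapL (φ : A →+* B) : LaurentPolynomial A →+* LaurentPolynomial B :=
  AddMonoidAlgebra.mapRingHom ℤ φ

theorem mapL_single (φ : A →+* B) (n : ℤ) (a : A) :
    mapL φ (AddMonoidAlgebra.single n a) = AddMonoidAlgebra.single n (φ a) :=
  AddMonoidAlgebra.mapRingHom_single _ _ _

end MapL

open Polynomial

universe w

theorem K0.map_map {R : Type u} {S : Type v} {T : Type w} [Ring R] [Ring S] [Ring T]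
    (φ : R →+* S) (χ : S →+* T) (x : K0 R) : K0.map χ (K0.map φ x) = K0.map (χ.comp φ) x := by
  obtain ⟨e, f, rfl⟩ := K0.exists_sub x
  rw [map_sub, map_sub, map_sub, K0.map_of, K0.map_of, K0.map_of, K0.map_of, K0.map_of, K0.map_of]
  rfl

theorem posIncl_monomial {R : Type u} [Ring R] (n : ℕ) (a : R) :
    posIncl R (monomial n a) = AddMonoidAlgebra.single (n : ℤ) a := by
  unfold posIncl
  rw [← Polynomial.C_mul_X_pow_eq_monomial, Polynomial.toLaurent_C_mul_X_pow,
    LaurentPolynomial.single_eq_C_mul_T]

theorem flipT_single {R : Type u} [Ring R] (m : ℤ) (a : R) :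
    flipT R (AddMonoidAlgebra.single m a) = AddMonoidAlgebra.single (-m) a := by
  change AddMonoidAlgebra.mapDomain _ (AddMonoidAlgebra.single m a) = _
  rw [AddMonoidAlgebra.mapDomain_single]
  rfl

theorem mapL_posIncl {R : Type u} {S : Type v} [Ring R] [Ring S] (φ : R →+* S) :
    (mapL φ).comp (posIncl R) = (posIncl S).comp (Polynomial.mapRingHom φ) := by
  apply RingHom.ext
  intro f
  rw [RingHom.comp_apply, RingHom.comp_apply]
  induction f using Polynomial.induction_on' with
  | add f g hf hg => simp only [map_add, hf, hg]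
  | monomial n a =>
    rw [Polynomial.coe_mapRingHom, Polynomial.map_monomial, posIncl_monomial, posIncl_monomial,
      mapL_single]

theorem mapL_negIncl {R : Type u} {S : Type v} [Ring R] [Ring S] (φ : R →+* S) :
    (mapL φ).comp (negIncl R) = (negIncl S).comp (Polynomial.mapRingHom φ) := by
  apply RingHom.ext
  intro f
  rw [RingHom.comp_apply, RingHom.comp_apply]
  unfold negIncl
  rw [RingHom.comp_apply, RingHom.comp_apply]
  induction f using Polynomial.induction_on' with
  | add f g hf hg => simp only [map_add, hf, hg]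
  | monomial n a =>
    rw [Polynomial.coe_mapRingHom, Polynomial.map_monomial, posIncl_monomial, posIncl_monomial,
      flipT_single, flipT_single, mapL_single]

theorem K0.map_mem {R : Type u} {S : Type v} [Ring R] [Ring S] (φ : R →+* S) :
    extImage R ≤ (extImage S).comap (K0.map (mapL φ)) := by
  unfold extImage
  rw [sup_le_iff]
  constructor
  · rintro _ ⟨x, rfl⟩
    rw [AddSubgroup.mem_comap, K0.map_map, mapL_posIncl, ← K0.map_map]
    exact AddSubgroup.mem_sup_left ⟨_, rfl⟩
  · rintro _ ⟨x, rfl⟩
    rw [AddSubgroup.mem_comap, K0.map_map, mapL_negIncl, ← K0.map_map]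
    exact AddSubgroup.mem_sup_right ⟨_, rfl⟩

/-- Functoriality of `K_{-1}`: base change along a ring homomorphism. -/
noncomputable def KNegOne.map {R : Type u} {S : Type v} [Ring R] [Ring S] (φ : R →+* S) :
    KNegOne R →+ KNegOne S :=
  QuotientAddGroup.map (extImage R) (extImage S) (K0.map (mapL φ)) (K0.map_mem φ)

/-- The generators of a cyclic group. -/
def Gens (Cg : Type*) [Group Cg] : Type _ := {x : Cg // Subgroup.zpowers x = ⊤}

/-- For a homomorphism `ψ : Cg → G` and a prime `p`, the relation on the generators of `Cg`: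
the images in `G` are conjugate, or a `p`-power power of one is a `p`-power power of the other. -/
def clsRel {Cg G : Type*} [Group Cg] [Group G] (ψ : Cg →* G) (p : ℕ) (x y : Gens Cg) : Prop :=
  IsConj (ψ x.1) (ψ y.1) ∨ ∃ j k : ℕ, x.1 ^ p ^ j = y.1 ^ p ^ k

/-- The number of classes of generators of `Cg` under the equivalence relation generated by
`clsRel ψ p`. -/
noncomputable def nCls {Cg G : Type*} [Group Cg] [Group G] (ψ : Cg →* G) (p : ℕ) : ℕ :=
  Nat.card (Quot (clsRel ψ p))

end Pool.Agent.Lib25
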