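import Pool.Agent.Lib_helper25.BaseClass

/-!
# The class attached to a `p`-adic idempotent

For a finite commutative group `C`, a prime `p` and an idempotent `E ∈ ℚ_p[C]` we construct a class
in `K₀(ℤ[C][t,t⁻¹])` whose invariants are `tau h E` at `p` and `0` at the other primes.
-/

open Matrix LaurentPolynomial

namespace Pool.Agent.Lib25

section Lift

variable {C : Type*} [Monoid C]

theorem coeff_mapRingHom' {k k' : Type*} [Semiring k] [Semiring k'] (i : k →+* k')
    (x : MonoidAlgebra k C) (g : C) : (MonoidAlgebra.mapRingHom C i x).coeff g = i (x.coeff g) := by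
  simp

theorem exists_padicInt_lift (q : ℕ) [Fact q.Prime] (x : MonoidAlgebra ℚ_[q] C)
    (hx : ∀ c, ‖x.coeff c‖ ≤ 1) : ∃ y : MonoidAlgebra ℤ_[q] C,
      MonoidAlgebra.mapRingHom C PadicInt.Coe.ringHom y = x := by
  classical
  have hF : ∀ z : ℚ_[q], ∃ y : ℤ_[q], ‖z‖ ≤ 1 → (y : ℚ_[q]) = z := by
    intro z
    by_cases hz : ‖z‖ ≤ 1
    · exact ⟨⟨z, hz⟩, fun _ => rfl⟩
    · exact ⟨0, fun h => absurd h hz⟩
  choose F hF using hF
  have hF0 : F 0 = 0 := by
    apply PadicInt.ext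
    rw [hF 0 (by simp)]
    rfl
  refine ⟨⟨x.coeff.mapRange F hF0⟩, ?_⟩
  ext c
  rw [coeff_mapRingHom']
  exact hF _ (hx c)

theorem exists_int_lift (x : MonoidAlgebra ℚ C)
    (hx : ∀ c, ∃ z : ℤ, x.coeff c = z) : ∃ y : MonoidAlgebra ℤ C,
      MonoidAlgebra.mapRingHom C (Int.castRingHom ℚ) y = x := by
  classical
  refine ⟨⟨x.coeff.mapRange (fun z => z.num) (by simp)⟩, ?_⟩
  ext c
  rw [coeff_mapRingHom']
  obtain ⟨z, hz⟩ := hx c
  change (((x.coeff c).num : ℤ) : ℚ) = x.coeff c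
  rw [hz]
  simp

theorem mapRingHom_injective' {k k' : Type*} [Semiring k] [Semiring k'] (i : k →+* k')
    (hi : Function.Injective i) : Function.Injective (MonoidAlgebra.mapRingHom C i) := by
  intro x y hxy
  ext g
  have := congrArg (fun z => z.coeff g) hxy
  simp only [coeff_mapRingHom'] at this
  exact hi this

end Lift

/-- A rational number which is `p`-integral and becomes an integer after multiplication by a
power of `p` is an integer. -/
theorem rat_int_of_padic (p : ℕ) [Fact p.Prime] (r : ℚ) (N : ℕ) (z : ℤ)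
    (hz : (p : ℚ) ^ N * r = z) (hr : ‖(r : ℚ_[p])‖ ≤ 1) : ∃ w : ℤ, r = w := by
  have hp : (p : ℚ) ≠ 0 := Nat.cast_ne_zero.2 (Fact.out : p.Prime).ne_zero
  have h1 : ‖((z : ℤ) : ℚ_[p])‖ ≤ (p : ℝ) ^ (-(N : ℤ)) := by
    have h2 : ((z : ℤ) : ℚ_[p]) = (p : ℚ_[p]) ^ N * (r : ℚ_[p]) := by
      have := congrArg (fun t : ℚ => (t : ℚ_[p])) hz
      push_cast at this
      exact this.symm
    rw [h2, norm_mul, Padic.norm_p_pow]
    exact mul_le_of_le_one_right (by positivity) hr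
  rw [Padic.norm_int_le_pow_iff_dvd] at h1
  obtain ⟨w, hw⟩ := h1
  refine ⟨w, ?_⟩
  rw [hw] at hz
  push_cast at hz
  exact mul_left_cancel₀ (pow_ne_zero N hp) hz

section Approx

variable {C : Type*} [CommGroup C] [Finite C]

theorem exists_approx (p : ℕ) [Fact p.Prime] (E : MonoidAlgebra ℚ_[p] C) :
    ∃ (s : ℕ) (a : MonoidAlgebra ℚ C) (a0 : MonoidAlgebra ℤ C) (u E0 : MonoidAlgebra ℤ_[p] C),
      (p : MonoidAlgebra ℚ C) ^ s * a = MonoidAlgebra.mapRingHom C (Int.castRingHom ℚ) a0 ∧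
      MonoidAlgebra.mapRingHom C (PadicInt.Coe.ringHom) E0 =
        (p : MonoidAlgebra ℚ_[p] C) ^ s * E ∧
      MonoidAlgebra.mapRingHom C (algebraMap ℚ ℚ_[p]) a =
        E + (p : MonoidAlgebra ℚ_[p] C) ^ s * MonoidAlgebra.mapRingHom C (PadicInt.Coe.ringHom) u := by
  classical
  have : Fintype C := Fintype.ofFinite C
  have hp0 : (p : ℚ_[p]) ≠ 0 := Nat.cast_ne_zero.2 (Fact.out : p.Prime).ne_zero
  have hp0' : (p : ℚ) ≠ 0 := Nat.cast_ne_zero.2 (Fact.out : p.Prime).ne_zero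
  have hpw : ∀ {k : Type} [CommRing k] (s : ℕ) (x : MonoidAlgebra k C) (c : C),
      ((p : MonoidAlgebra k C) ^ s * x).coeff c = (p : k) ^ s * x.coeff c := by
    intro k _ s x c
    have h1 : (p : MonoidAlgebra k C) ^ s * x = (p ^ s : ℕ) • x := by
      rw [nsmul_eq_mul]; push_cast; rfl
    rw [h1]
    change (p ^ s : ℕ) • (x.coeff c) = _
    rw [nsmul_eq_mul]
    push_cast
    rfl
  -- a common denominator
  have hs : ∃ s : ℕ, ∀ c, ‖(p : ℚ_[p]) ^ s * E.coeff c‖ ≤ 1 := by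
    have h1 : ∀ c, ∃ s : ℕ, ‖E.coeff c‖ ≤ (p : ℝ) ^ s := by
      intro c
      have h2 : (1 : ℝ) < p := by exact_mod_cast (Fact.out : p.Prime).one_lt
      obtain ⟨n, hn⟩ := pow_unbounded_of_one_lt ‖E.coeff c‖ h2
      exact ⟨n, hn.le⟩
    choose s hs using h1
    refine ⟨Finset.univ.sup s, fun c => ?_⟩
    have h3 : s c ≤ Finset.univ.sup s := Finset.le_sup (Finset.mem_univ c)
    have h2 : (1 : ℝ) ≤ p := by exact_mod_cast (Fact.out : p.Prime).one_lt.le
    have h0 : (0 : ℝ) < p := lt_of_lt_of_le one_pos h2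
    rw [norm_mul, norm_pow, Padic.norm_p, inv_pow, inv_mul_le_iff₀ (by positivity), mul_one]
    exact (hs c).trans (pow_le_pow_right₀ h2 h3)
  obtain ⟨s, hs⟩ := hs
  obtain ⟨E0, hE0⟩ := exists_padicInt_lift p ((p : MonoidAlgebra ℚ_[p] C) ^ s * E)
    (fun c => by rw [hpw]; exact hs c)
  -- the approximation
  let a0 : MonoidAlgebra ℤ C := ⟨Finsupp.equivFunOnFinite.symm
    (fun c => ((PadicInt.appr (E0.coeff c) (s + s) : ℕ) : ℤ))⟩
  let a : MonoidAlgebra ℚ C := ⟨Finsupp.equivFunOnFinite.symm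
    (fun c => ((PadicInt.appr (E0.coeff c) (s + s) : ℕ) : ℚ) / (p : ℚ) ^ s)⟩
  have hu : ∀ c, ∃ v : ℤ_[p], ((PadicInt.appr (E0.coeff c) (s + s) : ℕ) : ℤ_[p]) =
      E0.coeff c + (p : ℤ_[p]) ^ (s + s) * v := by
    intro c
    have h1 := PadicInt.appr_spec (s + s) (E0.coeff c)
    rw [Ideal.mem_span_singleton] at h1
    obtain ⟨v, hv⟩ := h1
    refine ⟨-v, ?_⟩
    linear_combination -hv
  choose v hv using hu
  let u : MonoidAlgebra ℤ_[p] C := ⟨Finsupp.equivFunOnFinite.symm v⟩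
  refine ⟨s, a, a0, u, E0, ?_, hE0, ?_⟩
  · ext c
    rw [hpw, coeff_mapRingHom']
    change (p : ℚ) ^ s * (((PadicInt.appr (E0.coeff c) (s + s) : ℕ) : ℚ) / (p : ℚ) ^ s) =
      (((PadicInt.appr (E0.coeff c) (s + s) : ℕ) : ℤ) : ℚ)
    rw [mul_div_cancel₀ _ (pow_ne_zero s hp0')]
    push_cast
    rfl
  · ext c
    rw [MonoidAlgebra.coeff_add, Finsupp.add_apply, hpw, coeff_mapRingHom', coeff_mapRingHom']
    have h1 := congrArg (fun z => z.coeff c) hE0
    simp only [hpw, coeff_mapRingHom'] at h1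
    have h2 := congrArg (fun t : ℤ_[p] => (t : ℚ_[p])) (hv c)
    push_cast at h2
    change ((((PadicInt.appr (E0.coeff c) (s + s) : ℕ) : ℚ) / (p : ℚ) ^ s : ℚ) : ℚ_[p]) =
      E.coeff c + (p : ℚ_[p]) ^ s * (v c : ℚ_[p])
    have h1' : (E0.coeff c : ℚ_[p]) = (p : ℚ_[p]) ^ s * E.coeff c := h1
    push_cast
    rw [h2, h1', div_eq_iff (pow_ne_zero s hp0)]
    ring

omit [Finite C] in
/-- An element of `ℚ[C]` which becomes integral after multiplication by a power of `p` and which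
is `p`-integral is integral. -/
theorem exists_int_of_padic (p : ℕ) [Fact p.Prime] (x : MonoidAlgebra ℚ C) (N : ℕ)
    (y : MonoidAlgebra ℤ C)
    (hy : (p : MonoidAlgebra ℚ C) ^ N * x = MonoidAlgebra.mapRingHom C (Int.castRingHom ℚ) y)
    (z : MonoidAlgebra ℤ_[p] C)
    (hz : MonoidAlgebra.mapRingHom C (PadicInt.Coe.ringHom) z =
      MonoidAlgebra.mapRingHom C (algebraMap ℚ ℚ_[p]) x) :
    ∃ w : MonoidAlgebra ℤ C, MonoidAlgebra.mapRingHom C (Int.castRingHom ℚ) w = x := by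
  apply exists_int_lift
  intro c
  apply rat_int_of_padic p (x.coeff c) N (y.coeff c)
  · have h1 := congrArg (fun z => z.coeff c) hy
    simp only [coeff_mapRingHom'] at h1
    have h2 : (p : MonoidAlgebra ℚ C) ^ N * x = (p ^ N : ℕ) • x := by
      rw [nsmul_eq_mul]; push_cast; rfl
    rw [h2] at h1
    have h3 : (p ^ N : ℕ) • (x.coeff c) = ((y.coeff c : ℤ) : ℚ) := h1
    rw [nsmul_eq_mul] at h3
    push_cast at h3
    exact h3
  · have h1 := congrArg (fun z => z.coeff c) hz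
    simp only [coeff_mapRingHom'] at h1
    have h2 : (z.coeff c : ℚ_[p]) = ((x.coeff c : ℚ) : ℚ_[p]) := h1
    rw [← h2]
    exact PadicInt.norm_le_one _

/-- The class in `K₀(ℤ[C][t,t⁻¹])` attached to an idempotent of `ℚ_p[C]`. -/
theorem exists_class (p : ℕ) [hp : Fact p.Prime] (E : MonoidAlgebra ℚ_[p] C) (hE : E ^ 2 = E) :
    ∃ x : K0 (LaurentPolynomial (MonoidAlgebra ℤ C)),
      ∀ {G : Type*} [Group G] (ψ : C →* G), ∃ w : ∀ (q : ℕ) [Fact q.Prime], G → ℚ_[q],
        Triv (K0.map (mapL (push ℤ ψ)) x) w ∧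
        Triv (- K0.map (mapL (push ℤ ψ)) x) (fun q _ h => - w q h) ∧
        (∀ h, w p h = tau h (push ℚ_[p] ψ E)) ∧
        ∀ (q : ℕ) [Fact q.Prime], q ≠ p → ∀ h, w q h = 0 := by
  classical
  obtain ⟨s, a, a0, u, E0, ha0, hE0, hau⟩ := exists_approx p E
  set ιp := MonoidAlgebra.mapRingHom C (PadicInt.Coe.ringHom (p := p)) with hιp
  set ιQ := MonoidAlgebra.mapRingHom C (Int.castRingHom ℚ) with hιQ
  set κp := MonoidAlgebra.mapRingHom C (algebraMap ℚ ℚ_[p]) with hκp
  -- the local elements at `p`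
  set εp : MonoidAlgebra ℤ_[p] C := (p : MonoidAlgebra ℤ_[p] C) ^ s * u with hεp
  set ηp : MonoidAlgebra ℤ_[p] C := E0 * u with hηp
  have h1 : ιp εp = κp a - E := by
    rw [hεp, map_mul, map_pow, map_natCast, hau]
    ring
  have h2 : ιp ηp = (κp a - E) * E := by
    rw [hηp, map_mul, hE0, hau]
    ring
  clear_value εp ηp
  -- integrality of `b` and `f`
  obtain ⟨b, hb⟩ := exists_int_of_padic p (a - a ^ 2) (2 * s)
    ((p : MonoidAlgebra ℤ C) ^ s * a0 - a0 ^ 2)
    (by rw [map_sub, map_mul, map_pow, map_pow, map_natCast, ← ha0]; ring)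
    (εp - 2 * ηp - εp ^ 2)
    (by
      rw [map_sub, map_sub, map_mul, map_pow, map_ofNat, h1, h2, map_sub, map_pow]
      linear_combination hE)
  obtain ⟨f, hf⟩ := exists_int_of_padic p (a * (a - a ^ 2)) (3 * s)
    ((p : MonoidAlgebra ℤ C) ^ s * a0 ^ 2 - a0 ^ 3)
    (by rw [map_sub, map_mul, map_pow, map_pow, map_pow, map_natCast, ← ha0]; ring)
    (-ηp - 3 * εp * ηp + εp ^ 2 - εp ^ 3)
    (by
      rw [map_sub, map_add, map_sub, map_neg, map_mul, map_mul, map_pow, map_pow, map_ofNat, h1,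
        h2, map_mul, map_sub, map_pow]
      linear_combination (3 * κp a - 2 * E) * hE)
  have hn : f ^ 2 = f * b - b ^ 3 := by
    apply mapRingHom_injective' (Int.castRingHom ℚ) Int.cast_injective
    rw [map_pow, map_sub, map_mul, map_pow, hb, hf]
    ring
  refine ⟨K0.of ⟨2, nodeMat b f, nodeMat_idem b f hn⟩ - K0.of (IdemMat.free _ 1), ?_⟩
  intro G _ ψ
  -- the family of idempotents
  obtain ⟨e, hep, heq⟩ : ∃ e : ∀ (q : ℕ) [Fact q.Prime], MonoidAlgebra ℚ_[q] C, e p = E ∧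
      ∀ (q : ℕ) [Fact q.Prime], q ≠ p → e q = 0 := by
    clear_value ιp κp ιQ
    clear hE u E0 hE0 hιp ha0 hau hκp hεp hηp h1 h2 εp ηp hb hf
    refine ⟨fun q _ => if h : q = p then by subst h; exact E else 0, by simp,
      fun q _ hq => by simp [hq]⟩
  have hεη : ∀ (q : ℕ) [Fact q.Prime], ∃ ε η : MonoidAlgebra ℤ_[q] C,
      MonoidAlgebra.mapRingHom C (PadicInt.Coe.ringHom) ε =
        MonoidAlgebra.mapRingHom C (algebraMap ℚ ℚ_[q]) a - e q ∧
      MonoidAlgebra.mapRingHom C (PadicInt.Coe.ringHom) η =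
        (MonoidAlgebra.mapRingHom C (algebraMap ℚ ℚ_[q]) a - e q) * e q := by
    intro q _
    by_cases hq : q = p
    · subst hq
      rw [hep]
      exact ⟨εp, ηp, h1, h2⟩
    · rw [heq q hq]
      obtain ⟨ε, hε⟩ := exists_padicInt_lift q
        (MonoidAlgebra.mapRingHom C (algebraMap ℚ ℚ_[q]) a) (fun c => by
          rw [coeff_mapRingHom']
          have h3 : (p : ℚ) ^ s * a.coeff c = ((a0.coeff c : ℤ) : ℚ) := by
            have h4 := congrArg (fun z => z.coeff c) ha0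
            simp only [hιQ, coeff_mapRingHom'] at h4
            have h5 : (p : MonoidAlgebra ℚ C) ^ s * a = (p ^ s : ℕ) • a := by
              rw [nsmul_eq_mul]; push_cast; rfl
            rw [h5] at h4
            have h6 : (p ^ s : ℕ) • (a.coeff c) = ((a0.coeff c : ℤ) : ℚ) := h4
            rw [nsmul_eq_mul] at h6
            push_cast at h6
            exact h6
          have h4 : (p : ℚ_[q]) ^ s * (a.coeff c : ℚ_[q]) = ((a0.coeff c : ℤ) : ℚ_[q]) := by
            have := congrArg (fun t : ℚ => (t : ℚ_[q])) h3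
            push_cast at this
            exact this
          have h5 : ‖(p : ℚ_[q])‖ = 1 := by
            rw [Padic.norm_natCast_eq_one_iff]
            exact (Nat.coprime_primes (Fact.out : q.Prime) hp.out).2 hq
          have h6 := congrArg norm h4
          rw [norm_mul, norm_pow, h5, one_pow, one_mul] at h6
          change ‖(a.coeff c : ℚ_[q])‖ ≤ 1
          rw [h6]
          exact Padic.norm_int_le_one _)
      exact ⟨ε, 0, by rw [hε, sub_zero], by simp⟩
  choose ε η hε hη using hεη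
  have he : ∀ (q : ℕ) [Fact q.Prime], e q ^ 2 = e q := by
    intro q _
    by_cases hq : q = p
    · subst hq
      rw [hep]
      exact hE
    · rw [heq q hq]
      simp
  have key := triv_kappa ψ a b f hb hf hn e he (fun q _ => ε q) (fun q _ => η q)
    (fun q _ => hε q) (fun q _ => hη q)
  have hx : K0.map (mapL (push ℤ ψ)) (K0.of ⟨2, nodeMat b f, nodeMat_idem b f hn⟩ -
      K0.of (IdemMat.free _ 1)) = kappa ψ b f hn := by
    rw [map_sub, K0.map_of, K0.map_of, IdemMat.map_free]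
    rfl
  rw [hx]
  refine ⟨fun q _ h => tau h (push ℚ_[q] ψ (e q)), key.1, key.2, fun h => ?_, fun q _ hq h => ?_⟩
  · change tau h (push ℚ_[p] ψ (e p)) = _
    rw [hep]
  · change tau h (push ℚ_[q] ψ (e q)) = _
    rw [heq q hq]
    simp

end Approx

end Pool.Agent.Lib25
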