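import Pool.Agent.Lib_helper25.Detect

/-!
# Explicit trivialisable classes

Let `C` be a commutative group and `b, f ∈ ℤ[C]` with `f² = f b - b³`.  We attach to `(b, f)` an
idempotent `2 × 2` matrix over `ℤ[C][t,t⁻¹]` and compute its invariants when `b = a - a²`,
`f = a b` with `a ∈ ℚ[C]` close to an idempotent of `ℚ_p[C]`.
-/

open Matrix LaurentPolynomial

namespace Pool.Agent.Lib25

section Formulas

variable {A : Type*} [CommRing A]

/-- `t - 2 + t⁻¹` -/
noncomputable def tt (A : Type*) [CommRing A] : LaurentPolynomial A := T 1 - 2 + T (-1)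

/-- `1 + (t - 1) a` -/
noncomputable def cA (a : A) : LaurentPolynomial A := 1 + (T 1 - 1) * C a

/-- `1 + (t⁻¹ - 1) a` -/
noncomputable def dA (a : A) : LaurentPolynomial A := 1 + (T (-1) - 1) * C a

/-- `b (t - 2 + t⁻¹)` -/
noncomputable def dl (b : A) : LaurentPolynomial A := C b * tt A

/-- The `2 × 2` matrix attached to `(b, f)`. -/
noncomputable def nodeMat (b f : A) : Matrix (Fin 2) (Fin 2) (LaurentPolynomial A) :=
  !![1 - dl b ^ 2, -((C b + (T 1 - 1) * C f) * tt A * (1 - dl b));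
     -((C b + (T (-1) - 1) * C f) * tt A), dl b ^ 2]

theorem TT' : (T 1 * T (-1) : LaurentPolynomial A) = 1 := by
  rw [← T_add]; simp

theorem node_key (b f : A) (h : f ^ 2 = f * b - b ^ 3) :
    ((C b + (T 1 - 1) * C f) * tt A) * ((C b + (T (-1) - 1) * C f) * tt A) =
      dl b ^ 2 * (1 + dl b) := by
  have hT := TT' (A := A)
  have h' : (C f : LaurentPolynomial A) ^ 2 = C f * C b - C b ^ 3 := by
    rw [← map_pow, h, map_sub, map_mul, map_pow]
  unfold dl tt
  set X : LaurentPolynomial A := T 1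
  set Y : LaurentPolynomial A := T (-1)
  linear_combination (C f ^ 2 * (X - 2 + Y) ^ 2) * hT - (X - 2 + Y) ^ 3 * h'

theorem nodeMat_idem (b f : A) (h : f ^ 2 = f * b - b ^ 3) :
    nodeMat b f * nodeMat b f = nodeMat b f := by
  have key := node_key b f h
  unfold nodeMat
  set p := (C b + (T 1 - 1) * C f) * tt A
  set q := (C b + (T (-1) - 1) * C f) * tt A
  set d := dl b
  rw [Matrix.mul_fin_two]
  have e11 : (1 - d ^ 2) * (1 - d ^ 2) + -(p * (1 - d)) * -q = 1 - d ^ 2 := by
    linear_combination (1 - d) * key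
  have e12 : (1 - d ^ 2) * -(p * (1 - d)) + -(p * (1 - d)) * d ^ 2 = -(p * (1 - d)) := by ring
  have e21 : -q * (1 - d ^ 2) + d ^ 2 * -q = -q := by ring
  have e22 : -q * -(p * (1 - d)) + d ^ 2 * d ^ 2 = d ^ 2 := by
    linear_combination (1 - d) * key
  rw [e11, e12, e21, e22]

theorem cA_mul_dA (a : A) : cA a * dA a = 1 + dl (a - a ^ 2) := by
  have hT := TT' (A := A)
  unfold cA dA dl tt
  rw [map_sub, map_pow]
  set X : LaurentPolynomial A := T 1
  set Y : LaurentPolynomial A := T (-1)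
  linear_combination (C a) ^ 2 * hT

theorem cA_mul_inv (e : A) (he : e ^ 2 = e) : cA e * dA e = 1 := by
  rw [cA_mul_dA, he, sub_self]
  unfold dl
  simp

theorem nodeMat_eq (a : A) :
    nodeMat (a - a ^ 2) (a * (a - a ^ 2)) =
      !![1 - dl (a - a ^ 2) ^ 2, -(cA a * dl (a - a ^ 2) * (1 - dl (a - a ^ 2)));
        -(dA a * dl (a - a ^ 2)), dl (a - a ^ 2) ^ 2] := by
  have h1 : (C (a - a ^ 2) + (T 1 - 1) * C (a * (a - a ^ 2))) * tt A =
      cA a * dl (a - a ^ 2) := by
    unfold cA dl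
    rw [map_mul]
    ring
  have h2 : (C (a - a ^ 2) + (T (-1) - 1) * C (a * (a - a ^ 2))) * tt A =
      dA a * dl (a - a ^ 2) := by
    unfold dA dl
    rw [map_mul]
    ring
  unfold nodeMat
  rw [h1, h2]

/-- The logarithmic derivative of the standard trivialisation of `nodeMat`. -/
noncomputable def Rfun (a : A) : LaurentPolynomial A :=
  dA a * DL (cA a * (1 - dl (a - a ^ 2))) + dl (a - a ^ 2) * DL (dl (a - a ^ 2))

/-- The logarithmic derivative of the standard trivialisation of `1 - nodeMat`. -/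
noncomputable def Rfun' (a : A) : LaurentPolynomial A :=
  dl (a - a ^ 2) * DL (dl (a - a ^ 2)) + cA a * (1 - dl (a - a ^ 2)) * DL (dA a)

theorem DL_T (n : ℤ) : DL (T n : LaurentPolynomial A) = (n : LaurentPolynomial A) * T n := by
  have h1 : (T n : LaurentPolynomial A) = AddMonoidAlgebra.single n 1 := rfl
  rw [h1, DL_single, ← zsmul_eq_mul, ← AddMonoidAlgebra.smul_single]

theorem DL_C (a : A) : DL (C a : LaurentPolynomial A) = 0 := by
  have h1 : (C a : LaurentPolynomial A) = AddMonoidAlgebra.single 0 a := rfl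
  rw [h1, DL_single]
  simp

theorem DL_dA (e : A) : DL (dA e) = -(T (-1) * C e) := by
  unfold dA
  rw [map_add, DL_one, DL_mul, map_sub, DL_one, DL_T, DL_C]
  push_cast
  ring

theorem DL_cA (e : A) : DL (cA e) = T 1 * C e := by
  unfold cA
  rw [map_add, DL_one, DL_mul, map_sub, DL_one, DL_T, DL_C]
  push_cast
  ring

theorem cA_mul_DL_dA (e : A) (he : e ^ 2 = e) : cA e * DL (dA e) = -C e := by
  rw [DL_dA]
  unfold cA
  have hT := TT' (A := A)
  have he' : (C e : LaurentPolynomial A) ^ 2 = C e := by rw [← map_pow, he]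
  set X : LaurentPolynomial A := T 1
  set Y : LaurentPolynomial A := T (-1)
  linear_combination (-(C e) ^ 2) * hT + (-1 + Y) * he'

theorem dA_mul_DL_cA (e : A) (he : e ^ 2 = e) : dA e * DL (cA e) = C e := by
  rw [DL_cA]
  unfold dA
  have hT := TT' (A := A)
  have he' : (C e : LaurentPolynomial A) ^ 2 = C e := by rw [← map_pow, he]
  set X : LaurentPolynomial A := T 1
  set Y : LaurentPolynomial A := T (-1)
  linear_combination ((C e) ^ 2) * hT + (1 - X) * he'

end Formulas

section Local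

variable {A0 A : Type*} [CommRing A0] [CommRing A]

theorem mapL_C (ι : A0 →+* A) (x : A0) : mapL ι (C x) = C (ι x) := mapL_single ι 0 x

theorem mapL_T (ι : A0 →+* A) (n : ℤ) : mapL ι (T n) = T n := by
  have h1 : (T n : LaurentPolynomial A0) = AddMonoidAlgebra.single n 1 := rfl
  rw [h1, mapL_single, map_one]
  rfl

theorem mapL_tt (ι : A0 →+* A) : mapL ι (tt A0) = tt A := by
  unfold tt
  rw [map_add, map_sub, mapL_T, mapL_T, map_ofNat]

theorem mapL_dl (ι : A0 →+* A) (x : A0) : mapL ι (dl x) = dl (ι x) := by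
  unfold dl
  rw [map_mul, mapL_C, mapL_tt]

theorem mapL_cA (ι : A0 →+* A) (x : A0) : mapL ι (cA x) = cA (ι x) := by
  unfold cA
  simp [mapL_C, mapL_T]

theorem mapL_dA (ι : A0 →+* A) (x : A0) : mapL ι (dA x) = dA (ι x) := by
  unfold dA
  simp [mapL_C, mapL_T]

theorem mapL_Rfun (ι : A0 →+* A) (x : A0) : mapL ι (Rfun x) = Rfun (ι x) := by
  unfold Rfun
  simp only [map_add, map_mul, ← DL_mapL, mapL_dA, mapL_cA, mapL_dl, map_sub, map_pow, map_one]

theorem mapL_Rfun' (ι : A0 →+* A) (x : A0) : mapL ι (Rfun' x) = Rfun' (ι x) := by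
  unfold Rfun'
  simp only [map_add, map_mul, ← DL_mapL, mapL_dA, mapL_cA, mapL_dl, map_sub, map_pow, map_one]

theorem map_nodeMat (ι : A0 →+* A) (b f : A0) :
    (nodeMat b f).map (mapL ι) = nodeMat (ι b) (ι f) := by
  unfold nodeMat
  ext1 i j
  fin_cases i <;> fin_cases j <;> simp [mapL_C, mapL_T, mapL_tt, mapL_dl]

theorem mapL_injective (ι : A0 →+* A) (hι : Function.Injective ι) :
    Function.Injective (mapL ι) := by
  intro x y hxy
  ext n
  apply hι
  have := congrArg (fun z => z.coeff n) hxy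
  simpa [mapL] using this

/-- Local trivialisations of `nodeMat b f` and of `1 - nodeMat b f`, where over the larger ring
`A` we have `b = a - a²`, `f = a b` and `e` is an idempotent close to `a`. -/
theorem local_triv (ι : A0 →+* A) (hι : Function.Injective ι) (a e : A) (he : e ^ 2 = e)
    (b0 f0 ε0 η0 : A0) (hb : ι b0 = a - a ^ 2) (hf : ι f0 = a * (a - a ^ 2))
    (hε : ι ε0 = a - e) (hη : ι η0 = (a - e) * e) :
    (∃ (α : Matrix (Fin 2) (Fin 1) (LaurentPolynomial A0))
      (β : Matrix (Fin 1) (Fin 2) (LaurentPolynomial A0)), α * β = nodeMat b0 f0 ∧ β * α = 1 ∧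
      mapL ι (Matrix.trace (β * α.map DL)) = Rfun a - C e) ∧
    (∃ (α : Matrix (Fin 2) (Fin 1) (LaurentPolynomial A0))
      (β : Matrix (Fin 1) (Fin 2) (LaurentPolynomial A0)), α * β = 1 - nodeMat b0 f0 ∧
      β * α = 1 ∧ mapL ι (Matrix.trace (β * α.map DL)) = Rfun' a + C e) := by
  have hinj := mapL_injective ι hι
  set c0 : LaurentPolynomial A0 := 1 + (T 1 - 1) * C ε0 - tt A0 * C η0 with hc0
  set d0 : LaurentPolynomial A0 := 1 + (T (-1) - 1) * C ε0 - tt A0 * C η0 with hd0
  set m0 : A0 := -(η0 + ε0 * η0) with hm0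
  set δm : LaurentPolynomial A0 := (C b0 + (T (-1) - 1) * C m0) * tt A0 with hδm
  set δp : LaurentPolynomial A0 := (C b0 + (T 1 - 1) * C m0) * tt A0 with hδp
  set δ0 : LaurentPolynomial A0 := dl b0 with hδ0
  set δ : LaurentPolynomial A := dl (a - a ^ 2) with hδ
  have hT := TT' (A := A)
  have he' : (C e : LaurentPolynomial A) ^ 2 = C e := by rw [← map_pow, he]
  have huu := cA_mul_inv e he
  have hcd := cA_mul_dA a
  have hm : ι m0 = (a - a ^ 2) * e := by
    rw [hm0, map_neg, map_add, map_mul, hε, hη]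
    linear_combination (2 * a - e) * he
  have i1 : mapL ι c0 = cA a * dA e := by
    rw [hc0, map_sub, map_add, map_mul, map_sub, map_one, mapL_T, mapL_C, map_mul, mapL_tt,
      mapL_C, hε, hη]
    unfold cA dA tt
    rw [map_mul, map_sub]
    linear_combination (T 1 - 2 + T (-1)) * he' - C a * C e * hT
  have i2 : mapL ι d0 = dA a * cA e := by
    rw [hd0, map_sub, map_add, map_mul, map_sub, map_one, mapL_T, mapL_C, map_mul, mapL_tt,
      mapL_C, hε, hη]
    unfold cA dA tt
    rw [map_mul, map_sub]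
    linear_combination (T 1 - 2 + T (-1)) * he' - C a * C e * hT
  have i3 : mapL ι δm = δ * dA e := by
    rw [hδm, map_mul, map_add, map_mul, map_sub, map_one, mapL_T, mapL_C, mapL_C, mapL_tt, hb, hm,
      hδ]
    unfold dl dA
    rw [map_mul]
    ring
  have i4 : mapL ι δp = δ * cA e := by
    rw [hδp, map_mul, map_add, map_mul, map_sub, map_one, mapL_T, mapL_C, mapL_C, mapL_tt, hb, hm,
      hδ]
    unfold dl cA
    rw [map_mul]
    ring
  have i5 : mapL ι δ0 = δ := by rw [hδ0, mapL_dl, hb]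
  have hnode : (nodeMat b0 f0).map (mapL ι) =
      !![1 - δ ^ 2, -(cA a * δ * (1 - δ)); -(dA a * δ), δ ^ 2] := by
    rw [map_nodeMat, hb, hf, nodeMat_eq]
  have hmatinj : ∀ {m n : Type} (M N : Matrix m n (LaurentPolynomial A0)),
      M.map (mapL ι) = N.map (mapL ι) → M = N := by
    intro m n M N h
    exact Matrix.map_injective hinj h
  rw [← hδ] at hcd
  clear_value δm δp c0 d0 m0 δ0 δ
  refine ⟨⟨!![c0 * (1 - δ0); -δm], !![d0, -δp], ?_, ?_, ?_⟩,
    ⟨!![δp; d0], !![δm, c0 * (1 - δ0)], ?_, ?_, ?_⟩⟩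
  · apply hmatinj
    rw [hnode]
    ext1 i j
    fin_cases i <;> fin_cases j <;>
      simp [i1, i2, i3, i4, i5]
    · linear_combination (cA a * dA a * (1 - δ)) * huu + (1 - δ) * hcd
    · linear_combination (cA a * δ * (1 - δ)) * huu
    · linear_combination (dA a * δ) * huu
    · linear_combination (δ ^ 2) * huu
  · apply hmatinj
    ext1 i j
    fin_cases i
    fin_cases j
    simp [i1, i2, i3, i4, i5]
    linear_combination (cA a * dA a * (1 - δ) + δ ^ 2) * huu + (1 - δ) * hcd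
  · have h1 : Matrix.trace (!![d0, -δp] * (!![c0 * (1 - δ0); -δm]).map DL) =
        d0 * DL (c0 * (1 - δ0)) + -δp * DL (-δm) := by
      rw [Matrix.trace_fin_one, Matrix.mul_apply, Fin.sum_univ_two]
      rfl
    rw [h1, map_add, map_mul (mapL ι), map_mul (mapL ι), ← DL_mapL, ← DL_mapL, map_mul (mapL ι),
      map_sub (mapL ι), map_one, map_neg (mapL ι), map_neg (mapL ι), map_neg DL, i1, i2, i3,
      i4, i5]
    have h2 : cA a * dA e * (1 - δ) = (cA a * (1 - δ)) * dA e := by ring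
    rw [h2, DL_mul (cA a * (1 - δ)) (dA e), DL_mul δ (dA e)]
    have h3 := cA_mul_DL_dA e he
    unfold Rfun
    rw [← hδ]
    linear_combination (dA a * DL (cA a * (1 - δ)) + δ * DL δ) * huu +
      (dA a * cA a * (1 - δ) + δ ^ 2) * h3 - (1 - δ) * C e * hcd
  · apply hmatinj
    have h0 : (1 - nodeMat b0 f0).map (mapL ι) = 1 - (nodeMat b0 f0).map (mapL ι) := by
      ext1 i j
      simp [Matrix.one_apply]
    rw [h0, hnode]
    ext1 i j
    fin_cases i <;> fin_cases j <;>
      simp [i1, i2, i3, i4, i5]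
    · linear_combination (δ ^ 2) * huu
    · linear_combination (cA a * δ * (1 - δ)) * huu
    · linear_combination (dA a * δ) * huu
    · linear_combination (cA a * dA a * (1 - δ)) * huu + (1 - δ) * hcd
  · apply hmatinj
    ext1 i j
    fin_cases i
    fin_cases j
    simp [i1, i2, i3, i4, i5]
    linear_combination (cA a * dA a * (1 - δ) + δ ^ 2) * huu + (1 - δ) * hcd
  · have h1 : Matrix.trace (!![δm, c0 * (1 - δ0)] * (!![δp; d0]).map DL) =
        δm * DL δp + c0 * (1 - δ0) * DL d0 := by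
      rw [Matrix.trace_fin_one, Matrix.mul_apply, Fin.sum_univ_two]
      rfl
    rw [h1, map_add, map_mul (mapL ι), map_mul (mapL ι), ← DL_mapL, ← DL_mapL, map_mul (mapL ι),
      map_sub (mapL ι), map_one, i1, i2, i3, i4, i5]
    rw [DL_mul (dA a) (cA e), DL_mul δ (cA e)]
    have h3 := dA_mul_DL_cA e he
    unfold Rfun'
    rw [← hδ]
    linear_combination (δ * DL δ + cA a * (1 - δ) * DL (dA a)) * huu +
      (dA a * cA a * (1 - δ) + δ ^ 2) * h3 + (1 - δ) * C e * hcd

end Local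

section Push

variable {Cg : Type*} [CommGroup Cg] {G : Type*} [Group G]

/-- The ring homomorphism of group rings induced by a group homomorphism. -/
noncomputable abbrev push (k : Type*) [CommRing k] (ψ : Cg →* G) :
    MonoidAlgebra k Cg →+* MonoidAlgebra k G := MonoidAlgebra.mapDomainRingHom k ψ

theorem push_single (k : Type*) [CommRing k] (ψ : Cg →* G) (g : Cg) (a : k) :
    push k ψ (MonoidAlgebra.single g a) = MonoidAlgebra.single (ψ g) a := by
  change MonoidAlgebra.mapDomain _ _ = _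
  rw [MonoidAlgebra.mapDomain_single]

theorem push_mapRingHom {k k' : Type*} [CommRing k] [CommRing k'] (i : k →+* k') (ψ : Cg →* G)
    (x : MonoidAlgebra k Cg) :
    MonoidAlgebra.mapRingHom G i (push k ψ x) = push k' ψ (MonoidAlgebra.mapRingHom Cg i x) := by
  induction x using MonoidAlgebra.induction_linear with
  | zero => simp
  | add f g hf hg => simp only [map_add, hf, hg]
  | single g a =>
    rw [push_single, MonoidAlgebra.mapRingHom_single, MonoidAlgebra.mapRingHom_single, push_single]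

theorem mapL_push_mapRingHom {k k' : Type*} [CommRing k] [CommRing k'] (i : k →+* k')
    (ψ : Cg →* G) (x : LaurentPolynomial (MonoidAlgebra k Cg)) :
    mapL (MonoidAlgebra.mapRingHom G i) (mapL (push k ψ) x) =
      mapL (push k' ψ) (mapL (MonoidAlgebra.mapRingHom Cg i) x) := by
  induction x using AddMonoidAlgebra.induction_linear with
  | zero => simp
  | add f g hf hg => simp only [map_add, hf, hg]
  | single n a => rw [mapL_single, mapL_single, mapL_single, mapL_single, push_mapRingHom]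

theorem trivOver_push {k : Type*} [CommRing k] (ψ : Cg →* G)
    (E : Matrix (Fin 2) (Fin 2) (LaurentPolynomial (MonoidAlgebra ℤ Cg)))
    (α : Matrix (Fin 2) (Fin 1) (LaurentPolynomial (MonoidAlgebra k Cg)))
    (β : Matrix (Fin 1) (Fin 2) (LaurentPolynomial (MonoidAlgebra k Cg)))
    (h1 : α * β = E.map (mapL (MonoidAlgebra.mapRingHom Cg (Int.castRingHom k))))
    (h2 : β * α = 1) :
    TrivOver k (E.map (mapL (push ℤ ψ)))
      (fun h : G => tauL h (mapL (push k ψ) (Matrix.trace (β * α.map DL)))) := by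
  refine ⟨1, α.map (mapL (push k ψ)), β.map (mapL (push k ψ)), ?_, ?_, fun h => ?_⟩
  · rw [← Matrix.map_mul, h1]
    ext1 i j
    simp only [Matrix.map_apply]
    exact (mapL_push_mapRingHom (Int.castRingHom k) ψ (E i j)).symm
  · rw [← Matrix.map_mul, h2, Matrix.map_one _ (map_zero _) (map_one _)]
  · have h3 : (α.map (mapL (push k ψ))).map DL = (α.map DL).map (mapL (push k ψ)) := by
      ext1 i j
      simp only [Matrix.map_apply]
      exact DL_mapL _ _
    rw [h3, ← Matrix.map_mul]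
    simp only [Matrix.trace, Matrix.diag_apply, Matrix.map_apply, map_sum]

/-- The idempotent matrix over `ℤ[G][t,t⁻¹]` attached to a homomorphism `ψ : Cg → G` and to
`b, f ∈ ℤ[Cg]` with `f² = f b - b³`. -/
noncomputable def nodeIdem (ψ : Cg →* G) (b f : MonoidAlgebra ℤ Cg)
    (h : f ^ 2 = f * b - b ^ 3) : IdemMat (LaurentPolynomial (MonoidAlgebra ℤ G)) where
  n := 2
  mat := (nodeMat b f).map (mapL (push ℤ ψ))
  idem := by rw [← Matrix.map_mul, nodeMat_idem b f h]

/-- The class of `nodeIdem` minus the class of the identity. -/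
noncomputable def kappa (ψ : Cg →* G) (b f : MonoidAlgebra ℤ Cg)
    (h : f ^ 2 = f * b - b ^ 3) : K0 (LaurentPolynomial (MonoidAlgebra ℤ G)) :=
  K0.of (nodeIdem ψ b f h) - K0.of (IdemMat.free _ 1)

theorem tauL_C (k : Type*) [CommRing k] (h : G) (x : MonoidAlgebra k G) :
    tauL h (C x : LaurentPolynomial (MonoidAlgebra k G)) = tau h x := by
  have h1 : (C x : LaurentPolynomial (MonoidAlgebra k G)) = AddMonoidAlgebra.single 0 x := rfl
  rw [tauL, AddMonoidHom.comp_apply, h1, coeffZero_single, if_pos rfl]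

theorem triv_kappa (ψ : Cg →* G) (a : MonoidAlgebra ℚ Cg) (b f : MonoidAlgebra ℤ Cg)
    (hb : MonoidAlgebra.mapRingHom Cg (Int.castRingHom ℚ) b = a - a ^ 2)
    (hf : MonoidAlgebra.mapRingHom Cg (Int.castRingHom ℚ) f = a * (a - a ^ 2))
    (hn : f ^ 2 = f * b - b ^ 3)
    (e : ∀ (p : ℕ) [Fact p.Prime], MonoidAlgebra ℚ_[p] Cg)
    (he : ∀ (p : ℕ) [Fact p.Prime], e p ^ 2 = e p)
    (ε η : ∀ (p : ℕ) [Fact p.Prime], MonoidAlgebra ℤ_[p] Cg)
    (hε : ∀ (p : ℕ) [Fact p.Prime], MonoidAlgebra.mapRingHom Cg (PadicInt.Coe.ringHom) (ε p) =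
      MonoidAlgebra.mapRingHom Cg (algebraMap ℚ ℚ_[p]) a - e p)
    (hη : ∀ (p : ℕ) [Fact p.Prime], MonoidAlgebra.mapRingHom Cg (PadicInt.Coe.ringHom) (η p) =
      (MonoidAlgebra.mapRingHom Cg (algebraMap ℚ ℚ_[p]) a - e p) * e p) :
    Triv (kappa ψ b f hn) (fun p _ h => tau h (push ℚ_[p] ψ (e p))) ∧
    Triv (- kappa ψ b f hn) (fun p _ h => - tau h (push ℚ_[p] ψ (e p))) := by
  -- over ℚ
  have hidQ : ∀ x : MonoidAlgebra ℚ Cg, RingHom.id (MonoidAlgebra ℚ Cg) x = x := fun _ => rfl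
  obtain ⟨⟨α, β, h1, h2, h3⟩, ⟨α', β', h1', h2', h3'⟩⟩ :=
    local_triv (RingHom.id (MonoidAlgebra ℚ Cg)) Function.injective_id a 0 (by ring)
      (MonoidAlgebra.mapRingHom Cg (Int.castRingHom ℚ) b)
      (MonoidAlgebra.mapRingHom Cg (Int.castRingHom ℚ) f) a 0 hb hf (by simp) (by simp)
  have hmapid : ∀ x : LaurentPolynomial (MonoidAlgebra ℚ Cg),
      mapL (RingHom.id (MonoidAlgebra ℚ Cg)) x = x := by
    intro x
    induction x using AddMonoidAlgebra.induction_linear with
    | zero => simp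
    | add f g hf hg => simp only [map_add, hf, hg]
    | single n a => rw [mapL_single]; rfl
  rw [hmapid, map_zero, sub_zero] at h3
  rw [hmapid, map_zero, add_zero] at h3'
  rw [← map_nodeMat] at h1 h1'
  have h1'' : α' * β' = (1 - nodeMat b f).map
      (mapL (MonoidAlgebra.mapRingHom Cg (Int.castRingHom ℚ))) := by
    rw [h1']
    ext1 i j
    simp [Matrix.one_apply]
  have tQ := trivOver_push ψ (nodeMat b f) α β h1 h2
  have tQ' := trivOver_push ψ (1 - nodeMat b f) α' β' h1'' h2'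
  rw [h3] at tQ
  rw [h3'] at tQ'
  have hcompl : (nodeIdem ψ b f hn).compl.mat = (1 - nodeMat b f).map (mapL (push ℤ ψ)) := by
    change 1 - (nodeMat b f).map (mapL (push ℤ ψ)) = _
    ext1 i j
    simp [Matrix.one_apply]
  -- naturality of the rational part
  have hcompQ : ∀ (p : ℕ) [Fact p.Prime] (h : G) (x : LaurentPolynomial (MonoidAlgebra ℚ Cg)),
      ((tauL h (mapL (push ℚ ψ) x) : ℚ) : ℚ_[p]) =
        tauL h (mapL (push ℚ_[p] ψ)
          (mapL (MonoidAlgebra.mapRingHom Cg (algebraMap ℚ ℚ_[p])) x)) := by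
    intro p _ h x
    rw [← mapL_push_mapRingHom, tauL_mapL]
    rfl
  have hcompZ : ∀ (p : ℕ) [Fact p.Prime] (h : G) (x : LaurentPolynomial (MonoidAlgebra ℤ_[p] Cg)),
      ((tauL h (mapL (push ℤ_[p] ψ) x) : ℤ_[p]) : ℚ_[p]) =
        tauL h (mapL (push ℚ_[p] ψ)
          (mapL (MonoidAlgebra.mapRingHom Cg (PadicInt.Coe.ringHom)) x)) := by
    intro p _ h x
    rw [← mapL_push_mapRingHom, tauL_mapL]
    rfl
  have hcoef : ∀ {k k' : Type} [CommRing k] [CommRing k'] (i : k →+* k')
      (x : MonoidAlgebra k Cg) (g : Cg), (MonoidAlgebra.mapRingHom Cg i x).coeff g = i (x.coeff g) := by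
    intro k k' _ _ i x g
    simp
  have hinjp : ∀ (p : ℕ) [Fact p.Prime],
      Function.Injective (MonoidAlgebra.mapRingHom Cg (PadicInt.Coe.ringHom (p := p))) := by
    intro p _ x y hxy
    ext g
    have := congrArg (fun z => z.coeff g) hxy
    simp only [hcoef] at this
    exact PadicInt.ext this
  have hcomp : ∀ (p : ℕ) [Fact p.Prime] (x : MonoidAlgebra ℤ Cg),
      MonoidAlgebra.mapRingHom Cg (PadicInt.Coe.ringHom (p := p))
        (MonoidAlgebra.mapRingHom Cg (Int.castRingHom ℤ_[p]) x) =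
      MonoidAlgebra.mapRingHom Cg (algebraMap ℚ ℚ_[p])
        (MonoidAlgebra.mapRingHom Cg (Int.castRingHom ℚ) x) := by
    intro p _ x
    ext g
    simp only [hcoef]
    simp
  have hC : ∀ (p : ℕ) [Fact p.Prime] (h : G) (x : MonoidAlgebra ℚ_[p] Cg),
      tauL h (mapL (push ℚ_[p] ψ) (C x)) = tau h (push ℚ_[p] ψ x) := by
    intro p _ h x
    have h1 : mapL (push ℚ_[p] ψ) (C x) = C (push ℚ_[p] ψ x) := mapL_single _ 0 x
    rw [h1, tauL_C]
  have hone : IdemClass.mk (IdemMat.free (LaurentPolynomial (MonoidAlgebra ℤ G)) 2) =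
      IdemClass.mk (IdemMat.free _ 1) + IdemClass.mk (IdemMat.free _ 1) :=
    (IdemClass.mk_free_add 1 1).symm
  have hcl : K0.of (nodeIdem ψ b f hn) + K0.of (nodeIdem ψ b f hn).compl =
      K0.of (IdemMat.free (LaurentPolynomial (MonoidAlgebra ℤ G)) 1) +
      K0.of (IdemMat.free (LaurentPolynomial (MonoidAlgebra ℤ G)) 1) := by
    have h4 := IdemClass.mk_add_compl (nodeIdem ψ b f hn)
    have h5 : (nodeIdem ψ b f hn).n = 2 := rfl
    rw [h5, hone] at h4
    have h6 := congrArg (Algebra.GrothendieckAddGroup.of) h4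
    rw [map_add, map_add] at h6
    exact h6
  refine ⟨⟨nodeIdem ψ b f hn, 1, fun h => tauL h (mapL (push ℚ ψ) (Rfun a)), rfl, tQ, ?_⟩,
    ⟨(nodeIdem ψ b f hn).compl, 1, fun h => tauL h (mapL (push ℚ ψ) (Rfun' a)), ?_, ?_, ?_⟩⟩
  · intro p _
    obtain ⟨⟨γ, δ, k1, k2, k3⟩, -⟩ :=
      local_triv (MonoidAlgebra.mapRingHom Cg (PadicInt.Coe.ringHom (p := p)))
      (hinjp p)
      (MonoidAlgebra.mapRingHom Cg (algebraMap ℚ ℚ_[p]) a) (e p) (he p)
      (MonoidAlgebra.mapRingHom Cg (Int.castRingHom ℤ_[p]) b)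
      (MonoidAlgebra.mapRingHom Cg (Int.castRingHom ℤ_[p]) f) (ε p) (η p)
      (by rw [hcomp, hb]; simp) (by rw [hcomp, hf]; simp)
      (hε p) (hη p)
    rw [← map_nodeMat] at k1
    refine ⟨_, trivOver_push ψ (nodeMat b f) γ δ k1 k2, fun h => ?_⟩
    rw [hcompZ, k3, hcompQ, mapL_Rfun, map_sub, map_sub, hC]
    ring
  · rw [neg_eq_iff_add_eq_zero]
    unfold kappa
    have h7 : K0.of (nodeIdem ψ b f hn) - K0.of (IdemMat.free _ 1) +
        (K0.of (nodeIdem ψ b f hn).compl - K0.of (IdemMat.free _ 1)) =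
        (K0.of (nodeIdem ψ b f hn) + K0.of (nodeIdem ψ b f hn).compl) -
        (K0.of (IdemMat.free (LaurentPolynomial (MonoidAlgebra ℤ G)) 1) +
          K0.of (IdemMat.free (LaurentPolynomial (MonoidAlgebra ℤ G)) 1)) := by abel
    rw [h7, hcl, sub_self]
  · rw [hcompl]
    exact tQ'
  · intro p _
    obtain ⟨-, ⟨γ, δ, k1, k2, k3⟩⟩ :=
      local_triv (MonoidAlgebra.mapRingHom Cg (PadicInt.Coe.ringHom (p := p)))
      (hinjp p)
      (MonoidAlgebra.mapRingHom Cg (algebraMap ℚ ℚ_[p]) a) (e p) (he p)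
      (MonoidAlgebra.mapRingHom Cg (Int.castRingHom ℤ_[p]) b)
      (MonoidAlgebra.mapRingHom Cg (Int.castRingHom ℤ_[p]) f) (ε p) (η p)
      (by rw [hcomp, hb]; simp) (by rw [hcomp, hf]; simp)
      (hε p) (hη p)
    rw [← map_nodeMat] at k1
    have k1' : γ * δ = (1 - nodeMat b f).map
        (mapL (MonoidAlgebra.mapRingHom Cg (Int.castRingHom ℤ_[p]))) := by
      rw [k1]
      ext1 i j
      simp [Matrix.one_apply]
    refine ⟨fun h => tauL h (mapL (push ℤ_[p] ψ) (Matrix.trace (δ * γ.map DL))), ?_, fun h => ?_⟩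
    · rw [hcompl]
      exact trivOver_push ψ (1 - nodeMat b f) γ δ k1' k2
    · rw [hcompZ, k3, hcompQ, mapL_Rfun', map_add, map_add, hC]
      ring

end Push

end Pool.Agent.Lib25
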