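import Pool.Agent.Lib_helper25.PTrace

/-!
# Conjugation cocycles and cyclic words

Let `h` be an element of finite order of a group `G` and let `lam` be a homomorphism from the
centraliser of `h` to `ℤ`.  It defines a cocycle `mu` on the action groupoid of the conjugacy class
of `h`.  We show that it has a potential on cyclic words.
-/

namespace Pool.Agent.Lib25

section Mu

variable {G : Type*} [Group G]

/-- `lam` is additive on the centraliser of `h`. -/
def IsCentHom (h : G) (lam : G → ℤ) : Prop :=
  ∀ g g' : G, Commute g h → Commute g' h → lam (g * g') = lam g + lam g'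

theorem IsCentHom.one {h : G} {lam : G → ℤ} (H : IsCentHom h lam) : lam 1 = 0 := by
  have := H 1 1 (Commute.one_left h) (Commute.one_left h)
  rw [mul_one] at this
  omega

theorem IsCentHom.inv {h : G} {lam : G → ℤ} (H : IsCentHom h lam) {g : G} (hg : Commute g h) :
    lam g⁻¹ = - lam g := by
  have := H g g⁻¹ hg hg.inv_left
  rw [mul_inv_cancel, H.one] at this
  omega

theorem IsCentHom.pow {h : G} {lam : G → ℤ} (H : IsCentHom h lam) {g : G} (hg : Commute g h)
    (n : ℕ) : lam (g ^ n) = n * lam g := by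
  induction n with
  | zero => simp [H.one]
  | succ n ih =>
    rw [pow_succ, H _ _ (hg.pow_left n) hg, ih]
    push_cast
    ring

theorem IsCentHom.zpow {h : G} {lam : G → ℤ} (H : IsCentHom h lam) {g : G} (hg : Commute g h)
    (n : ℤ) : lam (g ^ n) = n * lam g := by
  rcases Int.eq_nat_or_neg n with ⟨m, rfl | rfl⟩
  · rw [zpow_natCast, H.pow hg]
  · rw [zpow_neg, zpow_natCast, H.inv (hg.pow_left m), H.pow hg]
    ring

theorem IsCentHom.finOrder {h : G} {lam : G → ℤ} (H : IsCentHom h lam) {g : G} (hg : Commute g h)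
    (hf : IsOfFinOrder g) : lam g = 0 := by
  have h1 := H.pow hg (orderOf g)
  rw [pow_orderOf_eq_one, H.one] at h1
  have h2 : (orderOf g : ℤ) ≠ 0 := by
    have := orderOf_pos_iff.2 hf
    omega
  rcases mul_eq_zero.1 h1.symm with h3 | h3
  · exact absurd h3 h2
  · exact h3

open scoped Classical in
/-- An element conjugating `h` to `c`, if there is one. -/
noncomputable def cx (h c : G) : G := if H : IsConj h c then (isConj_iff.1 H).choose else 1

theorem cx_spec {h c : G} (H : IsConj h c) : cx h c * h * (cx h c)⁻¹ = c := by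
  rw [cx, dif_pos H]
  exact (isConj_iff.1 H).choose_spec

open scoped Classical in
/-- The cocycle on the action groupoid of the conjugacy class of `h` defined by `lam`. -/
noncomputable def mu (h : G) (lam : G → ℤ) (γ c : G) : ℤ :=
  if IsConj h c then lam ((cx h (γ * c * γ⁻¹))⁻¹ * γ * cx h c) else 0

theorem mu_of_not {h : G} {lam : G → ℤ} {γ c : G} (H : ¬ IsConj h c) : mu h lam γ c = 0 :=
  if_neg H

theorem isConj_conj (h γ c : G) : IsConj h (γ * c * γ⁻¹) ↔ IsConj h c := by
  have : IsConj c (γ * c * γ⁻¹) := isConj_iff.2 ⟨γ, rfl⟩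
  exact ⟨fun H => H.trans this.symm, fun H => H.trans this⟩

theorem isConj_conj' (h γ c : G) : IsConj h (γ⁻¹ * c * γ) ↔ IsConj h c := by
  have := isConj_conj h γ⁻¹ c
  rwa [inv_inv] at this

/-- The path element commutes with `h`. -/
theorem commute_path {h c γ : G} (H : IsConj h c) :
    Commute ((cx h (γ * c * γ⁻¹))⁻¹ * γ * cx h c) h := by
  have h1 := cx_spec H
  have h2 := cx_spec ((isConj_conj h γ c).2 H)
  set x := cx h c
  set y := cx h (γ * c * γ⁻¹)
  have h3 : y * h * y⁻¹ = γ * (x * h * x⁻¹) * γ⁻¹ := by rw [h1, h2]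
  change y⁻¹ * γ * x * h = h * (y⁻¹ * γ * x)
  calc y⁻¹ * γ * x * h = y⁻¹ * (γ * (x * h * x⁻¹) * γ⁻¹) * (γ * x) := by group
    _ = y⁻¹ * (y * h * y⁻¹) * (γ * x) := by rw [h3]
    _ = h * (y⁻¹ * γ * x) := by group

theorem mu_mul {h : G} {lam : G → ℤ} (H : IsCentHom h lam) (γ γ' c : G) :
    mu h lam (γ * γ') c = mu h lam γ (γ' * c * γ'⁻¹) + mu h lam γ' c := by
  by_cases hc : IsConj h c
  · have hc' : IsConj h (γ' * c * γ'⁻¹) := (isConj_conj h γ' c).2 hc
    rw [mu, mu, mu, if_pos hc, if_pos hc', if_pos hc, ← H _ _ (commute_path hc') (commute_path hc)]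
    congr 1
    have h1 : γ * γ' * c * (γ * γ')⁻¹ = γ * (γ' * c * γ'⁻¹) * γ⁻¹ := by group
    rw [h1]
    group
  · have hc' : ¬ IsConj h (γ' * c * γ'⁻¹) := fun h' => hc ((isConj_conj h γ' c).1 h')
    rw [mu_of_not hc, mu_of_not hc', mu_of_not hc, add_zero]

theorem mu_of_commute {h : G} {lam : G → ℤ} {γ c : G} (hc : IsConj h c)
    (hγ : Commute γ c) : mu h lam γ c = lam ((cx h c)⁻¹ * γ * cx h c) := by
  have h1 : γ * c * γ⁻¹ = c := by rw [hγ.eq]; group
  rw [mu, if_pos hc, h1]

theorem commute_conj {h c γ : G} (hc : IsConj h c) (hγ : Commute γ c) :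
    Commute ((cx h c)⁻¹ * γ * cx h c) h := by
  have h1 := cx_spec hc
  set x := cx h c
  change x⁻¹ * γ * x * h = h * (x⁻¹ * γ * x)
  have h2 : γ * (x * h * x⁻¹) = (x * h * x⁻¹) * γ := by rw [h1]; exact hγ.eq
  calc x⁻¹ * γ * x * h = x⁻¹ * (γ * (x * h * x⁻¹)) * x := by group
    _ = x⁻¹ * ((x * h * x⁻¹) * γ) * x := by rw [h2]
    _ = h * (x⁻¹ * γ * x) := by group

theorem isOfFinOrder_conj {x γ : G} (h : IsOfFinOrder γ) : IsOfFinOrder (x⁻¹ * γ * x) := by
  rw [← orderOf_pos_iff] at h ⊢
  have h1 : orderOf (x⁻¹ * γ * x) = orderOf γ := by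
    have : IsConj γ (x⁻¹ * γ * x) := isConj_iff.2 ⟨x⁻¹, by group⟩
    obtain ⟨u, hu⟩ := this
    exact (hu.orderOf_eq (u : G)).symm
  rw [h1]
  exact h

theorem mu_finOrder {h : G} {lam : G → ℤ} (H : IsCentHom h lam) {γ c : G}
    (hγ : Commute γ c) (hf : IsOfFinOrder γ) : mu h lam γ c = 0 := by
  by_cases hc : IsConj h c
  · rw [mu_of_commute hc hγ]
    exact H.finOrder (commute_conj hc hγ) (isOfFinOrder_conj hf)
  · exact mu_of_not hc

end Mu

section Cyclic

variable {G : Type*} [Group G] {N : ℕ}

/-- The product of the first `d` letters of a cyclic word. -/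
def pre (s : ZMod N → G) (d : ℕ) : G := ((List.range d).map fun i : ℕ => s (i : ZMod N)).prod

theorem pre_zero (s : ZMod N → G) : pre s 0 = 1 := rfl

theorem pre_succ (s : ZMod N → G) (d : ℕ) : pre s (d + 1) = pre s d * s (d : ZMod N) := by
  unfold pre
  rw [List.range_succ, List.map_append, List.prod_append]
  simp

theorem pre_add (s : ZMod N → G) (a b : ℕ) :
    pre s (a + b) = pre s a * pre (fun i => s (i + (a : ZMod N))) b := by
  induction b with
  | zero => simp [pre_zero]
  | succ b ih =>
    rw [← add_assoc, pre_succ, ih, pre_succ, mul_assoc]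
    congr 3
    push_cast
    ring

/-- The product of a cyclic word. -/
def cyc (s : ZMod N → G) : G := pre s N

theorem cyc_shift_one (s : ZMod N → G) : cyc (fun i => s (i + 1)) = (s 0)⁻¹ * cyc s * s 0 := by
  unfold cyc
  have h1 : pre s (1 + N) = s 0 * pre (fun i => s (i + 1)) N := by
    rw [pre_add, ← zero_add 1, pre_succ, pre_zero]
    simp
  have h2 : pre s (N + 1) = pre s N * s 0 := by
    rw [pre_succ]
    simp
  rw [add_comm, h2] at h1
  rw [mul_assoc, h1]
  group

theorem cyc_shift (s : ZMod N → G) (d : ℕ) :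
    cyc (fun i => s (i + (d : ZMod N))) = (pre s d)⁻¹ * cyc s * pre s d := by
  induction d with
  | zero => simp [pre_zero]
  | succ d ih =>
    have h1 := cyc_shift_one (fun i => s (i + (d : ZMod N)))
    have h2 : (fun i => s (i + ((d + 1 : ℕ) : ZMod N))) =
        fun i => (fun i => s (i + (d : ZMod N))) (i + 1) := by
      funext i
      change s _ = s _
      congr 1
      push_cast
      ring
    rw [h2, h1, ih, pre_succ]
    simp only [zero_add]
    group

theorem cyc_one : cyc (fun _ : ZMod N => (1 : G)) = 1 := by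
  unfold cyc
  have : ∀ d, pre (fun _ : ZMod N => (1 : G)) d = 1 := by
    intro d
    induction d with
    | zero => rfl
    | succ d ih => rw [pre_succ, ih, one_mul]
  exact this N

/-- The two ways of grouping the letters of an alternating word. -/
theorem cyc_alt (b a : ZMod N → G) :
    cyc (fun t => a t * b (t + 1)) = (b 0)⁻¹ * cyc (fun t => b t * a t) * b 0 := by
  have h1 : ∀ d : ℕ, b 0 * pre (fun t => a t * b (t + 1)) d =
      pre (fun t => b t * a t) d * b (d : ZMod N) := by
    intro d
    induction d with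
    | zero => simp [pre_zero]
    | succ d ih =>
      rw [pre_succ, pre_succ, ← mul_assoc, ih]
      push_cast
      group
  have h2 := h1 N
  unfold cyc
  rw [mul_assoc, ← ZMod.natCast_self N, ← h2, ZMod.natCast_self]
  group

theorem pre_periodic (s : ZMod N → G) (e : ℕ) (hs : ∀ i, s (i + (e : ZMod N)) = s i) (k : ℕ) :
    pre s (e * k) = (pre s e) ^ k := by
  induction k with
  | zero => simp [pre_zero]
  | succ k ih =>
    rw [Nat.mul_succ, pre_add, ih, pow_succ]
    congr 2
    funext i
    have : ∀ k : ℕ, s (i + ((e * k : ℕ) : ZMod N)) = s i := by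
      intro k
      induction k with
      | zero => simp
      | succ k ih =>
        rw [← ih, ← hs (i + ((e * k : ℕ) : ZMod N))]
        congr 1
        push_cast
        ring
    exact this k

theorem pre_periodic_N (s : ZMod N → G) (k : ℕ) : pre s (N * k) = (cyc s) ^ k :=
  pre_periodic s N (fun i => by simp) k

/-- The sum of the cocycle along a rotation by `d`. -/
noncomputable def pathM (h : G) (lam : G → ℤ) (s : ZMod N → G) (d : ℕ) : ℤ :=
  mu h lam (pre s d)⁻¹ (cyc s)

theorem pathM_add {h : G} {lam : G → ℤ} (H : IsCentHom h lam) (s : ZMod N → G) (a b : ℕ) :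
    pathM h lam s (a + b) = pathM h lam s a + pathM h lam (fun i => s (i + (a : ZMod N))) b := by
  unfold pathM
  rw [pre_add, mul_inv_rev, mu_mul H, inv_inv, cyc_shift, add_comm]

theorem pathM_one {h : G} {lam : G → ℤ} (s : ZMod N → G) :
    pathM h lam s 1 = mu h lam (s 0)⁻¹ (cyc s) := by
  unfold pathM
  have : pre s 1 = s 0 := by
    rw [← zero_add 1, pre_succ, pre_zero]
    simp
  rw [this]

theorem pathM_periodic [NeZero N] {h : G} {lam : G → ℤ} (H : IsCentHom h lam)
    (hh : IsOfFinOrder h) (s : ZMod N → G) (e : ℕ) (hs : (fun i => s (i + (e : ZMod N))) = s) :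
    pathM h lam s e = 0 := by
  by_cases hc : IsConj h (cyc s)
  · unfold pathM
    apply mu_finOrder H
    · have h1 := cyc_shift s e
      rw [hs] at h1
      apply Commute.inv_left
      change pre s e * cyc s = cyc s * pre s e
      conv_lhs => rw [h1]
      group
    · have h1 : (pre s e) ^ N = (cyc s) ^ e := by
        rw [← pre_periodic s e (fun i => congrFun hs i) N, ← pre_periodic_N, mul_comm]
      have h2 : IsOfFinOrder (cyc s) := by
        rw [← orderOf_pos_iff] at hh ⊢
        obtain ⟨u, hu⟩ := hc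
        rw [← hu.orderOf_eq (u : G)]
        exact hh
      have h3 : IsOfFinOrder ((pre s e) ^ N) := by
        rw [h1]
        exact h2.pow
      exact (IsOfFinOrder.of_pow h3 (NeZero.ne N)).inv
  · exact mu_of_not hc

theorem pathM_wd [NeZero N] {h : G} {lam : G → ℤ} (H : IsCentHom h lam)
    (hh : IsOfFinOrder h) (s : ZMod N → G) (a b : ℕ)
    (hab : (fun i => s (i + (a : ZMod N))) = fun i => s (i + (b : ZMod N))) :
    pathM h lam s a = pathM h lam s b := by
  wlog hle : a ≤ b generalizing a b
  · exact (this b a hab.symm (by omega)).symm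
  obtain ⟨e, rfl⟩ := Nat.exists_eq_add_of_le hle
  rw [pathM_add H, pathM_periodic H hh (fun i => s (i + (a : ZMod N))) e, add_zero]
  conv_rhs => rw [hab]
  funext i
  congr 1
  push_cast
  ring

/-- Two cyclic words are equivalent if they differ by a rotation. -/
def rotSetoid (N : ℕ) [NeZero N] (G : Type*) : Setoid (ZMod N → G) where
  r s s' := ∃ d : ℕ, (fun i => s (i + (d : ZMod N))) = s'
  iseqv :=
    { refl := fun s => ⟨0, by simp⟩
      symm := by
        rintro s s' ⟨d, rfl⟩
        refine ⟨(-(d : ZMod N)).val, ?_⟩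
        funext i
        change s _ = s i
        congr 1
        rw [ZMod.natCast_zmod_val]
        ring
      trans := by
        rintro s s' s'' ⟨d, rfl⟩ ⟨e, rfl⟩
        refine ⟨e + d, ?_⟩
        funext i
        change s _ = s _
        congr 1
        push_cast
        ring }

/-- The potential of the cocycle on cyclic words. -/
theorem exists_potential [NeZero N] {h : G} {lam : G → ℤ} (H : IsCentHom h lam)
    (hh : IsOfFinOrder h) : ∃ ψ : (ZMod N → G) → ℤ,
      (∀ s, ψ (fun i => s (i + 1)) = ψ s + mu h lam (s 0)⁻¹ (cyc s)) ∧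
      (∀ s, ¬ IsConj h (cyc s) → ψ s = 0) := by
  let rep : (ZMod N → G) → (ZMod N → G) := fun s => (Quotient.mk (rotSetoid N G) s).out
  have hrep : ∀ s, ∃ d : ℕ, (fun i => rep s (i + (d : ZMod N))) = s := by
    intro s
    exact Quotient.exact (s := rotSetoid N G) (Quotient.out_eq (Quotient.mk (rotSetoid N G) s))
  choose d hd using hrep
  refine ⟨fun s => pathM h lam (rep s) (d s), fun s => ?_, fun s hs => ?_⟩
  · have h1 : rep (fun i => s (i + 1)) = rep s := by
      have : Quotient.mk (rotSetoid N G) (fun i => s (i + 1)) = Quotient.mk (rotSetoid N G) s := by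
        apply Eq.symm
        apply Quotient.sound
        exact ⟨1, by simp⟩
      exact congrArg Quotient.out this
    have h2 := hd (fun i => s (i + 1))
    rw [h1] at h2
    have h3 : (fun i => rep s (i + (d (fun i => s (i + 1)) : ZMod N))) =
        fun i => rep s (i + ((d s + 1 : ℕ) : ZMod N)) := by
      rw [h2]
      funext i
      have h4 := congrFun (hd s) (i + 1)
      rw [← h4]
      congr 1
      push_cast
      ring
    change pathM h lam (rep (fun i => s (i + 1))) (d (fun i => s (i + 1))) = _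
    rw [h1, pathM_wd H hh (rep s) _ _ h3, pathM_add H, hd s, pathM_one]
  · change mu h lam _ _ = 0
    apply mu_of_not
    intro hc
    apply hs
    rw [← hd s, cyc_shift, isConj_conj']
    exact hc

end Cyclic

end Pool.Agent.Lib25
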