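import Pool.Agent.Lib_helper25.KDefs
import Pool.Agent.Lib_helper25.Rel0

/-!
# Definitions for the statement on the assembly map in degree zero
-/

open TensorProduct

namespace Pool.Agent.Lib25

universe u v

/-- `K₀(ℤ[G])`. -/
def K0Z (G : Type u) [Group G] : Type u := K0 (MonoidAlgebra ℤ G)

noncomputable instance K0Z.instAddCommGroup (G : Type u) [Group G] : AddCommGroup (K0Z G) :=
  K0.instAddCommGroup (MonoidAlgebra ℤ G)

/-- The class of the free module `ℤ[G]` of rank one, that is, of the identity matrix of size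
one. -/
noncomputable def K0Z.unit (G : Type u) [Group G] : K0Z G := K0.of ⟨1, 1, Matrix.one_mul 1⟩

/-- The map `K₀(ℤ[G]) → K₀(ℤ[H])` induced by a group homomorphism `G → H`. -/
noncomputable def K0Z.map {G : Type u} {H : Type v} [Group G] [Group H] (φ : G →* H) :
    K0Z G →+ K0Z H := K0.map (MonoidAlgebra.mapDomainRingHom ℤ φ)

/-- `ℚ ⊗ K₀(ℤ[G])`. -/
def QK0Z (G : Type u) [Group G] : Type u := ℚ ⊗[ℤ] K0Z G

noncomputable instance QK0Z.instAddCommGroup (G : Type u) [Group G] : AddCommGroup (QK0Z G) :=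
  TensorProduct.addCommGroup

noncomputable instance QK0Z.instModule (G : Type u) [Group G] : Module ℚ (QK0Z G) :=
  TensorProduct.leftModule

/-- The element `1 ⊗ x` of `ℚ ⊗ K₀(ℤ[G])`. -/
noncomputable def QK0Z.mk {G : Type u} [Group G] (x : K0Z G) : QK0Z G := (1 : ℚ) ⊗ₜ[ℤ] x

/-- The group `C_n × ℤ`. -/
abbrev CZ (n : ℕ) : Type := Multiplicative (ZMod n) × Multiplicative ℤ

/-- The generator of `C_n` in `C_n × ℤ`. -/
abbrev gC (n : ℕ) : CZ n := (Multiplicative.ofAdd 1, 1)

/-- The generator of `ℤ` in `C_n × ℤ`. -/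
abbrev gT (n : ℕ) : CZ n := (1, Multiplicative.ofAdd 1)

/-- The linear map `A : ℚ × Src G → ℚ ⊗ K₀(ℤ[G])` sends `1 ∈ ℚ` to the class of `ℤ[G]` and the
symbol `(p, h, g)`, where `h` and `g` are the images of the generators of `C_n × ℤ` under a
homomorphism `φ : C_n × ℤ → G` injective on `C_n`, to the image of `κ n p` under `φ`. -/
structure IsAssembly (κ : ∀ n : ℕ, ℕ → K0Z (CZ n)) {G : Type u} [Group G]
    (A : ℚ × Src G →ₗ[ℚ] QK0Z G) : Prop where
  unit : A (1, 0) = QK0Z.mk (K0Z.unit G)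
  sym : ∀ (n p : ℕ) (φ : CZ n →* G), 0 < n → p.Prime → p ∣ n →
    Function.Injective (fun c => φ (c, 1)) →
    A (0, sym p (φ (gC n)) (φ (gT n))) = QK0Z.mk (K0Z.map φ (κ n p))

/-- The subspace of `Src G` spanned by the symbols `(p, h, g)` for which the centraliser of `h` is
not `ZDetects`. -/
noncomputable def undetected (G : Type u) [Group G] : Submodule ℚ (Src G) :=
  Submodule.span ℚ {s | ∃ (p : ℕ) (h g : G), Valid p h g ∧
    ¬ ZDetects (Subgroup.centralizer {h}) ∧ s = sym p h g}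

end Pool.Agent.Lib25
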