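import Pool.Agent.Lib_helper25.NodeAdd

/-!
# Additivity of the evaluated node classes
-/

open Matrix LaurentPolynomial

set_option linter.unusedSectionVars false

namespace Pool.Agent.Lib25

section EvAdd

variable {C : Type*} [CommGroup C]

theorem ev_C {G : Type*} [Group G] (ψ : C →* G) (g : G) (hg : ∀ c, Commute g (ψ c))
    (x : MonoidAlgebra ℤ C) : ev ℤ ψ g hg (LaurentPolynomial.C x) = push ℤ ψ x := by
  have h0 : (LaurentPolynomial.C x : LaurentPolynomial (MonoidAlgebra ℤ C)) =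
      AddMonoidAlgebra.single 0 x := rfl
  rw [h0]
  induction x using MonoidAlgebra.induction_linear with
  | zero => simp
  | add f g hf hg =>
    rw [AddMonoidAlgebra.single_add, map_add, hf rfl, hg rfl, map_add]
  | single c a => rw [ev_single, push_single, zpow_zero, mul_one]

theorem ev_T {G : Type*} [Group G] (ψ : C →* G) (g : G) (hg : ∀ c, Commute g (ψ c)) (n : ℤ) :
    ev ℤ ψ g hg (T n) = MonoidAlgebra.single (g ^ n) 1 := by
  have h0 : (T n : LaurentPolynomial (MonoidAlgebra ℤ C)) =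
      AddMonoidAlgebra.single n (MonoidAlgebra.single 1 1) := rfl
  rw [h0, ev_single, map_one, one_mul]

theorem nodeMat_ev {G : Type*} [Group G] (ψ : C →* G) (g : G) (hg : ∀ c, Commute g (ψ c))
    (b f : MonoidAlgebra ℤ C) : (nodeMat b f).map (ev ℤ ψ g hg) =
      nodeU (push ℤ ψ b) (push ℤ ψ f) (MonoidAlgebra.single g 1)
        (MonoidAlgebra.single g⁻¹ 1) := by
  have h1 : ev ℤ ψ g hg (T 1) = MonoidAlgebra.single g 1 := by rw [ev_T, zpow_one]
  have h2 : ev ℤ ψ g hg (T (-1)) = MonoidAlgebra.single g⁻¹ 1 := by rw [ev_T, _root_.zpow_neg_one]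
  have h3 : ev ℤ ψ g hg 2 = 2 := map_ofNat _ 2
  have h4 : ev ℤ ψ g hg (tt (MonoidAlgebra ℤ C)) =
      MonoidAlgebra.single g 1 - 2 + MonoidAlgebra.single g⁻¹ 1 := by
    unfold tt
    rw [map_add, map_sub, h1, h2, h3]
  have h5 : ev ℤ ψ g hg (dl b) = push ℤ ψ b *
      (MonoidAlgebra.single g 1 - 2 + MonoidAlgebra.single g⁻¹ 1) := by
    unfold dl
    rw [map_mul, ev_C, h4]
  unfold nodeMat nodeU
  ext1 i j
  fin_cases i <;> fin_cases j <;> simp [h1, h2, h4, h5, ev_C]

theorem push_central (k : Type*) [CommRing k] {Z : Type*} [Group Z] (ψ : C →* Z)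
    (hc : ∀ c z, Commute z (ψ c)) (a : MonoidAlgebra k C) (x : MonoidAlgebra k Z) :
    push k ψ a * x = x * push k ψ a := by
  induction x using MonoidAlgebra.induction_linear with
  | zero => simp
  | add f g hf hg => rw [mul_add, add_mul, hf, hg]
  | single z r =>
    induction a using MonoidAlgebra.induction_linear with
    | zero => simp
    | add f g hf hg => rw [map_add, mul_add, add_mul, hf, hg]
    | single c s =>
      rw [push_single, MonoidAlgebra.single_mul_single, MonoidAlgebra.single_mul_single,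
        mul_comm s r, (hc c z).eq]

theorem single_mul_inv {Z : Type*} [Group Z] (g : Z) :
    (MonoidAlgebra.single g 1 * MonoidAlgebra.single g⁻¹ 1 : MonoidAlgebra ℤ Z) = 1 := by
  rw [MonoidAlgebra.single_mul_single, mul_inv_cancel, mul_one]
  rfl

theorem single_inv_mul {Z : Type*} [Group Z] (g : Z) :
    (MonoidAlgebra.single g⁻¹ 1 * MonoidAlgebra.single g 1 : MonoidAlgebra ℤ Z) = 1 := by
  rw [MonoidAlgebra.single_mul_single, inv_mul_cancel, mul_one]
  rfl

theorem mapRingHom_injective'' {Z : Type*} [Group Z] :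
    Function.Injective (MonoidAlgebra.mapRingHom Z (Int.castRingHom ℚ)) := by
  intro x y hxy
  ext g
  have := congrArg (fun z => z.coeff g) hxy
  simpa [MonoidAlgebra.coeff_mapRingHom] using this

/-- Additivity of the evaluated node classes when `C` becomes central. -/
theorem node_ev_add_central {Z : Type*} [Group Z] (ψ : C →* Z) (hc : ∀ c z, Commute z (ψ c))
    (b f : MonoidAlgebra ℤ C) (a : MonoidAlgebra ℚ C) (hn : f ^ 2 = f * b - b ^ 3)
    (hb : MonoidAlgebra.mapRingHom C (Int.castRingHom ℚ) b = a - a ^ 2)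
    (hf : MonoidAlgebra.mapRingHom C (Int.castRingHom ℚ) f = a * (a - a ^ 2)) (g g' : Z) :
    K0.map (ev ℤ ψ g fun c => hc c g) (K0.of ⟨2, nodeMat b f, nodeMat_idem b f hn⟩) +
      K0.map (ev ℤ ψ g' fun c => hc c g') (K0.of ⟨2, nodeMat b f, nodeMat_idem b f hn⟩) =
      K0.map (ev ℤ ψ (g * g') fun c => hc c (g * g'))
        (K0.of ⟨2, nodeMat b f, nodeMat_idem b f hn⟩) + K0.of (IdemMat.free _ 1) := by
  have ha := push_central ℚ ψ hc a
  have hb' : MonoidAlgebra.mapRingHom Z (Int.castRingHom ℚ) (push ℤ ψ b) =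
      push ℚ ψ a - push ℚ ψ a ^ 2 := by
    rw [push_mapRingHom, hb, map_sub, map_pow]
  have hf' : MonoidAlgebra.mapRingHom Z (Int.castRingHom ℚ) (push ℤ ψ f) =
      push ℚ ψ a * (push ℚ ψ a - push ℚ ψ a ^ 2) := by
    rw [push_mapRingHom, hf, map_mul, map_sub, map_pow]
  have hi : ∀ u : Z, nodeU (push ℤ ψ b) (push ℤ ψ f) (MonoidAlgebra.single u 1)
      (MonoidAlgebra.single u⁻¹ 1) * nodeU (push ℤ ψ b) (push ℤ ψ f) (MonoidAlgebra.single u 1)
      (MonoidAlgebra.single u⁻¹ 1) = nodeU (push ℤ ψ b) (push ℤ ψ f) (MonoidAlgebra.single u 1)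
      (MonoidAlgebra.single u⁻¹ 1) := fun u =>
    nodeU_idem _ mapRingHom_injective'' _ ha _ _ hb' hf' _ _ (single_mul_inv u)
      (single_inv_mul u)
  have e1 : (MonoidAlgebra.single g 1 * MonoidAlgebra.single g' 1 : MonoidAlgebra ℤ Z) =
      MonoidAlgebra.single (g * g') 1 := by
    rw [MonoidAlgebra.single_mul_single, mul_one]
  have e2 : (MonoidAlgebra.single g'⁻¹ 1 * MonoidAlgebra.single g⁻¹ 1 : MonoidAlgebra ℤ Z) =
      MonoidAlgebra.single (g * g')⁻¹ 1 := by
    rw [MonoidAlgebra.single_mul_single, mul_one, _root_.mul_inv_rev]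
  have i3 := hi (g * g')
  rw [← e1, ← e2] at i3
  have key := nodeI_add _ mapRingHom_injective'' _ ha _ _ hb' hf' _ _ _ _
    (single_mul_inv g) (single_inv_mul g) (single_mul_inv g') (single_inv_mul g')
    (hi g) (hi g') i3
  have conv : ∀ (u : Z) (W W' : MonoidAlgebra ℤ Z) (h1 : W = MonoidAlgebra.single u 1)
      (h2 : W' = MonoidAlgebra.single u⁻¹ 1)
      (i : nodeU (push ℤ ψ b) (push ℤ ψ f) W W' * nodeU (push ℤ ψ b) (push ℤ ψ f) W W' =
        nodeU (push ℤ ψ b) (push ℤ ψ f) W W'),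
      K0.map (ev ℤ ψ u fun c => hc c u) (K0.of ⟨2, nodeMat b f, nodeMat_idem b f hn⟩) =
        K0.of (nodeI (push ℤ ψ b) (push ℤ ψ f) W W' i) := by
    intro u W W' h1 h2 i
    subst h1
    subst h2
    rw [K0.map_of]
    congr 1
    unfold IdemMat.map nodeI
    congr 1
    exact nodeMat_ev ψ u _ b f
  rw [conv g _ _ rfl rfl (hi g), conv g' _ _ rfl rfl (hi g'), conv (g * g') _ _ e1 e2 i3]
  exact key

/-- Evaluation factors through the centraliser. -/
theorem mapDomain_comp_ev {Z G : Type*} [Group Z] [Group G] (i : Z →* G) (ψ : C →* Z) (g : Z)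
    (hg : ∀ c, Commute g (ψ c)) (hg' : ∀ c, Commute (i g) ((i.comp ψ) c)) :
    (MonoidAlgebra.mapDomainRingHom ℤ i).comp (ev ℤ ψ g hg) = ev ℤ (i.comp ψ) (i g) hg' := by
  apply RingHom.ext
  intro y
  rw [RingHom.comp_apply]
  induction y using AddMonoidAlgebra.induction_linear with
  | zero => simp
  | add f g hf hg => simp only [map_add, hf, hg]
  | single n y =>
    induction y using MonoidAlgebra.induction_linear with
    | zero => simp
    | add f g hf hg => simp only [AddMonoidAlgebra.single_add, map_add, hf, hg]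
    | single c a =>
      rw [ev_single, ev_single]
      change MonoidAlgebra.mapDomain _ _ = _
      rw [MonoidAlgebra.mapDomain_single]
      congr 1
      rw [map_mul, map_zpow]
      rfl

/-- Additivity of the evaluated node classes. -/
theorem node_ev_add {G : Type*} [Group G] (ψ : C →* G)
    (b f : MonoidAlgebra ℤ C) (a : MonoidAlgebra ℚ C) (hn : f ^ 2 = f * b - b ^ 3)
    (hb : MonoidAlgebra.mapRingHom C (Int.castRingHom ℚ) b = a - a ^ 2)
    (hf : MonoidAlgebra.mapRingHom C (Int.castRingHom ℚ) f = a * (a - a ^ 2)) (g g' : G)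
    (hg : ∀ c, Commute g (ψ c)) (hg' : ∀ c, Commute g' (ψ c))
    (hgg' : ∀ c, Commute (g * g') (ψ c)) :
    K0.map (ev ℤ ψ g hg) (K0.of ⟨2, nodeMat b f, nodeMat_idem b f hn⟩) +
      K0.map (ev ℤ ψ g' hg') (K0.of ⟨2, nodeMat b f, nodeMat_idem b f hn⟩) =
      K0.map (ev ℤ ψ (g * g') hgg') (K0.of ⟨2, nodeMat b f, nodeMat_idem b f hn⟩) +
        K0.of (IdemMat.free _ 1) := by
  let Z : Subgroup G := Subgroup.centralizer (Set.range ψ)
  have hmem : ∀ z : G, (∀ c, Commute z (ψ c)) → z ∈ Z := by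
    intro z hz
    rw [Subgroup.mem_centralizer_iff]
    rintro _ ⟨c, rfl⟩
    exact (hz c).eq.symm
  have hZ : ∀ z : Z, ∀ c, Commute (z : G) (ψ c) := by
    intro z c
    have h1 := Subgroup.mem_centralizer_iff.1 z.2 (ψ c) ⟨c, rfl⟩
    exact h1.symm
  let ψZ : C →* Z := ψ.codRestrict Z (fun c => hmem _ (fun c' => by
    change ψ c * ψ c' = ψ c' * ψ c
    rw [← map_mul, ← map_mul, mul_comm]))
  have hc : ∀ c z, Commute z (ψZ c) := by
    intro c z
    apply Subtype.ext
    exact (hZ z c).eq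
  have key := node_ev_add_central ψZ hc b f a hn hb hf ⟨g, hmem g hg⟩ ⟨g', hmem g' hg'⟩
  have key' := congrArg (K0.map (MonoidAlgebra.mapDomainRingHom ℤ Z.subtype)) key
  rw [map_add, map_add, K0.map_map, K0.map_map, K0.map_map] at key'
  have hcomp : ∀ (z : Z) (hz : ∀ c, Commute (z : G) (ψ c)),
      (MonoidAlgebra.mapDomainRingHom ℤ Z.subtype).comp (ev ℤ ψZ z fun c => hc c z) =
        ev ℤ ψ (z : G) hz := by
    intro z hz
    exact mapDomain_comp_ev Z.subtype ψZ z (fun c => hc c z) hz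
  rw [hcomp ⟨g, hmem g hg⟩ hg, hcomp ⟨g', hmem g' hg'⟩ hg',
    hcomp (⟨g, hmem g hg⟩ * ⟨g', hmem g' hg'⟩) hgg', K0.map_of _ (IdemMat.free _ 1),
    IdemMat.map_free] at key'
  exact key'

end EvAdd

end Pool.Agent.Lib25
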