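import Pool.Agent.Lib_helper25.Aver0

/-!
# The assembly map in degree zero
-/

set_option linter.unusedSectionVars false

open TensorProduct

namespace Pool.Agent.Lib25

universe v w

section Conj

variable {G : Type v} [Group G]

theorem mapDomain_conj (x : G) (a : MonoidAlgebra ℤ G) :
    MonoidAlgebra.mapDomainRingHom ℤ (MulAut.conj x).toMonoidHom a =
      MonoidAlgebra.single x 1 * a * MonoidAlgebra.single x⁻¹ 1 := by
  induction a using MonoidAlgebra.induction_linear with
  | zero => simp
  | add a b ha hb => rw [map_add, ha, hb, mul_add, add_mul]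
  | single g r =>
    change MonoidAlgebra.mapDomain _ _ = _
    rw [MonoidAlgebra.mapDomain_single, MonoidAlgebra.single_mul_single,
      MonoidAlgebra.single_mul_single, one_mul, mul_one]
    rfl

theorem K0_map_conj (x : G) (z : K0 (MonoidAlgebra ℤ G)) :
    K0.map (MonoidAlgebra.mapDomainRingHom ℤ (MulAut.conj x).toMonoidHom) z = z := by
  have h1 : ∀ e : IdemMat (MonoidAlgebra ℤ G),
      K0.map (MonoidAlgebra.mapDomainRingHom ℤ (MulAut.conj x).toMonoidHom) (K0.of e) =
        K0.of e := by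
    intro e
    rw [K0.map_of]
    unfold K0.of
    congr 1
    apply mvN_of_eq
    have hX' := single_inv_mul x
    have hmap : ∀ a, (MonoidAlgebra.mapDomainRingHom ℤ (MulAut.conj x).toMonoidHom) a =
        MonoidAlgebra.single x 1 * a * MonoidAlgebra.single x⁻¹ 1 := mapDomain_conj x
    have key : MvN (e.mat.map (MonoidAlgebra.mapDomainRingHom ℤ (MulAut.conj x).toMonoidHom))
        e.mat := by
      set X : MonoidAlgebra ℤ G := MonoidAlgebra.single x 1
      set X' : MonoidAlgebra ℤ G := MonoidAlgebra.single x⁻¹ 1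
      have hid : ∀ i j, e.mat i j = ∑ k, e.mat i k * e.mat k j := by
        intro i j
        conv_lhs => rw [← e.idem, Matrix.mul_apply]
      refine ⟨e.mat.map (fun a => X * a), e.mat.map (fun a => a * X'), ?_, ?_⟩
      · ext1 i j
        rw [Matrix.map_apply, hmap, Matrix.mul_apply, hid i j, Finset.mul_sum, Finset.sum_mul]
        apply Finset.sum_congr rfl
        intro k _
        change X * e.mat i k * (e.mat k j * X') = X * (e.mat i k * e.mat k j) * X'
        simp only [mul_assoc]
      · ext1 i j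
        rw [Matrix.mul_apply, hid i j]
        apply Finset.sum_congr rfl
        intro k _
        change e.mat i k * X' * (X * e.mat k j) = e.mat i k * e.mat k j
        rw [mul_assoc, ← mul_assoc X', hX', one_mul]
    exact key
  obtain ⟨e, f, rfl⟩ := K0.exists_sub z
  rw [map_sub, h1, h1]

end Conj

section Final

theorem orderOf_gC {G : Type v} [Group G] {n : ℕ} (hn : 0 < n) (φ : CZ n →* G)
    (hφ : Function.Injective (fun c => φ (c, 1))) : orderOf (φ (gC n)) = n := by
  have : NeZero n := ⟨hn.ne'⟩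
  have h5 : orderOf ((φ.comp (MonoidHom.inl _ _)) (Multiplicative.ofAdd 1)) =
    orderOf (Multiplicative.ofAdd (1 : ZMod n)) := orderOf_injective _ hφ _
  change orderOf ((φ.comp (MonoidHom.inl _ _)) (Multiplicative.ofAdd 1)) = n
  rw [h5, orderOf_gen (zpowers_one_eq_top n), card_Cn]

theorem injective_of_orderOf {G : Type v} [Group G] {n : ℕ} [NeZero n] (φ : CZ n →* G)
    (h : orderOf (φ (gC n)) = n) : Function.Injective (fun c => φ (c, 1)) := by
  have key : ∀ c : Multiplicative (ZMod n), φ (c, 1) = 1 → c = 1 := by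
    intro c hc
    have h1 := ofAdd_eq_pow n (Multiplicative.toAdd c)
    rw [ofAdd_toAdd] at h1
    have h3 : ((c, 1) : CZ n) = (gC n) ^ (Multiplicative.toAdd c).val := by
      apply Prod.ext
      · rw [Prod.pow_fst]
        exact h1
      · rw [Prod.pow_snd]
        exact (one_pow _).symm
    rw [h3, map_pow] at hc
    have h4 := orderOf_dvd_of_pow_eq_one hc
    rw [h] at h4
    have h5 := Nat.eq_zero_of_dvd_of_lt h4 (ZMod.val_lt _)
    rw [ZMod.val_eq_zero] at h5
    rw [← ofAdd_toAdd c, h5]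
    rfl
  intro c c' hcc
  have h1 : φ (c * c'⁻¹, 1) = 1 := by
    have h2 : ((c * c'⁻¹, 1) : CZ n) = (c, 1) * (c', 1)⁻¹ := by
      apply Prod.ext
      · rfl
      · change (1 : Multiplicative ℤ) = 1 * (1 : Multiplicative ℤ)⁻¹
        simp
    rw [h2, map_mul, map_inv]
    have h3 : φ (c, 1) = φ (c', 1) := hcc
    rw [h3, mul_inv_cancel]
  exact mul_inv_eq_one.1 (key _ h1)

theorem commute_gT {G : Type v} [Group G] {n : ℕ} (φ : CZ n →* G) :
    Commute (φ (gT n)) (φ (gC n)) := by
  change φ _ * φ _ = φ _ * φ _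
  rw [← map_mul, ← map_mul, mul_comm]

theorem main0 : ∃ κ : ∀ n : ℕ, ℕ → K0 (MonoidAlgebra ℤ (CZ n)),
    ∀ (G : Type v) [Group G], ∃ A : ℚ × Src G →ₗ[ℚ] ℚ ⊗[ℤ] K0 (MonoidAlgebra ℤ G),
      A (1, 0) = 1 ⊗ₜ[ℤ] K0.of (IdemMat.free (MonoidAlgebra ℤ G) 1) ∧
      (∀ (n p : ℕ) (φ : CZ n →* G), 0 < n → p.Prime → p ∣ n →
        Function.Injective (fun c => φ (c, 1)) →
        A (0, sym p (φ (gC n)) (φ (gT n))) =
          1 ⊗ₜ[ℤ] K0.map (MonoidAlgebra.mapDomainRingHom ℤ φ) (κ n p)) ∧
      ∀ y, A y = 0 → y.1 = 0 ∧ y.2 ∈ Submodule.span ℚ {s | ∃ (p : ℕ) (h g : G), Valid p h g ∧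
        ¬ ZDetects (Subgroup.centralizer {h}) ∧ s = sym p h g} := by
  classical
  obtain ⟨κ1, hκ1⟩ := exists_kappa1.{v}
  let κ : ∀ n : ℕ, ℕ → K0 (MonoidAlgebra ℤ (CZ n)) := fun n p =>
    if hn : 0 < n then (haveI : NeZero n := ⟨hn.ne'⟩; kap3 (κ1 n) p) else 0
  have hκ : ∀ (n : ℕ) [NeZero n] (p : ℕ), κ n p = kap3 (κ1 n) p := by
    intro n _ p
    exact dif_pos (Nat.pos_of_ne_zero (NeZero.ne n))
  refine ⟨κ, fun G _ => ?_⟩
  obtain ⟨hadd, hrk, hfun⟩ := hκ1 G
  -- the value function
  have hV : ∀ t : ℕ × G × G, ∃ v : K0 (MonoidAlgebra ℤ G), (¬ Valid t.1 t.2.1 t.2.2 → v = 0) ∧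
      ∀ (n : ℕ) (φ : CZ n →* G), 0 < n → t.1.Prime → t.1 ∣ n →
        Function.Injective (fun c => φ (c, 1)) → φ (gC n) = t.2.1 → φ (gT n) = t.2.2 →
        v = K0.map (MonoidAlgebra.mapDomainRingHom ℤ φ) (κ n t.1) := by
    rintro ⟨p, h, g⟩
    by_cases hv : Valid p h g
    swap
    · refine ⟨0, fun _ => rfl, ?_⟩
      intro n φ hn hp hpn hφ h1 h2
      exfalso
      apply hv
      have h3 := orderOf_gC hn φ hφ
      change φ (gC n) = h at h1
      change φ (gT n) = g at h2
      rw [← h1, ← h2]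
      exact ⟨hp, orderOf_pos_iff.1 (by rw [h3]; exact hn), by rw [h3]; exact hpn, commute_gT φ⟩
    · have hpos : 0 < orderOf h := orderOf_pos_iff.2 hv.fin
      have : NeZero (orderOf h) := ⟨hpos.ne'⟩
      obtain ⟨φ0, h1, h2⟩ := exists_pairHom (n := orderOf h) h g (pow_orderOf_eq_one h) hv.comm
      refine ⟨K0.map (MonoidAlgebra.mapDomainRingHom ℤ φ0) (κ (orderOf h) p),
        fun h => absurd hv h, ?_⟩
      intro n φ hn hp hpn hφ h3 h4
      have h5 : orderOf h = n := by
        rw [← orderOf_gC hn φ hφ]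
        exact congrArg orderOf h3.symm
      have key : ∀ (m n : ℕ) (_ : m = n) [NeZero m] (φ0 : CZ m →* G) (φ : CZ n →* G)
          (_ : φ0 (gC m) = φ (gC n)) (_ : φ0 (gT m) = φ (gT n)),
          K0.map (MonoidAlgebra.mapDomainRingHom ℤ φ0) (κ m p) =
            K0.map (MonoidAlgebra.mapDomainRingHom ℤ φ) (κ n p) := by
        intro m n hmn _ φ0 φ e1 e2
        subst hmn
        rw [cz_ext e1 e2]
      exact key _ _ h5 φ0 φ (h1.trans h3.symm) (h2.trans h4.symm)
  choose V hV0 hV1 using hV
  let A0 : (ℕ × G × G →₀ ℚ) →ₗ[ℚ] ℚ ⊗[ℤ] K0 (MonoidAlgebra ℤ G) :=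
    Finsupp.linearCombination ℚ (fun t => (1 : ℚ) ⊗ₜ[ℤ] V t)
  have hA0 : ∀ t (r : ℚ), A0 (Finsupp.single t r) = r • ((1 : ℚ) ⊗ₜ[ℤ] V t) := by
    intro t r
    exact Finsupp.linearCombination_single ℚ r t
  have htm : ∀ a b : K0 (MonoidAlgebra ℤ G), (1 : ℚ) ⊗ₜ[ℤ] (a + b) =
      (1 : ℚ) ⊗ₜ[ℤ] a + (1 : ℚ) ⊗ₜ[ℤ] b := fun a b => TensorProduct.tmul_add _ _ _
  have hrel : ∀ x, Rel G x → A0 x = 0 := by
    intro x hx
    cases hx with
    | invalid p h g hv => rw [hA0, hV0 _ hv, TensorProduct.tmul_zero, smul_zero]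
    | add p h g g' hv hv' =>
      have hpos : 0 < orderOf h := orderOf_pos_iff.2 hv.fin
      have : NeZero (orderOf h) := ⟨hpos.ne'⟩
      obtain ⟨φ, h1, h2⟩ := exists_pairHom (n := orderOf h) h g (pow_orderOf_eq_one h) hv.comm
      obtain ⟨φ', h1', h2'⟩ := exists_pairHom (n := orderOf h) h g' (pow_orderOf_eq_one h)
        hv'.comm
      obtain ⟨φ'', h1'', h2''⟩ := exists_pairHom (n := orderOf h) h (g * g')
        (pow_orderOf_eq_one h) (hv.comm.mul_left hv'.comm)
      have hagree : ∀ (φ φ' : CZ (orderOf h) →* G), φ (gC _) = φ' (gC _) →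
          ∀ c, φ (c, 1) = φ' (c, 1) := by
        intro φ φ' hh c
        have h1 := ofAdd_eq_pow (orderOf h) (Multiplicative.toAdd c)
        rw [ofAdd_toAdd] at h1
        have h3 : ((c, 1) : CZ (orderOf h)) = (gC _) ^ (Multiplicative.toAdd c).val := by
          apply Prod.ext
          · rw [Prod.pow_fst]
            exact h1
          · rw [Prod.pow_snd]
            exact (one_pow _).symm
        rw [h3, map_pow, map_pow, hh]
      let Θ : K0 (MonoidAlgebra ℤ (CZ (orderOf h))) →+ K0 (MonoidAlgebra ℤ G) :=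
        K0.map (MonoidAlgebra.mapDomainRingHom ℤ φ'') -
          K0.map (MonoidAlgebra.mapDomainRingHom ℤ φ) -
          K0.map (MonoidAlgebra.mapDomainRingHom ℤ φ')
      have h3 : Θ (kap3 (κ1 _) p) = 0 := by
        apply kap3_induct
        · intro q hq w
          change K0.map _ _ - K0.map _ _ - K0.map _ _ = 0
          rw [map_tw, map_tw, map_tw, hadd _ q (φ.comp (al w)) (φ'.comp (al w))
            (φ''.comp (al w)) hpos (Nat.prime_of_mem_primeFactors hq)
            (Nat.dvd_of_mem_primeFactors hq) _ _ _]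
          · abel
          · apply hagree
            rw [MonoidHom.comp_apply, MonoidHom.comp_apply, al_gC, map_pow, map_pow, h1, h1']
          · apply hagree
            rw [MonoidHom.comp_apply, MonoidHom.comp_apply, al_gC, map_pow, map_pow, h1, h1'']
          · rw [MonoidHom.comp_apply, MonoidHom.comp_apply, MonoidHom.comp_apply, al_gT, h2, h2',
              h2'']
        · exact Nat.mem_primeFactors.2 ⟨hv.prime, hv.dvd, hpos.ne'⟩
      have h4 : V (p, h, g * g') = V (p, h, g) + V (p, h, g') := by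
        rw [hV1 (p, h, g * g') _ φ'' hpos hv.prime hv.dvd
          (injective_of_orderOf φ'' (by rw [h1''])) h1'' h2'',
          hV1 (p, h, g) _ φ hpos hv.prime hv.dvd
          (injective_of_orderOf φ (by rw [h1])) h1 h2,
          hV1 (p, h, g') _ φ' hpos hv.prime hv.dvd
          (injective_of_orderOf φ' (by rw [h1'])) h1' h2', hκ]
        change K0.map _ _ - K0.map _ _ - K0.map _ _ = 0 at h3
        rw [sub_sub, sub_eq_zero] at h3
        exact h3
      rw [map_sub, map_sub, hA0, hA0, hA0, h4, htm]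
      simp only [one_smul]
      abel
    | conj p h g x hv =>
      have hpos : 0 < orderOf h := orderOf_pos_iff.2 hv.fin
      have : NeZero (orderOf h) := ⟨hpos.ne'⟩
      obtain ⟨φ, h1, h2⟩ := exists_pairHom (n := orderOf h) h g (pow_orderOf_eq_one h) hv.comm
      let φ' : CZ (orderOf h) →* G := (MulAut.conj x).toMonoidHom.comp φ
      have h1' : φ' (gC _) = x * h * x⁻¹ := by
        change MulAut.conj x (φ (gC _)) = _
        rw [h1]
        rfl
      have h2' : φ' (gT _) = x * g * x⁻¹ := by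
        change MulAut.conj x (φ (gT _)) = _
        rw [h2]
        rfl
      have hinj : Function.Injective (fun c => φ (c, 1)) :=
        injective_of_orderOf φ (by rw [h1])
      have hinj' : Function.Injective (fun c => φ' (c, 1)) := by
        intro c c' hcc
        exact hinj ((MulAut.conj x).injective hcc)
      have h4 : V (p, x * h * x⁻¹, x * g * x⁻¹) = V (p, h, g) := by
        rw [hV1 (p, x * h * x⁻¹, x * g * x⁻¹) _ φ' hpos hv.prime hv.dvd hinj' h1' h2',
          hV1 (p, h, g) _ φ hpos hv.prime hv.dvd hinj h1 h2]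
        rw [← mapDomain_comp, ← K0.map_map, K0_map_conj]
      rw [map_sub, hA0, hA0, h4, sub_self]
    | frob p h h' g j k hv hz hpw =>
      have hpos : 0 < orderOf h := orderOf_pos_iff.2 hv.fin
      have : NeZero (orderOf h) := ⟨hpos.ne'⟩
      obtain ⟨φ, h1, h2⟩ := exists_pairHom (n := orderOf h) h g (pow_orderOf_eq_one h) hv.comm
      obtain ⟨w, hw⟩ := exists_unit_of_zpowers (n := orderOf h) rfl hz
      have hrel : uRel (orderOf h) p w 1 := by
        refine ⟨k, j, ?_⟩
        rw [hw, ← pow_mul, pow_eq_pow_iff_modEq, ← ZMod.natCast_eq_natCast_iff] at hpw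
        push_cast at hpw
        rw [ZMod.natCast_zmod_val] at hpw
        rw [Units.val_one, one_mul]
        exact hpw.symm
      have h1' : (φ.comp (al w)) (gC _) = h' := by
        rw [MonoidHom.comp_apply, al_gC, map_pow, h1, hw]
      have h2' : (φ.comp (al w)) (gT _) = g := by
        rw [MonoidHom.comp_apply, al_gT, h2]
      have hord' : orderOf h' = orderOf h := by
        rw [← Nat.card_zpowers, ← hz, Nat.card_zpowers]
      have h4 : V (p, h', g) = V (p, h, g) := by
        rw [hV1 (p, h', g) _ (φ.comp (al w)) hpos hv.prime hv.dvd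
          (injective_of_orderOf _ (by rw [h1', hord'])) h1' h2',
          hV1 (p, h, g) _ φ hpos hv.prime hv.dvd (injective_of_orderOf φ (by rw [h1])) h1 h2]
        change K0.map _ (κ (orderOf h) p) = K0.map _ (κ (orderOf h) p)
        rw [← map_tw, hκ, tw_kap3 _ p w hrel]
      rw [map_sub, hA0, hA0, h4, sub_self]
    | sum h g hfin hc =>
      have hpos : 0 < orderOf h := orderOf_pos_iff.2 hfin
      have : NeZero (orderOf h) := ⟨hpos.ne'⟩
      obtain ⟨φ, h1, h2⟩ := exists_pairHom (n := orderOf h) h g (pow_orderOf_eq_one h) hc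
      have h3 : ∀ p ∈ (orderOf h).primeFactors, ∀ u : (ZMod (orderOf h))ˣ,
          V (p, h ^ (u : ZMod (orderOf h)).val, g) =
            K0.map (MonoidAlgebra.mapDomainRingHom ℤ φ) (tw u (κ (orderOf h) p)) := by
        intro p hp u
        have h1' : (φ.comp (al u)) (gC _) = h ^ (u : ZMod (orderOf h)).val := by
          rw [MonoidHom.comp_apply, al_gC, map_pow, h1]
        have h2' : (φ.comp (al u)) (gT _) = g := by
          rw [MonoidHom.comp_apply, al_gT, h2]
        rw [hV1 (p, h ^ (u : ZMod (orderOf h)).val, g) _ (φ.comp (al u)) hpos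
          (Nat.prime_of_mem_primeFactors hp) (Nat.dvd_of_mem_primeFactors hp)
          (injective_of_orderOf _ (by rw [h1', orderOf_pow_val rfl])) h1' h2', map_tw]
      have h4 : A0 (∑ p ∈ (orderOf h).primeFactors,
          ∑ a ∈ (Finset.range (orderOf h)).filter (fun a => a.Coprime (orderOf h)),
          Finsupp.single (p, h ^ a, g) 1) =
          (1 : ℚ) ⊗ₜ[ℤ] K0.map (MonoidAlgebra.mapDomainRingHom ℤ φ)
            (∑ q ∈ (orderOf h).primeFactors, ∑ u : (ZMod (orderOf h))ˣ,
              tw u (kap3 (κ1 (orderOf h)) q)) := by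
        rw [map_sum, map_sum, TensorProduct.tmul_sum]
        apply Finset.sum_congr rfl
        intro p hp
        rw [map_sum, map_sum, TensorProduct.tmul_sum]
        refine Eq.symm (Finset.sum_bij (fun (u : (ZMod (orderOf h))ˣ) _ =>
          (u : ZMod (orderOf h)).val) ?_ ?_ ?_ ?_)
        · intro u _
          rw [Finset.mem_filter, Finset.mem_range]
          exact ⟨ZMod.val_lt _, ZMod.val_coe_unit_coprime u⟩
        · intro u _ v _ huv
          exact Units.ext (ZMod.val_injective _ huv)
        · intro a ha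
          rw [Finset.mem_filter, Finset.mem_range] at ha
          refine ⟨ZMod.unitOfCoprime a ha.2, Finset.mem_univ _, ?_⟩
          rw [ZMod.coe_unitOfCoprime, ZMod.val_natCast, Nat.mod_eq_of_lt ha.1]
        · intro u _
          rw [hA0, h3 p hp u, hκ, one_smul]
      rw [h4, sum_kap3, map_zero, TensorProduct.tmul_zero]
  have hle : Submodule.span ℚ {x | Rel G x} ≤ LinearMap.ker A0 := by
    rw [Submodule.span_le]
    intro x hx
    exact hrel x hx
  let A1 : Src G →ₗ[ℚ] ℚ ⊗[ℤ] K0 (MonoidAlgebra ℤ G) :=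
    (Submodule.span ℚ {x | Rel G x}).liftQ A0 hle
  have hA1 : ∀ x : ℕ × G × G →₀ ℚ, A1 (srcMk G x) = A0 x := fun x => rfl
  let A : ℚ × Src G →ₗ[ℚ] ℚ ⊗[ℤ] K0 (MonoidAlgebra ℤ G) :=
    LinearMap.coprod (LinearMap.toSpanSingleton ℚ _
      ((1 : ℚ) ⊗ₜ[ℤ] K0.of (IdemMat.free (MonoidAlgebra ℤ G) 1))) A1
  have hA : ∀ r s, A (r, s) = r • ((1 : ℚ) ⊗ₜ[ℤ] K0.of (IdemMat.free (MonoidAlgebra ℤ G) 1)) +
      A1 s := fun r s => rfl
  refine ⟨A, ?_, ?_, ?_⟩
  · rw [hA, map_zero, one_smul, add_zero]
  · intro n p φ hn hp hpn hφ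
    unfold sym
    rw [hA, zero_smul, zero_add, hA1, hA0, one_smul,
      hV1 (p, φ (gC n), φ (gT n)) n φ hn hp hpn hφ rfl rfl]
  · rintro ⟨r, s⟩ hy
    obtain ⟨x, rfl⟩ := srcMk_surjective G s
    rw [hA, hA1] at hy
    -- applying additive functions
    have happ : ∀ F : K0 (MonoidAlgebra ℤ G) →+ ℚ,
        r * F (K0.of (IdemMat.free (MonoidAlgebra ℤ G) 1)) +
          ∑ t ∈ x.support, x t * F (V t) = 0 := by
      intro F
      have h1 := congrArg (LinearMap.liftBaseChange ℚ F.toIntLinearMap) hy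
      rw [map_add, map_smul, map_zero, LinearMap.liftBaseChange_tmul, one_smul] at h1
      have h2 : LinearMap.liftBaseChange ℚ F.toIntLinearMap (A0 x) =
          ∑ t ∈ x.support, x t * F (V t) := by
        change LinearMap.liftBaseChange ℚ F.toIntLinearMap
          (Finsupp.linearCombination ℚ (fun t => (1 : ℚ) ⊗ₜ[ℤ] V t) x) = _
        rw [Finsupp.linearCombination_apply, Finsupp.sum, map_sum]
        apply Finset.sum_congr rfl
        intro t _
        rw [map_smul, LinearMap.liftBaseChange_tmul, one_smul]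
        rfl
      rw [h2] at h1
      exact h1
    have hr : r = 0 := by
      have h1 := happ ((Int.castAddHom ℚ).comp (rkG G))
      have h2 : ∑ t ∈ x.support, x t * ((Int.castAddHom ℚ).comp (rkG G)) (V t) = 0 := by
        apply Finset.sum_eq_zero
        intro t _
        have h3 : rkG G (V t) = 0 := by
          by_cases hv : Valid t.1 t.2.1 t.2.2
          · have hpos : 0 < orderOf t.2.1 := orderOf_pos_iff.2 hv.fin
            have : NeZero (orderOf t.2.1) := ⟨hpos.ne'⟩
            obtain ⟨φ, h1, h2⟩ := exists_pairHom (n := orderOf t.2.1) t.2.1 t.2.2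
              (pow_orderOf_eq_one _) hv.comm
            rw [hV1 t _ φ hpos hv.prime hv.dvd (injective_of_orderOf φ (by rw [h1])) h1 h2, hκ]
            let Θ : K0 (MonoidAlgebra ℤ (CZ (orderOf t.2.1))) →+ ℤ :=
              (rkG G).comp (K0.map (MonoidAlgebra.mapDomainRingHom ℤ φ))
            change Θ (kap3 (κ1 _) t.1) = 0
            apply kap3_induct
            · intro q hq w
              change rkG G (K0.map _ _) = 0
              rw [map_tw]
              exact hrk _ q _ hpos (Nat.prime_of_mem_primeFactors hq)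
                (Nat.dvd_of_mem_primeFactors hq)
            · exact Nat.mem_primeFactors.2 ⟨hv.prime, hv.dvd, hpos.ne'⟩
          · rw [hV0 t hv, map_zero]
        rw [AddMonoidHom.comp_apply, h3, map_zero, mul_zero]
      rw [h2, add_zero, AddMonoidHom.comp_apply, rkG_free] at h1
      simpa using h1
    refine ⟨hr, ?_⟩
    -- the functionals
    obtain ⟨S, hS⟩ : ∃ S : Finset (ℕ × G × G),
        S = x.support.filter (fun t => Valid t.1 t.2.1 t.2.2) := ⟨_, rfl⟩
    have hSmem : ∀ t, t ∈ S ↔ t ∈ x.support ∧ Valid t.1 t.2.1 t.2.2 := by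
      intro t
      rw [hS, Finset.mem_filter]
    have hSsub : S ⊆ x.support := fun t ht => ((hSmem t).1 ht).1
    have hSv : ∀ t ∈ S, Valid t.1 t.2.1 t.2.2 := fun t ht => ((hSmem t).1 ht).2
    clear hS
    let ω : ℕ → ℕ := fun n => if hn : 0 < n then
      (haveI : NeZero n := ⟨hn.ne'⟩; n.primeFactors.card * Fintype.card (ZMod n)ˣ *
        ∏ q ∈ n.primeFactors, (ucl q (1 : (ZMod n)ˣ)).card) else 1
    have hω : ∀ (n : ℕ) [NeZero n], ω n = n.primeFactors.card * Fintype.card (ZMod n)ˣ *
        ∏ q ∈ n.primeFactors, (ucl q (1 : (ZMod n)ˣ)).card := by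
      intro n _
      exact dif_pos (Nat.pos_of_ne_zero (NeZero.ne n))
    have hωpos : ∀ t ∈ S, (ω (orderOf t.2.1) : ℚ) ≠ 0 := by
      intro t ht
      have hv := hSv t ht
      have hpos : 0 < orderOf t.2.1 := orderOf_pos_iff.2 hv.fin
      have : NeZero (orderOf t.2.1) := ⟨hpos.ne'⟩
      rw [hω]
      refine Nat.cast_ne_zero.2 (Nat.mul_ne_zero (Nat.mul_ne_zero ?_ ?_) ?_)
      · exact (Finset.card_pos.2 ⟨t.1, Nat.mem_primeFactors.2
          ⟨hv.prime, hv.dvd, hpos.ne'⟩⟩).ne'
      · exact Fintype.card_ne_zero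
      · exact (Finset.prod_pos fun q _ => card_ucl_pos q _).ne'
    have hfun2 : ∀ L : ℕ → G → G → ℤ, IsAdm L → ∑ t ∈ S, x t *
        ((ω (orderOf t.2.1) : ℚ) * (L t.1 t.2.1 t.2.2 : ℚ)) = 0 := by
      intro L hL
      obtain ⟨F, hF⟩ := hfun L hL
      have h1 := happ F
      rw [hr, zero_mul, zero_add] at h1
      have h2 : ∀ t ∈ x.support, t ∉ S → x t * F (V t) = 0 := by
        intro t ht htS
        have hv : ¬ Valid t.1 t.2.1 t.2.2 := fun hv => htS ((hSmem t).2 ⟨ht, hv⟩)
        rw [hV0 t hv, map_zero, mul_zero]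
      rw [← Finset.sum_subset hSsub h2] at h1
      rw [← h1]
      apply Finset.sum_congr rfl
      intro t ht
      have hv := hSv t ht
      have hpos : 0 < orderOf t.2.1 := orderOf_pos_iff.2 hv.fin
      have : NeZero (orderOf t.2.1) := ⟨hpos.ne'⟩
      obtain ⟨φ, h1, h2⟩ := exists_pairHom (n := orderOf t.2.1) t.2.1 t.2.2
        (pow_orderOf_eq_one _) hv.comm
      have hinj := injective_of_orderOf φ (by rw [h1])
      rw [hV1 t _ φ hpos hv.prime hv.dvd hinj h1 h2, hκ,
        functional_kap3 (κ1 _) L hL F (fun p φ hp hpn hφ => hF _ p φ hpos hp hpn hφ) t.1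
          (Nat.mem_primeFactors.2 ⟨hv.prime, hv.dvd, hpos.ne'⟩) φ hinj, h1, h2, hω]
    have hfun3 : ∀ L : ℕ → G → G → ℤ, IsAdm L → ∑ t ∈ S, x t * (L t.1 t.2.1 t.2.2 : ℚ) = 0 := by
      intro L hL
      rw [← Finset.sum_fiberwise_of_maps_to (t := S.image (fun t => orderOf t.2.1))
        (g := fun t => orderOf t.2.1) (fun t ht => Finset.mem_image_of_mem _ ht)]
      apply Finset.sum_eq_zero
      intro n hn
      obtain ⟨t0, ht0, rfl⟩ := Finset.mem_image.1 hn
      let L' : ℕ → G → G → ℤ := fun p h g => if orderOf h = orderOf t0.2.1 then L p h g else 0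
      have hL' : IsAdm L' := by
        refine ⟨?_, ?_, ?_, ?_⟩
        · intro p h g g' hg hg'
          simp only [L']
          split_ifs
          · exact hL.add p h g g' hg hg'
          · simp
        · intro p h g y hg
          have h1 : orderOf (y * h * y⁻¹) = orderOf h := by
            have : IsConj h (y * h * y⁻¹) := isConj_iff.2 ⟨y, rfl⟩
            obtain ⟨u, hu⟩ := this
            exact (hu.orderOf_eq (u : G)).symm
          simp only [L', h1]
          split_ifs
          · exact hL.conj p h g y hg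
          · rfl
        · intro p h h' g j k hg hz hpw
          have hord' : orderOf h' = orderOf h := by
            rw [← Nat.card_zpowers, ← hz, Nat.card_zpowers]
          simp only [L', hord']
          split_ifs
          · exact hL.frob p h h' g j k hg hz hpw
          · rfl
        · intro h g hfin hg
          by_cases ho : orderOf h = orderOf t0.2.1
          · rw [← hL.sum h g hfin hg]
            apply Finset.sum_congr rfl
            intro p _
            apply Finset.sum_congr rfl
            intro a ha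
            rw [Finset.mem_filter] at ha
            simp only [L']
            rw [if_pos]
            rw [Nat.Coprime.orderOf_pow (Nat.coprime_comm.1 ha.2), ho]
          · apply Finset.sum_eq_zero
            intro p _
            apply Finset.sum_eq_zero
            intro a ha
            rw [Finset.mem_filter] at ha
            simp only [L']
            rw [if_neg]
            rw [Nat.Coprime.orderOf_pow (Nat.coprime_comm.1 ha.2)]
            exact ho
      have h1 := hfun2 L' hL'
      have h2 : ∑ t ∈ S, x t * ((ω (orderOf t.2.1) : ℚ) * (L' t.1 t.2.1 t.2.2 : ℚ)) =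
          (ω (orderOf t0.2.1) : ℚ) * ∑ t ∈ S.filter (fun t => orderOf t.2.1 = orderOf t0.2.1),
            x t * (L t.1 t.2.1 t.2.2 : ℚ) := by
        rw [Finset.mul_sum, Finset.sum_filter]
        apply Finset.sum_congr rfl
        intro t _
        simp only [L']
        split_ifs with h3
        · rw [h3]
          ring
        · simp
      rw [h2] at h1
      exact (mul_eq_zero.1 h1).resolve_left (hωpos t0 ht0)
    -- integral coefficients
    have hden : ∃ D : ℕ, 0 < D ∧ ∀ t ∈ S, ∃ m : ℤ, (D : ℚ) * x t = m := by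
      refine ⟨∏ t ∈ S, (x t).den, Finset.prod_pos fun t _ => Rat.den_pos _, ?_⟩
      intro t ht
      obtain ⟨d, hd⟩ := Finset.dvd_prod_of_mem (fun t => (x t).den) ht
      refine ⟨d * (x t).num, ?_⟩
      rw [hd]
      push_cast
      have h1 := Rat.mul_den_eq_num (x t)
      linear_combination (d : ℚ) * h1
    obtain ⟨D, hD, hden⟩ := hden
    have hDQ : (D : ℚ) ≠ 0 := Nat.cast_ne_zero.2 hD.ne'
    let c : ℕ × G × G → ℤ := fun t => if ht : t ∈ S then (hden t ht).choose else 0
    have hc : ∀ t ∈ S, (D : ℚ) * x t = c t := by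
      intro t ht
      simp only [c]
      rw [dif_pos ht]
      exact (hden t ht).choose_spec
    have hspan := span_of_adm S (fun t => t.1) (fun t => t.2.1) (fun t => t.2.2) c hSv (by
      intro L hL
      have h1 := hfun3 L hL
      have h2 : ∑ t ∈ S, (c t : ℚ) * (L t.1 t.2.1 t.2.2 : ℚ) =
          (D : ℚ) * ∑ t ∈ S, x t * (L t.1 t.2.1 t.2.2 : ℚ) := by
        rw [Finset.mul_sum]
        apply Finset.sum_congr rfl
        intro t ht
        rw [← hc t ht]
        ring
      rw [h2, h1, mul_zero])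
    have hgood := srcMk_eq_zero hspan
    rw [map_sum] at hgood
    have hsym : ∀ (t : ℕ × G × G) (a : ℚ), srcMk G (Finsupp.single t a) =
        a • sym t.1 t.2.1 t.2.2 := by
      intro t a
      unfold sym
      rw [← map_smul, Finsupp.smul_single, smul_eq_mul, mul_one]
    have hDx : (D : ℚ) • srcMk G x = ∑ t ∈ S, (c t : ℚ) • sym t.1 t.2.1 t.2.2 := by
      have h1 : x = ∑ t ∈ x.support, Finsupp.single t (x t) := (Finsupp.sum_single x).symm
      conv_lhs => rw [h1]
      rw [map_sum, Finset.smul_sum]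
      have h2 : ∀ t ∈ x.support, t ∉ S → (D : ℚ) • srcMk G (Finsupp.single t (x t)) = 0 := by
        intro t ht htS
        have hv : ¬ Valid t.1 t.2.1 t.2.2 := fun hv => htS ((hSmem t).2 ⟨ht, hv⟩)
        have h3 : sym t.1 t.2.1 t.2.2 = 0 :=
          srcMk_eq_zero (Submodule.subset_span (Rel.invalid _ _ _ hv))
        rw [hsym, h3, smul_zero, smul_zero]
      rw [← Finset.sum_subset hSsub h2]
      apply Finset.sum_congr rfl
      intro t ht
      rw [hsym, smul_smul, hc t ht]
    have hfinal : (D : ℚ) • srcMk G x ∈ Submodule.span ℚ {s | ∃ (p : ℕ) (h g : G),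
        Valid p h g ∧ ¬ ZDetects (Subgroup.centralizer {h}) ∧ s = sym p h g} := by
      rw [hDx, ← Finset.sum_filter_add_sum_filter_not S
        (fun t => ZDetects (Subgroup.centralizer {t.2.1}))]
      have h1 : ∑ t ∈ S.filter (fun t => ZDetects (Subgroup.centralizer {t.2.1})),
          (c t : ℚ) • sym t.1 t.2.1 t.2.2 = 0 := by
        rw [← hgood]
        apply Finset.sum_congr rfl
        intro t _
        rw [hsym]
      rw [h1, zero_add]
      apply Submodule.sum_mem
      intro t ht
      exact Submodule.smul_mem _ _ (Submodule.subset_span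
        ⟨t.1, t.2.1, t.2.2, hSv t (Finset.mem_filter.1 ht).1, (Finset.mem_filter.1 ht).2, rfl⟩)
    have h1 := Submodule.smul_mem _ ((D : ℚ)⁻¹) hfinal
    rwa [smul_smul, inv_mul_cancel₀ hDQ, one_smul] at h1

end Final

end Pool.Agent.Lib25
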