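import Pool.Agent.Lib_helper25.Local

/-!
# Rational combinations of idempotents in `ℚ_p[C]`, `C` cyclic

An element `f` of `ℚ_p[C]` is a rational combination of idempotents if and only if its values at
the powers of a generator are the values of a rational polynomial at the powers of a root of unity.
-/

set_option linter.unusedSectionVars false

namespace Pool.Agent.Lib25

open Polynomial

section Chars

variable {L : Type*} [Field L] [CharZero L] {Q : Type*} [CommGroup Q] [Finite Q]

open scoped Classical in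
/-- The characters of a cyclic group. -/
theorem exists_chars (g : Q) (hg : ∀ x, x ∈ Subgroup.zpowers g) (ζ : L)
    (hζ : IsPrimitiveRoot ζ (orderOf g)) : ∃ χ : Q →* Lˣ, ((χ g : Lˣ) : L) = ζ ∧
      ∀ u : Q, ∑ k ∈ Finset.range (orderOf g), ((χ u : Lˣ) : L) ^ k =
        if u = 1 then (orderOf g : L) else 0 := by
  classical
  have : Fintype Q := Fintype.ofFinite Q
  set m := orderOf g with hm
  have hmpos : 0 < m := orderOf_pos g
  have hζ0 : ζ ≠ 0 := hζ.ne_zero hmpos.ne'
  let ζu : Lˣ := Units.mk0 ζ hζ0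
  have hζu : ∀ n : ℕ, ζu ^ n = 1 ↔ m ∣ n := by
    intro n
    rw [← hζ.pow_eq_one_iff_dvd, Units.ext_iff]
    simp [ζu]
  have hdvd : orderOf ζu ∣ orderOf g := orderOf_dvd_of_pow_eq_one ((hζu _).2 (dvd_refl _))
  let χ : Q →* Lˣ := monoidHomOfForallMemZpowers hg hdvd
  have hχg : χ g = ζu := monoidHomOfForallMemZpowers_apply_gen hg hdvd
  refine ⟨χ, by rw [hχg]; rfl, fun u => ?_⟩
  split_ifs with hu
  · subst hu
    simp
  · have h1 : (χ u : L) ≠ 1 := by
      intro h
      apply hu
      obtain ⟨n, hn⟩ := (Submonoid.mem_powers_iff _ _).1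
        ((mem_powers_iff_mem_zpowers (x := g)).2 (hg u))
      rw [← hn, map_pow, hχg] at h
      have h2 : ζu ^ n = 1 := Units.ext h
      rw [hζu] at h2
      rw [← hn]
      exact orderOf_dvd_iff_pow_eq_one.1 h2
    have h3 : (χ u : L) ^ m = 1 := by
      have : χ u ^ m = 1 := by
        rw [← map_pow, hm]
        have : u ^ orderOf g = 1 := by
          obtain ⟨n, hn⟩ := (Submonoid.mem_powers_iff _ _).1
            ((mem_powers_iff_mem_zpowers (x := g)).2 (hg u))
          rw [← hn, ← pow_mul, mul_comm, pow_mul, pow_orderOf_eq_one, one_pow]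
        rw [this, map_one]
      rw [← Units.val_pow_eq_pow_val, this, Units.val_one]
    have h4 := geom_sum_mul (χ u : L) m
    rw [h3, sub_self] at h4
    exact (mul_eq_zero.1 h4).resolve_right (sub_ne_zero.2 h1)

/-- The algebra homomorphism given by the `k`-th power of a character. -/
noncomputable def evk (χ : Q →* Lˣ) (k : ℕ) : MonoidAlgebra L Q →ₐ[L] L :=
  MonoidAlgebra.lift L L Q ((Units.coeHom L).comp (χ ^ k))

theorem evk_apply [Fintype Q] (χ : Q →* Lˣ) (k : ℕ) (z : MonoidAlgebra L Q) :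
    evk χ k z = ∑ u : Q, z.coeff u * ((χ u : Lˣ) : L) ^ k := by
  change MonoidAlgebra.lift L L Q _ z = _
  rw [MonoidAlgebra.lift_apply, Finsupp.sum_fintype _ _ (by simp)]
  apply Finset.sum_congr rfl
  intro u _
  simp

open scoped Classical in
theorem eq_zero_of_evk {m : ℕ} (hm : (m : L) ≠ 0) (χ : Q →* Lˣ)
    (hχ : ∀ u : Q, ∑ k ∈ Finset.range m, ((χ u : Lˣ) : L) ^ k = if u = 1 then (m : L) else 0)
    (z : MonoidAlgebra L Q) (hz : ∀ k < m, evk χ k z = 0) : z = 0 := by
  classical
  have : Fintype Q := Fintype.ofFinite Q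
  ext v
  have h1 : ∑ k ∈ Finset.range m, evk χ k z * ((χ v⁻¹ : Lˣ) : L) ^ k = 0 :=
    Finset.sum_eq_zero fun k hk => by rw [hz k (Finset.mem_range.1 hk), zero_mul]
  have h2 : ∑ k ∈ Finset.range m, evk χ k z * ((χ v⁻¹ : Lˣ) : L) ^ k =
      ∑ u : Q, z.coeff u * ∑ k ∈ Finset.range m, ((χ (u * v⁻¹) : Lˣ) : L) ^ k := by
    calc ∑ k ∈ Finset.range m, evk χ k z * ((χ v⁻¹ : Lˣ) : L) ^ k
        = ∑ k ∈ Finset.range m, ∑ u : Q, z.coeff u * ((χ (u * v⁻¹) : Lˣ) : L) ^ k := by
          apply Finset.sum_congr rfl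
          intro k _
          rw [evk_apply, Finset.sum_mul]
          apply Finset.sum_congr rfl
          intro u _
          rw [map_mul, Units.val_mul, mul_pow]
          ring
      _ = _ := by
          rw [Finset.sum_comm]
          apply Finset.sum_congr rfl
          intro u _
          rw [Finset.mul_sum]
  rw [h2, Finset.sum_eq_single v] at h1
  · rw [mul_inv_cancel, hχ, if_pos rfl] at h1
    exact (mul_eq_zero.1 h1).resolve_right hm
  · intro u _ hu
    rw [hχ, if_neg, mul_zero]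
    intro h
    exact hu (mul_inv_eq_one.1 h)
  · intro h
    exact absurd (Finset.mem_univ _) h

end Chars

section Split

/-- An element of a commutative `ℚ`-algebra which is separated by homomorphisms to a field taking
rational values is a rational combination of idempotents. -/
theorem exists_idem_combination {A : Type*} [CommRing A] [Algebra ℚ A] {L : Type*} [Field L]
    [CharZero L] {ι : Type*} [Fintype ι] (e : ι → A →+* L) (he : ∀ z : A, (∀ k, e k z = 0) → z = 0)
    (f : A) (r : ι → ℚ) (hf : ∀ k, e k f = (r k : L)) :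
    ∃ (S : Finset ℚ) (F : S → A), (∀ s, F s ^ 2 = F s) ∧
      f = ∑ s : S, (s : ℚ) • F s := by
  classical
  let S : Finset ℚ := Finset.univ.image r
  let F : S → A := fun s => ∏ t ∈ S.erase s, (((s : ℚ) - t)⁻¹ • (f - algebraMap ℚ A t))
  have hsmul : ∀ (k : ι) (q : ℚ) (a : A), e k (q • a) = (q : L) * e k a := by
    intro k q a
    rw [Algebra.smul_def, map_mul]
    congr 1
    have h1 : (e k).comp (algebraMap ℚ A) = algebraMap ℚ L := Subsingleton.elim _ _
    have h2 := congrArg (fun φ : ℚ →+* L => φ q) h1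
    simp
  have halg : ∀ (k : ι) (q : ℚ), e k (algebraMap ℚ A q) = (q : L) := by
    intro k q
    have h1 := hsmul k q 1
    rw [Algebra.smul_def, mul_one, map_one, mul_one] at h1
    exact h1
  have hF : ∀ (s : S) (k : ι), e k (F s) = if r k = s then 1 else 0 := by
    intro s k
    simp only [F, map_prod, hsmul, map_sub, hf, halg]
    split_ifs with h
    · apply Finset.prod_eq_one
      intro t ht
      rw [h]
      have h1 : ((s : ℚ) - t : ℚ) ≠ 0 := sub_ne_zero.2 (Finset.ne_of_mem_erase ht).symm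
      have h2 : (((s : ℚ) : L) - ((t : ℚ) : L)) ≠ 0 := by
        have : (((s : ℚ) - t : ℚ) : L) ≠ 0 := Rat.cast_ne_zero.2 h1
        push_cast at this
        exact this
      push_cast
      exact inv_mul_cancel₀ h2
    · have hrk : r k ∈ S.erase s := Finset.mem_erase.2
        ⟨h, Finset.mem_image_of_mem _ (Finset.mem_univ k)⟩
      apply Finset.prod_eq_zero hrk
      rw [sub_self, mul_zero]
  refine ⟨S, F, fun s => ?_, ?_⟩
  · rw [← sub_eq_zero]
    apply he
    intro k
    rw [map_sub, map_pow, hF]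
    split_ifs <;> simp
  · rw [← sub_eq_zero]
    apply he
    intro k
    rw [map_sub, map_sum, hf, sub_eq_zero]
    simp only [hsmul, hF]
    rw [Finset.sum_eq_single ⟨r k, Finset.mem_image_of_mem _ (Finset.mem_univ k)⟩]
    · simp
    · intro t _ ht
      rw [if_neg, mul_zero]
      intro h
      exact ht (Subtype.ext h.symm)
    · intro h
      exact absurd (Finset.mem_univ _) h

end Split

section Indicator

/-- A polynomial which is `1` at the primitive `n`-th roots of unity and `0` at the other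
`n`-th roots of unity. -/
theorem exists_indicator {L : Type*} [Field L] [CharZero L] (ζ : L) (n : ℕ) (hn : 0 < n)
    (hζ : IsPrimitiveRoot ζ n) :
    ∃ R : ℚ[X], ∀ i : ℕ, aeval (ζ ^ i) R = if i.Coprime n then 1 else 0 := by
  have hcop : IsCoprime (cyclotomic n ℚ) (∏ d ∈ n.properDivisors, cyclotomic d ℚ) := by
    apply IsCoprime.prod_right
    intro d hd
    exact cyclotomic.isCoprime_rat (Nat.mem_properDivisors.1 hd).2.ne'
  obtain ⟨a, b, hab⟩ := hcop
  refine ⟨b * ∏ d ∈ n.properDivisors, cyclotomic d ℚ, fun i => ?_⟩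
  split_ifs with hi
  · have h1 : IsPrimitiveRoot (ζ ^ i) n := hζ.pow_of_coprime i hi
    have h2 : aeval (ζ ^ i) (cyclotomic n ℚ) = 0 := by
      rw [aeval_def, eval₂_eq_eval_map, map_cyclotomic]
      exact h1.isRoot_cyclotomic hn
    have h3 := congrArg (aeval (ζ ^ i)) hab
    rw [map_add, map_mul, h2, mul_zero, zero_add, map_one] at h3
    exact h3
  · rw [map_mul, map_prod]
    have h1 : IsPrimitiveRoot (ζ ^ i) (n / n.gcd i) := by
      have h2 : orderOf (ζ ^ i) = n / n.gcd i := by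
        rcases Nat.eq_zero_or_pos i with h0 | h0
        · subst h0
          simp [Nat.div_self hn]
        · rw [orderOf_pow' ζ h0.ne', ← hζ.eq_orderOf]
      rw [← h2]
      exact IsPrimitiveRoot.orderOf _
    have hd : n / n.gcd i ∈ n.properDivisors := by
      rw [Nat.mem_properDivisors]
      refine ⟨Nat.div_dvd_of_dvd (Nat.gcd_dvd_left n i), ?_⟩
      apply Nat.div_lt_self hn
      have h3 : n.gcd i ≠ 1 := fun h => hi (by rw [Nat.coprime_comm]; exact h)
      have h4 : 0 < n.gcd i := Nat.gcd_pos_of_pos_left _ hn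
      omega
    rw [Finset.prod_eq_zero hd, mul_zero]
    rw [aeval_def, eval₂_eq_eval_map, map_cyclotomic]
    exact h1.isRoot_cyclotomic (Nat.div_pos (Nat.gcd_le_left _ hn) (Nat.gcd_pos_of_pos_left _ hn))

end Indicator

section TypeP

variable {p : ℕ} [hp : Fact p.Prime] {C : Type*} [CommGroup C] {L : Type*} [Field L] [CharZero L]
  [Algebra ℚ_[p] L]

/-- The values of `f` at the powers of `g` are given by the rational polynomial `P`. -/
def TypeP (g : C) (ζ : L) (f : MonoidAlgebra ℚ_[p] C) (P : ℚ[X]) : Prop :=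
  ∀ i : ℕ, algebraMap ℚ_[p] L (f.coeff (g ^ i)) = aeval (ζ ^ i) P

theorem TypeP.add {g : C} {ζ : L} {f f' : MonoidAlgebra ℚ_[p] C} {P P' : ℚ[X]}
    (h : TypeP g ζ f P) (h' : TypeP g ζ f' P') : TypeP g ζ (f + f') (P + P') := by
  intro i
  rw [MonoidAlgebra.coeff_add, Finsupp.add_apply, map_add, map_add, h i, h' i]

theorem TypeP.zero {g : C} {ζ : L} : TypeP (p := p) g ζ 0 0 := by
  intro i
  simp

theorem TypeP.smul {g : C} {ζ : L} {f : MonoidAlgebra ℚ_[p] C} {P : ℚ[X]}
    (h : TypeP g ζ f P) (q : ℚ) : TypeP g ζ ((q : ℚ_[p]) • f) (Polynomial.C q * P) := by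
  intro i
  rw [MonoidAlgebra.coeff_smul_apply, smul_eq_mul, map_mul, map_mul, h i, aeval_C]
  congr 1
  rw [map_ratCast]
  simp

theorem TypeP.sum {g : C} {ζ : L} {ι : Type*} (s : Finset ι) {f : ι → MonoidAlgebra ℚ_[p] C}
    {P : ι → ℚ[X]} (h : ∀ i ∈ s, TypeP g ζ (f i) (P i)) :
    TypeP g ζ (∑ i ∈ s, f i) (∑ i ∈ s, P i) := by
  classical
  induction s using Finset.induction_on with
  | empty => simpa using TypeP.zero
  | insert a s ha ih =>
    rw [Finset.sum_insert ha, Finset.sum_insert ha]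
    exact (h a (Finset.mem_insert_self a s)).add (ih fun i hi => h i (Finset.mem_insert_of_mem hi))

theorem typeP_idem [Finite C] (g : C) (hg : ∀ x, x ∈ Subgroup.zpowers g) (ζ : L)
    (hζ : IsPrimitiveRoot ζ (orderOf g)) (E : MonoidAlgebra ℚ_[p] C) (hE : E ^ 2 = E) :
    ∃ P : ℚ[X], TypeP g ζ E P := by
  obtain ⟨P, hP⟩ := idem_poly g hg ζ hζ (MonoidAlgebra.mapRingHom _ (algebraMap ℚ_[p] L) E)
    (by rw [← map_pow, hE])
  refine ⟨P, fun i => ?_⟩
  rw [← hP i, coeff_mapRingHom']

theorem sum_eq_sum_range [Fintype C] {M : Type*} [AddCommMonoid M] (g : C)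
    (hg : ∀ x, x ∈ Subgroup.zpowers g) (F : C → M) :
    ∑ u, F u = ∑ k ∈ Finset.range (orderOf g), F (g ^ k) := by
  classical
  rw [← IsCyclic.image_range_orderOf hg, Finset.sum_image]
  intro a ha b hb hab
  exact pow_injOn_Iio_orderOf (by simpa using ha) (by simpa using hb) hab

/-- An element of type `P` is a rational combination of idempotents. -/
theorem TypeP.combination [Finite C] {g : C} (hg : ∀ x, x ∈ Subgroup.zpowers g) {ζ : L}
    (hζ : IsPrimitiveRoot ζ (orderOf g)) {f : MonoidAlgebra ℚ_[p] C} {P : ℚ[X]}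
    (hf : TypeP g ζ f P) :
    ∃ (S : Finset ℚ) (F : S → MonoidAlgebra ℚ_[p] C), (∀ s, F s ^ 2 = F s) ∧
      f = ∑ s : S, ((s : ℚ) : ℚ_[p]) • F s := by
  classical
  have : Fintype C := Fintype.ofFinite C
  obtain ⟨χ, hχ1, hχ2⟩ := exists_chars g hg ζ hζ
  have hm0 : ((orderOf g : ℕ) : L) ≠ 0 := Nat.cast_ne_zero.2 (orderOf_pos g).ne'
  have hχg : ∀ i : ℕ, ((χ (g ^ i) : Lˣ) : L) = ζ ^ i := by
    intro i
    rw [map_pow, Units.val_pow_eq_pow_val, hχ1]
  have hval : ∀ u : C, algebraMap ℚ_[p] L (f.coeff u) = aeval ((χ u : Lˣ) : L) P := by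
    intro u
    obtain ⟨i, rfl⟩ := (Submonoid.mem_powers_iff _ _).1
      ((mem_powers_iff_mem_zpowers (x := g)).2 (hg u))
    rw [hχg]
    exact hf i
  have hsum : ∀ j : ℕ, ∑ u : C, ((χ u : Lˣ) : L) ^ j = if g ^ j = 1 then (orderOf g : L) else 0 := by
    intro j
    rw [← hχ2, sum_eq_sum_range g hg]
    apply Finset.sum_congr rfl
    intro k _
    rw [hχg, hχg, ← pow_mul, ← pow_mul, mul_comm]
  have hr : ∀ k : Fin (orderOf g), ∃ r : ℚ,
      evk χ k (MonoidAlgebra.mapRingHom C (algebraMap ℚ_[p] L) f) = (r : L) := by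
    intro k
    have h1 : evk χ k (MonoidAlgebra.mapRingHom C (algebraMap ℚ_[p] L) f) =
        ∑ j ∈ Finset.range (P.natDegree + 1), ((P.coeff j : ℚ) : L) *
          ∑ u : C, ((χ u : Lˣ) : L) ^ (j + k) := by
      rw [evk_apply]
      have h2 : ∀ u : C, (MonoidAlgebra.mapRingHom C (algebraMap ℚ_[p] L) f).coeff u *
          ((χ u : Lˣ) : L) ^ (k : ℕ) = ∑ j ∈ Finset.range (P.natDegree + 1),
            ((P.coeff j : ℚ) : L) * ((χ u : Lˣ) : L) ^ (j + k) := by
        intro u
        rw [coeff_mapRingHom', hval, aeval_eq_sum_range, Finset.sum_mul]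
        apply Finset.sum_congr rfl
        intro j _
        rw [pow_add, Algebra.smul_def]
        simp only [eq_ratCast]
        ring
      rw [Finset.sum_congr rfl (fun u _ => h2 u), Finset.sum_comm]
      apply Finset.sum_congr rfl
      intro j _
      rw [Finset.mul_sum]
    refine ⟨∑ j ∈ Finset.range (P.natDegree + 1), P.coeff j *
      (if g ^ (j + (k : ℕ)) = 1 then (orderOf g : ℚ) else 0), ?_⟩
    rw [h1]
    push_cast
    apply Finset.sum_congr rfl
    intro j _
    rw [hsum]
    split_ifs <;> simp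
  choose r hr using hr
  obtain ⟨S, F, hF, hfF⟩ := exists_idem_combination (A := MonoidAlgebra ℚ_[p] C) (L := L)
    (fun k : Fin (orderOf g) => ((evk χ k : MonoidAlgebra L C →ₐ[L] L) :
      MonoidAlgebra L C →+* L).comp (MonoidAlgebra.mapRingHom C (algebraMap ℚ_[p] L)))
    (fun z hz => by
      apply mapRingHom_injective' (algebraMap ℚ_[p] L) (algebraMap ℚ_[p] L).injective
      rw [map_zero]
      exact eq_zero_of_evk hm0 χ hχ2 _ (fun k hk => hz ⟨k, hk⟩)) f r hr
  refine ⟨S, F, hF, ?_⟩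
  rw [hfF]
  apply Finset.sum_congr rfl
  intro s _
  ext c
  rw [MonoidAlgebra.coeff_smul_apply, MonoidAlgebra.coeff_smul_apply, Algebra.smul_def]
  simp

/-- Galois invariance of rational relations. -/
theorem TypeP.galois [Fintype C] {g : C} (hg : ∀ x, x ∈ Subgroup.zpowers g) {ζ : L}
    (hζ : IsPrimitiveRoot ζ (orderOf g)) {f : MonoidAlgebra ℚ_[p] C} {P : ℚ[X]}
    (hf : TypeP g ζ f P) (Y : C → ℚ) (y : ℚ)
    (hy : ∑ c, f.coeff c * (Y c : ℚ_[p]) = (y : ℚ_[p])) (w : ℕ) (hw : w.Coprime (orderOf g)) :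
    ∑ c, f.coeff (c ^ w) * (Y c : ℚ_[p]) = (y : ℚ_[p]) := by
  choose l hl using fun c : C => (Submonoid.mem_powers_iff _ _).1
      ((mem_powers_iff_mem_zpowers (x := g)).2 (hg c))
  let R : ℚ[X] := ∑ c, Polynomial.C (Y c) * P.comp (X ^ l c)
  have hR : ∀ i : ℕ, aeval (ζ ^ i) R =
      algebraMap ℚ_[p] L (∑ c, f.coeff (c ^ i) * (Y c : ℚ_[p])) := by
    intro i
    simp only [R, map_sum, map_mul, aeval_C, aeval_comp, map_pow, aeval_X]
    apply Finset.sum_congr rfl
    intro c _
    rw [mul_comm]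
    congr 1
    · rw [← pow_mul, ← hf, mul_comm, pow_mul, hl]
    · rw [map_ratCast]
      simp
  have h1 := hR 1
  simp only [pow_one] at h1
  rw [hy] at h1
  have h2 : aeval ζ R = ((y : ℚ) : L) := by
    rw [h1]
    exact map_ratCast _ _
  have h3 := rational_const ζ (orderOf g) hζ (orderOf_pos g) R w hw y h2
  rw [hR w] at h3
  apply (algebraMap ℚ_[p] L).injective
  rw [h3]
  exact (map_ratCast _ _).symm

end TypeP

end Pool.Agent.Lib25
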