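import Pool.Agent.Lib_helper25.Detect

/-!
# Functoriality of `K_{-1}`
-/

open Polynomial

namespace Pool.Agent.Lib25

universe u v w

/-- The class in `K_{-1}(R)` of an element of `K₀(R[t,t⁻¹])`. -/
noncomputable def KNegOne.mk {R : Type u} [Ring R] : K0 (LaurentPolynomial R) →+ KNegOne R :=
  QuotientAddGroup.mk' (extImage R)

theorem KNegOne.map_mk {R : Type u} {S : Type v} [Ring R] [Ring S] (φ : R →+* S)
    (x : K0 (LaurentPolynomial R)) : KNegOne.map φ (KNegOne.mk x) =
      KNegOne.mk (K0.map (mapL φ) x) := rfl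

theorem KNegOne.mk_eq_zero {R : Type u} [Ring R] (x : K0 (LaurentPolynomial R))
    (h : KNegOne.mk x = 0) : x ∈ (K0.map (posIncl R)).range ⊔ (K0.map (negIncl R)).range :=
  (QuotientAddGroup.eq_zero_iff x).1 h

end Pool.Agent.Lib25
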