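import Pool.Agent.Lib_helper25.Local
import Pool.Agent.Lib_helper25.Functor

/-!
# Linear independence in `K_{-1}(ℤ[G])`
-/

namespace Pool.Agent.Lib25

section Global

variable {G : Type*} [Group G] {I : Type*} (Cg : I → Type*) [∀ i, CommGroup (Cg i)]
  [∀ i, Fintype (Cg i)] [∀ i, IsCyclic (Cg i)] (ψ : ∀ i, Cg i →* G)

/-- The prime divisors of the order of `Cg i`. -/
abbrev PF (i : I) : Type := {p : ℕ // p ∈ (Nat.card (Cg i)).primeFactors}

instance (i : I) (p : PF Cg i) : Fact p.1.Prime := ⟨Nat.prime_of_mem_primeFactors p.2⟩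

/-- The index set of the local classes. -/
abbrev AA (i : I) : Type := Σ p : PF Cg i, Fin (nCls (ψ i) p.1)

open scoped Classical in
theorem exists_global (hψ : ∀ i, Function.Injective (ψ i)) (hcard : ∀ i, 1 < Nat.card (Cg i))
    (hconj : ∀ i j, (∃ (x : Gens (Cg i)) (y : Gens (Cg j)), IsConj (ψ i x.1) (ψ j y.1)) → i = j) :
    ∃ (x : ∀ s : (Σ i, AA Cg ψ i), KNegOne (MonoidAlgebra ℤ (Cg s.1))) (a0 : ∀ i, AA Cg ψ i),
      ∀ (S : Finset (Σ i, AA Cg ψ i)) (m : (Σ i, AA Cg ψ i) → ℤ), (∀ s, s ∉ S → m s = 0) →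
        (∀ i, m ⟨i, a0 i⟩ = 0) →
        ∑ s ∈ S, m s • KNegOne.map (push ℤ (ψ s.1)) (x s) = 0 → ∀ s, m s = 0 := by
  -- the local families
  have hloc : ∀ (i : I) (p : PF Cg i), ∃ E : Fin (nCls (ψ i) p.1) → MonoidAlgebra ℚ_[p.1] (Cg i),
      (∀ k, E k ^ 2 = E k) ∧ 0 < nCls (ψ i) p.1 ∧
      ∀ (μ : Fin (nCls (ψ i) p.1) → ℚ) (y : G → ℚ),
        (∀ x : Gens (Cg i), ∑ k, (μ k : ℚ_[p.1]) * tau (ψ i x.1) (push ℚ_[p.1] (ψ i) (E k)) =
          (y (ψ i x.1) : ℚ_[p.1])) →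
        ∀ (x : Gens (Cg i)) (k : Fin (nCls (ψ i) p.1)), μ k = if k.val = 0 then
          y (ψ i x.1) * (Nat.card (Cg i) : ℚ) / ((cset (ψ i) (ψ i x.1)).card : ℚ) else 0 :=
    fun i p => exists_local p.1 (ψ i) (hψ i)
  choose E hE hpos hmain using hloc
  -- the classes
  have hcls : ∀ s : (Σ i, AA Cg ψ i), ∃ x : K0 (LaurentPolynomial (MonoidAlgebra ℤ (Cg s.1))),
      ∃ w : ∀ (q : ℕ) [Fact q.Prime], G → ℚ_[q],
        Triv (K0.map (mapL (push ℤ (ψ s.1))) x) w ∧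
        Triv (- K0.map (mapL (push ℤ (ψ s.1))) x) (fun q _ h => - w q h) ∧
        (∀ h, w s.2.1.1 h = tau h (push ℚ_[s.2.1.1] (ψ s.1) (E s.1 s.2.1 s.2.2))) ∧
        ∀ (q : ℕ) [Fact q.Prime], q ≠ s.2.1.1 → ∀ h, w q h = 0 := by
    intro s
    obtain ⟨x, hx⟩ := exists_class s.2.1.1 (E s.1 s.2.1 s.2.2) (hE s.1 s.2.1 s.2.2)
    exact ⟨x, hx (ψ s.1)⟩
  choose x w hw1 hw2 hw3 hw4 using hcls
  -- the distinguished primes
  have hmin : ∀ i : I, Nonempty (PF Cg i) := by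
    intro i
    obtain ⟨p, hp⟩ := Nat.nonempty_primeFactors.2 (hcard i)
    exact ⟨⟨p, hp⟩⟩
  let p0 : ∀ i, PF Cg i := fun i => (hmin i).some
  refine ⟨fun s => KNegOne.mk (x s), fun i => ⟨p0 i, ⟨0, hpos i (p0 i)⟩⟩, ?_⟩
  intro S m hS hm0 hsum
  by_contra hne
  push Not at hne
  -- a maximal group with a non zero coefficient
  have hT : (S.filter (fun s => m s ≠ 0)).Nonempty := by
    obtain ⟨s, hs⟩ := hne
    refine ⟨s, Finset.mem_filter.2 ⟨?_, hs⟩⟩
    by_contra h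
    exact hs (hS s h)
  obtain ⟨s0, hs0, hmax⟩ := Finset.exists_max_image (S.filter (fun s => m s ≠ 0))
    (fun s => Nat.card (Cg s.1)) hT
  rw [Finset.mem_filter] at hs0
  obtain ⟨i0, a1⟩ := s0
  -- detection
  have hmem : (∑ s ∈ S, m s • K0.map (mapL (push ℤ (ψ s.1))) (x s)) ∈
      (K0.map (posIncl (MonoidAlgebra ℤ G))).range ⊔
        (K0.map (negIncl (MonoidAlgebra ℤ G))).range := by
    apply KNegOne.mk_eq_zero
    rw [map_sum, ← hsum]
    apply Finset.sum_congr rfl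
    intro s _
    rw [map_zsmul, KNegOne.map_mk]
  have htriv := Triv.sum S (fun s _ => (hw1 s).zsmul (hw2 s) (m s))
  obtain ⟨y, hy⟩ := detection htriv hmem
  -- restrict to the generators of `Cg i0`
  have hvanish : ∀ (x1 : Gens (Cg i0)) (q : ℕ) [Fact q.Prime] (s : Σ i, AA Cg ψ i),
      s.1 ≠ i0 → (m s : ℚ_[q]) * w s q (ψ i0 x1.1) = 0 := by
    intro x1 q _ s hsi
    by_cases hms : m s = 0
    · rw [hms]; simp
    have hsS : s ∈ S := by
      by_contra h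
      exact hms (hS s h)
    have hle : Nat.card (Cg s.1) ≤ Nat.card (Cg i0) :=
      hmax s (Finset.mem_filter.2 ⟨hsS, hms⟩)
    by_cases hq : q = s.2.1.1
    · subst hq
      rw [hw3, tau_push]
      have hempty : cset (ψ s.1) (ψ i0 x1.1) = ∅ := by
        rw [Finset.eq_empty_iff_forall_notMem]
        intro c hc
        rw [mem_cset] at hc
        have h1 : orderOf (ψ s.1 c) = orderOf (ψ i0 x1.1) := by
          obtain ⟨g, hg⟩ := hc
          exact SemiconjBy.orderOf_eq (g : G) hg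
        rw [orderOf_injective (ψ s.1) (hψ s.1), orderOf_injective (ψ i0) (hψ i0),
          orderOf_gen x1.2] at h1
        have h2 : orderOf c ≤ Nat.card (Cg s.1) := orderOf_le_card
        have h3 : Subgroup.zpowers c = ⊤ := by
          apply Subgroup.eq_top_of_card_eq
          rw [Nat.card_zpowers]
          omega
        exact hsi (hconj s.1 i0 ⟨⟨c, h3⟩, x1, hc⟩)
      rw [hempty]
      simp
    · rw [hw4 s q hq]
      simp
  have hkey : ∀ (p : PF Cg i0) (x1 : Gens (Cg i0)),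
      ∑ k : Fin (nCls (ψ i0) p.1), (((m ⟨i0, p, k⟩ : ℤ) : ℚ) : ℚ_[p.1]) *
        tau (ψ i0 x1.1) (push ℚ_[p.1] (ψ i0) (E i0 p k)) = (y (ψ i0 x1.1) : ℚ_[p.1]) := by
    intro p x1
    have hord : orderOf (ψ i0 x1.1) = Nat.card (Cg i0) := by
      rw [orderOf_injective (ψ i0) (hψ i0), orderOf_gen x1.2]
    have hfin : IsOfFinOrder (ψ i0 x1.1) := by
      rw [← orderOf_pos_iff, hord]
      exact Nat.card_pos
    have hdvd : p.1 ∣ orderOf (ψ i0 x1.1) := by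
      rw [hord]
      exact Nat.dvd_of_mem_primeFactors p.2
    rw [← hy p.1 (ψ i0 x1.1) hfin hdvd]
    let f : Fin (nCls (ψ i0) p.1) ↪ (Σ i, AA Cg ψ i) :=
      ⟨fun k => ⟨i0, p, k⟩, by
        intro a b hab
        simpa using hab⟩
    have h1 : ∑ k : Fin (nCls (ψ i0) p.1), (((m ⟨i0, p, k⟩ : ℤ) : ℚ) : ℚ_[p.1]) *
        tau (ψ i0 x1.1) (push ℚ_[p.1] (ψ i0) (E i0 p k)) =
        ∑ s ∈ Finset.univ.map f, (m s : ℚ_[p.1]) * w s p.1 (ψ i0 x1.1) := by
      rw [Finset.sum_map]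
      apply Finset.sum_congr rfl
      intro k _
      have h2 := hw3 ⟨i0, p, k⟩ (ψ i0 x1.1)
      change _ = (m ⟨i0, p, k⟩ : ℚ_[p.1]) * w ⟨i0, p, k⟩ p.1 (ψ i0 x1.1)
      rw [h2]
      push_cast
      rfl
    rw [h1]
    have h3 : ∑ s ∈ Finset.univ.map f, (m s : ℚ_[p.1]) * w s p.1 (ψ i0 x1.1) =
        ∑ s ∈ S ∪ Finset.univ.map f, (m s : ℚ_[p.1]) * w s p.1 (ψ i0 x1.1) := by
      apply Finset.sum_subset Finset.subset_union_right
      intro s _ hs
      by_cases hsi : s.1 = i0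
      · obtain ⟨i, q, k⟩ := s
        dsimp only at hsi
        subst hsi
        have hqp : p.1 ≠ q.1 := by
          intro h
          apply hs
          have h4 : p = q := Subtype.ext h
          subst h4
          exact Finset.mem_map.2 ⟨k, Finset.mem_univ _, rfl⟩
        rw [hw4 ⟨i, q, k⟩ p.1 hqp, mul_zero]
      · exact hvanish x1 p.1 s hsi
    rw [h3]
    symm
    apply Finset.sum_subset Finset.subset_union_left
    intro s _ hs
    rw [hS s hs]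
    simp
  -- conclusion
  obtain ⟨g, hg⟩ := isCyclic_iff_exists_zpowers_eq_top.mp (inferInstance : IsCyclic (Cg i0))
  let g0 : Gens (Cg i0) := ⟨g, hg⟩
  have hfinal := fun p => hmain i0 p (fun k => ((m ⟨i0, p, k⟩ : ℤ) : ℚ)) y (hkey p) g0
  have h5 := hfinal (p0 i0) ⟨0, hpos i0 (p0 i0)⟩
  rw [if_pos rfl, hm0 i0] at h5
  obtain ⟨p, k⟩ := a1
  have h6 := hfinal p k
  have h7 : ((m ⟨i0, p, k⟩ : ℤ) : ℚ) = 0 := by
    rw [h6]
    split_ifs
    · rw [← h5]; simp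
    · rfl
  exact hs0.2 (by exact_mod_cast h7)

end Global

end Pool.Agent.Lib25
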