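import Pool.Agent.Lib_helper25.Lin0

/-!
# From functionals to relations: the final form
-/

set_option linter.unusedSectionVars false

namespace Pool.Agent.Lib25

universe v w

section ZD

variable {G : Type v} [Group G]

theorem ZDetects.of_hom {H K : Type v} [Group H] [Group K] (e : H →* K) (e' : K →* H)
    (he : ∀ z, e' (e z) = z) (hK : ZDetects K) : ZDetects H := by
  intro z hz f
  have h1 := hK (e z) (fun f' => hz (f'.comp e)) (f.comp e')
  rw [MonoidHom.comp_apply, he] at h1
  exact h1

theorem commute_of_zpowers {h h' g : G} (hz : Subgroup.zpowers h = Subgroup.zpowers h')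
    (hg : Commute g h) : Commute g h' := by
  have h1 : h' ∈ Subgroup.zpowers h := by rw [hz]; exact Subgroup.mem_zpowers _
  obtain ⟨k, rfl⟩ := Subgroup.mem_zpowers_iff.1 h1
  exact hg.zpow_right k

theorem zDetects_of_zpowers {h h' x : G}
    (hx : Subgroup.zpowers (x * h' * x⁻¹) = Subgroup.zpowers h)
    (hZ : ZDetects (Subgroup.centralizer {h})) : ZDetects (Subgroup.centralizer {h'}) := by
  have hconj : ∀ y : G, Commute y h' → Commute (x * y * x⁻¹) (x * h' * x⁻¹) := by
    intro y hy
    change x * y * x⁻¹ * (x * h' * x⁻¹) = x * h' * x⁻¹ * (x * y * x⁻¹)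
    calc x * y * x⁻¹ * (x * h' * x⁻¹) = x * (y * h') * x⁻¹ := by group
      _ = x * (h' * y) * x⁻¹ := by rw [hy.eq]
      _ = _ := by group
  have hconj' : ∀ y : G, Commute y (x * h' * x⁻¹) → Commute (x⁻¹ * y * x) h' := by
    intro y hy
    change x⁻¹ * y * x * h' = h' * (x⁻¹ * y * x)
    calc x⁻¹ * y * x * h' = x⁻¹ * (y * (x * h' * x⁻¹)) * x := by group
      _ = x⁻¹ * ((x * h' * x⁻¹) * y) * x := by rw [hy.eq]
      _ = _ := by group
  let e : Subgroup.centralizer {h'} →* Subgroup.centralizer {h} :=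
    { toFun := fun y => ⟨x * y * x⁻¹, mem_cent.2 (commute_of_zpowers hx
        (hconj y (mem_cent.1 y.2)))⟩
      map_one' := by
        apply Subtype.ext
        change x * 1 * x⁻¹ = 1
        group
      map_mul' := fun y z => by
        apply Subtype.ext
        change x * (y * z : G) * x⁻¹ = x * y * x⁻¹ * (x * z * x⁻¹)
        group }
  let e' : Subgroup.centralizer {h} →* Subgroup.centralizer {h'} :=
    { toFun := fun y => ⟨x⁻¹ * y * x, mem_cent.2 (hconj' y (commute_of_zpowers hx.symm
        (mem_cent.1 y.2)))⟩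
      map_one' := by
        apply Subtype.ext
        change x⁻¹ * 1 * x = 1
        group
      map_mul' := fun y z => by
        apply Subtype.ext
        change x⁻¹ * (y * z : G) * x = x⁻¹ * y * x * (x⁻¹ * z * x)
        group }
  refine ZDetects.of_hom e e' (fun z => ?_) hZ
  apply Subtype.ext
  change x⁻¹ * (x * z * x⁻¹) * x = z
  group

theorem zDetects_of_cz {h h' : G} (hc : cz h = cz h')
    (hZ : ZDetects (Subgroup.centralizer {h})) : ZDetects (Subgroup.centralizer {h'}) := by
  have h1 : Subgroup.zpowers h ∈ cz h := ⟨1, by simp⟩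
  rw [hc] at h1
  obtain ⟨x, hx⟩ := h1
  exact zDetects_of_zpowers hx hZ

open scoped Classical in
/-- If all integral functionals vanish on a combination of the symbols, then its good part is a
combination of the relations. -/
theorem span_of_adm {ι : Type w} (s : Finset ι) (p : ι → ℕ) (h g : ι → G) (c : ι → ℤ)
    (hv : ∀ i ∈ s, Valid (p i) (h i) (g i))
    (hs : ∀ L : ℕ → G → G → ℤ, IsAdm L →
      ∑ i ∈ s, (c i : ℚ) * (L (p i) (h i) (g i) : ℚ) = 0) :
    ∑ i ∈ s.filter (fun i => ZDetects (Subgroup.centralizer {h i})),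
      Finsupp.single (p i, h i, g i) (c i : ℚ) ∈ Submodule.span ℚ {x | Rel G x} := by
  by_contra hnot
  obtain ⟨ℓ, hℓv, hℓ⟩ := Submodule.exists_le_ker_of_notMem hnot
  apply hℓv
  have hrel : ∀ x, Rel G x → ℓ x = 0 := fun x hx => hℓ (Submodule.subset_span hx)
  let ell : ℕ → G → G → ℚ := fun p h g => ℓ (Finsupp.single (p, h, g) 1)
  have hell : IsAdmQ ell := by
    refine ⟨?_, ?_, ?_, ?_⟩
    · intro p h g g' h1 h2
      have h3 := hrel _ (Rel.add p h g g' h1 h2)
      rw [map_sub, map_sub] at h3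
      change ℓ _ = ℓ _ + ℓ _
      linarith
    · intro p h g x h1
      have h3 := hrel _ (Rel.conj p h g x h1)
      rw [map_sub] at h3
      change ℓ _ = ℓ _
      linarith
    · intro p h h' g j k h1 h2 h3
      have h3 := hrel _ (Rel.frob p h h' g j k h1 h2 h3)
      rw [map_sub] at h3
      change ℓ _ = ℓ _
      linarith
    · intro h g h1 h2
      have h3 := hrel _ (Rel.sum h g h1 h2)
      rw [map_sum] at h3
      rw [← h3]
      apply Finset.sum_congr rfl
      intro p _
      rw [map_sum]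
  have hsingle : ∀ i, ℓ (Finsupp.single (p i, h i, g i) (c i : ℚ)) =
      (c i : ℚ) * ell (p i) (h i) (g i) := by
    intro i
    change _ = (c i : ℚ) * ℓ _
    rw [← smul_eq_mul, ← map_smul, Finsupp.smul_single, smul_eq_mul, mul_one]
  rw [map_sum, Finset.sum_congr rfl (fun i _ => hsingle i)]
  set s' := s.filter (fun i => ZDetects (Subgroup.centralizer {h i})) with hs'
  rw [← Finset.sum_fiberwise_of_maps_to (t := s'.image (fun i => cz (h i)))
    (g := fun i => cz (h i)) (fun i hi => Finset.mem_image_of_mem _ hi)]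
  apply Finset.sum_eq_zero
  intro K hK
  obtain ⟨i0, hi0, rfl⟩ := Finset.mem_image.1 hK
  obtain ⟨hi0s, hZ0⟩ := Finset.mem_filter.1 hi0
  have hpos : 0 < orderOf (h i0) := orderOf_pos_iff.2 (hv i0 hi0s).fin
  have : NeZero (orderOf (h i0)) := ⟨hpos.ne'⟩
  rw [← class_zero (n := orderOf (h i0)) s p h g c hv hs ell hell (h i0) rfl (p i0)
    (hv i0 hi0s).prime (hv i0 hi0s).dvd hZ0]
  apply Finset.sum_congr _ (fun _ _ => rfl)
  ext i
  rw [Finset.mem_filter, Finset.mem_filter, Finset.mem_filter]
  constructor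
  · rintro ⟨⟨h1, -⟩, h2⟩
    exact ⟨h1, h2.symm⟩
  · rintro ⟨h1, h2⟩
    exact ⟨⟨h1, zDetects_of_cz h2 hZ0⟩, h2.symm⟩

end ZD

end Pool.Agent.Lib25
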