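import Pool.Agent.Lib_helper25.Span0
import Pool.Agent.Lib_helper25.Defs1

/-!
# The classes for all `n` and the functionals
-/

set_option linter.unusedSectionVars false

namespace Pool.Agent.Lib25

universe v

theorem exists_kappa1 : ∃ κ : ∀ n : ℕ, ℕ → K0 (MonoidAlgebra ℤ (CZ n)),
    ∀ (G : Type v) [Group G],
      (∀ (n p : ℕ) (φ φ' φ'' : CZ n →* G), 0 < n → p.Prime → p ∣ n →
        (∀ c, φ' (c, 1) = φ (c, 1)) → (∀ c, φ'' (c, 1) = φ (c, 1)) →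
        φ'' (gT n) = φ (gT n) * φ' (gT n) →
        K0.map (MonoidAlgebra.mapDomainRingHom ℤ φ'') (κ n p) =
          K0.map (MonoidAlgebra.mapDomainRingHom ℤ φ) (κ n p) +
          K0.map (MonoidAlgebra.mapDomainRingHom ℤ φ') (κ n p)) ∧
      (∀ (n p : ℕ) (φ : CZ n →* G), 0 < n → p.Prime → p ∣ n →
        rkG G (K0.map (MonoidAlgebra.mapDomainRingHom ℤ φ) (κ n p)) = 0) ∧
      ∀ L : ℕ → G → G → ℤ, IsAdm L → ∃ F : K0 (MonoidAlgebra ℤ G) →+ ℚ,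
        ∀ (n p : ℕ) (φ : CZ n →* G), 0 < n → p.Prime → p ∣ n →
          Function.Injective (fun c => φ (c, 1)) →
          F (K0.map (MonoidAlgebra.mapDomainRingHom ℤ φ) (κ n p)) =
            (L p (φ (gC n)) (φ (gT n)) : ℚ) := by
  classical
  have h0 : ∀ n : ℕ, ∃ (N : ℕ) (κ : ℕ → K0 (MonoidAlgebra ℤ (CZ n))), ∀ hn : 0 < n,
      haveI : NeZero n := ⟨hn.ne'⟩
      0 < N ∧ ∀ (p : ℕ) [Fact p.Prime], p ∣ n → ∃ t : (ZMod n)ˣ → ℚ_[p],
      (∀ (Y : (ZMod n)ˣ → ℚ) (y : ℚ), ∑ u, t u * (Y u : ℚ_[p]) = (y : ℚ_[p]) →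
        ∀ z, (N : ℚ) * ∑ u ∈ Finset.univ.filter (fun u => uRel n p u z), Y u =
          y * (Finset.univ.filter (fun u => uRel n p u z)).card) ∧
      ∀ {G : Type v} [Group G] (φ : CZ n →* G),
        (∃ w : ∀ (q : ℕ) [Fact q.Prime], Pt G → ℚ_[q],
          Triv0 (K0.map (MonoidAlgebra.mapDomainRingHom ℤ φ) (κ p)) w ∧
          Triv0 (- K0.map (MonoidAlgebra.mapDomainRingHom ℤ φ) (κ p)) (fun q _ h => - w q h) ∧
          (∀ x, w p x = ∑ u : (ZMod n)ˣ, t u * ((mu x.1.1 x.1.2 (φ (1, Multiplicative.ofAdd 1))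
            (φ (Multiplicative.ofAdd 1, 1) ^ (u : ZMod n).val) : ℤ) : ℚ_[p])) ∧
          ∀ (q : ℕ) [Fact q.Prime], q ≠ p → ∀ x, w q x = 0) ∧
        rkG G (K0.map (MonoidAlgebra.mapDomainRingHom ℤ φ) (κ p)) = 0 ∧
        ∀ (φ' φ'' : Multiplicative (ZMod n) × Multiplicative ℤ →* G),
          (∀ c, φ' (c, 1) = φ (c, 1)) → (∀ c, φ'' (c, 1) = φ (c, 1)) →
          φ'' (1, Multiplicative.ofAdd 1) = φ (1, Multiplicative.ofAdd 1) *
            φ' (1, Multiplicative.ofAdd 1) →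
          K0.map (MonoidAlgebra.mapDomainRingHom ℤ φ'') (κ p) =
            K0.map (MonoidAlgebra.mapDomainRingHom ℤ φ) (κ p) +
            K0.map (MonoidAlgebra.mapDomainRingHom ℤ φ') (κ p) := by
    intro n
    by_cases hn : 0 < n
    · have : NeZero n := ⟨hn.ne'⟩
      obtain ⟨N, κ, hN, hκ⟩ := exists_kappa.{v} n
      refine ⟨N, κ, fun _ => ⟨hN, fun p _ hpn => ?_⟩⟩
      exact hκ p hpn
    · exact ⟨0, 0, fun h => absurd h hn⟩
  choose N κ hκ using h0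
  refine ⟨κ, fun G _ => ⟨?_, ?_, ?_⟩⟩
  · intro n p φ φ' φ'' hn hp hpn h1 h2 h3
    have : NeZero n := ⟨hn.ne'⟩
    have : Fact p.Prime := ⟨hp⟩
    obtain ⟨t, -, ht⟩ := (hκ n hn).2 p hpn
    exact (ht φ).2.2 φ' φ'' h1 h2 h3
  · intro n p φ hn hp hpn
    have : NeZero n := ⟨hn.ne'⟩
    have : Fact p.Prime := ⟨hp⟩
    obtain ⟨t, -, ht⟩ := (hκ n hn).2 p hpn
    exact (ht φ).2.1
  · intro L hL
    have hrel := relation (G := G) N κ (fun n hn => (hκ n hn).1) (by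
      intro n hn p hp hpn
      obtain ⟨t, ht1, ht2⟩ := (hκ n (Nat.pos_of_ne_zero hn.ne)).2 p hpn
      refine ⟨t, fun Y y hy z => ht1 Y y hy z, fun φ => (ht2 φ).1⟩) L hL
    obtain ⟨F, hF⟩ := exists_functional
      (fun j : Idx G => K0.map (MonoidAlgebra.mapDomainRingHom ℤ j.φ) (κ j.n j.p))
      (fun j => (L j.p j.h j.g : ℚ)) hrel
    exact ⟨F, fun n p φ hn hp hpn hφ => hF ⟨n, p, φ, hn, hp, hpn, hφ⟩⟩

end Pool.Agent.Lib25
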