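import Pool.Agent.Lib_helper25.Transfer

/-!
# The local family of idempotents at a prime
-/

open Polynomial

namespace Pool.Agent.Lib25

section Basic

variable {Cg : Type*} [CommGroup Cg] [Fintype Cg] {G : Type*} [Group G] (ψ : Cg →* G)

open scoped Classical in
/-- The elements of `Cg` whose image is conjugate to `h`. -/
noncomputable def cset (h : G) : Finset Cg := Finset.univ.filter (fun c => IsConj (ψ c) h)

theorem mem_cset (h : G) (c : Cg) : c ∈ cset ψ h ↔ IsConj (ψ c) h := by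
  classical
  simp [cset]

theorem tau_push {k : Type*} [CommRing k] (E : MonoidAlgebra k Cg) (h : G) :
    tau h (push k ψ E) = ∑ c ∈ cset ψ h, E.coeff c := by
  classical
  induction E using MonoidAlgebra.induction_linear with
  | zero => simp
  | add f g hf hg =>
    simp only [map_add, hf, hg, MonoidAlgebra.coeff_add, Finsupp.add_apply, Finset.sum_add_distrib]
  | single c a =>
    rw [push_single, tau_single]
    simp only [MonoidAlgebra.coeff_single, Finsupp.single_apply]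
    rw [Finset.sum_ite_eq]
    congr 1
    rw [mem_cset]

theorem isConj_pow {x y : G} (h : IsConj x y) (i : ℤ) : IsConj (x ^ i) (y ^ i) := by
  rw [isConj_iff] at h ⊢
  obtain ⟨c, rfl⟩ := h
  exact ⟨c, conj_zpow.symm⟩

theorem cset_eq_of_isConj {h h' : G} (hh : IsConj h h') : cset ψ h = cset ψ h' := by
  ext c
  rw [mem_cset, mem_cset]
  exact ⟨fun h1 => h1.trans hh, fun h1 => h1.trans hh.symm⟩

omit [Fintype Cg] in
theorem isConj_pow_iff (x e : Cg) (i : ℕ) (hi : (Nat.card Cg).Coprime i) :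
    IsConj (ψ (e ^ i)) (ψ (x ^ i)) ↔ IsConj (ψ e) (ψ x) := by
  constructor
  · intro h
    have h1 := isConj_pow h ((Nat.card Cg).gcdB i)
    rw [← map_zpow, ← map_zpow] at h1
    have h2 : ∀ y : Cg, (y ^ i) ^ ((Nat.card Cg).gcdB i) = y := (powCoprime hi).left_inv
    rwa [h2, h2] at h1
  · intro h
    have h1 := isConj_pow h (i : ℤ)
    rwa [← map_zpow, ← map_zpow, zpow_natCast, zpow_natCast] at h1

theorem sum_cset_pow {k : Type*} [AddCommMonoid k] (x : Cg) (i : ℕ)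
    (hi : (Nat.card Cg).Coprime i) (F : Cg → k) :
    ∑ d ∈ cset ψ (ψ (x ^ i)), F d = ∑ e ∈ cset ψ (ψ x), F (e ^ i) := by
  symm
  refine Finset.sum_equiv (powCoprime hi) (fun e => ?_) (fun e _ => rfl)
  rw [mem_cset, mem_cset, powCoprime_apply, isConj_pow_iff ψ x e i hi]

theorem card_cset_pow (x : Cg) (i : ℕ) (hi : (Nat.card Cg).Coprime i) :
    (cset ψ (ψ (x ^ i))).card = (cset ψ (ψ x)).card := by
  rw [Finset.card_eq_sum_ones, Finset.card_eq_sum_ones, sum_cset_pow ψ x i hi]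

theorem card_cset_pos (x : Cg) : 0 < (cset ψ (ψ x)).card :=
  Finset.card_pos.2 ⟨x, (mem_cset ψ _ _).2 (IsConj.refl _)⟩

omit [Fintype Cg] in
theorem gens_pow [Finite Cg] {x : Cg} (hx : Subgroup.zpowers x = ⊤) (i : ℕ)
    (hi : (Nat.card Cg).Coprime i) : Subgroup.zpowers (x ^ i) = ⊤ := by
  rw [Subgroup.eq_top_iff'] at hx ⊢
  have h2 : (x ^ i) ^ ((Nat.card Cg).gcdB i) = x := (powCoprime hi).left_inv x
  intro y
  obtain ⟨k, rfl⟩ := Subgroup.mem_zpowers_iff.1 (hx y)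
  rw [Subgroup.mem_zpowers_iff]
  exact ⟨(Nat.card Cg).gcdB i * k, by rw [zpow_mul, h2]⟩

omit [Fintype Cg] in
theorem orderOf_gen {x : Cg} (hx : Subgroup.zpowers x = ⊤) : orderOf x = Nat.card Cg :=
  orderOf_eq_card_of_zpowers_eq_top hx

omit [Fintype Cg] in
theorem exists_pow_eq_gen [Finite Cg] {x y : Cg} (hx : Subgroup.zpowers x = ⊤)
    (hy : Subgroup.zpowers y = ⊤) : ∃ i : ℕ, (Nat.card Cg).Coprime i ∧ x ^ i = y := by
  have h1 : y ∈ Subgroup.zpowers x := by rw [hx]; trivial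
  obtain ⟨i, hi⟩ := (Submonoid.mem_powers_iff _ _).1 ((mem_powers_iff_mem_zpowers (x := x)).2 h1)
  refine ⟨i, ?_, hi⟩
  have h2 := orderOf_gen hy
  have h3 : 0 < Nat.card Cg := Nat.card_pos
  rw [← hi, orderOf_pow, orderOf_gen hx] at h2
  rw [Nat.Coprime]
  by_contra hne
  have h4 : 0 < (Nat.card Cg).gcd i := Nat.gcd_pos_of_pos_left _ h3
  have h5 : 1 < (Nat.card Cg).gcd i := lt_of_le_of_ne h4 (Ne.symm hne)
  have h6 := Nat.div_lt_self h3 h5
  omega

omit [Fintype Cg] in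
theorem exists_pow_eq [Finite Cg] {x : Cg} (hx : Subgroup.zpowers x = ⊤) (y : Cg) :
    ∃ i : ℕ, x ^ i = y := by
  have h1 : y ∈ Subgroup.zpowers x := by rw [hx]; trivial
  exact (Submonoid.mem_powers_iff _ _).1 ((mem_powers_iff_mem_zpowers (x := x)).2 h1)

omit [Fintype Cg] in
theorem gen_of_isConj [Finite Cg] (hψ : Function.Injective ψ) {x c : Cg}
    (hx : Subgroup.zpowers x = ⊤) (h : IsConj (ψ c) (ψ x)) : Subgroup.zpowers c = ⊤ := by
  have h1 : orderOf (ψ c) = orderOf (ψ x) := by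
    obtain ⟨g, hg⟩ := h
    exact SemiconjBy.orderOf_eq (g : G) hg
  rw [orderOf_injective ψ hψ, orderOf_injective ψ hψ, orderOf_gen hx] at h1
  apply Subgroup.eq_top_of_card_eq
  rw [Nat.card_zpowers, h1]

end Basic

section QuotP

variable (p : ℕ) [hp : Fact p.Prime] (Cg : Type*) [CommGroup Cg]

/-- The exponent of `p` in the order of `Cg`. -/
noncomputable def vp : ℕ := (Nat.card Cg).factorization p

/-- The prime-to-`p` quotient of `Cg`, realised as the subgroup of `p ^ v`-th powers. -/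
noncomputable abbrev QQ : Subgroup Cg := (powMonoidHom (p ^ vp p Cg) : Cg →* Cg).range

/-- The projection to the prime-to-`p` quotient. -/
noncomputable def prQ : Cg →* QQ p Cg := (powMonoidHom (p ^ vp p Cg) : Cg →* Cg).rangeRestrict

omit hp in
theorem prQ_coe (c : Cg) : ((prQ p Cg c : QQ p Cg) : Cg) = c ^ p ^ vp p Cg := rfl

omit hp in
theorem prQ_surjective : Function.Surjective (prQ p Cg) := MonoidHom.rangeRestrict_surjective _

variable [Finite Cg] [IsCyclic Cg]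

omit hp in
theorem card_Q : Nat.card (QQ p Cg) = Nat.card Cg / p ^ vp p Cg := by
  rw [IsCyclic.card_powMonoidHom_range,
    Nat.gcd_eq_right (show p ^ vp p Cg ∣ Nat.card Cg from Nat.ordProj_dvd _ _)]

theorem card_Q_coprime : (Nat.card (QQ p Cg)).Coprime p := by
  rw [card_Q]
  exact (Nat.coprime_ordCompl hp.out Nat.card_pos.ne').symm

theorem card_eq_mul : Nat.card Cg = p ^ vp p Cg * Nat.card (QQ p Cg) := by
  rw [card_Q]
  exact (Nat.mul_div_cancel' (Nat.ordProj_dvd _ _)).symm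

omit hp [Finite Cg] [IsCyclic Cg] in
theorem card_ker_mul : Nat.card (prQ p Cg).ker * Nat.card (QQ p Cg) = Nat.card Cg := by
  rw [← Subgroup.card_mul_index (prQ p Cg).ker, Subgroup.index_ker]
  congr 1
  have : (prQ p Cg).range = ⊤ := MonoidHom.range_eq_top.2 (prQ_surjective p Cg)
  rw [this, Subgroup.card_top]

variable {Cg}

theorem exists_gen_pow (x : Gens Cg) : ∃ y : Gens Cg, prQ p Cg y.1 = (prQ p Cg x.1) ^ p := by
  have hco : (p ^ vp p Cg).Coprime (Nat.card (QQ p Cg)) :=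
    (card_Q_coprime p Cg).symm.pow_left _
  obtain ⟨u, hu1, hu2⟩ := Nat.chineseRemainder hco 1 p
  have hcu : (Nat.card Cg).Coprime u := by
    rw [card_eq_mul p Cg]
    apply Nat.Coprime.mul_left
    · rw [Nat.coprime_comm, Nat.Coprime, hu1.gcd_eq]
      simp
    · rw [Nat.coprime_comm, Nat.Coprime, hu2.gcd_eq]
      exact (card_Q_coprime p Cg).symm
  refine ⟨⟨x.1 ^ u, gens_pow x.2 u hcu⟩, ?_⟩
  apply Subtype.ext
  rw [prQ_coe, Subgroup.coe_pow, prQ_coe, ← pow_mul, ← pow_mul]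
  rw [pow_eq_pow_iff_modEq, orderOf_gen x.2, card_eq_mul p Cg, mul_comm u, mul_comm (p ^ vp p Cg) _,
    mul_comm (p ^ vp p Cg) u, mul_comm (p ^ vp p Cg) p]
  exact Nat.ModEq.mul_right' _ hu2

theorem mem_image_of_pow (z : QQ p Cg) (h : ∃ x : Gens Cg, prQ p Cg x.1 = z ^ p) :
    ∃ x : Gens Cg, prQ p Cg x.1 = z := by
  let S : Set (QQ p Cg) := {z | ∃ x : Gens Cg, prQ p Cg x.1 = z}
  let F : S → S := fun z => ⟨z.1 ^ p, by
    obtain ⟨x, hx⟩ := z.2
    obtain ⟨y, hy⟩ := exists_gen_pow p x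
    exact ⟨y, by rw [hy, hx]⟩⟩
  have hinj : Function.Injective (fun z : QQ p Cg => z ^ p) :=
    (powCoprime (card_Q_coprime p Cg)).injective
  have hF : Function.Injective F := by
    intro a b hab
    exact Subtype.ext (hinj (congrArg Subtype.val hab))
  obtain ⟨w, hw⟩ := (Finite.injective_iff_surjective.1 hF) ⟨z ^ p, h⟩
  have h2 : w.1 = z := hinj (congrArg Subtype.val hw)
  rw [← h2]
  exact w.2

end QuotP

section Lam

variable (p : ℕ) [hp : Fact p.Prime] {Cg : Type*} [CommGroup Cg] [Fintype Cg] [IsCyclic Cg]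
  {G : Type*} [Group G] (ψ : Cg →* G)

/-- The sum of the values of `E` (pulled back to `Cg`) over the elements conjugate to `x`. -/
noncomputable def Lam (E : MonoidAlgebra ℤ_[p] (QQ p Cg)) (x : Cg) : ℚ_[p] :=
  ∑ c ∈ cset ψ (ψ x), ((E.coeff (prQ p Cg c) : ℤ_[p]) : ℚ_[p])

omit [IsCyclic Cg] in
theorem Lam_pow (E : MonoidAlgebra ℤ_[p] (QQ p Cg)) (x : Cg) (i : ℕ)
    (hi : (Nat.card Cg).Coprime i) : Lam p ψ E (x ^ i) =
      ∑ c ∈ cset ψ (ψ x), ((E.coeff ((prQ p Cg c) ^ i) : ℤ_[p]) : ℚ_[p]) := by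
  unfold Lam
  rw [sum_cset_pow ψ x i hi]
  simp only [map_pow]

theorem Lam_inv (E : MonoidAlgebra ℤ_[p] (QQ p Cg)) (hE : frob p _ E = E) (x y : Gens Cg)
    (h : clsRel ψ p x y) : Lam p ψ E x.1 = Lam p ψ E y.1 := by
  rcases h with h | ⟨j, k, hjk⟩
  · unfold Lam
    rw [cset_eq_of_isConj ψ h]
  · obtain ⟨i, hi, hxy⟩ := exists_pow_eq_gen x.2 y.2
    rw [← hxy, Lam_pow p ψ E x.1 i hi]
    apply Finset.sum_congr rfl
    intro c _
    congr 1
    obtain ⟨w, rfl⟩ := exists_pow_eq x.2 c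
    have h1 : ((prQ p Cg (x.1 ^ w)) ^ i) ^ p ^ k = (prQ p Cg (x.1 ^ w)) ^ p ^ j := by
      rw [← map_pow, ← map_pow, ← map_pow]
      congr 1
      calc ((x.1 ^ w) ^ i) ^ p ^ k = ((x.1 ^ i) ^ p ^ k) ^ w := by
            rw [← pow_mul, ← pow_mul, ← pow_mul, ← pow_mul]
            congr 1
            ring
        _ = (x.1 ^ w) ^ p ^ j := by
            rw [hxy, ← hjk, ← pow_mul, ← pow_mul, mul_comm]
    rw [← coeff_pow_pow_of_frob (card_Q_coprime p Cg) E hE j, ← h1,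
      coeff_pow_pow_of_frob (card_Q_coprime p Cg) E hE k]

theorem Lam_out (E : MonoidAlgebra ℤ_[p] (QQ p Cg)) (hE : frob p _ E = E) (x : Gens Cg) :
    Lam p ψ E (Quot.out (Quot.mk (clsRel ψ p) x)).1 = Lam p ψ E x.1 := by
  let L : Quot (clsRel ψ p) → ℚ_[p] :=
    Quot.lift (fun x : Gens Cg => Lam p ψ E x.1) (fun a b h => Lam_inv p ψ E hE a b h)
  change L (Quot.mk _ (Quot.out (Quot.mk _ x))) = L (Quot.mk _ x)
  rw [Quot.out_eq]

/-- `Lam` as a linear map to functions on the set of classes. -/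
noncomputable def LamL : MonoidAlgebra ℤ_[p] (QQ p Cg) →ₗ[ℤ_[p]] (Quot (clsRel ψ p) → ℚ_[p]) where
  toFun E := fun q => Lam p ψ E (Quot.out q).1
  map_add' E F := by
    ext q
    simp only [Lam, Pi.add_apply, MonoidAlgebra.coeff_add, Finsupp.add_apply, PadicInt.coe_add,
      Finset.sum_add_distrib]
  map_smul' a E := by
    ext q
    simp only [Lam, MonoidAlgebra.coeff_smul_apply, smul_eq_mul, PadicInt.coe_mul,
      RingHom.id_apply, Pi.smul_apply, ← Finset.mul_sum]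
    rfl

theorem exists_frobFixed (f : Quot (clsRel ψ p) → ℤ_[p]) :
    ∃ b : MonoidAlgebra ℤ_[p] (QQ p Cg), frob p _ b = b ∧
      ∀ x : Gens Cg, b.coeff (prQ p Cg x.1) = f (Quot.mk _ x) := by
  classical
  let b : MonoidAlgebra ℤ_[p] (QQ p Cg) := ⟨Finsupp.equivFunOnFinite.symm (fun z =>
    if h : ∃ x : Gens Cg, prQ p Cg x.1 = z then f (Quot.mk _ h.choose) else 0)⟩
  have hb : ∀ z, b.coeff z =
    if h : ∃ x : Gens Cg, prQ p Cg x.1 = z then f (Quot.mk _ h.choose) else 0 := fun z => rfl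
  have hb1 : ∀ x : Gens Cg, b.coeff (prQ p Cg x.1) = f (Quot.mk _ x) := by
    intro x
    have h : ∃ x' : Gens Cg, prQ p Cg x'.1 = prQ p Cg x.1 := ⟨x, rfl⟩
    rw [hb, dif_pos h]
    congr 1
    apply Quot.sound
    right
    refine ⟨vp p Cg, vp p Cg, ?_⟩
    have h1 := h.choose_spec
    exact congrArg Subtype.val h1
  refine ⟨b, ?_, hb1⟩
  apply frob_of_coeff (card_Q_coprime p Cg)
  intro z
  by_cases hz : ∃ x : Gens Cg, prQ p Cg x.1 = z
  · obtain ⟨x, rfl⟩ := hz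
    obtain ⟨y, hy⟩ := exists_gen_pow p x
    rw [← hy, hb1, hb1]
    congr 1
    apply Quot.sound
    right
    refine ⟨vp p Cg, vp p Cg + 1, ?_⟩
    have h1 := congrArg Subtype.val hy
    rw [prQ_coe, Subgroup.coe_pow, prQ_coe] at h1
    rw [h1, ← pow_mul, pow_succ]
  · have hz' : ¬ ∃ x : Gens Cg, prQ p Cg x.1 = z ^ p := fun h => hz (mem_image_of_pow p z h)
    rw [hb, hb, dif_neg hz, dif_neg hz']

omit [IsCyclic Cg] in
theorem LamL_of_values (hψ : Function.Injective ψ) (f : Quot (clsRel ψ p) → ℤ_[p])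
    (b : MonoidAlgebra ℤ_[p] (QQ p Cg))
    (hb : ∀ x : Gens Cg, b.coeff (prQ p Cg x.1) = f (Quot.mk _ x)) (x : Gens Cg) :
    Lam p ψ b x.1 = ((cset ψ (ψ x.1)).card : ℚ_[p]) * (f (Quot.mk _ x) : ℚ_[p]) := by
  unfold Lam
  rw [← nsmul_eq_mul, ← Finset.sum_const]
  apply Finset.sum_congr rfl
  intro c hc
  rw [mem_cset] at hc
  have hcg := gen_of_isConj ψ hψ x.2 hc
  rw [hb ⟨c, hcg⟩]
  congr 2
  apply Quot.sound
  left
  exact hc

/-- The set of functions coming from idempotents. -/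
def TT : Set (Quot (clsRel ψ p) → ℚ_[p]) :=
  (LamL p ψ) '' {E : MonoidAlgebra ℤ_[p] (QQ p Cg) | E ^ 2 = E}

omit [IsCyclic Cg] in
theorem card_cset_const (x y : Gens Cg) : (cset ψ (ψ x.1)).card = (cset ψ (ψ y.1)).card := by
  obtain ⟨i, hi, hxy⟩ := exists_pow_eq_gen x.2 y.2
  rw [← hxy, card_cset_pow ψ x.1 i hi]

theorem span_TT (hψ : Function.Injective ψ) : ⊤ ≤ Submodule.span ℚ_[p] (TT p ψ) := by
  classical
  have h1 : ∀ f : Quot (clsRel ψ p) → ℤ_[p],
      (fun q => (f q : ℚ_[p])) ∈ Submodule.span ℚ_[p] (TT p ψ) := by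
    intro f
    by_cases hne : Nonempty (Gens Cg)
    · obtain ⟨x0⟩ := hne
      obtain ⟨b, hb1, hb2⟩ := exists_frobFixed p ψ f
      have h2 : b ∈ frobFixed p (QQ p Cg) := hb1
      have h3 := frobFixed_le_span h2
      have h4 : LamL p ψ b ∈ Submodule.span ℤ_[p] (TT p ψ) := by
        have := Submodule.mem_map_of_mem (f := LamL p ψ) h3
        rwa [Submodule.map_span] at this
      have h5 : LamL p ψ b ∈ Submodule.span ℚ_[p] (TT p ψ) :=
        Submodule.span_le_restrictScalars ℤ_[p] ℚ_[p] (TT p ψ) h4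
      have hw : ((cset ψ (ψ x0.1)).card : ℚ_[p]) ≠ 0 :=
        Nat.cast_ne_zero.2 (card_cset_pos ψ x0.1).ne'
      have h6 : (fun q => (f q : ℚ_[p])) =
          ((cset ψ (ψ x0.1)).card : ℚ_[p])⁻¹ • LamL p ψ b := by
        ext q
        change (f q : ℚ_[p]) = ((cset ψ (ψ x0.1)).card : ℚ_[p])⁻¹ * Lam p ψ b (Quot.out q).1
        rw [LamL_of_values p ψ hψ f b hb2, Quot.out_eq, card_cset_const ψ (Quot.out q) x0]
        field_simp
      rw [h6]
      exact Submodule.smul_mem _ _ h5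
    · have h2 : (fun q => (f q : ℚ_[p])) = 0 := by
        ext q
        exact (hne ⟨Quot.out q⟩).elim
      rw [h2]
      exact Submodule.zero_mem _
  have : Finite (Gens Cg) := Finite.of_injective (fun x : Gens Cg => x.1) Subtype.val_injective
  have : Finite (Quot (clsRel ψ p)) := Quot.finite _
  have : Fintype (Quot (clsRel ψ p)) := Fintype.ofFinite _
  intro g _
  have h3 : g = ∑ q, g q • (fun q' => (((if q' = q then 1 else 0 : ℤ_[p])) : ℚ_[p])) := by
    ext q'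
    rw [Finset.sum_apply]
    simp only [Pi.smul_apply, smul_eq_mul]
    rw [Finset.sum_eq_single q']
    · simp
    · intro q _ hq
      rw [if_neg (Ne.symm hq)]
      simp
    · intro h
      exact absurd (Finset.mem_univ _) h
  rw [h3]
  exact Submodule.sum_mem _ fun q _ => Submodule.smul_mem _ _ (h1 _)

end Lam

section Family

variable (p : ℕ) [hp : Fact p.Prime] {Cg : Type*} [CommGroup Cg] [Fintype Cg] [IsCyclic Cg]
  {G : Type*} [Group G] (ψ : Cg →* G)

omit [Fintype Cg] [IsCyclic Cg] in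
/-- The averaging idempotent of a group of order prime to `p`. -/
theorem exists_triv_idem {Q : Type*} [CommGroup Q] [Finite Q] (hQ : (Nat.card Q).Coprime p) :
    ∃ e : MonoidAlgebra ℤ_[p] Q, e ^ 2 = e ∧
      ∀ z, ((e.coeff z : ℤ_[p]) : ℚ_[p]) = (Nat.card Q : ℚ_[p])⁻¹ := by
  classical
  have : Fintype Q := Fintype.ofFinite Q
  have h1 : IsUnit ((Nat.card Q : ℕ) : ℤ_[p]) := by
    rw [PadicInt.isUnit_iff, PadicInt.norm_natCast_eq_one_iff]
    exact hQ.symm
  obtain ⟨u, hu⟩ := h1.exists_right_inv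
  have hm : (Nat.card Q : ℚ_[p]) ≠ 0 := Nat.cast_ne_zero.2 Nat.card_pos.ne'
  refine ⟨⟨Finsupp.equivFunOnFinite.symm (fun _ => u)⟩, ?_, fun z => ?_⟩
  · ext z
    rw [pow_two, MonoidAlgebra.coeff_mul_apply_left, Finsupp.sum_fintype _ _ (by simp)]
    change ∑ y : Q, u * u = u
    rw [Finset.sum_const, nsmul_eq_mul, Finset.card_univ, ← Nat.card_eq_fintype_card, ← mul_assoc,
      hu, one_mul]
  · change (u : ℚ_[p]) = _
    have h2 := congrArg (fun t : ℤ_[p] => (t : ℚ_[p])) hu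
    push_cast at h2
    exact eq_inv_of_mul_eq_one_right h2

theorem exists_family (hψ : Function.Injective ψ) :
    ∃ E : Fin (nCls ψ p) → MonoidAlgebra ℤ_[p] (QQ p Cg), (∀ k, E k ^ 2 = E k) ∧
      LinearIndependent ℚ_[p] (fun k => LamL p ψ (E k)) ∧ 0 < nCls ψ p ∧
      ∀ k, k.val = 0 → ∀ x : Gens Cg, Lam p ψ (E k) x.1 =
        ((cset ψ (ψ x.1)).card : ℚ_[p]) * (Nat.card (QQ p Cg) : ℚ_[p])⁻¹ := by
  classical
  obtain ⟨g, hg⟩ := isCyclic_iff_exists_zpowers_eq_top.mp (inferInstance : IsCyclic Cg)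
  let g0 : Gens Cg := ⟨g, hg⟩
  obtain ⟨e, he1, he2⟩ := exists_triv_idem p (card_Q_coprime p Cg)
  have hm : (Nat.card (QQ p Cg) : ℚ_[p]) ≠ 0 := Nat.cast_ne_zero.2 Nat.card_pos.ne'
  have hLe : ∀ x : Gens Cg, Lam p ψ e x.1 =
      ((cset ψ (ψ x.1)).card : ℚ_[p]) * (Nat.card (QQ p Cg) : ℚ_[p])⁻¹ := by
    intro x
    unfold Lam
    simp only [he2, Finset.sum_const, nsmul_eq_mul]
  have hfinG : Finite (Gens Cg) :=
    Finite.of_injective (fun x : Gens Cg => x.1) Subtype.val_injective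
  have hfinQ : Finite (Quot (clsRel ψ p)) := Quot.finite _
  have : Fintype (Quot (clsRel ψ p)) := Fintype.ofFinite _
  have hne : LamL p ψ e ≠ 0 := by
    intro h
    have h1 := congrFun h (Quot.mk _ g0)
    change Lam p ψ e (Quot.out (Quot.mk (clsRel ψ p) g0)).1 = 0 at h1
    rw [hLe] at h1
    rcases mul_eq_zero.1 h1 with h2 | h2
    · exact (card_cset_pos ψ _).ne' (Nat.cast_eq_zero.1 h2)
    · exact hm (inv_eq_zero.1 h2)
  have hs : LinearIndepOn ℚ_[p] (LamL p ψ) {e} := by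
    rw [linearIndepOn_singleton_iff]
    exact hne
  obtain ⟨b, hb1, hb2, hb3, hb4⟩ := exists_linearIndepOn_extension
    (t := {E : MonoidAlgebra ℤ_[p] (QQ p Cg) | E ^ 2 = E}) hs (by
      intro x hx
      rw [Set.mem_singleton_iff] at hx
      subst hx
      exact he1)
  have hspan : ⊤ ≤ Submodule.span ℚ_[p] (Set.range fun x : b => LamL p ψ x.1) := by
    refine (span_TT p ψ hψ).trans (Submodule.span_le.2 ?_)
    refine hb3.trans ?_
    rw [Set.image_eq_range]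
  let B := Module.Basis.mk hb4 hspan
  have hfb : Finite b := Module.Finite.finite_basis B
  have hcard : Nat.card b = nCls ψ p := by
    rw [← Module.finrank_eq_nat_card_basis B, Module.finrank_pi, nCls, Nat.card_eq_fintype_card]
  have hpos : 0 < nCls ψ p := by
    rw [← hcard]
    have : Nonempty b := ⟨⟨e, hb2 rfl⟩⟩
    exact Nat.card_pos
  obtain ⟨σ⟩ : Nonempty (Fin (nCls ψ p) ≃ b) := by
    rw [← hcard]
    exact ⟨(Finite.equivFin b).symm⟩
  let z : Fin (nCls ψ p) := ⟨0, hpos⟩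
  let τ := (Equiv.swap z (σ.symm ⟨e, hb2 rfl⟩)).trans σ
  have hτ : τ z = ⟨e, hb2 rfl⟩ := by
    simp [τ]
  refine ⟨fun k => (τ k).1, fun k => hb1 (τ k).2, ?_, hpos, ?_⟩
  · exact LinearIndependent.comp hb4 τ τ.injective
  · intro k hk x
    have hkz : k = z := Fin.ext hk
    subst hkz
    change Lam p ψ (τ z).1 x.1 = _
    rw [hτ]
    exact hLe x

omit [IsCyclic Cg] in
theorem tau_trf (E : MonoidAlgebra ℤ_[p] (QQ p Cg)) (x : Cg) :
    tau (ψ x) (push ℚ_[p] ψ (trf (prQ p Cg)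
      (MonoidAlgebra.mapRingHom _ (PadicInt.Coe.ringHom (p := p)) E))) =
      Lam p ψ E x / (Nat.card (prQ p Cg).ker : ℚ_[p]) := by
  rw [tau_push, Lam, Finset.sum_div]
  apply Finset.sum_congr rfl
  intro c _
  rw [coeff_trf, coeff_mapRingHom']
  rfl

omit [IsCyclic Cg] in
/-- **Galois argument**: if a rational combination of the functions attached to idempotents
takes rational values on the generators, it is constant on the generators. -/
theorem const_of_rational {ι : Type*} [Fintype ι] (E : ι → MonoidAlgebra ℤ_[p] (QQ p Cg))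
    (hE : ∀ k, E k ^ 2 = E k) (μ : ι → ℚ) (y : Cg → ℚ)
    (hy : ∀ x : Gens Cg, ∑ k, (μ k : ℚ_[p]) * Lam p ψ (E k) x.1 = (y x.1 : ℚ_[p]))
    (x0 x : Gens Cg) : y x.1 = y x0.1 := by
  classical
  let L := AlgebraicClosure ℚ_[p]
  have hcz : CharZero L := charZero_of_injective_algebraMap (algebraMap ℚ_[p] L).injective
  set g : QQ p Cg := prQ p Cg x0.1 with hg
  have hgen : ∀ z : QQ p Cg, z ∈ Subgroup.zpowers g := by
    intro z
    obtain ⟨c, rfl⟩ := prQ_surjective p Cg z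
    obtain ⟨w, rfl⟩ := exists_pow_eq x0.2 c
    rw [map_pow]
    exact Subgroup.pow_mem _ (Subgroup.mem_zpowers _) _
  have hMpos : 0 < orderOf g := orderOf_pos g
  have hMn : orderOf g ∣ Nat.card Cg := by
    apply orderOf_dvd_of_pow_eq_one
    rw [hg, ← map_pow, pow_card_eq_one', map_one]
  obtain ⟨ζ, hζ⟩ : ∃ ζ : L, IsPrimitiveRoot ζ (orderOf g) := by
    have : NeZero ((orderOf g : ℕ) : L) := ⟨Nat.cast_ne_zero.2 hMpos.ne'⟩
    have hdeg : (cyclotomic (orderOf g) L).degree ≠ 0 := (degree_cyclotomic_pos _ L hMpos).ne'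
    obtain ⟨ζ, hζ⟩ := IsAlgClosed.exists_root (cyclotomic (orderOf g) L) hdeg
    exact ⟨ζ, (isRoot_cyclotomic_iff).1 hζ⟩
  -- the embedding of coefficients
  let j : ℤ_[p] →+* L := (algebraMap ℚ_[p] L).comp (PadicInt.Coe.ringHom (p := p))
  have hP : ∀ k, ∃ P : ℚ[X], ∀ i : ℕ,
      algebraMap ℚ_[p] L (((E k).coeff (g ^ i) : ℤ_[p]) : ℚ_[p]) = aeval (ζ ^ i) P := by
    intro k
    obtain ⟨P, hP⟩ := idem_poly g hgen ζ hζ (MonoidAlgebra.mapRingHom _ j (E k))
      (by rw [← map_pow, hE k])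
    refine ⟨P, fun i => ?_⟩
    rw [← hP i, coeff_mapRingHom']
    rfl
  choose P hP using hP
  choose l hl using fun c : Cg => exists_pow_eq x0.2 c
  let R : ℚ[X] := ∑ k, C (μ k) * ∑ c ∈ cset ψ (ψ x0.1), (P k).comp (X ^ l c)
  have hR : ∀ i : ℕ, (Nat.card Cg).Coprime i →
      aeval (ζ ^ i) R = algebraMap ℚ_[p] L (∑ k, (μ k : ℚ_[p]) * Lam p ψ (E k) (x0.1 ^ i)) := by
    intro i hi
    simp only [R, map_sum, map_mul, aeval_C]
    apply Finset.sum_congr rfl
    intro k _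
    have hμ : algebraMap ℚ L (μ k) = algebraMap ℚ_[p] L (μ k : ℚ_[p]) := by
      rw [map_ratCast]
      simp
    rw [hμ]
    congr 1
    · rw [Lam_pow p ψ (E k) x0.1 i hi, map_sum]
      apply Finset.sum_congr rfl
      intro c _
      have h6 : g ^ (i * l c) = (prQ p Cg c) ^ i := by
        conv_rhs => rw [← hl c, map_pow, ← hg]
        rw [← pow_mul, mul_comm]
      rw [aeval_comp, map_pow, aeval_X, ← pow_mul, ← hP, h6]
  obtain ⟨i, hi, hx⟩ := exists_pow_eq_gen x0.2 x.2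
  have h1 := hR 1 (Nat.coprime_one_right _)
  rw [pow_one, pow_one, hy x0] at h1
  have h2 : aeval ζ R = ((y x0.1 : ℚ) : L) := by
    rw [h1]
    exact map_ratCast _ _
  have h3 := rational_const ζ (orderOf g) hζ hMpos R i
    (Nat.Coprime.coprime_dvd_left hMn hi).symm (y x0.1) h2
  rw [hR i hi] at h3
  have h4 := hy ⟨x0.1 ^ i, gens_pow x0.2 i hi⟩
  rw [h4] at h3
  have h5 : algebraMap ℚ_[p] L ((y (x0.1 ^ i) : ℚ) : ℚ_[p]) = ((y (x0.1 ^ i) : ℚ) : L) :=
    map_ratCast _ _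
  rw [h5] at h3
  rw [← hx]
  exact_mod_cast h3

/-- The local family of idempotents. -/
theorem exists_local (hψ : Function.Injective ψ) :
    ∃ E : Fin (nCls ψ p) → MonoidAlgebra ℚ_[p] Cg, (∀ k, E k ^ 2 = E k) ∧ 0 < nCls ψ p ∧
      ∀ (μ : Fin (nCls ψ p) → ℚ) (y : G → ℚ),
        (∀ x : Gens Cg, ∑ k, (μ k : ℚ_[p]) * tau (ψ x.1) (push ℚ_[p] ψ (E k)) =
          (y (ψ x.1) : ℚ_[p])) →
        ∀ (x : Gens Cg) (k : Fin (nCls ψ p)), μ k = if k.val = 0 then
          y (ψ x.1) * (Nat.card Cg : ℚ) / ((cset ψ (ψ x.1)).card : ℚ) else 0 := by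
  classical
  obtain ⟨E, hE1, hE2, hpos, hE3⟩ := exists_family p ψ hψ
  refine ⟨fun k => trf (prQ p Cg)
    (MonoidAlgebra.mapRingHom _ (PadicInt.Coe.ringHom (p := p)) (E k)), fun k => ?_, hpos, ?_⟩
  · rw [pow_two, trf_mul _ (prQ_surjective p Cg), ← map_mul, ← pow_two, hE1 k]
  intro μ y hy x k
  have hK : (Nat.card (prQ p Cg).ker : ℚ_[p]) ≠ 0 := Nat.cast_ne_zero.2 Nat.card_pos.ne'
  have hKQ : (Nat.card (prQ p Cg).ker : ℚ) ≠ 0 := Nat.cast_ne_zero.2 Nat.card_pos.ne'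
  have hm : (Nat.card (QQ p Cg) : ℚ) ≠ 0 := Nat.cast_ne_zero.2 Nat.card_pos.ne'
  have hmp : (Nat.card (QQ p Cg) : ℚ_[p]) ≠ 0 := Nat.cast_ne_zero.2 Nat.card_pos.ne'
  have hw : ((cset ψ (ψ x.1)).card : ℚ) ≠ 0 := Nat.cast_ne_zero.2 (card_cset_pos ψ x.1).ne'
  have hwp : ((cset ψ (ψ x.1)).card : ℚ_[p]) ≠ 0 := Nat.cast_ne_zero.2 (card_cset_pos ψ x.1).ne'
  have h1 : ∀ x' : Gens Cg, ∑ k, (μ k : ℚ_[p]) * Lam p ψ (E k) x'.1 =
      (((Nat.card (prQ p Cg).ker : ℚ) * y (ψ x'.1) : ℚ) : ℚ_[p]) := by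
    intro x'
    have h2 := hy x'
    simp only [tau_trf, mul_div_assoc'] at h2
    rw [← Finset.sum_div, div_eq_iff hK] at h2
    rw [h2]
    push_cast
    ring
  have h2 : ∀ x' : Gens Cg, (Nat.card (prQ p Cg).ker : ℚ) * y (ψ x'.1) =
      (Nat.card (prQ p Cg).ker : ℚ) * y (ψ x.1) := fun x' =>
    const_of_rational p ψ E hE1 μ (fun c => (Nat.card (prQ p Cg).ker : ℚ) * y (ψ c)) h1 x x'
  -- use linear independence
  let z : Fin (nCls ψ p) := ⟨0, hpos⟩
  let c0 : ℚ := y (ψ x.1) * (Nat.card Cg : ℚ) / ((cset ψ (ψ x.1)).card : ℚ)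
  have h3 : ∑ k, (((μ k - if k = z then c0 else 0 : ℚ)) : ℚ_[p]) • LamL p ψ (E k) = 0 := by
    ext q
    rw [Finset.sum_apply]
    simp only [Pi.smul_apply, smul_eq_mul, Pi.zero_apply]
    have h4 : ∀ k, LamL p ψ (E k) q = Lam p ψ (E k) (Quot.out q).1 := fun k => rfl
    simp only [h4]
    have h5 : ∑ k, (((μ k - if k = z then c0 else 0 : ℚ)) : ℚ_[p]) *
        Lam p ψ (E k) (Quot.out q).1 = ∑ k, (μ k : ℚ_[p]) * Lam p ψ (E k) (Quot.out q).1 -
        (c0 : ℚ_[p]) * Lam p ψ (E z) (Quot.out q).1 := by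
      rw [← Finset.sum_ite_eq' Finset.univ z
        (fun k => (c0 : ℚ_[p]) * Lam p ψ (E k) (Quot.out q).1) |>.trans (if_pos (Finset.mem_univ z)),
        ← Finset.sum_sub_distrib]
      apply Finset.sum_congr rfl
      intro k _
      split_ifs
      · push_cast; ring
      · push_cast; ring
    rw [h5, h1, h2 (Quot.out q), hE3 z rfl, card_cset_const ψ (Quot.out q) x]
    have hn : (Nat.card Cg : ℚ_[p]) =
        (Nat.card (prQ p Cg).ker : ℚ_[p]) * (Nat.card (QQ p Cg) : ℚ_[p]) := by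
      rw [← card_ker_mul p Cg]
      push_cast
      rfl
    simp only [c0]
    push_cast
    rw [hn]
    field_simp
    ring
  have h4 := (Fintype.linearIndependent_iff.1 hE2) _ h3 k
  have h5 : μ k - (if k = z then c0 else 0) = 0 := by exact_mod_cast h4
  rw [sub_eq_zero] at h5
  rw [h5]
  by_cases hkz : k = z
  · rw [if_pos hkz, if_pos (by rw [hkz])]
  · rw [if_neg hkz, if_neg (fun h => hkz (Fin.ext h))]

end Family

end Pool.Agent.Lib25
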