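import Pool.Agent.Lib_helper25.NodeU
import Pool.Agent.Lib_helper25.Raw

/-!
# Additivity of the node idempotents
-/

open Matrix

namespace Pool.Agent.Lib25

section Chain

variable {B B' : Type*} [Ring B] [Ring B']

theorem nodeU_idem (ι : B →+* B') (hι : Function.Injective ι) (a : B')
    (ha : ∀ x, a * x = x * a) (b f : B) (hb : ι b = a - a ^ 2) (hf : ι f = a * (a - a ^ 2))
    (U V : B) (hUV : U * V = 1) (hVU : V * U = 1) :
    nodeU b f U V * nodeU b f U V = nodeU b f U V := by
  have hιUV : ι U * ι V = 1 := by rw [← map_mul, hUV, map_one]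
  have hιVU : ι V * ι U = 1 := by rw [← map_mul, hVU, map_one]
  apply Matrix.map_injective hι
  change (nodeU b f U V * nodeU b f U V).map ι = (nodeU b f U V).map ι
  rw [Matrix.map_mul, nodeU_map, hb, hf, ← al_mul_be a ha hιUV hιVU]
  calc alU a (ι U) (ι V) * beU a (ι U) (ι V) * (alU a (ι U) (ι V) * beU a (ι U) (ι V)) =
      alU a (ι U) (ι V) * ((beU a (ι U) (ι V) * alU a (ι U) (ι V)) * beU a (ι U) (ι V)) := by
        simp only [Matrix.mul_assoc]
    _ = _ := by rw [be_mul_al a ha hιVU, Matrix.one_mul]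

theorem unip {N : B} (hN : N * N = 0) : (1 - N) * (1 + N) = 1 ∧ (1 + N) * (1 - N) = 1 := by
  constructor
  · have : (1 - N) * (1 + N) = 1 - N * N := by noncomm_ring
    rw [this, hN, sub_zero]
  · have : (1 + N) * (1 - N) = 1 - N * N := by noncomm_ring
    rw [this, hN, sub_zero]

theorem node_chain (ι : B →+* B') (hι : Function.Injective ι) (a : B')
    (ha : ∀ x, a * x = x * a) (b f : B) (hb : ι b = a - a ^ 2) (hf : ι f = a * (a - a ^ 2))
    (l : List B) (hl : ∀ N ∈ l, N * N = 0) : ∀ (U V : B) (_ : U * V = 1) (_ : V * U = 1),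
    ((U * (l.map fun N => 1 - N).prod) * ((l.reverse.map fun N => 1 + N).prod * V) = 1 ∧
      ((l.reverse.map fun N => 1 + N).prod * V) * (U * (l.map fun N => 1 - N).prod) = 1) ∧
    MvN (nodeU b f U V) (nodeU b f (U * (l.map fun N => 1 - N).prod)
      ((l.reverse.map fun N => 1 + N).prod * V)) := by
  induction l with
  | nil =>
    intro U V hUV hVU
    simp only [List.map_nil, List.prod_nil, List.reverse_nil, mul_one, one_mul]
    exact ⟨⟨hUV, hVU⟩, MvN.refl (nodeU_idem ι hι a ha b f hb hf U V hUV hVU)⟩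
  | cons N l ih =>
    intro U V hUV hVU
    have hN := hl N (List.mem_cons_self ..)
    obtain ⟨h1, h2⟩ := unip hN
    have hUV' : U * (1 - N) * ((1 + N) * V) = 1 := by
      have : U * (1 - N) * ((1 + N) * V) = U * ((1 - N) * (1 + N)) * V := by noncomm_ring
      rw [this, h1, mul_one, hUV]
    have hVU' : (1 + N) * V * (U * (1 - N)) = 1 := by
      have : (1 + N) * V * (U * (1 - N)) = (1 + N) * (V * U) * (1 - N) := by noncomm_ring
      rw [this, hVU, mul_one, h2]
    have h3 := ih (fun N' hN' => hl N' (List.mem_cons_of_mem _ hN')) (U * (1 - N)) ((1 + N) * V)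
      hUV' hVU'
    have e1 : U * (1 - N) * (l.map fun N => 1 - N).prod =
        U * (((N :: l).map fun N => 1 - N).prod) := by
      rw [List.map_cons, List.prod_cons, mul_assoc]
    have e2 : (l.reverse.map fun N => 1 + N).prod * ((1 + N) * V) =
        (((N :: l).reverse.map fun N => 1 + N).prod) * V := by
      rw [List.reverse_cons, List.map_append, List.prod_append]
      simp [mul_assoc]
    rw [e1, e2] at h3
    refine ⟨h3.1, ?_⟩
    refine MvN.trans (nodeU_idem ι hι a ha b f hb hf U V hUV hVU) ?_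
      (node_step ι hι a ha b f hb hf U V N hUV hVU hN) h3.2
    exact nodeU_idem ι hι a ha b f hb hf _ _ h3.1.1 h3.1.2

end Chain

section Diag

variable {R R' : Type*} [Ring R] [Ring R']

/-- The node matrix of a diagonal unit. -/
theorem nodeU_diag {K : Type*} [DecidableEq K] [Fintype K] (b f : R) (U V : K → R) :
    Matrix.compRingEquiv (Fin 2) K R (nodeU (Matrix.scalar K b) (Matrix.scalar K f)
      (Matrix.diagonal U) (Matrix.diagonal V)) =
    Matrix.blockDiagonal (fun k => nodeU b f (U k) (V k)) := by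
  have h1 : nodeU (Matrix.scalar K b) (Matrix.scalar K f) (Matrix.diagonal U)
      (Matrix.diagonal V) = (nodeU (fun _ : K => b) (fun _ => f) U V).map
        (Matrix.diagonalRingHom K R) := by
    rw [nodeU_map]
    rfl
  ext ⟨i, k⟩ ⟨j, l⟩
  rw [h1, Matrix.blockDiagonal_apply]
  change (Matrix.diagonal (nodeU (fun _ : K => b) (fun _ => f) U V i j)) k l = _
  rw [Matrix.diagonal_apply]
  split_ifs with hkl
  · have h2 := nodeU_map (Pi.evalRingHom (fun _ : K => R) k) (fun _ : K => b) (fun _ => f) U V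
    have h3 := congrFun (congrFun h2 i) j
    exact h3
  · rfl

/-- The isomorphism behind additivity, for block diagonal matrices. -/
theorem node_add_block (ι : R →+* R') (hι : Function.Injective ι) (a : R')
    (ha : ∀ x, a * x = x * a) (b f : R) (hb : ι b = a - a ^ 2) (hf : ι f = a * (a - a ^ 2))
    (t t' s s' : R) (ht : t * t' = 1) (ht' : t' * t = 1) (hs : s * s' = 1) (hs' : s' * s = 1) :
    MvN (Matrix.blockDiagonal (fun k : Fin 2 => nodeU b f (![t, s] k) (![t', s'] k)))
      (Matrix.blockDiagonal (fun k : Fin 2 => nodeU b f (![t * s, 1] k) (![s' * t', 1] k))) := by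
  let ιB : Matrix (Fin 2) (Fin 2) R →+* Matrix (Fin 2) (Fin 2) R' := ι.mapMatrix
  have hιB : Function.Injective ιB := Matrix.map_injective hι
  have haB : ∀ x : Matrix (Fin 2) (Fin 2) R', Matrix.scalar (Fin 2) a * x =
      x * Matrix.scalar (Fin 2) a := fun x => Matrix.scalar_commute a (fun r => ha r) x
  have hscal : ∀ x : R, ιB (Matrix.scalar (Fin 2) x) = Matrix.scalar (Fin 2) (ι x) := by
    intro x
    change (Matrix.diagonal fun _ => x).map ι = Matrix.diagonal fun _ => ι x
    rw [Matrix.diagonal_map (map_zero ι)]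
  have hbB : ιB (Matrix.scalar (Fin 2) b) =
      Matrix.scalar (Fin 2) a - Matrix.scalar (Fin 2) a ^ 2 := by
    rw [hscal, hb, map_sub, map_pow]
  have hfB : ιB (Matrix.scalar (Fin 2) f) = Matrix.scalar (Fin 2) a *
      (Matrix.scalar (Fin 2) a - Matrix.scalar (Fin 2) a ^ 2) := by
    rw [hscal, hf, map_mul, map_sub, map_pow]
  let N1 : Matrix (Fin 2) (Fin 2) R := !![0, -s; 0, 0]
  let N2 : Matrix (Fin 2) (Fin 2) R := !![0, 0; s', 0]
  let N3 : Matrix (Fin 2) (Fin 2) R := !![0, 1 - s; 0, 0]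
  let N4 : Matrix (Fin 2) (Fin 2) R := !![0, 0; -1, 0]
  let N5 : Matrix (Fin 2) (Fin 2) R := !![0, 1; 0, 0]
  have hone : (1 : Matrix (Fin 2) (Fin 2) R) = !![1, 0; 0, 1] := Matrix.one_fin_two
  have hNs : ∀ N ∈ [N1, N2, N3, N4, N5], N * N = 0 := by
    intro N hN
    simp only [List.mem_cons, List.not_mem_nil, or_false] at hN
    rcases hN with rfl | rfl | rfl | rfl | rfl <;>
    · ext i j
      fin_cases i <;> fin_cases j <;> simp [N1, N2, N3, N4, N5, Matrix.mul_apply]
  have hD : (Matrix.diagonal ![t, s] : Matrix (Fin 2) (Fin 2) R) * Matrix.diagonal ![t', s'] =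
      1 := by
    rw [Matrix.diagonal_mul_diagonal]
    have : (fun i => ![t, s] i * ![t', s'] i) = fun _ => (1 : R) := by
      funext i
      fin_cases i
      · exact ht
      · exact hs
    rw [this, Matrix.diagonal_one]
  have hD' : (Matrix.diagonal ![t', s'] : Matrix (Fin 2) (Fin 2) R) * Matrix.diagonal ![t, s] =
      1 := by
    rw [Matrix.diagonal_mul_diagonal]
    have : (fun i => ![t', s'] i * ![t, s] i) = fun _ => (1 : R) := by
      funext i
      fin_cases i
      · exact ht'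
      · exact hs'
    rw [this, Matrix.diagonal_one]
  have h1 := (node_chain ιB hιB (Matrix.scalar (Fin 2) a) haB (Matrix.scalar (Fin 2) b)
    (Matrix.scalar (Fin 2) f) hbB hfB [N1, N2, N3, N4, N5] hNs _ _ hD hD').2
  have p1 : 1 - N1 = !![1, s; 0, 1] := by
    rw [hone]; ext i j; fin_cases i <;> fin_cases j <;> simp [N1]
  have p2 : 1 - N2 = !![1, 0; -s', 1] := by
    rw [hone]; ext i j; fin_cases i <;> fin_cases j <;> simp [N2]
  have p3 : 1 - N3 = !![1, s - 1; 0, 1] := by
    rw [hone]; ext i j; fin_cases i <;> fin_cases j <;> simp [N3]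
  have p4 : 1 - N4 = !![1, 0; 1, 1] := by
    rw [hone]; ext i j; fin_cases i <;> fin_cases j <;> simp [N4]
  have p5 : 1 - N5 = !![1, -1; 0, 1] := by
    rw [hone]; ext i j; fin_cases i <;> fin_cases j <;> simp [N5]
  have q1 : 1 + N1 = !![1, -s; 0, 1] := by
    rw [hone]; ext i j; fin_cases i <;> fin_cases j <;> simp [N1]
  have q2 : 1 + N2 = !![1, 0; s', 1] := by
    rw [hone]; ext i j; fin_cases i <;> fin_cases j <;> simp [N2]
  have q3 : 1 + N3 = !![1, 1 - s; 0, 1] := by
    rw [hone]; ext i j; fin_cases i <;> fin_cases j <;> simp [N3]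
  have q4 : 1 + N4 = !![1, 0; -1, 1] := by
    rw [hone]; ext i j; fin_cases i <;> fin_cases j <;> simp [N4]
  have q5 : 1 + N5 = !![1, 1; 0, 1] := by
    rw [hone]; ext i j; fin_cases i <;> fin_cases j <;> simp [N5]
  have e1 : (([N1, N2, N3, N4, N5].map fun N => 1 - N).prod) = !![s, 0; 0, s'] := by
    simp only [List.map_cons, List.map_nil, List.prod_cons, List.prod_nil, mul_one]
    rw [p1, p2, p3, p4, p5]
    have r1 : (!![1, 0; 1, 1] * !![1, -1; 0, 1] : Matrix (Fin 2) (Fin 2) R) =
        !![1, -1; 1, 0] := by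
      rw [Matrix.mul_fin_two]; simp
    have r2 : (!![1, s - 1; 0, 1] * !![1, -1; 1, 0] : Matrix (Fin 2) (Fin 2) R) =
        !![s, -1; 1, 0] := by
      rw [Matrix.mul_fin_two]; simp
    have r3 : (!![1, 0; -s', 1] * !![s, -1; 1, 0] : Matrix (Fin 2) (Fin 2) R) =
        !![s, -1; 0, s'] := by
      rw [Matrix.mul_fin_two]; simp [hs']
    have r4 : (!![1, s; 0, 1] * !![s, -1; 0, s'] : Matrix (Fin 2) (Fin 2) R) =
        !![s, 0; 0, s'] := by
      rw [Matrix.mul_fin_two]; simp [hs]
    rw [r1, r2, r3, r4]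
  have e2 : (([N1, N2, N3, N4, N5].reverse.map fun N => 1 + N).prod) = !![s', 0; 0, s] := by
    have : [N1, N2, N3, N4, N5].reverse = [N5, N4, N3, N2, N1] := rfl
    rw [this]
    simp only [List.map_cons, List.map_nil, List.prod_cons, List.prod_nil, mul_one]
    rw [q1, q2, q3, q4, q5]
    have r1 : (!![1, 0; s', 1] * !![1, -s; 0, 1] : Matrix (Fin 2) (Fin 2) R) =
        !![1, -s; s', 0] := by
      rw [Matrix.mul_fin_two]; simp [hs']
    have r2 : (!![1, 1 - s; 0, 1] * !![1, -s; s', 0] : Matrix (Fin 2) (Fin 2) R) =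
        !![s', -s; s', 0] := by
      rw [Matrix.mul_fin_two]; simp [hs, sub_mul]
    have r3 : (!![1, 0; -1, 1] * !![s', -s; s', 0] : Matrix (Fin 2) (Fin 2) R) =
        !![s', -s; 0, s] := by
      rw [Matrix.mul_fin_two]; simp
    have r4 : (!![1, 1; 0, 1] * !![s', -s; 0, s] : Matrix (Fin 2) (Fin 2) R) =
        !![s', 0; 0, s] := by
      rw [Matrix.mul_fin_two]; simp
    rw [r1, r2, r3, r4]
  have e3 : (Matrix.diagonal ![t, s] : Matrix (Fin 2) (Fin 2) R) * !![s, 0; 0, s'] =
      Matrix.diagonal ![t * s, 1] := by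
    ext i j
    fin_cases i <;> fin_cases j <;> simp [hs]
  have e4 : (!![s', 0; 0, s] * Matrix.diagonal ![t', s'] : Matrix (Fin 2) (Fin 2) R) =
      Matrix.diagonal ![s' * t', 1] := by
    ext i j
    fin_cases i <;> fin_cases j <;> simp [hs]
  rw [e1, e2, e3, e4] at h1
  obtain ⟨x, y, hxy, hyx⟩ := h1
  refine ⟨Matrix.compRingEquiv (Fin 2) (Fin 2) R x, Matrix.compRingEquiv (Fin 2) (Fin 2) R y,
    ?_, ?_⟩
  · rw [← map_mul, hxy, nodeU_diag]
  · rw [← map_mul, hyx, nodeU_diag]

theorem mvN_block {e f : Matrix (Fin 2) (Fin 2) R} (M : Fin 2 → Matrix (Fin 2) (Fin 2) R)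
    (h0 : M 0 = e) (h1 : M 1 = f) (he : e * e = e) (hf : f * f = f) :
    MvN (Matrix.fromBlocks e 0 0 f) (Matrix.blockDiagonal M) := by
  let σ : Fin 2 × Fin 2 ≃ Fin 2 ⊕ Fin 2 :=
    { toFun := fun x => if x.2 = 0 then Sum.inl x.1 else Sum.inr x.1
      invFun := Sum.elim (fun i => (i, 0)) (fun i => (i, 1))
      left_inv := by
        rintro ⟨i, j⟩
        fin_cases j <;> simp
      right_inv := by
        rintro (i | i) <;> simp }
  have h2 := MvN.submatrix (idem_fromBlocks he hf) σ
  have h3 : (Matrix.fromBlocks e 0 0 f).submatrix σ σ = Matrix.blockDiagonal M := by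
    ext ⟨i, k⟩ ⟨j, l⟩
    rw [Matrix.blockDiagonal_apply, Matrix.submatrix_apply]
    fin_cases k <;> fin_cases l <;> simp [σ, h0, h1]
  rwa [h3] at h2

theorem nodeU_one (b f : R) : nodeU b f 1 1 = !![1, 0; 0, 0] := by
  have h : (1 : R) - 2 + 1 = 0 := by
    rw [← one_add_one_eq_two]
    abel
  unfold nodeU
  rw [h]
  ext i j
  fin_cases i <;> fin_cases j <;> simp

theorem mvN_one : MvN (!![1, 0; 0, 0] : Matrix (Fin 2) (Fin 2) R)
    (1 : Matrix (Fin 1) (Fin 1) R) := by
  refine ⟨!![1; 0], !![1, 0], ?_, ?_⟩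
  · ext i j
    fin_cases i <;> fin_cases j <;> simp
  · ext i j
    fin_cases i
    fin_cases j
    simp

end Diag

section K0Add

universe u w

variable {R : Type u} {R' : Type w} [Ring R] [Ring R']

/-- The node class. -/
def nodeI (b f U V : R) (h : nodeU b f U V * nodeU b f U V = nodeU b f U V) : IdemMat R :=
  ⟨2, nodeU b f U V, h⟩

theorem mvN_of_eq {e f : IdemMat R} (h : MvN e.mat f.mat) : IdemClass.mk e = IdemClass.mk f :=
  Quotient.sound h

/-- Additivity of the node classes. -/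
theorem nodeI_add (ι : R →+* R') (hι : Function.Injective ι) (a : R')
    (ha : ∀ x, a * x = x * a) (b f : R) (hb : ι b = a - a ^ 2) (hf : ι f = a * (a - a ^ 2))
    (t t' s s' : R) (ht : t * t' = 1) (ht' : t' * t = 1) (hs : s * s' = 1) (hs' : s' * s = 1)
    (i1 : nodeU b f t t' * nodeU b f t t' = nodeU b f t t')
    (i2 : nodeU b f s s' * nodeU b f s s' = nodeU b f s s')
    (i3 : nodeU b f (t * s) (s' * t') * nodeU b f (t * s) (s' * t') =
      nodeU b f (t * s) (s' * t')) :
    K0.of (nodeI b f t t' i1) + K0.of (nodeI b f s s' i2) =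
      K0.of (nodeI b f (t * s) (s' * t') i3) + K0.of (IdemMat.free R 1) := by
  have i4 : nodeU b f (1 : R) 1 * nodeU b f 1 1 = nodeU b f 1 1 :=
    nodeU_idem ι hι a ha b f hb hf 1 1 (mul_one 1) (mul_one 1)
  have h1 : MvN (Matrix.fromBlocks (nodeU b f t t') 0 0 (nodeU b f s s'))
      (Matrix.fromBlocks (nodeU b f (t * s) (s' * t')) 0 0 (nodeU b f 1 1)) := by
    have k1 := mvN_block (fun k : Fin 2 => nodeU b f (![t, s] k) (![t', s'] k)) rfl rfl i1 i2
    have k2 := mvN_block (fun k : Fin 2 => nodeU b f (![t * s, 1] k) (![s' * t', 1] k))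
      rfl rfl i3 i4
    have k3 := node_add_block ι hι a ha b f hb hf t t' s s' ht ht' hs hs'
    have k4 : Matrix.blockDiagonal (fun k : Fin 2 => nodeU b f (![t, s] k) (![t', s'] k)) *
        Matrix.blockDiagonal (fun k : Fin 2 => nodeU b f (![t, s] k) (![t', s'] k)) =
        Matrix.blockDiagonal (fun k : Fin 2 => nodeU b f (![t, s] k) (![t', s'] k)) := by
      rw [← Matrix.blockDiagonal_mul]
      congr 1
      funext k
      fin_cases k
      · exact i1
      · exact i2
    have k5 : Matrix.blockDiagonal (fun k : Fin 2 => nodeU b f (![t * s, 1] k)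
        (![s' * t', 1] k)) * Matrix.blockDiagonal (fun k : Fin 2 => nodeU b f (![t * s, 1] k)
        (![s' * t', 1] k)) = Matrix.blockDiagonal (fun k : Fin 2 => nodeU b f (![t * s, 1] k)
        (![s' * t', 1] k)) := by
      rw [← Matrix.blockDiagonal_mul]
      congr 1
      funext k
      fin_cases k
      · exact i3
      · exact i4
    exact (k1.trans (idem_fromBlocks i1 i2) k5 k3).trans (idem_fromBlocks i1 i2)
      (idem_fromBlocks i3 i4) k2.symm
  have h2 : MvN (Matrix.fromBlocks (nodeU b f t t') 0 0 (nodeU b f s s'))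
      (Matrix.fromBlocks (nodeU b f (t * s) (s' * t')) 0 0 (1 : Matrix (Fin 1) (Fin 1) R)) := by
    refine h1.trans (idem_fromBlocks i1 i2) (idem_fromBlocks i3 (mul_one _)) ?_
    refine MvN.fromBlocks (MvN.refl i3) ?_
    rw [nodeU_one]
    exact mvN_one
  have h3 : IdemClass.mk ((nodeI b f t t' i1).add (nodeI b f s s' i2)) =
      IdemClass.mk ((nodeI b f (t * s) (s' * t') i3).add (IdemMat.free R 1)) := by
    apply mvN_of_eq
    refine ((IdemMat.add_equiv_blocks _ _).symm.trans (IdemMat.add _ _).idem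
      (idem_fromBlocks i3 (mul_one _)) h2).trans (IdemMat.add _ _).idem (IdemMat.add _ _).idem ?_
    exact IdemMat.add_equiv_blocks (nodeI b f (t * s) (s' * t') i3) (IdemMat.free R 1)
  rw [IdemClass.mk_add, IdemClass.mk_add] at h3
  have h4 := congrArg (Algebra.GrothendieckAddGroup.of) h3
  rw [map_add, map_add] at h4
  exact h4

end K0Add

end Pool.Agent.Lib25
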