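import Pool.Agent.Lib_helper25.BaseClass

/-!
# Node idempotents attached to units of noncommutative rings

Let `b`, `f` be central elements of a ring `B` which become `a - a²` and `a (a - a²)` in a larger
ring with `a` central.  To a unit `U` of `B` we attach an idempotent matrix `nodeU b f U V`,
`V = U⁻¹`.  We show that its class does not change when `U` is multiplied by a unipotent
elementary unit, and deduce that it is additive in `U`.
-/

open Matrix

namespace Pool.Agent.Lib25

section NodeU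

/-- The node idempotent attached to a unit `U` with inverse `V`. -/
def nodeU {B : Type*} [Ring B] (b f U V : B) : Matrix (Fin 2) (Fin 2) B :=
  !![1 - (b * (U - 2 + V)) ^ 2, -((b + (U - 1) * f) * (U - 2 + V) * (1 - b * (U - 2 + V)));
     -((b + (V - 1) * f) * (U - 2 + V)), (b * (U - 2 + V)) ^ 2]

theorem nodeU_map {B B' : Type*} [Ring B] [Ring B'] (ι : B →+* B') (b f U V : B) :
    (nodeU b f U V).map ι = nodeU (ι b) (ι f) (ι U) (ι V) := by
  have h2 : ι 2 = 2 := map_ofNat ι 2
  unfold nodeU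
  ext1 i j
  fin_cases i <;> fin_cases j <;> simp [h2]

variable {B' : Type*} [Ring B']

theorem triple_expand (a : B') (ha : ∀ x, a * x = x * a) (p q r : B') :
    (1 + p * a) * (1 + q * a) * (1 + r * a) =
      1 + (p + q + r) * a + (p * q + p * r + q * r) * a ^ 2 + p * q * r * a ^ 3 := by
  have h1 : ∀ x y : B', x * a * (y * a) = x * y * a ^ 2 := by
    intro x y
    rw [pow_two, mul_assoc, ← mul_assoc a y a, ha y]
    simp only [mul_assoc]
  have h2 : p * a * (q * a) * (r * a) = p * q * r * a ^ 3 := by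
    rw [h1, mul_assoc, ← mul_assoc (a ^ 2) r a, ((show Commute a r from ha r).pow_left 2).eq]
    rw [pow_succ a 2]
    simp only [mul_assoc]
  calc (1 + p * a) * (1 + q * a) * (1 + r * a) =
      1 + (p + q + r) * a + (p * a * (q * a) + p * a * (r * a) + q * a * (r * a)) +
        p * a * (q * a) * (r * a) := by noncomm_ring
    _ = _ := by
      rw [h2, h1, h1, h1]
      noncomm_ring

/-- Integrality of the main entry. -/
theorem triple_mem (S : Subring B') (a : B') (ha : ∀ x, a * x = x * a) (hb : a - a ^ 2 ∈ S)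
    (hf : a * (a - a ^ 2) ∈ S) {p q r : B'} (hp : p ∈ S) (hq : q ∈ S) (hr : r ∈ S)
    (h : (1 + p) * (1 + q) * (1 + r) = 1) :
    (1 + p * a) * (1 + q * a) * (1 + r * a) ∈ S := by
  rw [triple_expand a ha]
  have h1 : p * q * r = -(p + q + r) - (p * q + p * r + q * r) := by
    have h2 : (1 + p) * (1 + q) * (1 + r) =
      1 + (p + q + r) + (p * q + p * r + q * r) + p * q * r := by noncomm_ring
    rw [h2] at h
    have h3 : p * q * r = (1 + (p + q + r) + (p * q + p * r + q * r) + p * q * r) - 1 -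
      (p + q + r) - (p * q + p * r + q * r) := by abel
    rw [h3, h]
    abel
  have h2 : 1 + (p + q + r) * a + (p * q + p * r + q * r) * a ^ 2 + p * q * r * a ^ 3 =
      1 + (p + q + r) * ((a - a ^ 2) + a * (a - a ^ 2)) +
        (p * q + p * r + q * r) * (a * (a - a ^ 2)) := by
    rw [h1]
    noncomm_ring
  rw [h2]
  exact S.add_mem (S.add_mem S.one_mem (S.mul_mem (S.add_mem (S.add_mem hp hq) hr)
    (S.add_mem hb hf))) (S.mul_mem (S.add_mem (S.add_mem (S.mul_mem hp hq) (S.mul_mem hp hr))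
    (S.mul_mem hq hr)) hf)

/-- The subring `S + S a`. -/
def SA (S : Subring B') (a : B') (ha : ∀ x, a * x = x * a) (hb : a - a ^ 2 ∈ S) : Subring B' where
  carrier := {x | ∃ u ∈ S, ∃ v ∈ S, x = u + v * a}
  zero_mem' := ⟨0, S.zero_mem, 0, S.zero_mem, by simp⟩
  one_mem' := ⟨1, S.one_mem, 0, S.zero_mem, by simp⟩
  add_mem' := by
    rintro _ _ ⟨u, hu, v, hv, rfl⟩ ⟨u', hu', v', hv', rfl⟩
    exact ⟨u + u', S.add_mem hu hu', v + v', S.add_mem hv hv', by noncomm_ring⟩
  neg_mem' := by
    rintro _ ⟨u, hu, v, hv, rfl⟩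
    exact ⟨-u, S.neg_mem hu, -v, S.neg_mem hv, by noncomm_ring⟩
  mul_mem' := by
    rintro _ _ ⟨u, hu, v, hv, rfl⟩ ⟨u', hu', v', hv', rfl⟩
    refine ⟨u * u' - v * v' * (a - a ^ 2), S.sub_mem (S.mul_mem hu hu')
      (S.mul_mem (S.mul_mem hv hv') hb), u * v' + v * u' + v * v',
      S.add_mem (S.add_mem (S.mul_mem hu hv') (S.mul_mem hv hu')) (S.mul_mem hv hv'), ?_⟩
    have h1 : v * a * u' = v * u' * a := by rw [mul_assoc, ha u', mul_assoc]
    have h2 : v * a * (v' * a) = v * v' * a ^ 2 := by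
      rw [pow_two, mul_assoc, ← mul_assoc a v' a, ha v']
      simp only [mul_assoc]
    calc (u + v * a) * (u' + v' * a) = u * u' + u * v' * a + v * a * u' + v * a * (v' * a) := by
          noncomm_ring
      _ = _ := by rw [h1, h2]; noncomm_ring

theorem le_SA (S : Subring B') (a : B') (ha : ∀ x, a * x = x * a) (hb : a - a ^ 2 ∈ S) {x : B'}
    (hx : x ∈ S) : x ∈ SA S a ha hb := ⟨x, hx, 0, S.zero_mem, by simp⟩

theorem a_mem_SA (S : Subring B') (a : B') (ha : ∀ x, a * x = x * a) (hb : a - a ^ 2 ∈ S) :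
    a ∈ SA S a ha hb := ⟨0, S.zero_mem, 1, S.one_mem, by simp⟩

theorem mul_SA_mem (S : Subring B') (a : B') (ha : ∀ x, a * x = x * a) (hb : a - a ^ 2 ∈ S)
    (hf : a * (a - a ^ 2) ∈ S) {x : B'} (hx : x ∈ SA S a ha hb) : (a - a ^ 2) * x ∈ S := by
  obtain ⟨u, hu, v, hv, rfl⟩ := hx
  have hc : ∀ x, (a - a ^ 2) * x = x * (a - a ^ 2) := by
    intro x
    exact ((show Commute a x from ha x).sub_left ((show Commute a x from ha x).pow_left 2)).eq
  have h1 : (a - a ^ 2) * (u + v * a) = u * (a - a ^ 2) + v * (a * (a - a ^ 2)) := by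
    rw [mul_add, hc u, ← mul_assoc, hc v, mul_assoc, hc a]
  rw [h1]
  exact S.add_mem (S.mul_mem hu hb) (S.mul_mem hv hf)

/-- The trivialising column. -/
def alU (a U V : B') : Matrix (Fin 2) (Fin 1) B' :=
  !![(1 + (U - 1) * a) * (1 - (a - a ^ 2) * (U - 2 + V)); -((a - a ^ 2) * (U - 2 + V))]

/-- The trivialising row. -/
def beU (a U V : B') : Matrix (Fin 1) (Fin 2) B' :=
  !![1 + (V - 1) * a, -((a - a ^ 2) * (U - 2 + V))]

theorem cd_eq (a : B') (ha : ∀ x, a * x = x * a) {U V : B'} (hUV : U * V = 1) :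
    (1 + (U - 1) * a) * (1 + (V - 1) * a) = 1 + (a - a ^ 2) * (U - 2 + V) := by
  have h1 : (U - 1) * a * ((V - 1) * a) = (U - 1) * (V - 1) * a ^ 2 := by
    rw [pow_two, mul_assoc, ← mul_assoc a (V - 1) a, ha (V - 1)]
    simp only [mul_assoc]
  have h2 : (U - 1) * (V - 1) = -(U - 2 + V) := by
    have : (U - 1) * (V - 1) = U * V - U - V + 1 := by noncomm_ring
    rw [this, hUV]
    have h3 : (2 : B') = 1 + 1 := one_add_one_eq_two.symm
    rw [h3]
    abel
  have hc : (a - a ^ 2) * (U - 2 + V) = (U - 2 + V) * (a - a ^ 2) :=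
    ((show Commute a _ from ha _).sub_left ((show Commute a _ from ha _).pow_left 2)).eq
  rw [hc]
  calc (1 + (U - 1) * a) * (1 + (V - 1) * a) =
      1 + (U - 1 + (V - 1)) * a + (U - 1) * a * ((V - 1) * a) := by noncomm_ring
    _ = 1 + (U - 2 + V) * a - (U - 2 + V) * a ^ 2 := by
      rw [h1, h2]
      have h3 : (2 : B') = 1 + 1 := one_add_one_eq_two.symm
      rw [h3]
      noncomm_ring
    _ = _ := by noncomm_ring

theorem be_mul_al (a : B') (ha : ∀ x, a * x = x * a) {U V : B'} (hVU : V * U = 1) : beU a U V * alU a U V = 1 := by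
  have h1 := cd_eq a ha hVU
  have h2 : V - 2 + U = U - 2 + V := by abel
  rw [h2] at h1
  unfold beU alU
  set δ := (a - a ^ 2) * (U - 2 + V)
  ext i j
  fin_cases i
  fin_cases j
  simp only [Fin.zero_eta, Fin.isValue, Matrix.mul_apply, Fin.sum_univ_two, Matrix.cons_val',
    Matrix.cons_val_zero, Matrix.cons_val_fin_one, Matrix.cons_val_one, Matrix.of_apply,
    Matrix.one_apply_eq]
  rw [← mul_assoc, h1]
  noncomm_ring

theorem al_mul_be (a : B') (ha : ∀ x, a * x = x * a) {U V : B'} (hUV : U * V = 1)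
    (hVU : V * U = 1) : alU a U V * beU a U V = nodeU (a - a ^ 2) (a * (a - a ^ 2)) U V := by
  have h1 := cd_eq a ha hUV
  have hab : ∀ x, (a - a ^ 2) * x = x * (a - a ^ 2) := fun x =>
    ((show Commute a x from ha x).sub_left ((show Commute a x from ha x).pow_left 2)).eq
  have hcU : Commute U (U - 2 + V) := by
    have hc2 : Commute U 2 := by
      rw [← one_add_one_eq_two]
      exact (Commute.one_right U).add_right (Commute.one_right U)
    exact ((Commute.refl U).sub_right hc2).add_right (show U * V = V * U by rw [hUV, hVU])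
  have hcV : Commute V (U - 2 + V) := by
    have hc2 : Commute V 2 := by
      rw [← one_add_one_eq_two]
      exact (Commute.one_right V).add_right (Commute.one_right V)
    have hVU' : Commute V U := by
      change V * U = U * V
      rw [hUV, hVU]
    exact (hVU'.sub_right hc2).add_right (Commute.refl V)
  have hδc : Commute ((a - a ^ 2) * (U - 2 + V)) (1 + (U - 1) * a) := by
    have h3 : Commute (a - a ^ 2) (1 + (U - 1) * a) := hab _
    have h4 : Commute (U - 2 + V) (1 + (U - 1) * a) := by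
      refine (Commute.one_right _).add_right (Commute.mul_right ?_ (ha _).symm)
      exact hcU.symm.sub_right (Commute.one_right _)
    exact h3.mul_left h4
  have hδd : Commute ((a - a ^ 2) * (U - 2 + V)) (1 + (V - 1) * a) := by
    have h3 : Commute (a - a ^ 2) (1 + (V - 1) * a) := hab _
    have h4 : Commute (U - 2 + V) (1 + (V - 1) * a) := by
      refine (Commute.one_right _).add_right (Commute.mul_right ?_ (ha _).symm)
      exact hcV.symm.sub_right (Commute.one_right _)
    exact h3.mul_left h4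
  have e1 : (a - a ^ 2) + (U - 1) * (a * (a - a ^ 2)) = (1 + (U - 1) * a) * (a - a ^ 2) := by
    noncomm_ring
  have e2 : (a - a ^ 2) + (V - 1) * (a * (a - a ^ 2)) = (1 + (V - 1) * a) * (a - a ^ 2) := by
    noncomm_ring
  unfold nodeU alU beU
  rw [e1, e2, mul_assoc (1 + (U - 1) * a) (a - a ^ 2), mul_assoc (1 + (V - 1) * a) (a - a ^ 2)]
  set δ := (a - a ^ 2) * (U - 2 + V)
  set c := 1 + (U - 1) * a
  set d := 1 + (V - 1) * a
  have f1 : c * (1 - δ) * d = 1 - δ ^ 2 := by
    have : c * (1 - δ) * d = c * d - c * (δ * d) := by noncomm_ring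
    rw [this, hδd.eq, ← mul_assoc, h1]
    noncomm_ring
  have f2 : c * (1 - δ) * -δ = -(c * δ * (1 - δ)) := by noncomm_ring
  have f3 : -δ * d = -(d * δ) := by rw [neg_mul, hδd.eq]
  ext i j
  fin_cases i <;> fin_cases j <;>
    simp only [Fin.zero_eta, Fin.mk_one, Fin.isValue, Matrix.mul_apply, Finset.univ_unique,
      Fin.default_eq_zero, Finset.sum_singleton, Matrix.cons_val', Matrix.cons_val_zero,
      Matrix.cons_val_fin_one, Matrix.cons_val_one, Matrix.of_apply]
  · exact f1
  · exact f2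
  · exact f3
  · noncomm_ring

/-- One unipotent step. -/
theorem node_step {B : Type*} [Ring B] (ι : B →+* B') (hι : Function.Injective ι) (a : B')
    (ha : ∀ x, a * x = x * a) (b f : B) (hb : ι b = a - a ^ 2) (hf : ι f = a * (a - a ^ 2))
    (U V N : B) (hUV : U * V = 1) (hVU : V * U = 1) (hN : N * N = 0) :
    MvN (nodeU b f U V) (nodeU b f (U * (1 - N)) ((1 + N) * V)) := by
  have hN1 : (1 - N) * (1 + N) = 1 := by
    have : (1 - N) * (1 + N) = 1 - N * N := by noncomm_ring
    rw [this, hN, sub_zero]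
  have hN2 : (1 + N) * (1 - N) = 1 := by
    have : (1 + N) * (1 - N) = 1 - N * N := by noncomm_ring
    rw [this, hN, sub_zero]
  set S := ι.range with hS
  have hbS : a - a ^ 2 ∈ S := ⟨b, hb⟩
  have hfS : a * (a - a ^ 2) ∈ S := ⟨f, hf⟩
  have hιS : ∀ x, ι x ∈ S := fun x => ⟨x, rfl⟩
  -- integrality of the transition matrices
  have key : ∀ (U V U' V' M : B) (_ : U' * (1 + M) * V = 1),
      ∃ X : Matrix (Fin 2) (Fin 2) B, X.map ι = alU a (ι U') (ι V') *
        !![1 + ι M * a] * beU a (ι U) (ι V) := by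
    intro U V U' V' M hUM
    have hall : ∀ i j, (alU a (ι U') (ι V') * !![1 + ι M * a] * beU a (ι U) (ι V)) i j ∈ S := by
      have hSA : ∀ x, ι x ∈ SA S a ha hbS := fun x => le_SA S a ha hbS (hιS x)
      have haSA := a_mem_SA S a ha hbS
      have hA := SA S a ha hbS
      have hw : ∀ X Y : B, ι X - 2 + ι Y ∈ SA S a ha hbS := by
        intro X Y
        have : ι X - 2 + ι Y = ι (X - 2 + Y) := by rw [map_add, map_sub, map_ofNat]
        rw [this]
        exact hSA _
      have hab : ∀ x, (a - a ^ 2) * x = x * (a - a ^ 2) := fun x =>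
        ((show Commute a x from ha x).sub_left ((show Commute a x from ha x).pow_left 2)).eq
      have h1M : 1 + ι M * a ∈ SA S a ha hbS :=
        (SA S a ha hbS).add_mem (SA S a ha hbS).one_mem ((SA S a ha hbS).mul_mem (hSA _) haSA)
      have hcm : ∀ X : B, 1 + (ι X - 1) * a ∈ SA S a ha hbS := fun X =>
        (SA S a ha hbS).add_mem (SA S a ha hbS).one_mem ((SA S a ha hbS).mul_mem
          ((SA S a ha hbS).sub_mem (hSA _) (SA S a ha hbS).one_mem) haSA)
      have hbm : a - a ^ 2 ∈ SA S a ha hbS := le_SA S a ha hbS hbS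
      have hδm : ∀ X Y : B, (a - a ^ 2) * (ι X - 2 + ι Y) ∈ SA S a ha hbS := fun X Y =>
        (SA S a ha hbS).mul_mem hbm (hw X Y)
      intro i j
      fin_cases i <;> fin_cases j <;>
        simp only [alU, beU, Fin.zero_eta, Fin.mk_one, Fin.isValue, Matrix.mul_apply,
          Finset.univ_unique,
          Fin.default_eq_zero, Finset.sum_singleton, Matrix.cons_val', Matrix.cons_val_zero,
          Matrix.cons_val_fin_one, Matrix.cons_val_one, Matrix.of_apply]
      · -- main entry
        have h1 : (1 + (ι U' - 1) * a) * (1 - (a - a ^ 2) * (ι U' - 2 + ι V')) * (1 + ι M * a) *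
            (1 + (ι V - 1) * a) =
            (1 + (ι U' - 1) * a) * (1 + ι M * a) * (1 + (ι V - 1) * a) -
            (a - a ^ 2) * ((1 + (ι U' - 1) * a) * (ι U' - 2 + ι V') * (1 + ι M * a) *
            (1 + (ι V - 1) * a)) := by
          have h2 : (1 + (ι U' - 1) * a) * ((a - a ^ 2) * (ι U' - 2 + ι V')) =
              (a - a ^ 2) * ((1 + (ι U' - 1) * a) * (ι U' - 2 + ι V')) := by
            rw [← mul_assoc, ← hab, mul_assoc]
          rw [mul_sub, mul_one, h2]
          noncomm_ring
        rw [h1]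
        refine S.sub_mem ?_ (mul_SA_mem S a ha hbS hfS ((SA S a ha hbS).mul_mem
          ((SA S a ha hbS).mul_mem ((SA S a ha hbS).mul_mem (hcm _) (hw _ _)) h1M) (hcm _)))
        apply triple_mem S a ha hbS hfS (S.sub_mem (hιS _) S.one_mem) (hιS _)
          (S.sub_mem (hιS _) S.one_mem)
        rw [add_sub_cancel, add_sub_cancel, ← map_one ι, ← map_add, ← map_mul, ← map_mul, hUM]
      · have h1 : (1 + (ι U' - 1) * a) * (1 - (a - a ^ 2) * (ι U' - 2 + ι V')) * (1 + ι M * a) *
            -((a - a ^ 2) * (ι U - 2 + ι V)) =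
            (a - a ^ 2) * (-((1 + (ι U' - 1) * a) * (1 - (a - a ^ 2) * (ι U' - 2 + ι V')) *
              (1 + ι M * a) * (ι U - 2 + ι V))) := by
          rw [mul_neg, mul_neg, ← mul_assoc _ (a - a ^ 2), ← hab]
          simp only [mul_assoc]
        rw [h1]
        exact mul_SA_mem S a ha hbS hfS ((SA S a ha hbS).neg_mem ((SA S a ha hbS).mul_mem
          ((SA S a ha hbS).mul_mem ((SA S a ha hbS).mul_mem (hcm _)
          ((SA S a ha hbS).sub_mem (SA S a ha hbS).one_mem (hδm _ _))) h1M) (hw _ _)))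
      · have h1 : -((a - a ^ 2) * (ι U' - 2 + ι V')) * (1 + ι M * a) * (1 + (ι V - 1) * a) =
            (a - a ^ 2) * (-((ι U' - 2 + ι V') * (1 + ι M * a) * (1 + (ι V - 1) * a))) := by
          noncomm_ring
        rw [h1]
        exact mul_SA_mem S a ha hbS hfS ((SA S a ha hbS).neg_mem ((SA S a ha hbS).mul_mem
          ((SA S a ha hbS).mul_mem (hw _ _) h1M) (hcm _)))
      · have h1 : -((a - a ^ 2) * (ι U' - 2 + ι V')) * (1 + ι M * a) *
            -((a - a ^ 2) * (ι U - 2 + ι V)) =
            (a - a ^ 2) * ((ι U' - 2 + ι V') * (1 + ι M * a) *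
              ((a - a ^ 2) * (ι U - 2 + ι V))) := by
          rw [mul_neg, neg_mul, neg_mul, neg_neg]
          simp only [mul_assoc]
        rw [h1]
        exact mul_SA_mem S a ha hbS hfS ((SA S a ha hbS).mul_mem
          ((SA S a ha hbS).mul_mem (hw _ _) h1M) (hδm _ _))
    choose X hX using hall
    exact ⟨Matrix.of X, by ext i j; exact hX i j⟩
  obtain ⟨X, hX⟩ := key U V (U * (1 - N)) ((1 + N) * V) N (by
    rw [mul_assoc U, hN1, mul_one, hUV])
  obtain ⟨Y, hY⟩ := key (U * (1 - N)) ((1 + N) * V) U V (-N) (by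
    have : U * (1 + -N) * ((1 + N) * V) = U * ((1 - N) * (1 + N)) * V := by noncomm_ring
    rw [this, hN1, mul_one, hUV])
  have hinj : ∀ M N : Matrix (Fin 2) (Fin 2) B, M.map ι = N.map ι → M = N := fun M N h =>
    Matrix.map_injective hι h
  have hU'V' : (ι (U * (1 - N))) * (ι ((1 + N) * V)) = 1 := by
    rw [← map_mul, ← map_one ι]
    congr 1
    have : U * (1 - N) * ((1 + N) * V) = U * ((1 - N) * (1 + N)) * V := by noncomm_ring
    rw [this, hN1, mul_one, hUV]
  have hV'U' : (ι ((1 + N) * V)) * (ι (U * (1 - N))) = 1 := by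
    rw [← map_mul, ← map_one ι]
    congr 1
    have : (1 + N) * V * (U * (1 - N)) = (1 + N) * (V * U) * (1 - N) := by noncomm_ring
    rw [this, hVU, mul_one, hN2]
  have hιUV : ι U * ι V = 1 := by rw [← map_mul, hUV, map_one]
  have hιVU : ι V * ι U = 1 := by rw [← map_mul, hVU, map_one]
  have hm1 : (!![1 + ι N * a] * !![1 + ι (-N) * a] : Matrix (Fin 1) (Fin 1) B') = 1 := by
    ext i j
    fin_cases i
    fin_cases j
    simp only [Fin.zero_eta, Fin.isValue, Matrix.mul_apply, Finset.univ_unique,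
      Fin.default_eq_zero, Finset.sum_singleton, Matrix.cons_val', Matrix.cons_val_zero,
      Matrix.cons_val_fin_one, Matrix.of_apply, Matrix.one_apply_eq]
    rw [map_neg]
    have h1 : ι N * a * (ι N * a) = 0 := by
      rw [mul_assoc, ← mul_assoc a, ha, mul_assoc, ← mul_assoc, ← map_mul, hN, map_zero, zero_mul]
    calc (1 + ι N * a) * (1 + -ι N * a) = 1 - ι N * a * (ι N * a) := by noncomm_ring
      _ = 1 := by rw [h1, sub_zero]
  have hm2 : (!![1 + ι (-N) * a] * !![1 + ι N * a] : Matrix (Fin 1) (Fin 1) B') = 1 := by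
    ext i j
    fin_cases i
    fin_cases j
    simp only [Fin.zero_eta, Fin.isValue, Matrix.mul_apply, Finset.univ_unique,
      Fin.default_eq_zero, Finset.sum_singleton, Matrix.cons_val', Matrix.cons_val_zero,
      Matrix.cons_val_fin_one, Matrix.of_apply, Matrix.one_apply_eq]
    rw [map_neg]
    have h1 : ι N * a * (ι N * a) = 0 := by
      rw [mul_assoc, ← mul_assoc a, ha, mul_assoc, ← mul_assoc, ← map_mul, hN, map_zero, zero_mul]
    calc (1 + -ι N * a) * (1 + ι N * a) = 1 - ι N * a * (ι N * a) := by noncomm_ring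
      _ = 1 := by rw [h1, sub_zero]
  refine ⟨Y, X, hinj _ _ ?_, hinj _ _ ?_⟩
  · rw [Matrix.map_mul, hX, hY, nodeU_map, hb, hf, ← al_mul_be a ha hιUV hιVU]
    calc alU a (ι U) (ι V) * !![1 + ι (-N) * a] * beU a (ι (U * (1 - N))) (ι ((1 + N) * V)) *
          (alU a (ι (U * (1 - N))) (ι ((1 + N) * V)) * !![1 + ι N * a] * beU a (ι U) (ι V)) =
        alU a (ι U) (ι V) * (!![1 + ι (-N) * a] * ((beU a (ι (U * (1 - N))) (ι ((1 + N) * V)) *
          alU a (ι (U * (1 - N))) (ι ((1 + N) * V))) * !![1 + ι N * a])) * beU a (ι U) (ι V) := by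
          simp only [Matrix.mul_assoc]
      _ = _ := by rw [be_mul_al a ha hV'U', Matrix.one_mul, hm2, Matrix.mul_one]
  · rw [Matrix.map_mul, hX, hY, nodeU_map, hb, hf, ← al_mul_be a ha hU'V' hV'U']
    calc alU a (ι (U * (1 - N))) (ι ((1 + N) * V)) * !![1 + ι N * a] * beU a (ι U) (ι V) *
          (alU a (ι U) (ι V) * !![1 + ι (-N) * a] *
            beU a (ι (U * (1 - N))) (ι ((1 + N) * V))) =
        alU a (ι (U * (1 - N))) (ι ((1 + N) * V)) * (!![1 + ι N * a] *
          ((beU a (ι U) (ι V) * alU a (ι U) (ι V)) * !![1 + ι (-N) * a])) *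
            beU a (ι (U * (1 - N))) (ι ((1 + N) * V)) := by
          simp only [Matrix.mul_assoc]
      _ = _ := by rw [be_mul_al a ha hιVU, Matrix.one_mul, hm1, Matrix.mul_one]

end NodeU

end Pool.Agent.Lib25
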