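import Pool.Agent.Lib_helper25.Cyc

/-!
# The Hochschild cocycle attached to a conjugation cocycle
-/

open Matrix

namespace Pool.Agent.Lib25

section Phi

variable {k : Type*} [CommRing k] {G : Type*} [Group G]

set_option linter.unusedSectionVars false

/-- The additive map `y ↦ ∑ a, u * y_a * W b a`. -/
noncomputable def phiAux (W : G → G → ℤ) (b : G) (u : k) : MonoidAlgebra k G →+ k :=
  (Finsupp.liftAddHom (fun a => AddMonoidHom.mulLeft (u * (W b a : k)))).comp
    (MonoidAlgebra.coeffAddEquiv (R := k) (M := G)).toAddMonoidHom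

theorem phiAux_single (W : G → G → ℤ) (b a : G) (u v : k) :
    phiAux W b u (MonoidAlgebra.single a v) = u * v * (W b a : k) := by
  simp only [phiAux, AddMonoidHom.comp_apply]
  have : (MonoidAlgebra.coeffAddEquiv (R := k) (M := G)).toAddMonoidHom
      (MonoidAlgebra.single a v) = Finsupp.single a v := rfl
  rw [this, Finsupp.liftAddHom_apply_single]
  simp only [AddMonoidHom.coe_mulLeft]
  ring

theorem phiAux_add (W : G → G → ℤ) (b : G) (u u' : k) :
    phiAux W b (u + u') = phiAux W b u + phiAux W b u' := by
  ext y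
  simp [phiAux_single, add_mul]

theorem phiAux_zero (W : G → G → ℤ) (b : G) :
    phiAux W b (0 : k) = 0 := by
  ext y
  simp [phiAux_single]

/-- The biadditive form `∑ x_b * y_a * W b a` on the group ring. -/
noncomputable def phi (W : G → G → ℤ) :
    MonoidAlgebra k G →+ (MonoidAlgebra k G →+ k) :=
  (Finsupp.liftAddHom (fun b => (⟨⟨phiAux W b, phiAux_zero W b⟩, phiAux_add W b⟩ :
    k →+ (MonoidAlgebra k G →+ k)))).comp
    (MonoidAlgebra.coeffAddEquiv (R := k) (M := G)).toAddMonoidHom

theorem phi_single_left (W : G → G → ℤ) (b : G) (u : k) (y : MonoidAlgebra k G) :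
    phi W (MonoidAlgebra.single b u) y = phiAux W b u y := by
  simp only [phi, AddMonoidHom.comp_apply]
  have : (MonoidAlgebra.coeffAddEquiv (R := k) (M := G)).toAddMonoidHom
      (MonoidAlgebra.single b u) = Finsupp.single b u := rfl
  rw [this, Finsupp.liftAddHom_apply_single]
  rfl

theorem phi_single (W : G → G → ℤ) (b a : G) (u v : k) :
    phi W (MonoidAlgebra.single b u) (MonoidAlgebra.single a v) = u * v * (W b a : k) := by
  rw [phi_single_left, phiAux_single]

theorem phi_map {k' : Type*} [CommRing k'] (f : k →+* k') (W : G → G → ℤ)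
    (x y : MonoidAlgebra k G) :
    phi W (MonoidAlgebra.mapRingHom G f x) (MonoidAlgebra.mapRingHom G f y) = f (phi W x y) := by
  induction x using MonoidAlgebra.induction_linear with
  | zero => simp
  | add p q hp hq => simp [hp, hq]
  | single b u =>
    induction y using MonoidAlgebra.induction_linear with
    | zero => simp
    | add p q hp hq => simp only [map_add, hp, hq]
    | single a v =>
      rw [MonoidAlgebra.mapRingHom_single, MonoidAlgebra.mapRingHom_single, phi_single, phi_single]
      simp

/-- The cocycle condition. -/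
def IsCocycle (W : G → G → ℤ) : Prop :=
  ∀ x y z : G, W (x * y) z - W x (y * z) + W (z * x) y = 0

theorem phi_cocycle {W : G → G → ℤ} (hW : IsCocycle W) (x y z : MonoidAlgebra k G) :
    phi W (x * y) z - phi W x (y * z) + phi W (z * x) y = 0 := by
  induction x using MonoidAlgebra.induction_linear with
  | zero => simp
  | add p q hp hq =>
    simp only [add_mul, mul_add, map_add, AddMonoidHom.add_apply]
    linear_combination hp + hq
  | single a u =>
    induction y using MonoidAlgebra.induction_linear with
    | zero => simp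
    | add p q hp hq =>
      simp only [add_mul, mul_add, map_add, AddMonoidHom.add_apply]
      linear_combination hp + hq
    | single b v =>
      induction z using MonoidAlgebra.induction_linear with
      | zero => simp
      | add p q hp hq =>
        simp only [add_mul, mul_add, map_add, AddMonoidHom.add_apply]
        linear_combination hp + hq
      | single c w =>
        rw [MonoidAlgebra.single_mul_single, MonoidAlgebra.single_mul_single,
          MonoidAlgebra.single_mul_single, phi_single, phi_single, phi_single]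
        have h1 := congrArg (fun t : ℤ => (t : k)) (hW a b c)
        push_cast at h1
        linear_combination (u * v * w) * h1

end Phi

section PhiMatrix

variable {k : Type*} [CommRing k] {G : Type*} [Group G] {l m n o : Type*} [Fintype l] [Fintype m]
  [Fintype n] [Fintype o]

/-- The extension of `phi` to rectangular matrices. -/
noncomputable def Phi (W : G → G → ℤ) (X : Matrix m n (MonoidAlgebra k G))
    (Y : Matrix n m (MonoidAlgebra k G)) : k := ∑ i, ∑ j, phi W (X i j) (Y j i)

theorem Phi_cocycle {W : G → G → ℤ} (hW : IsCocycle W) (X : Matrix l m (MonoidAlgebra k G))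
    (Y : Matrix m n (MonoidAlgebra k G)) (Z : Matrix n l (MonoidAlgebra k G)) :
    Phi W (X * Y) Z - Phi W X (Y * Z) + Phi W (Z * X) Y = 0 := by
  have h1 : Phi W (X * Y) Z = ∑ i, ∑ j, ∑ c, phi W (X i j * Y j c) (Z c i) := by
    simp only [Phi, Matrix.mul_apply, map_sum, AddMonoidHom.finsetSum_apply]
    refine Finset.sum_congr rfl fun i _ => ?_
    rw [Finset.sum_comm]
  have h2 : Phi W X (Y * Z) = ∑ i, ∑ j, ∑ c, phi W (X i j) (Y j c * Z c i) := by
    simp only [Phi, Matrix.mul_apply, map_sum]
  have h3 : Phi W (Z * X) Y = ∑ i, ∑ j, ∑ c, phi W (Z c i * X i j) (Y j c) := by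
    simp only [Phi, Matrix.mul_apply, map_sum, AddMonoidHom.finsetSum_apply]
    calc ∑ c, ∑ j, ∑ i, phi W (Z c i * X i j) (Y j c)
        = ∑ c, ∑ i, ∑ j, phi W (Z c i * X i j) (Y j c) :=
          Finset.sum_congr rfl fun c _ => Finset.sum_comm
      _ = ∑ i, ∑ c, ∑ j, phi W (Z c i * X i j) (Y j c) := Finset.sum_comm
      _ = ∑ i, ∑ j, ∑ c, phi W (Z c i * X i j) (Y j c) :=
          Finset.sum_congr rfl fun i _ => Finset.sum_comm
  rw [h1, h2, h3, ← Finset.sum_sub_distrib, ← Finset.sum_add_distrib]
  refine Finset.sum_eq_zero fun i _ => ?_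
  rw [← Finset.sum_sub_distrib, ← Finset.sum_add_distrib]
  refine Finset.sum_eq_zero fun j _ => ?_
  rw [← Finset.sum_sub_distrib, ← Finset.sum_add_distrib]
  refine Finset.sum_eq_zero fun c _ => phi_cocycle hW _ _ _

theorem Phi_map {k' : Type*} [CommRing k'] (f : k →+* k') (W : G → G → ℤ)
    (X : Matrix m n (MonoidAlgebra k G)) (Y : Matrix n m (MonoidAlgebra k G)) :
    Phi W (X.map (MonoidAlgebra.mapRingHom G f)) (Y.map (MonoidAlgebra.mapRingHom G f)) =
      f (Phi W X Y) := by
  simp only [Phi, Matrix.map_apply, phi_map, map_sum]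

theorem Phi_submatrix (W : G → G → ℤ) (X : Matrix m n (MonoidAlgebra k G))
    (Y : Matrix n m (MonoidAlgebra k G)) (e : l ≃ m) (f : o ≃ n) :
    Phi W (X.submatrix e f) (Y.submatrix f e) = Phi W X Y := by
  simp only [Phi, Matrix.submatrix_apply]
  rw [← e.sum_comp (fun i => ∑ j, phi W (X i j) (Y j i))]
  exact Finset.sum_congr rfl fun i _ => f.sum_comp (fun j => phi W (X (e i) j) (Y j (e i)))

theorem Phi_blocks (W : G → G → ℤ) (X : Matrix m n (MonoidAlgebra k G))
    (Y : Matrix n m (MonoidAlgebra k G)) (X' : Matrix l o (MonoidAlgebra k G))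
    (Y' : Matrix o l (MonoidAlgebra k G)) :
    Phi W (Matrix.fromBlocks X 0 0 X') (Matrix.fromBlocks Y 0 0 Y') = Phi W X Y + Phi W X' Y' := by
  simp [Phi, Fintype.sum_sum_type]

theorem Phi_one [DecidableEq m] {W : G → G → ℤ} (hW : IsCocycle W) :
    Phi W (1 : Matrix m m (MonoidAlgebra k G)) (1 : Matrix m m (MonoidAlgebra k G)) = 0 := by
  have h := Phi_cocycle (k := k) hW (1 : Matrix m m (MonoidAlgebra k G))
    (1 : Matrix m m (MonoidAlgebra k G)) (1 : Matrix m m (MonoidAlgebra k G))
  rw [Matrix.one_mul] at h
  linear_combination h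

end PhiMatrix

section MuW

variable {G : Type*} [Group G]

/-- The Hochschild cocycle attached to `mu`. -/
noncomputable def muW (h : G) (lam : G → ℤ) (b a : G) : ℤ := mu h lam b⁻¹ (b * a)

theorem muW_cocycle {h : G} {lam : G → ℤ} (H : IsCentHom h lam) (hh : IsOfFinOrder h) :
    IsCocycle (muW h lam) := by
  intro x y z
  unfold muW
  have h1 : mu h lam (x * y)⁻¹ (x * y * z) =
      mu h lam y⁻¹ (y * z * x) + mu h lam x⁻¹ (x * y * z) := by
    rw [_root_.mul_inv_rev, mu_mul H]
    congr 2
    group
  have h2 : mu h lam y⁻¹ (y * z * x) + mu h lam (z * x)⁻¹ (z * x * y) = 0 := by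
    have h3 := mu_mul H (z * x)⁻¹ y⁻¹ (y * z * x)
    have h4 : y⁻¹ * (y * z * x) * y⁻¹⁻¹ = z * x * y := by group
    rw [h4] at h3
    by_cases hc : IsConj h (y * z * x)
    · have h5 : mu h lam ((z * x)⁻¹ * y⁻¹) (y * z * x) = 0 := by
        apply mu_finOrder H
        · have : (z * x)⁻¹ * y⁻¹ = (y * z * x)⁻¹ := by group
          rw [this]
          exact (Commute.refl _).inv_left
        · have : (z * x)⁻¹ * y⁻¹ = (y * z * x)⁻¹ := by group
          rw [this]
          apply IsOfFinOrder.inv
          rw [← orderOf_pos_iff] at hh ⊢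
          obtain ⟨u, hu⟩ := hc
          rw [← hu.orderOf_eq (u : G)]
          exact hh
      rw [h5] at h3
      omega
    · have hc' : ¬ IsConj h (z * x * y) := by
        rw [← h4]
        intro h'
        exact hc ((isConj_conj h y⁻¹ _).1 h')
      rw [mu_of_not hc, mu_of_not hc']
      rfl
  have h3 : y * z * x = y * z * x := rfl
  rw [h1]
  have h5 : x * (y * z) = x * y * z := by group
  rw [h5]
  linarith

end MuW

end Pool.Agent.Lib25
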