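import Pool.Agent.Lib_helper25.KDefs

/-!
# Trace functionals on group rings and on Laurent polynomial rings over them
-/

open Matrix

namespace Pool.Agent.Lib25

section Tau

variable {k : Type*} [CommRing k] {G : Type*} [Group G]

open scoped Classical in
/-- The sum of the coefficients of an element of the group ring over the conjugacy class
of `h`. -/
noncomputable def tau (h : G) : MonoidAlgebra k G →+ k :=
  (Finsupp.liftAddHom (fun g => if IsConj g h then AddMonoidHom.id k else 0)).comp
    (MonoidAlgebra.coeffAddEquiv (R := k) (M := G)).toAddMonoidHom

open scoped Classical in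
theorem tau_single (h g : G) (a : k) :
    tau h (MonoidAlgebra.single g a) = if IsConj g h then a else 0 := by
  simp only [tau, AddMonoidHom.comp_apply]
  have : (MonoidAlgebra.coeffAddEquiv (R := k) (M := G)).toAddMonoidHom
      (MonoidAlgebra.single g a) = Finsupp.single g a := rfl
  rw [this, Finsupp.liftAddHom_apply_single]
  split_ifs <;> simp

theorem tau_mul_comm (h : G) (x y : MonoidAlgebra k G) : tau h (x * y) = tau h (y * x) := by
  induction x using MonoidAlgebra.induction_linear with
  | zero => simp
  | add f g hf hg => simp [add_mul, mul_add, hf, hg]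
  | single g a =>
    induction y using MonoidAlgebra.induction_linear with
    | zero => simp
    | add f g hf hg => simp [add_mul, mul_add, hf, hg]
    | single g' b =>
      rw [MonoidAlgebra.single_mul_single, MonoidAlgebra.single_mul_single, tau_single,
        tau_single, mul_comm a b]
      have : IsConj (g * g') h ↔ IsConj (g' * g) h := by
        have hc : IsConj (g * g') (g' * g) := by
          rw [isConj_iff]
          exact ⟨g⁻¹, by group⟩
        exact ⟨fun H => hc.symm.trans H, fun H => hc.trans H⟩
      by_cases H : IsConj (g * g') h
      · rw [if_pos H, if_pos (this.1 H)]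
      · rw [if_neg H, if_neg (fun H' => H (this.2 H'))]

theorem tau_map {k' : Type*} [CommRing k'] (f : k →+* k') (h : G) (x : MonoidAlgebra k G) :
    tau h (MonoidAlgebra.mapRingHom G f x) = f (tau h x) := by
  induction x using MonoidAlgebra.induction_linear with
  | zero => simp
  | add p q hp hq => simp [hp, hq]
  | single g a =>
    rw [MonoidAlgebra.mapRingHom_single, tau_single, tau_single]
    split_ifs <;> simp

end Tau

section Laurent

variable {A : Type*} [Ring A]

open LaurentPolynomial

/-- The additive map taking the coefficient of `t ^ 0`. -/
noncomputable def coeffZero : LaurentPolynomial A →+ A where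
  toFun x := x.coeff 0
  map_zero' := by simp
  map_add' _ _ := by simp

theorem coeffZero_single (n : ℤ) (a : A) :
    coeffZero (AddMonoidAlgebra.single n a : LaurentPolynomial A) = if n = 0 then a else 0 := by
  change (AddMonoidAlgebra.single n a).coeff 0 = _
  rw [AddMonoidAlgebra.coeff_single, Finsupp.single_apply]

/-- The derivation `t d/dt` of `A[t,t⁻¹]`. -/
noncomputable def DL : LaurentPolynomial A →+ LaurentPolynomial A :=
  (Finsupp.liftAddHom (fun n : ℤ =>
    (AddMonoidAlgebra.singleAddHom n).comp (zsmulAddGroupHom n : A →+ A))).comp
    (AddMonoidAlgebra.coeffAddEquiv (R := A) (M := ℤ)).toAddMonoidHom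

theorem DL_single (n : ℤ) (a : A) :
    DL (AddMonoidAlgebra.single n a : LaurentPolynomial A) =
      AddMonoidAlgebra.single n (n • a) := by
  simp only [DL, AddMonoidHom.comp_apply]
  have : (AddMonoidAlgebra.coeffAddEquiv (R := A) (M := ℤ)).toAddMonoidHom
      (AddMonoidAlgebra.single n a) = Finsupp.single n a := rfl
  rw [this, Finsupp.liftAddHom_apply_single]
  rfl

theorem DL_mul (x y : LaurentPolynomial A) : DL (x * y) = DL x * y + x * DL y := by
  induction x using AddMonoidAlgebra.induction_linear with
  | zero => simp
  | add f g hf hg => simp only [add_mul, map_add, hf, hg]; abel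
  | single n a =>
    induction y using AddMonoidAlgebra.induction_linear with
    | zero => simp
    | add f g hf hg => simp only [mul_add, map_add, hf, hg]; abel
    | single m b =>
      rw [AddMonoidAlgebra.single_mul_single, DL_single, DL_single, DL_single,
        AddMonoidAlgebra.single_mul_single, AddMonoidAlgebra.single_mul_single,
        ← AddMonoidAlgebra.single_add]
      congr 1
      rw [add_smul, smul_mul_assoc, mul_smul_comm]

variable {B : Type*} [Ring B]

theorem DL_mapL (φ : A →+* B) (x : LaurentPolynomial A) : DL (mapL φ x) = mapL φ (DL x) := by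
  induction x using AddMonoidAlgebra.induction_linear with
  | zero => simp
  | add f g hf hg => simp only [map_add, hf, hg]
  | single n a => rw [mapL_single, DL_single, DL_single, mapL_single, map_zsmul]

theorem coeffZero_mapL (φ : A →+* B) (x : LaurentPolynomial A) :
    coeffZero (mapL φ x) = φ (coeffZero x) := by
  induction x using AddMonoidAlgebra.induction_linear with
  | zero => simp
  | add f g hf hg => simp only [map_add, hf, hg]
  | single n a => rw [mapL_single, coeffZero_single, coeffZero_single]; split_ifs <;> simp

end Laurent

section TauL

variable {k : Type*} [CommRing k] {G : Type*} [Group G]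

/-- The trace functional on `k[G][t,t⁻¹]`: the sum of the coefficients over the conjugacy class of
`h` in the coefficient of `t ^ 0`. -/
noncomputable def tauL (h : G) : LaurentPolynomial (MonoidAlgebra k G) →+ k :=
  (tau h).comp coeffZero

theorem tauL_mul_comm (h : G) (x y : LaurentPolynomial (MonoidAlgebra k G)) :
    tauL h (x * y) = tauL h (y * x) := by
  induction x using AddMonoidAlgebra.induction_linear with
  | zero => simp
  | add f g hf hg => simp only [add_mul, mul_add, map_add, hf, hg]
  | single n a =>
    induction y using AddMonoidAlgebra.induction_linear with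
    | zero => simp
    | add f g hf hg => simp only [add_mul, mul_add, map_add, hf, hg]
    | single m b =>
      rw [AddMonoidAlgebra.single_mul_single, AddMonoidAlgebra.single_mul_single, tauL,
        AddMonoidHom.comp_apply, AddMonoidHom.comp_apply, coeffZero_single, coeffZero_single,
        add_comm m n]
      split_ifs
      · exact tau_mul_comm h a b
      · rfl

theorem tauL_mapL {k' : Type*} [CommRing k'] (f : k →+* k') (h : G)
    (x : LaurentPolynomial (MonoidAlgebra k G)) :
    tauL h (mapL (MonoidAlgebra.mapRingHom G f) x) = f (tauL h x) := by
  rw [tauL, AddMonoidHom.comp_apply, coeffZero_mapL, tau_map]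
  rfl

end TauL

section MatrixTrace

variable {A : Type*} [Ring A] {k : Type*} [AddCommGroup k] {m n o : Type*} [Fintype m] [Fintype n]
  [Fintype o]

theorem trace_comm_of_tracial (φ : A →+ k) (hφ : ∀ x y, φ (x * y) = φ (y * x))
    (M : Matrix m n A) (N : Matrix n m A) :
    φ (Matrix.trace (M * N)) = φ (Matrix.trace (N * M)) := by
  simp only [Matrix.trace, Matrix.diag_apply, Matrix.mul_apply, map_sum]
  rw [Finset.sum_comm]
  refine Finset.sum_congr rfl fun i _ => Finset.sum_congr rfl fun j _ => hφ _ _

omit [Fintype m] [Fintype o] in
theorem map_DL_mul (X : Matrix m n (LaurentPolynomial A)) (Y : Matrix n o (LaurentPolynomial A)) :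
    (X * Y).map DL = X.map DL * Y + X * Y.map DL := by
  ext i j
  simp only [Matrix.map_apply, Matrix.mul_apply, Matrix.add_apply, map_sum, DL_mul,
    Finset.sum_add_distrib]

end MatrixTrace

end Pool.Agent.Lib25
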