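import Pool.Agent.Lib_helper25.Idem

/-!
# Transfer of idempotents from a quotient, and evaluation at roots of unity
-/

namespace Pool.Agent.Lib25

section Transfer

variable {k : Type*} [Field k] [CharZero k] {C Q : Type*} [CommGroup C] [CommGroup Q] [Finite C]

/-- The (non unital) transfer `k[Q] → k[C]` along a surjection `π : C → Q`. -/
noncomputable def trf (π : C →* Q) (E : MonoidAlgebra k Q) : MonoidAlgebra k C :=
  ⟨Finsupp.equivFunOnFinite.symm fun c => E.coeff (π c) / (Nat.card π.ker : k)⟩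

omit [CharZero k] in
theorem coeff_trf (π : C →* Q) (E : MonoidAlgebra k Q) (c : C) :
    (trf π E).coeff c = E.coeff (π c) / (Nat.card π.ker : k) := rfl

omit [CharZero k] [Finite C] in
theorem sum_comp_hom [Fintype C] [Fintype Q] (π : C →* Q) (hπ : Function.Surjective π) (g : Q → k) :
    ∑ d : C, g (π d) = (Nat.card π.ker : k) * ∑ u : Q, g u := by
  classical
  have h1 : ∀ u : Q, (Finset.univ.filter fun d : C => π d = u).card = Nat.card π.ker := by
    intro u
    rw [MonoidHom.card_fiber_eq_of_mem_range π (hπ u) ⟨1, map_one π⟩]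
    rw [Nat.card_eq_fintype_card, Fintype.card_subtype]
    congr 1
    ext d
    simp [MonoidHom.mem_ker]
  calc ∑ d : C, g (π d) = ∑ u : Q, ∑ d ∈ Finset.univ.filter (fun d : C => π d = u), g (π d) := by
        rw [← Finset.sum_fiberwise Finset.univ π (fun d => g (π d))]
    _ = ∑ u : Q, ∑ d ∈ Finset.univ.filter (fun d : C => π d = u), g u := by
        apply Finset.sum_congr rfl
        intro u _
        apply Finset.sum_congr rfl
        intro d hd
        rw [(Finset.mem_filter.1 hd).2]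
    _ = (Nat.card π.ker : k) * ∑ u : Q, g u := by
        rw [Finset.mul_sum]
        apply Finset.sum_congr rfl
        intro u _
        rw [Finset.sum_const, h1, nsmul_eq_mul]

theorem trf_mul (π : C →* Q) (hπ : Function.Surjective π) (E F : MonoidAlgebra k Q) :
    trf π E * trf π F = trf π (E * F) := by
  classical
  have : Fintype C := Fintype.ofFinite C
  have : Finite Q := Finite.of_surjective π hπ
  have : Fintype Q := Fintype.ofFinite Q
  have hK : (Nat.card π.ker : k) ≠ 0 := Nat.cast_ne_zero.2 Nat.card_pos.ne'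
  ext c
  rw [MonoidAlgebra.coeff_mul_apply_left, Finsupp.sum_fintype _ _ (by simp), coeff_trf,
    MonoidAlgebra.coeff_mul_apply_left, Finsupp.sum_fintype _ _ (by simp)]
  have h1 : ∀ d : C, (trf π E).coeff d * (trf π F).coeff (d⁻¹ * c) =
      (fun u : Q => E.coeff u * F.coeff (u⁻¹ * π c) / (Nat.card π.ker : k) ^ 2) (π d) := by
    intro d
    rw [coeff_trf, coeff_trf, map_mul, map_inv]
    ring
  rw [Finset.sum_congr rfl (fun d _ => h1 d),
    sum_comp_hom π hπ (fun u : Q => E.coeff u * F.coeff (u⁻¹ * π c) / (Nat.card π.ker : k) ^ 2),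
    ← Finset.sum_div]
  field_simp

end Transfer

section Fourier

open Polynomial

/-- The values of an idempotent of `L[Q]`, `Q` cyclic, at the powers of a generator, are given by
a rational polynomial in the powers of a root of unity. -/
theorem idem_poly {L : Type*} [Field L] [CharZero L] {Q : Type*} [CommGroup Q]
    [Finite Q] (g : Q) (hg : ∀ x, x ∈ Subgroup.zpowers g) (ζ : L)
    (hζ : IsPrimitiveRoot ζ (orderOf g)) (E : MonoidAlgebra L Q) (hE : E ^ 2 = E) :
    ∃ P : ℚ[X], ∀ j : ℕ, E.coeff (g ^ j) = aeval (ζ ^ j) P := by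
  classical
  have : Fintype Q := Fintype.ofFinite Q
  set m := orderOf g with hm
  have hmpos : 0 < m := orderOf_pos g
  have hζ0 : ζ ≠ 0 := hζ.ne_zero hmpos.ne'
  let ζu : Lˣ := Units.mk0 ζ hζ0
  have hζu : ∀ n : ℕ, ζu ^ n = 1 ↔ m ∣ n := by
    intro n
    rw [← hζ.pow_eq_one_iff_dvd, Units.ext_iff]
    simp [ζu]
  have hdvd : orderOf ζu ∣ orderOf g := orderOf_dvd_of_pow_eq_one ((hζu _).2 (dvd_refl _))
  let χ : Q →* Lˣ := monoidHomOfForallMemZpowers hg hdvd
  have hχg : χ g = ζu := monoidHomOfForallMemZpowers_apply_gen hg hdvd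
  -- the characters `χ ^ k`
  let c : ℕ → (Q →* L) := fun k => (Units.coeHom L).comp (χ ^ k)
  let ev : ℕ → (MonoidAlgebra L Q →ₐ[L] L) := fun k => MonoidAlgebra.lift L L Q (c k)
  have hev : ∀ k, ev k E = ∑ u : Q, E.coeff u * ((χ u : L) ^ k) := by
    intro k
    change MonoidAlgebra.lift L L Q (c k) E = _
    rw [MonoidAlgebra.lift_apply, Finsupp.sum_fintype _ _ (by simp)]
    apply Finset.sum_congr rfl
    intro u _
    simp [c]
  have hev01 : ∀ k, ∃ r : ℚ, ev k E = (r : L) := by
    intro k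
    have h1 : (ev k E) ^ 2 = ev k E := by rw [← map_pow, hE]
    have h2 : (ev k E) * (ev k E - 1) = 0 := by linear_combination h1
    rcases mul_eq_zero.1 h2 with h | h
    · exact ⟨0, by rw [h]; simp⟩
    · exact ⟨1, by rw [sub_eq_zero.1 h]; simp⟩
  choose r hr using hev01
  -- orthogonality
  have horth : ∀ u : Q, ∑ k ∈ Finset.range m, ((χ u : L) ^ k) = if u = 1 then (m : L) else 0 := by
    intro u
    split_ifs with hu
    · subst hu
      simp
    · have h1 : (χ u : L) ≠ 1 := by
        intro h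
        apply hu
        obtain ⟨n, hn⟩ := (Submonoid.mem_powers_iff _ _).1
          ((mem_powers_iff_mem_zpowers (x := g)).2 (hg u))
        rw [← hn, map_pow, hχg] at h
        have h2 : ζu ^ n = 1 := Units.ext h
        rw [hζu] at h2
        rw [← hn]
        exact orderOf_dvd_iff_pow_eq_one.1 h2
      have h3 : (χ u : L) ^ m = 1 := by
        have : χ u ^ m = 1 := by
          rw [← map_pow, hm]
          have : u ^ orderOf g = 1 := by
            obtain ⟨n, hn⟩ := (Submonoid.mem_powers_iff _ _).1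
              ((mem_powers_iff_mem_zpowers (x := g)).2 (hg u))
            rw [← hn, ← pow_mul, mul_comm, pow_mul, pow_orderOf_eq_one, one_pow]
          rw [this, map_one]
        rw [← Units.val_pow_eq_pow_val, this, Units.val_one]
      have h4 := geom_sum_mul (χ u : L) m
      rw [h3, sub_self] at h4
      exact (mul_eq_zero.1 h4).resolve_right (sub_ne_zero.2 h1)
  refine ⟨C (1 / (m : ℚ)) * ∑ k ∈ Finset.range m, C (r k) * X ^ ((m - 1) * k), fun j => ?_⟩
  have hj : (ζ ^ j) ^ (m - 1) = ((χ ((g ^ j)⁻¹) : Lˣ) : L) := by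
    have h1 : ζ ^ j * (ζ ^ j) ^ (m - 1) = 1 := by
      rw [← pow_succ', Nat.sub_add_cancel hmpos, ← pow_mul, mul_comm, pow_mul, hζ.pow_eq_one,
        one_pow]
    rw [map_inv, map_pow, hχg, Units.val_inv_eq_inv_val, Units.val_pow_eq_pow_val]
    exact (eq_inv_of_mul_eq_one_right h1)
  have h5 : aeval (ζ ^ j) (C (1 / (m : ℚ)) * ∑ k ∈ Finset.range m, C (r k) * X ^ ((m - 1) * k)) =
      (1 / (m : L)) * ∑ k ∈ Finset.range m, (r k : L) * ((χ ((g ^ j)⁻¹) : Lˣ) : L) ^ k := by
    simp only [map_mul, map_sum, aeval_C, map_pow, aeval_X, pow_mul, hj]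
    simp
  rw [h5]
  have h6 : ∑ k ∈ Finset.range m, (r k : L) * ((χ ((g ^ j)⁻¹) : Lˣ) : L) ^ k =
      ∑ u : Q, E.coeff u * ∑ k ∈ Finset.range m, ((χ (u * (g ^ j)⁻¹) : Lˣ) : L) ^ k := by
    calc ∑ k ∈ Finset.range m, (r k : L) * ((χ ((g ^ j)⁻¹) : Lˣ) : L) ^ k
        = ∑ k ∈ Finset.range m, ∑ u : Q, E.coeff u * ((χ (u * (g ^ j)⁻¹) : Lˣ) : L) ^ k := by
          apply Finset.sum_congr rfl
          intro k _
          rw [← hr, hev, Finset.sum_mul]
          apply Finset.sum_congr rfl
          intro u _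
          rw [map_mul, Units.val_mul, mul_pow]
          ring
      _ = _ := by
          rw [Finset.sum_comm]
          apply Finset.sum_congr rfl
          intro u _
          rw [Finset.mul_sum]
  rw [h6, Finset.sum_eq_single (g ^ j)]
  · have hm0 : (m : L) ≠ 0 := Nat.cast_ne_zero.2 hmpos.ne'
    rw [mul_inv_cancel, horth, if_pos rfl]
    field_simp
  · intro u _ hu
    rw [horth, if_neg, mul_zero]
    intro h
    exact hu (mul_inv_eq_one.1 h)
  · intro h
    exact absurd (Finset.mem_univ _) h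

theorem rational_const {L : Type*} [Field L] [CharZero L] (ζ : L) (m : ℕ)
    (hζ : IsPrimitiveRoot ζ m) (hm : 0 < m) (P : ℚ[X]) (i : ℕ) (hi : i.Coprime m) (r : ℚ)
    (h : aeval ζ P = (r : L)) : aeval (ζ ^ i) P = (r : L) := by
  have h1 : aeval ζ (P - C r) = 0 := by
    rw [map_sub, h, aeval_C]
    simp
  have h2 : minpoly ℚ ζ ∣ P - C r := minpoly.dvd ℚ ζ h1
  rw [← cyclotomic_eq_minpoly_rat hζ hm,
    cyclotomic_eq_minpoly_rat (hζ.pow_of_coprime i hi) hm] at h2
  obtain ⟨R, hR⟩ := h2
  have h3 : aeval (ζ ^ i) (P - C r) = 0 := by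
    rw [hR, map_mul, minpoly.aeval, zero_mul]
  rw [map_sub, aeval_C, sub_eq_zero] at h3
  rw [h3]
  simp

end Fourier

section Frob

variable {p : ℕ} [hp : Fact p.Prime] {Q : Type*} [CommGroup Q] [Finite Q]

omit [Finite Q] in
theorem frob_coeff (hQ : (Nat.card Q).Coprime p) (b : MonoidAlgebra ℤ_[p] Q) (z : Q) :
    (frob p Q b).coeff (z ^ p) = b.coeff z := by
  have hinj : Function.Injective (fun z : Q => z ^ p) := (powCoprime hQ).injective
  exact Finsupp.mapDomain_apply (f := fun z : Q => z ^ p) hinj b.coeff z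

theorem coeff_pow_of_frob (hQ : (Nat.card Q).Coprime p) (b : MonoidAlgebra ℤ_[p] Q)
    (hb : frob p Q b = b) (z : Q) : b.coeff (z ^ p) = b.coeff z := by
  conv_lhs => rw [← hb]
  exact frob_coeff hQ b z

theorem coeff_pow_pow_of_frob (hQ : (Nat.card Q).Coprime p) (b : MonoidAlgebra ℤ_[p] Q)
    (hb : frob p Q b = b) (j : ℕ) (z : Q) : b.coeff (z ^ p ^ j) = b.coeff z := by
  induction j with
  | zero => simp
  | succ j ih => rw [pow_succ, pow_mul, coeff_pow_of_frob hQ b hb, ih]

theorem frob_of_coeff (hQ : (Nat.card Q).Coprime p) (b : MonoidAlgebra ℤ_[p] Q)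
    (hb : ∀ z, b.coeff (z ^ p) = b.coeff z) : frob p Q b = b := by
  ext z
  obtain ⟨y, rfl⟩ := (powCoprime hQ).surjective z
  change (frob p Q b).coeff (y ^ p) = b.coeff (y ^ p)
  rw [frob_coeff hQ, hb]

end Frob

end Pool.Agent.Lib25
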