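import Pool.Agent.Lib_helper25.Phi

/-!
# The logarithmic trace of an invertible matrix over `ℤ_p[G]` vanishes at `p`-singular elements
-/

open Matrix

set_option linter.unusedSectionVars false

namespace Pool.Agent.Lib25

section Contract

variable {k : Type*} [CommRing k] {T J S : Type*} [Fintype T] [DecidableEq T] [Fintype J]
  [DecidableEq S]

theorem contract (π : J → S) (one : S) (f : T → J → k) (d : T → k)
    (hf : ∀ t s, ∑ x ∈ Finset.univ.filter (fun x => π x = s), f t x = if s = one then d t else 0)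
    (Ψ : (T → S) → k) :
    ∑ w : T → J, (∏ t, f t (w t)) * Ψ (fun t => π (w t)) = (∏ t, d t) * Ψ (fun _ => one) := by
  classical
  have hfib : ∀ s : T → S, ∑ w ∈ Finset.univ.filter (fun w : T → J => (fun t => π (w t)) = s),
      ∏ t, f t (w t) = ∏ t, (if s t = one then d t else 0) := by
    intro s
    have h1 : Finset.univ.filter (fun w : T → J => (fun t => π (w t)) = s) =
        Fintype.piFinset (fun t => Finset.univ.filter (fun x => π x = s t)) := by
      ext w
      simp [Fintype.mem_piFinset, funext_iff]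
    rw [h1, ← Finset.prod_univ_sum]
    exact Finset.prod_congr rfl (fun t _ => hf t (s t))
  have hone : ∏ t : T, (if (fun _ : T => one) t = one then d t else 0) = ∏ t, d t :=
    Finset.prod_congr rfl (fun t _ => if_pos rfl)
  rw [← Finset.sum_fiberwise_of_maps_to (s := Finset.univ)
    (t := Finset.univ.image (fun (w : T → J) t => π (w t))) (g := fun (w : T → J) (t : T) => π (w t))
    (fun w _ => Finset.mem_image_of_mem (fun (w : T → J) t => π (w t)) (Finset.mem_univ w))]
  have hinner : ∀ s : T → S, ∑ w ∈ Finset.univ.filter (fun w : T → J => (fun t => π (w t)) = s),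
      (∏ t, f t (w t)) * Ψ (fun t => π (w t)) =
      (∏ t, (if s t = one then d t else 0)) * Ψ s := by
    intro s
    rw [← hfib, Finset.sum_mul]
    refine Finset.sum_congr rfl fun w hw => ?_
    rw [(Finset.mem_filter.1 hw).2]
  rw [Finset.sum_congr rfl (fun s _ => hinner s), Finset.sum_eq_single (fun _ : T => one)]
  · rw [hone]
  · intro s _ hs
    obtain ⟨t, ht⟩ := Function.ne_iff.1 hs
    rw [Finset.prod_eq_zero (Finset.mem_univ t) (if_neg ht), zero_mul]
  · intro h
    rw [← hfib, Finset.sum_eq_zero, zero_mul]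
    intro w hw
    exact absurd (Finset.mem_image.2 ⟨w, Finset.mem_univ _, (Finset.mem_filter.1 hw).2⟩) h

end Contract

section Words

variable {k : Type*} [CommRing k] {G : Type*} [Group G] {m n l : Type*} [Fintype m] [Fintype n]
  [Fintype l]

open scoped Classical in
theorem coeff_mul_sum (F : Finset G) (x y : MonoidAlgebra k G) (hx : x.coeff.support ⊆ F)
    (hy : y.coeff.support ⊆ F) (s : G) :
    (x * y).coeff s = ∑ b : F, ∑ a : F, if (b : G) * a = s then x.coeff b * y.coeff a else 0 := by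
  rw [MonoidAlgebra.coeff_mul]
  have h1 : (∑ b : F, ∑ a : F, if (b : G) * a = s then x.coeff b * y.coeff a else 0) =
      ∑ b ∈ F, ∑ a ∈ F, if b * a = s then x.coeff b * y.coeff a else 0 := by
    rw [← Finset.sum_coe_sort F]
    refine Finset.sum_congr rfl fun b _ => ?_
    rw [← Finset.sum_coe_sort F]
  rw [h1]
  change (∑ i ∈ x.coeff.support, ∑ j ∈ y.coeff.support,
    if i * j = s then x.coeff i * y.coeff j else 0) = _
  have h2 : ∀ i, (∑ j ∈ y.coeff.support, if i * j = s then x.coeff i * y.coeff j else 0) =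
      ∑ j ∈ F, if i * j = s then x.coeff i * y.coeff j else 0 := by
    intro i
    refine Finset.sum_subset hy fun j _ hj => ?_
    rw [Finsupp.notMem_support_iff.1 hj]
    simp
  rw [Finset.sum_congr rfl (fun i _ => h2 i)]
  refine Finset.sum_subset hx fun i _ hi => ?_
  rw [Finsupp.notMem_support_iff.1 hi]
  simp

open scoped Classical in
theorem coeff_mul_matrix (F : Finset G) (B : Matrix m n (MonoidAlgebra k G))
    (A : Matrix n l (MonoidAlgebra k G)) (hB : ∀ i j, (B i j).coeff.support ⊆ F)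
    (hA : ∀ i j, (A i j).coeff.support ⊆ F) (i : m) (i' : l) (s : G) :
    ∑ x ∈ Finset.univ.filter (fun x : n × F × F => (x.2.1 : G) * x.2.2 = s),
      (B i x.1).coeff x.2.1 * (A x.1 i').coeff x.2.2 = ((B * A) i i').coeff s := by
  rw [Matrix.mul_apply, MonoidAlgebra.coeff_sum, Finset.sum_apply', Finset.sum_filter,
    Fintype.sum_prod_type]
  refine Finset.sum_congr rfl fun j _ => ?_
  rw [coeff_mul_sum F _ _ (hB i j) (hA j i'), Fintype.sum_prod_type]

/-- The coefficient of a word. -/
noncomputable def cw {N : ℕ} [NeZero N] {F : Finset G} (B : Matrix m n (MonoidAlgebra k G))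
    (A : Matrix n m (MonoidAlgebra k G)) (w : ZMod N → m × n × F × F) : k :=
  ∏ t, (B (w t).1 (w t).2.1).coeff ((w t).2.2.1 : G) *
    (A (w t).2.1 (w (t + 1)).1).coeff ((w t).2.2.2 : G)

/-- Separating the first component of a word. -/
def splitEquiv (T : Type*) (α β : Type*) : (T → α × β) ≃ (T → α) × (T → β) where
  toFun w := (fun t => (w t).1, fun t => (w t).2)
  invFun p t := (p.1 t, p.2 t)
  left_inv _ := rfl
  right_inv _ := rfl

variable [DecidableEq m] [DecidableEq n]

theorem coeff_one_apply (i i' : m) (s : G) [DecidableEq G] :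
    ((1 : Matrix m m (MonoidAlgebra k G)) i i').coeff s =
      if s = 1 then (if i = i' then 1 else 0) else 0 := by
  by_cases h : i = i'
  · subst h
    rw [Matrix.one_apply_eq, MonoidAlgebra.one_def, MonoidAlgebra.coeff_single,
      Finsupp.single_apply]
    by_cases hs : s = 1
    · subst hs; simp
    · rw [if_neg (Ne.symm hs), if_neg hs]
  · rw [Matrix.one_apply_ne h]
    simp [h]

theorem sum_words_B {N : ℕ} [NeZero N] {F : Finset G} (B : Matrix m n (MonoidAlgebra k G))
    (A : Matrix n m (MonoidAlgebra k G)) (hB : ∀ i j, (B i j).coeff.support ⊆ F)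
    (hA : ∀ i j, (A i j).coeff.support ⊆ F) (hBA : B * A = 1) (Ψ : (ZMod N → G) → k)
    (hΨ : Ψ (fun _ => 1) = 0) :
    ∑ w : ZMod N → m × n × F × F, cw B A w *
      Ψ (fun t => ((w t).2.2.1 : G) * ((w t).2.2.2 : G)) = 0 := by
  classical
  rw [← (splitEquiv (ZMod N) m (n × F × F)).symm.sum_comp, Fintype.sum_prod_type]
  refine Finset.sum_eq_zero fun i _ => ?_
  have h := contract (k := k) (T := ZMod N) (J := n × F × F) (S := G)
    (fun x => (x.2.1 : G) * x.2.2) 1
    (fun t x => (B (i t) x.1).coeff x.2.1 * (A x.1 (i (t + 1))).coeff x.2.2)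
    (fun t => if i t = i (t + 1) then 1 else 0)
    (fun t s => by rw [coeff_mul_matrix F B A hB hA, hBA, coeff_one_apply]) Ψ
  rw [hΨ, mul_zero] at h
  exact h

/-- Regrouping the letters of a word. -/
def regroup (N : ℕ) (F : Finset G) (m n : Type*) :
    (ZMod N → m × n × F × F) ≃ (ZMod N → n × m × F × F) where
  toFun w t := ((w t).2.1, (w (t + 1)).1, (w t).2.2.2, (w (t + 1)).2.2.1)
  invFun w t := ((w (t - 1)).2.1, (w t).1, (w (t - 1)).2.2.2, (w t).2.2.1)
  left_inv w := by
    funext t
    simp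
  right_inv w := by
    funext t
    simp

theorem cw_regroup {N : ℕ} [NeZero N] {F : Finset G} (B : Matrix m n (MonoidAlgebra k G))
    (A : Matrix n m (MonoidAlgebra k G)) (w : ZMod N → m × n × F × F) :
    cw A B (regroup N F m n w) = cw B A w := by
  unfold cw
  rw [Finset.prod_mul_distrib, Finset.prod_mul_distrib]
  have h1 : ∏ t, (B (w t).1 (w t).2.1).coeff ((w t).2.2.1 : G) =
      ∏ t, (B (w (t + 1)).1 (w (t + 1)).2.1).coeff ((w (t + 1)).2.2.1 : G) :=
    (Equiv.prod_comp (Equiv.addRight (1 : ZMod N))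
      (fun t => (B (w t).1 (w t).2.1).coeff ((w t).2.2.1 : G))).symm
  rw [h1, mul_comm]
  rfl

theorem sum_words_A {N : ℕ} [NeZero N] {F : Finset G} (B : Matrix m n (MonoidAlgebra k G))
    (A : Matrix n m (MonoidAlgebra k G)) (hB : ∀ i j, (B i j).coeff.support ⊆ F)
    (hA : ∀ i j, (A i j).coeff.support ⊆ F) (hAB : A * B = 1) (Ψ : (ZMod N → G) → k)
    (hΨ : Ψ (fun _ => 1) = 0) :
    ∑ w : ZMod N → m × n × F × F, cw B A w *
      Ψ (fun t => ((w t).2.2.2 : G) * ((w (t + 1)).2.2.1 : G)) = 0 := by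
  classical
  rw [← sum_words_B (N := N) A B hA hB hAB Ψ hΨ, ← (regroup N F m n).sum_comp]
  refine Finset.sum_congr rfl fun w _ => ?_
  rw [cw_regroup]
  rfl

omit [Fintype m] [Fintype n] [DecidableEq m] [DecidableEq n] in
theorem pre_single {N : ℕ} (s : ZMod N → G) (hs : ∀ t, t ≠ 0 → s t = 1) (d : ℕ) (hd : d < N) :
    pre s (d + 1) = s 0 := by
  induction d with
  | zero =>
    rw [pre_succ, pre_zero]
    simp
  | succ d ih =>
    rw [pre_succ, ih (by omega), hs ((d + 1 : ℕ) : ZMod N), mul_one]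
    intro h
    rw [ZMod.natCast_eq_zero_iff] at h
    exact absurd (Nat.le_of_dvd (by omega) h) (by omega)

omit [Fintype m] [Fintype n] [DecidableEq m] [DecidableEq n] in
theorem cyc_single {N : ℕ} [NeZero N] (s : ZMod N → G) (hs : ∀ t, t ≠ 0 → s t = 1) :
    cyc s = s 0 := by
  have hN := NeZero.ne N
  have h := pre_single s hs (N - 1) (by omega)
  have h2 : N - 1 + 1 = N := by omega
  rw [h2] at h
  exact h

omit [Fintype m] [DecidableEq m] in
theorem const_of_step {N : ℕ} [NeZero N] (i : ZMod N → m)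
    (hi : ∀ t, t ≠ 0 → i t = i (t + 1)) (t : ZMod N) : i t = i 0 := by
  have hN := NeZero.ne N
  have h1 : ∀ d : ℕ, d < N → i ((d + 1 : ℕ) : ZMod N) = i 1 := by
    intro d
    induction d with
    | zero => intro _; simp
    | succ d ih =>
      intro hd
      rw [← ih (by omega)]
      have h2 : ((d + 1 : ℕ) : ZMod N) ≠ 0 := by
        intro h
        rw [ZMod.natCast_eq_zero_iff] at h
        exact absurd (Nat.le_of_dvd (by omega) h) (by omega)
      rw [hi _ h2]
      congr 1
      push_cast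
      ring
  have h3 : i 0 = i 1 := by
    have := h1 (N - 1) (by omega)
    have h2 : N - 1 + 1 = N := by omega
    rw [h2, ZMod.natCast_self] at this
    exact this
  obtain ⟨d, hd, rfl⟩ : ∃ d : ℕ, d < N ∧ (d : ZMod N) = t :=
    ⟨t.val, ZMod.val_lt t, ZMod.natCast_zmod_val t⟩
  rcases Nat.eq_zero_or_pos d with h0 | h0
  · subst h0; simp
  · have := h1 (d - 1) (by omega)
    have h2 : d - 1 + 1 = d := by omega
    rw [h2] at this
    rw [this, h3]

theorem sum_words_first {N : ℕ} [NeZero N] {F : Finset G} (B : Matrix m n (MonoidAlgebra k G))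
    (A : Matrix n m (MonoidAlgebra k G)) (hB : ∀ i j, (B i j).coeff.support ⊆ F)
    (hA : ∀ i j, (A i j).coeff.support ⊆ F) (hBA : B * A = 1) (g : G → G → k) :
    ∑ w : ZMod N → m × n × F × F, cw B A w * g ((w 0).2.2.1 : G)
      (cyc (fun t => ((w t).2.2.1 : G) * ((w t).2.2.2 : G))) =
    ∑ i, ∑ x : n × F × F, (B i x.1).coeff x.2.1 * (A x.1 i).coeff x.2.2 *
      g (x.2.1 : G) ((x.2.1 : G) * x.2.2) := by
  classical
  have hstep : ∀ i : ZMod N → m, ∑ v : ZMod N → n × F × F,
      cw B A ((splitEquiv (ZMod N) m (n × F × F)).symm (i, v)) * g ((v 0).2.1 : G)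
        (cyc (fun t => ((v t).2.1 : G) * ((v t).2.2 : G))) =
      ∑ x : n × F × F, ((B (i 0) x.1).coeff x.2.1 * (A x.1 (i 1)).coeff x.2.2 *
        g (x.2.1 : G) ((x.2.1 : G) * x.2.2)) *
          ∏ t : {t : ZMod N // t ≠ 0}, (if i t = i (t + 1) then 1 else 0) := by
    intro i
    rw [← (Equiv.funSplitAt (0 : ZMod N) (n × F × F)).symm.sum_comp, Fintype.sum_prod_type]
    refine Finset.sum_congr rfl fun x _ => ?_
    have h := contract (k := k) (T := {t : ZMod N // t ≠ 0}) (J := n × F × F) (S := G)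
      (fun x => (x.2.1 : G) * x.2.2) 1
      (fun t x => (B (i t) x.1).coeff x.2.1 * (A x.1 (i (t + 1))).coeff x.2.2)
      (fun t => if i t = i (t + 1) then 1 else 0)
      (fun t s => by rw [coeff_mul_matrix F B A hB hA, hBA, coeff_one_apply])
      (fun s' => (B (i 0) x.1).coeff x.2.1 * (A x.1 (i 1)).coeff x.2.2 * g (x.2.1 : G)
        (cyc (fun t : ZMod N => if ht : t = 0 then ((x.2.1 : G) * x.2.2) else s' ⟨t, ht⟩)))
    have h1 : cyc (fun t : ZMod N => if ht : t = 0 then ((x.2.1 : G) * x.2.2) else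
        (fun _ : {t : ZMod N // t ≠ 0} => (1 : G)) ⟨t, ht⟩) = (x.2.1 : G) * x.2.2 := by
      rw [cyc_single]
      · simp
      · intro t ht
        rw [dif_neg ht]
    rw [h1] at h
    rw [mul_comm (∏ t : {t : ZMod N // t ≠ 0}, _)] at h
    rw [← h]
    refine Finset.sum_congr rfl fun v _ => ?_
    have h2 : ∀ t : ZMod N, ((Equiv.funSplitAt (0 : ZMod N) (n × F × F)).symm (x, v)) t =
        if ht : t = 0 then x else v ⟨t, ht⟩ := by
      intro t
      simp only [Equiv.funSplitAt, Equiv.piSplitAt, Equiv.coe_fn_symm_mk]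
      split_ifs with ht
      · subst ht; rfl
      · rfl
    have h3 : cw B A ((splitEquiv (ZMod N) m (n × F × F)).symm
        (i, (Equiv.funSplitAt (0 : ZMod N) (n × F × F)).symm (x, v))) =
        (B (i 0) x.1).coeff x.2.1 * (A x.1 (i 1)).coeff x.2.2 *
        ∏ t : {t : ZMod N // t ≠ 0}, (B (i t) (v t).1).coeff (v t).2.1 *
          (A (v t).1 (i (t + 1))).coeff (v t).2.2 := by
      unfold cw
      rw [Fintype.prod_eq_mul_prod_subtype_ne _ (0 : ZMod N)]
      congr 1
      · change (B (i 0) (((Equiv.funSplitAt (0 : ZMod N) (n × F × F)).symm (x, v)) 0).1).coeff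
          (((Equiv.funSplitAt (0 : ZMod N) (n × F × F)).symm (x, v)) 0).2.1 *
          (A (((Equiv.funSplitAt (0 : ZMod N) (n × F × F)).symm (x, v)) 0).1 (i (0 + 1))).coeff
          (((Equiv.funSplitAt (0 : ZMod N) (n × F × F)).symm (x, v)) 0).2.2 = _
        rw [h2, dif_pos rfl, zero_add]
      · refine Finset.prod_congr rfl fun t _ => ?_
        change (B (i t) (((Equiv.funSplitAt (0 : ZMod N) (n × F × F)).symm (x, v)) t).1).coeff
          (((Equiv.funSplitAt (0 : ZMod N) (n × F × F)).symm (x, v)) t).2.1 *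
          (A (((Equiv.funSplitAt (0 : ZMod N) (n × F × F)).symm (x, v)) t).1 (i (t + 1))).coeff
          (((Equiv.funSplitAt (0 : ZMod N) (n × F × F)).symm (x, v)) t).2.2 = _
        rw [h2, dif_neg t.2]
    have h4 : (fun t : ZMod N => if ht : t = 0 then ((x.2.1 : G) * x.2.2) else
        (fun t : {t : ZMod N // t ≠ 0} => ((v t).2.1 : G) * ((v t).2.2 : G)) ⟨t, ht⟩) =
        fun t => ((((Equiv.funSplitAt (0 : ZMod N) (n × F × F)).symm (x, v)) t).2.1 : G) *
          (((Equiv.funSplitAt (0 : ZMod N) (n × F × F)).symm (x, v)) t).2.2 := by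
      funext t
      rw [h2]
      split_ifs <;> rfl
    rw [h3, h4, h2 0, dif_pos rfl]
    ring
  have hfirst : ∑ w : ZMod N → m × n × F × F, cw B A w * g ((w 0).2.2.1 : G)
      (cyc (fun t => ((w t).2.2.1 : G) * ((w t).2.2.2 : G))) =
      ∑ i : ZMod N → m, ∑ v : ZMod N → n × F × F,
      cw B A ((splitEquiv (ZMod N) m (n × F × F)).symm (i, v)) * g ((v 0).2.1 : G)
        (cyc (fun t => ((v t).2.1 : G) * ((v t).2.2 : G))) := by
    rw [← (splitEquiv (ZMod N) m (n × F × F)).symm.sum_comp, Fintype.sum_prod_type]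
    rfl
  rw [hfirst, Finset.sum_congr rfl (fun i _ => hstep i)]
  let cst : m ↪ (ZMod N → m) := ⟨fun c _ => c, fun a b h => congrFun h 0⟩
  have hsub : ∑ i : ZMod N → m, ∑ x : n × F × F,
      ((B (i 0) x.1).coeff x.2.1 * (A x.1 (i 1)).coeff x.2.2 *
        g (x.2.1 : G) ((x.2.1 : G) * x.2.2)) *
          ∏ t : {t : ZMod N // t ≠ 0}, (if i t = i (t + 1) then 1 else 0) =
      ∑ i ∈ Finset.univ.map cst, ∑ x : n × F × F,
      ((B (i 0) x.1).coeff x.2.1 * (A x.1 (i 1)).coeff x.2.2 *
        g (x.2.1 : G) ((x.2.1 : G) * x.2.2)) *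
          ∏ t : {t : ZMod N // t ≠ 0}, (if i t = i (t + 1) then 1 else 0) := by
    symm
    refine Finset.sum_subset (Finset.subset_univ _) fun i _ hi => ?_
    have h1 : ∃ t : ZMod N, t ≠ 0 ∧ i t ≠ i (t + 1) := by
      by_contra hcon
      push Not at hcon
      apply hi
      rw [Finset.mem_map]
      refine ⟨i 0, Finset.mem_univ _, ?_⟩
      funext t
      exact (const_of_step i hcon t).symm
    obtain ⟨t, ht, hti⟩ := h1
    refine Finset.sum_eq_zero fun x _ => ?_
    rw [Finset.prod_eq_zero (Finset.mem_univ (⟨t, ht⟩ : {t : ZMod N // t ≠ 0})) (if_neg hti),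
      mul_zero]
  rw [hsub, Finset.sum_map]
  refine Finset.sum_congr rfl fun c _ => Finset.sum_congr rfl fun x _ => ?_
  rw [Finset.prod_eq_one, mul_one]
  · rfl
  · intro t _
    exact if_pos rfl

end Words

section Main

variable {G : Type*} [Group G] {m n : Type*} [Fintype m] [Fintype n] [DecidableEq m]
  [DecidableEq n]

/-- The coefficient of a word is invariant under rotation. -/
theorem cw_rot {k : Type*} [CommRing k] {N : ℕ} [NeZero N] {F : Finset G}
    (B : Matrix m n (MonoidAlgebra k G)) (A : Matrix n m (MonoidAlgebra k G))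
    (w : ZMod N → m × n × F × F) : cw B A (fun t => w (t + 1)) = cw B A w :=
  Equiv.prod_comp (Equiv.addRight (1 : ZMod N))
    (fun t => (B (w t).1 (w t).2.1).coeff ((w t).2.2.1 : G) *
      (A (w t).2.1 (w (t + 1)).1).coeff ((w t).2.2.2 : G))

/-- The rotation invariant weight of a word. -/
noncomputable def wt {N : ℕ} (h : G) (lam : G → ℤ) (ψ : (ZMod N → G) → ℤ) (b a : ZMod N → G) : ℤ :=
  mu h lam (b 0)⁻¹ (cyc (fun t => b t * a t)) - ψ (fun t => a t * b (t + 1)) +
    ψ (fun t => b t * a t)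

theorem wt_rot {N : ℕ} {h : G} {lam : G → ℤ} (H : IsCentHom h lam) {ψ : (ZMod N → G) → ℤ}
    (hψ : ∀ s, ψ (fun i => s (i + 1)) = ψ s + mu h lam (s 0)⁻¹ (cyc s)) (b a : ZMod N → G) :
    wt h lam ψ (fun t => b (t + 1)) (fun t => a (t + 1)) = wt h lam ψ b a := by
  unfold wt
  have h1 := hψ (fun t => a t * b (t + 1))
  have h2 := hψ (fun t => b t * a t)
  have h3 := cyc_alt b a
  have h4 := cyc_shift_one (fun t => b t * a t)
  have e1 : ψ (fun t => a (t + 1) * b (t + 1 + 1)) = ψ (fun t => a t * b (t + 1)) +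
      mu h lam (a 0 * b (0 + 1))⁻¹ (cyc (fun t => a t * b (t + 1))) := h1
  have e2 : ψ (fun t => b (t + 1) * a (t + 1)) = ψ (fun t => b t * a t) +
      mu h lam (b 0 * a 0)⁻¹ (cyc (fun t => b t * a t)) := h2
  have e4 : cyc (fun t => b (t + 1) * a (t + 1)) =
      (b 0 * a 0)⁻¹ * cyc (fun t => b t * a t) * (b 0 * a 0) := h4
  rw [e1, e2, e4, h3]
  simp only [zero_add]
  set c := cyc (fun t => b t * a t)
  have k1 : mu h lam (b 0 * a 0)⁻¹ c =
      mu h lam (a 0)⁻¹ ((b 0)⁻¹ * c * b 0) + mu h lam (b 0)⁻¹ c := by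
    rw [_root_.mul_inv_rev, mu_mul H, inv_inv]
  have k2 : mu h lam (a 0 * b 1)⁻¹ ((b 0)⁻¹ * c * b 0) =
      mu h lam (b 1)⁻¹ ((b 0 * a 0)⁻¹ * c * (b 0 * a 0)) +
        mu h lam (a 0)⁻¹ ((b 0)⁻¹ * c * b 0) := by
    rw [_root_.mul_inv_rev, mu_mul H]
    congr 2
    group
  rw [k1, k2]
  ring

/-- **Vanishing lemma**: if `B` and `A` are inverse matrices over `ℤ_p[G]` and `h` has finite order
divisible by `p`, then the logarithmic trace at `h` vanishes. -/
theorem Phi_vanish {p : ℕ} [hpf : Fact p.Prime] (B : Matrix m n (MonoidAlgebra ℤ_[p] G))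
    (A : Matrix n m (MonoidAlgebra ℤ_[p] G)) (hBA : B * A = 1) (hAB : A * B = 1) {h : G}
    {lam : G → ℤ} (H : IsCentHom h lam) (hfin : IsOfFinOrder h) (hp : p ∣ orderOf h) :
    Phi (muW h lam) B A = 0 := by
  classical
  have hprime : p.Prime := hpf.out
  have hh1 : ¬ IsConj h 1 := by
    intro hc
    rw [isConj_one_left] at hc
    subst hc
    rw [orderOf_one] at hp
    exact hprime.one_lt.ne' (Nat.dvd_one.1 hp)
  -- the finite set of group elements involved
  let F : Finset G := (Finset.univ.biUnion fun q : m × n => (B q.1 q.2).coeff.support) ∪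
    (Finset.univ.biUnion fun q : n × m => (A q.1 q.2).coeff.support)
  have hB : ∀ i j, (B i j).coeff.support ⊆ F := fun i j g hg =>
    Finset.mem_union_left _ (Finset.mem_biUnion.2 ⟨(i, j), Finset.mem_univ _, hg⟩)
  have hA : ∀ i j, (A i j).coeff.support ⊆ F := fun i j g hg =>
    Finset.mem_union_right _ (Finset.mem_biUnion.2 ⟨(i, j), Finset.mem_univ _, hg⟩)
  have hPhi : Phi (muW h lam) B A = ∑ i, ∑ x : n × F × F, (B i x.1).coeff x.2.1 *
      (A x.1 i).coeff x.2.2 * ((mu h lam (x.2.1 : G)⁻¹ ((x.2.1 : G) * x.2.2) : ℤ) : ℤ_[p]) := by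
    unfold Phi
    refine Finset.sum_congr rfl fun i _ => ?_
    rw [Fintype.sum_prod_type]
    refine Finset.sum_congr rfl fun j _ => ?_
    rw [Fintype.sum_prod_type]
    have hexp : ∀ x : MonoidAlgebra ℤ_[p] G, x.coeff.support ⊆ F →
        x = ∑ g : F, MonoidAlgebra.single (g : G) (x.coeff g) := by
      intro x hx
      have h1 : ∑ g : F, MonoidAlgebra.single (g : G) (x.coeff g) =
          ∑ g ∈ F, MonoidAlgebra.single g (x.coeff g) := by
        rw [← Finset.sum_coe_sort F (fun g => MonoidAlgebra.single g (x.coeff g))]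
      rw [h1]
      have h3 := Finset.sum_subset hx (f := fun g => MonoidAlgebra.single g (x.coeff g))
        (fun g _ hg => by
          rw [Finsupp.notMem_support_iff.1 hg]
          simp)
      rw [← h3]
      exact (MonoidAlgebra.sum_coeff_single x).symm
    have hss : ∀ (x y : F → MonoidAlgebra ℤ_[p] G), phi (muW h lam) (∑ b, x b) (∑ a, y a) =
        ∑ b, ∑ a, phi (muW h lam) (x b) (y a) := by
      intro x y
      rw [map_sum (phi (muW h lam)), AddMonoidHom.finsetSum_apply]
      exact Finset.sum_congr rfl fun b _ => map_sum _ _ _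
    have hgoal : phi (muW h lam) (∑ b : F, MonoidAlgebra.single (b : G) ((B i j).coeff b))
        (∑ a : F, MonoidAlgebra.single (a : G) ((A j i).coeff a)) =
        ∑ b : F, ∑ a : F, (B i j).coeff b * (A j i).coeff a *
          ((mu h lam (b : G)⁻¹ ((b : G) * a) : ℤ) : ℤ_[p]) := by
      rw [hss]
      refine Finset.sum_congr rfl fun b _ => Finset.sum_congr rfl fun a _ => ?_
      rw [phi_single]
      rfl
    rw [← hexp _ (hB i j), ← hexp _ (hA j i)] at hgoal
    exact hgoal
  have main : ∀ j : ℕ, (p : ℤ_[p]) ^ (j + 1) ∣ Phi (muW h lam) B A := by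
    intro j
    -- bound for the p-parts of the orders of the products of `p ^ j` letters
    let γ : (Fin (p ^ j) → F × F) → G :=
      fun v => (List.ofFn fun i => ((v i).1 : G) * ((v i).2 : G)).prod
    let M : ℕ := Finset.univ.sup fun v => (orderOf (γ v)).factorization p
    have : NeZero (p ^ (j + M)) := ⟨pow_ne_zero _ hprime.ne_zero⟩
    obtain ⟨ψ, hψ1, hψ2⟩ := exists_potential (N := p ^ (j + M)) H hfin
    let f : (ZMod (p ^ (j + M)) → m × n × F × F) → ℤ_[p] := fun w =>
      cw B A w * ((wt h lam ψ (fun t => ((w t).2.2.1 : G)) (fun t => ((w t).2.2.2 : G)) : ℤ) : ℤ_[p])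
    have hsum : ∑ w, f w = Phi (muW h lam) B A := by
      have h1 := sum_words_first (N := p ^ (j + M)) B A hB hA hBA
        (fun b c => ((mu h lam b⁻¹ c : ℤ) : ℤ_[p]))
      have h2 := sum_words_B (N := p ^ (j + M)) B A hB hA hBA (fun s => ((ψ s : ℤ) : ℤ_[p]))
        (by rw [hψ2 _ (by rw [cyc_one]; exact hh1)]; simp)
      have h3 := sum_words_A (N := p ^ (j + M)) B A hB hA hAB (fun s => ((ψ s : ℤ) : ℤ_[p]))
        (by rw [hψ2 _ (by rw [cyc_one]; exact hh1)]; simp)
      rw [hPhi, ← h1]
      have h4 : ∀ w : ZMod (p ^ (j + M)) → m × n × F × F, f w =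
          cw B A w * ((mu h lam ((w 0).2.2.1 : G)⁻¹
            (cyc (fun t => ((w t).2.2.1 : G) * ((w t).2.2.2 : G))) : ℤ) : ℤ_[p]) -
          cw B A w * ((ψ (fun t => ((w t).2.2.2 : G) * ((w (t + 1)).2.2.1 : G)) : ℤ) : ℤ_[p]) +
          cw B A w * ((ψ (fun t => ((w t).2.2.1 : G) * ((w t).2.2.2 : G)) : ℤ) : ℤ_[p]) := by
        intro w
        simp only [f, wt]
        push_cast
        ring
      rw [Finset.sum_congr rfl (fun w _ => h4 w), Finset.sum_add_distrib, Finset.sum_sub_distrib,
        h2, h3]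
      ring
    let _ := rotAction (p ^ (j + M)) (m × n × F × F)
    have hinv1 : ∀ w, f (fun t => w (t + 1)) = f w := by
      intro w
      simp only [f]
      have h5 := wt_rot H hψ1 (fun t => ((w t).2.2.1 : G)) (fun t => ((w t).2.2.2 : G))
      rw [cw_rot]
      exact congrArg (fun z : ℤ => cw B A w * (z : ℤ_[p])) h5
    have hinv : ∀ (g : Multiplicative (ZMod (p ^ (j + M)))) w, f (g • w) = f w := by
      intro g w
      change f (fun i => w (i + Multiplicative.toAdd g)) = f w
      obtain ⟨d, hd⟩ : ∃ d : ℕ, (d : ZMod (p ^ (j + M))) = Multiplicative.toAdd g :=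
        ⟨(Multiplicative.toAdd g).val, by simp⟩
      rw [← hd]
      clear hd
      induction d with
      | zero => simp
      | succ d ih =>
        rw [← ih, ← hinv1 (fun i => w (i + d))]
        congr 1
        funext i
        congr 1
        push_cast
        ring
    obtain ⟨S, c, hS1, hS2⟩ := sum_invariant_mod (k := ℤ_[p]) (p := p)
      (α := Multiplicative (ZMod (p ^ (j + M)))) (N := j + M) (by simp)
      (X := ZMod (p ^ (j + M)) → m × n × F × F) f hinv j
    rw [← hsum, hS2, Finset.sum_eq_zero, zero_add]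
    · exact Dvd.intro _ rfl
    intro w hw
    -- the word is periodic of period `p ^ j`
    have h3 := hS1 w hw (Multiplicative.ofAdd (1 : ZMod (p ^ (j + M))))
    have h4 : ∀ i, w (i + ((p ^ j : ℕ) : ZMod (p ^ (j + M)))) = w i := by
      intro i
      have h5 := congrFun h3 i
      have h6 : Multiplicative.toAdd ((Multiplicative.ofAdd (1 : ZMod (p ^ (j + M)))) ^ (p ^ j)) =
          ((p ^ j : ℕ) : ZMod (p ^ (j + M))) := by
        rw [toAdd_pow, toAdd_ofAdd, nsmul_eq_mul, mul_one]
      have h7 : ((Multiplicative.ofAdd (1 : ZMod (p ^ (j + M)))) ^ (p ^ j) • w) i =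
          w (i + Multiplicative.toAdd ((Multiplicative.ofAdd (1 : ZMod (p ^ (j + M)))) ^ (p ^ j))) :=
        rfl
      rw [h7, h6] at h5
      exact h5
    set s : ZMod (p ^ (j + M)) → G := fun t => ((w t).2.2.1 : G) * ((w t).2.2.2 : G) with hs
    have hnc : ¬ IsConj h (cyc s) := by
      intro hconj
      have h5 : cyc s = (pre s (p ^ j)) ^ (p ^ M) := by
        have h6 := pre_periodic s (p ^ j) (fun i => by
          simp only [hs]
          rw [h4]) (p ^ M)
        rw [← pow_add] at h6
        exact h6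
      let v : Fin (p ^ j) → F × F := fun i => (w ((i : ℕ) : ZMod (p ^ (j + M)))).2.2
      have h7 : pre s (p ^ j) = γ v := by
        unfold pre
        simp only [γ]
        rw [List.ofFn_eq_map, ← List.map_coe_finRange_eq_range, List.map_map]
        rfl
      rw [h5, h7] at hconj
      have hm : (orderOf (γ v)).factorization p ≤ M :=
        Finset.le_sup (f := fun v => (orderOf (γ v)).factorization p) (Finset.mem_univ v)
      have h8 : orderOf (γ v ^ p ^ M) = orderOf h := by
        obtain ⟨u, hu⟩ := hconj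
        exact (hu.orderOf_eq (u : G)).symm
      have hfin' : IsOfFinOrder (γ v) := by
        have h9 : IsOfFinOrder (γ v ^ p ^ M) := by
          rw [← orderOf_pos_iff, h8]
          exact orderOf_pos_iff.2 hfin
        exact IsOfFinOrder.of_pow h9 (pow_ne_zero _ hprime.ne_zero)
      have h10 := not_dvd_orderOf_pow hprime (γ v) hfin' M hm
      rw [h8] at h10
      exact h10 hp
    have hwt : wt h lam ψ (fun t => ((w t).2.2.1 : G)) (fun t => ((w t).2.2.2 : G)) = 0 := by
      unfold wt
      rw [mu_of_not hnc, hψ2 _ hnc, hψ2]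
      · rfl
      · rw [cyc_alt (fun t => ((w t).2.2.1 : G)) (fun t => ((w t).2.2.2 : G)), isConj_conj']
        exact hnc
    simp only [f]
    rw [hwt]
    simp
  by_contra hne
  have h1 := main (Phi (muW h lam) B A).valuation
  have h2 := (PadicInt.mem_span_pow_iff_le_valuation _ hne _).1
    (Ideal.mem_span_singleton.2 h1)
  omega

end Main

end Pool.Agent.Lib25

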